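import Mathlib

set_option autoImplicit false
set_option linter.unusedSectionVars false

/-! Derivatives of traces of functions of a moving selfadjoint element. -/

open Polynomial Filter Topology Set

namespace Pool.Agent.H256.KS

section poly

theorem exists_antideriv (q : ℝ[X]) : ∃ p : ℝ[X], derivative p = q ∧ p.eval 0 = 0 := by
  induction q using Polynomial.induction_on' with
  | add p q hp hq =>
    obtain ⟨a, ha, ha0⟩ := hp
    obtain ⟨b, hb, hb0⟩ := hq
    exact ⟨a + b, by rw [derivative_add, ha, hb], by rw [eval_add, ha0, hb0, add_zero]⟩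
  | monomial n a =>
    refine ⟨monomial (n + 1) (a / (n + 1)), ?_, by simp [eval_monomial]⟩
    rw [derivative_monomial]
    simp only [Nat.add_sub_cancel]
    congr 1
    push_cast
    field_simp

end poly

theorem spec_abs_le {𝔸 : Type} [CStarAlgebra 𝔸] {x : 𝔸} {r : ℝ} (hr : r ∈ spectrum ℝ x) :
    |r| ≤ ‖x‖ := by
  rcases subsingleton_or_nontrivial 𝔸 with h | h
  · rw [spectrum.of_subsingleton] at hr
    exact hr.elim
  · exact spectrum.norm_le_norm_of_mem hr

section deriv

variable {𝔸 : Type} [CStarAlgebra 𝔸] (τ : 𝔸 →L[ℂ] ℂ) (hτ : ∀ a b : 𝔸, τ (a * b) = τ (b * a))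

include hτ in
theorem hasDerivAt_pow_tr {x : ℝ → 𝔸} {x' : 𝔸} {t : ℝ} (hx : HasDerivAt x x' t) (n : ℕ) :
    ∃ D : 𝔸, HasDerivAt (fun s => x s ^ n) D t ∧
      ∀ c : 𝔸, c * x t = x t * c → τ (D * c) = (n : ℂ) * τ (x t ^ (n - 1) * c * x') := by
  induction n with
  | zero =>
    refine ⟨0, ?_, fun c _ => by simp⟩
    simp only [pow_zero]
    exact hasDerivAt_const t (1 : 𝔸)
  | succ n ih =>
    obtain ⟨D, hD, h⟩ := ih
    refine ⟨D * x t + x t ^ n * x', ?_, fun c hc => ?_⟩
    · simp only [pow_succ]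
      exact hD.mul hx
    · rw [add_mul, map_add, mul_assoc D, h (x t * c) (by rw [mul_assoc, hc])]
      have e1 : τ (x t ^ n * x' * c) = τ (x t ^ n * c * x') := by
        rw [hτ (x t ^ n * x') c, ← mul_assoc]
        congr 2
        exact (Commute.pow_right (show Commute c (x t) from hc) n)
      rw [e1]
      simp only [Nat.add_sub_cancel]
      rcases Nat.eq_zero_or_pos n with h0 | h0
      · subst h0
        simp
      · have e2 : x t ^ (n - 1) * (x t * c) * x' = x t ^ n * c * x' := by
          rw [← mul_assoc (x t ^ (n - 1)), ← pow_succ, Nat.sub_add_cancel h0]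
        rw [e2]
        push_cast
        ring

include hτ in
theorem hasDerivAt_poly_tr {x : ℝ → 𝔸} {x' : 𝔸} {t : ℝ} (hx : HasDerivAt x x' t) (p : ℝ[X]) :
    HasDerivAt (fun s => τ (aeval (x s) p)) (τ (aeval (x t) (derivative p) * x')) t := by
  induction p using Polynomial.induction_on' with
  | add p q hp hq =>
    have := hp.add hq
    simp only [map_add, add_mul] at this ⊢
    exact this
  | monomial n a =>
    obtain ⟨D, hD, h⟩ := hasDerivAt_pow_tr τ hτ hx n
    have h1 : HasDerivAt (fun s => τ (x s ^ n)) (τ D) t :=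
      (τ.restrictScalars ℝ).hasFDerivAt.comp_hasDerivAt t hD
    have h2 := h1.const_smul a
    have e1 : (fun s => τ (aeval (x s) (monomial n a))) = fun s => a • τ (x s ^ n) := by
      funext s
      rw [aeval_monomial, ← Algebra.smul_def]
      have : a • (x s ^ n) = (a : ℂ) • (x s ^ n) := (Complex.coe_smul a _).symm
      rw [this, map_smul, Complex.coe_smul]
    rw [e1]
    convert! h2 using 1
    have h3 := h 1 (by simp)
    rw [mul_one, mul_one] at h3
    rw [h3, derivative_monomial, aeval_monomial, ← Algebra.smul_def, smul_mul_assoc]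
    have : ∀ (c : ℝ) (z : 𝔸), τ (c • z) = c • τ z := by
      intro c z
      have : c • z = (c : ℂ) • z := (Complex.coe_smul c _).symm
      rw [this, map_smul, Complex.coe_smul]
    rw [this]
    simp only [Complex.real_smul]
    push_cast
    ring

/-- `1 / (1 + t²)` -/
noncomputable def wt (t : ℝ) : ℝ := (1 + t ^ 2)⁻¹

theorem wt_cont : Continuous wt := by
  unfold wt
  refine Continuous.inv₀ (by fun_prop) fun t => ?_
  positivity

theorem exists_arc_poly (L : ℝ) (hL : 0 ≤ L) (ε : ℝ) (hε : 0 < ε) :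
    ∃ p : ℝ[X], (∀ t ∈ Icc (-L) L, |(derivative p).eval t - wt t| ≤ ε) ∧
      ∀ t ∈ Icc (-L) L, |p.eval t - Real.arctan t| ≤ ε * L := by
  obtain ⟨q, hq⟩ := exists_polynomial_near_of_continuousOn (-L) L wt wt_cont.continuousOn ε hε
  obtain ⟨p, hp, hp0⟩ := exists_antideriv q
  refine ⟨p, fun t ht => by rw [hp]; exact (hq t ht).le, fun t ht => ?_⟩
  have h0 : (0 : ℝ) ∈ Icc (-L) L := ⟨by linarith, hL⟩
  have h1 := (convex_Icc (-L) L).norm_image_sub_le_of_norm_hasDerivWithin_le
    (f := fun t => p.eval t - Real.arctan t) (f' := fun t => q.eval t - wt t) (C := ε)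
    (fun s _ => by
      have h2 : HasDerivAt (fun t => p.eval t - Real.arctan t) (q.eval s - wt s) s := by
        have a1 := p.hasDerivAt s
        rw [hp] at a1
        have a2 := Real.hasDerivAt_arctan s
        have a3 := a1.sub a2
        unfold wt
        rw [one_div] at a3
        exact a3
      exact h2.hasDerivWithinAt) (fun s hs => (hq s hs).le) h0 ht
  simp only [hp0, Real.arctan_zero, sub_zero] at h1
  rw [Real.norm_eq_abs, Real.norm_eq_abs] at h1
  refine h1.trans (mul_le_mul_of_nonneg_left ?_ hε.le)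
  exact abs_le.mpr ht

include hτ in
theorem hasDerivAt_arc {x x' : ℝ → 𝔸} (hsa : ∀ t, IsSelfAdjoint (x t))
    (hx : ∀ t, HasDerivAt x (x' t) t) (hx' : Continuous x') (t : ℝ) :
    HasDerivAt (fun s => τ (cfc Real.arctan (x s))) (τ (cfc wt (x t) * x' t)) t := by
  have hxc : Continuous x := continuous_iff_continuousAt.mpr fun s => (hx s).continuousAt
  obtain ⟨L, hL⟩ := (isCompact_Icc (a := t - 1) (b := t + 1)).exists_bound_of_continuousOn
    hxc.continuousOn
  obtain ⟨K, hK⟩ := (isCompact_Icc (a := t - 1) (b := t + 1)).exists_bound_of_continuousOn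
    hx'.continuousOn
  have htI : t ∈ Icc (t - 1) (t + 1) := ⟨by linarith, by linarith⟩
  have hL0 : 0 ≤ L := (norm_nonneg _).trans (hL t htI)
  have hK0 : 0 ≤ K := (norm_nonneg _).trans (hK t htI)
  choose p hp1 hp2 using fun n : ℕ => exists_arc_poly L hL0 (1 / ((n : ℝ) + 1)) (by positivity)
  have hspec : ∀ s ∈ Icc (t - 1) (t + 1), ∀ r ∈ spectrum ℝ (x s), r ∈ Icc (-L) L := by
    intro s hs r hr
    exact abs_le.mp ((spec_abs_le hr).trans (hL s hs))
  have hlim : Tendsto (fun n : ℕ => 1 / ((n : ℝ) + 1)) atTop (𝓝 0) :=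
    tendsto_one_div_add_atTop_nhds_zero_nat
  have hd1 : ∀ n, ∀ s ∈ Icc (t - 1) (t + 1),
      ‖aeval (x s) (derivative (p n)) - cfc wt (x s)‖ ≤ 1 / ((n : ℝ) + 1) := by
    intro n s hs
    rw [← cfc_polynomial (derivative (p n)) (x s) (hsa s),
      ← cfc_sub _ _ (x s) (by fun_prop) wt_cont.continuousOn]
    refine norm_cfc_le (by positivity) fun r hr => ?_
    exact hp1 n r (hspec s hs r hr)
  have hd2 : ∀ n, ∀ s ∈ Icc (t - 1) (t + 1),
      ‖aeval (x s) (p n) - cfc Real.arctan (x s)‖ ≤ 1 / ((n : ℝ) + 1) * L := by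
    intro n s hs
    rw [← cfc_polynomial (p n) (x s) (hsa s),
      ← cfc_sub _ _ (x s) (by fun_prop) Real.continuous_arctan.continuousOn]
    refine norm_cfc_le (by positivity) fun r hr => ?_
    exact hp2 n r (hspec s hs r hr)
  refine hasDerivAt_of_tendstoUniformlyOn (l := atTop) (s := Ioo (t - 1) (t + 1))
    (f := fun n s => τ (aeval (x s) (p n)))
    (f' := fun n s => τ (aeval (x s) (derivative (p n)) * x' s))
    (g := fun s => τ (cfc Real.arctan (x s)))
    (g' := fun s => τ (cfc wt (x s) * x' s)) isOpen_Ioo ?_ ?_ ?_ ⟨by linarith, by linarith⟩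
  · rw [Metric.tendstoUniformlyOn_iff]
    intro ε hε
    have h1 : Tendsto (fun n : ℕ => ‖τ‖ * (1 / ((n : ℝ) + 1) * K)) atTop (𝓝 0) := by
      have := (hlim.mul_const K).const_mul ‖τ‖
      simpa using this
    filter_upwards [h1.eventually (gt_mem_nhds hε)] with n hn s hs
    have hs' := Ioo_subset_Icc_self hs
    rw [dist_comm, dist_eq_norm, ← map_sub, ← sub_mul]
    refine lt_of_le_of_lt ((τ.le_opNorm _).trans ?_) hn
    refine mul_le_mul_of_nonneg_left ((norm_mul_le _ _).trans ?_) (norm_nonneg _)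
    exact mul_le_mul (hd1 n s hs') (hK s hs') (norm_nonneg _) (by positivity)
  · exact Eventually.of_forall fun n s _ => hasDerivAt_poly_tr τ hτ (hx s) (p n)
  · intro s hs
    have hs' := Ioo_subset_Icc_self hs
    rw [tendsto_iff_norm_sub_tendsto_zero]
    have h1 : Tendsto (fun n : ℕ => ‖τ‖ * (1 / ((n : ℝ) + 1) * L)) atTop (𝓝 0) := by
      have := (hlim.mul_const L).const_mul ‖τ‖
      simpa using this
    refine squeeze_zero (fun _ => norm_nonneg _) (fun n => ?_) h1
    rw [← map_sub]
    exact (τ.le_opNorm _).trans (mul_le_mul_of_nonneg_left (hd2 n s hs') (norm_nonneg _))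

end deriv

end Pool.Agent.H256.KS
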