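import Mathlib
import Pool.Graph.R_pool_sql_team_seeded_ab47071d.TH254.CC.Vn

set_option autoImplicit false
set_option linter.unusedSectionVars false

/-! The crossed product `L^∞(X, μ) ⋊ Γ`, acting on `ℓ²(Γ, L²(X, μ))`. -/

open MeasureTheory
open scoped InnerProductSpace ComplexOrder ENNReal

namespace Pool.Agent.H256.KS

open Pool.Agent.TH254.CC

variable {X : Type} [MeasurableSpace X]

/-- `ℓ²(Γ, L²(X, μ))` -/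
abbrev Kr (μ : Measure X) (Γ : Type) : Type := lp (fun _ : Γ => Lp ℂ 2 μ) 2

/-- `T` is the operator `(T ξ) h x = f (h • x) * ξ h x` -/
def IsMul (μ : Measure X) {Γ : Type} [Group Γ] [MulAction Γ X] (f : X → ℂ)
    (T : Kr μ Γ →L[ℂ] Kr μ Γ) : Prop :=
  ∀ (ξ : Kr μ Γ) (h : Γ), ((T ξ : ∀ _ : Γ, Lp ℂ 2 μ) h : X → ℂ) =ᵐ[μ]
    fun x => f (h • x) * ((ξ : ∀ _ : Γ, Lp ℂ 2 μ) h : X → ℂ) x

/-- the copy of `L^∞(X, μ)` -/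
def Linf (μ : Measure X) (Γ : Type) [Group Γ] [MulAction Γ X] : Set (Kr μ Γ →L[ℂ] Kr μ Γ) :=
  {T | ∃ f : X → ℂ, Measurable f ∧ (∃ C : ℝ, ∀ x, ‖f x‖ ≤ C) ∧ IsMul μ f T}

/-- `T` is the operator `(T ξ) h = ξ (g⁻¹ * h)` -/
def IsShift (μ : Measure X) {Γ : Type} [Group Γ] (g : Γ) (T : Kr μ Γ →L[ℂ] Kr μ Γ) : Prop :=
  ∀ (ξ : Kr μ Γ) (h : Γ), (T ξ : ∀ _ : Γ, Lp ℂ 2 μ) h = (ξ : ∀ _ : Γ, Lp ℂ 2 μ) (g⁻¹ * h)

/-- the copy of `Γ` -/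
def Shifts (μ : Measure X) (Γ : Type) [Group Γ] : Set (Kr μ Γ →L[ℂ] Kr μ Γ) :=
  {T | ∃ g : Γ, IsShift μ g T}

/-- the crossed product -/
noncomputable def crossP (μ : Measure X) (Γ : Type) [Group Γ] [MulAction Γ X] :
    VonNeumannAlgebra (Kr μ Γ) := dcV (Linf μ Γ ∪ Shifts μ Γ)

end Pool.Agent.H256.KS
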