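import Mathlib
import Pool.Agent.H256.KS.CrossD

set_option autoImplicit false
set_option linter.unusedSectionVars false
set_option linter.deprecated false
set_option linter.unusedVariables false

/-! Basic facts on the crossed product.

`Linf`, `Shifts`, `crossP` are in `CrossD.lean`, `dcV`, `cenV` in `TH254/CC/Vn.lean`. -/

open MeasureTheory
open scoped InnerProductSpace ComplexOrder ENNReal

namespace Pool.Agent.H256.KS

open Pool.Agent.TH254.CC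

variable {X : Type} [MeasurableSpace X] (μ : Measure X) (Γ : Type) [Group Γ] [MulAction Γ X]

theorem cr_two_toReal_pos : 0 < (2 : ℝ≥0∞).toReal := by norm_num

theorem cr_ext {ζ η : Kr μ Γ}
    (h : ∀ k : Γ, (ζ : ∀ _ : Γ, Lp ℂ 2 μ) k = (η : ∀ _ : Γ, Lp ℂ 2 μ) k) : ζ = η := by
  apply lp.ext
  funext k
  exact h k

theorem cr_norm_le {ζ η : Kr μ Γ} {c : ℝ} (hc : 0 ≤ c)
    (h : ∀ k : Γ, ‖(η : ∀ _ : Γ, Lp ℂ 2 μ) k‖ ≤ c * ‖(ζ : ∀ _ : Γ, Lp ℂ 2 μ) k‖) :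
    ‖η‖ ≤ c * ‖ζ‖ := by
  have h0 : ‖η‖ ≤ ‖(c : ℂ) • ζ‖ := by
    refine lp.norm_mono (by norm_num) fun k => ?_
    have : ‖(((c : ℂ) • ζ : Kr μ Γ) : ∀ _ : Γ, Lp ℂ 2 μ) k‖ =
        c * ‖(ζ : ∀ _ : Γ, Lp ℂ 2 μ) k‖ := by
      rw [lp.coeFn_smul, Pi.smul_apply, norm_smul, Complex.norm_real, Real.norm_of_nonneg hc]
    rw [this]
    exact h k
  rwa [norm_smul, Complex.norm_real, Real.norm_of_nonneg hc] at h0

/-- diagonal operators -/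
theorem cr_exists_diag (x : Γ → (Lp ℂ 2 μ →L[ℂ] Lp ℂ 2 μ)) (C : ℝ) (hC : 0 ≤ C)
    (hx : ∀ k v, ‖x k v‖ ≤ C * ‖v‖) :
    ∃ y : Kr μ Γ →L[ℂ] Kr μ Γ, ∀ (ζ : Kr μ Γ) (k : Γ),
      (y ζ : ∀ _ : Γ, Lp ℂ 2 μ) k = x k ((ζ : ∀ _ : Γ, Lp ℂ 2 μ) k) := by
  have hmem : ∀ ζ : Kr μ Γ, Memℓp (fun k : Γ => x k ((ζ : ∀ _ : Γ, Lp ℂ 2 μ) k)) 2 := by
    intro ζ
    have h0 : Summable fun k => ‖(ζ : ∀ _ : Γ, Lp ℂ 2 μ) k‖ ^ (2 : ℝ≥0∞).toReal :=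
      (lp.memℓp ζ).summable cr_two_toReal_pos
    refine memℓp_gen ?_
    refine Summable.of_nonneg_of_le (fun k => by positivity) (fun k => ?_)
      (h0.mul_left (C ^ (2 : ℝ≥0∞).toReal))
    rw [← Real.mul_rpow hC (norm_nonneg _)]
    exact Real.rpow_le_rpow (norm_nonneg _) (hx _ _) cr_two_toReal_pos.le
  let L : Kr μ Γ →ₗ[ℂ] Kr μ Γ :=
    { toFun := fun ζ => ⟨fun k => x k ((ζ : ∀ _ : Γ, Lp ℂ 2 μ) k), hmem ζ⟩
      map_add' := by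
        intro a b
        apply cr_ext
        intro k
        exact map_add (x k) _ _
      map_smul' := by
        intro c a
        apply cr_ext
        intro k
        exact map_smul (x k) _ _ }
  refine ⟨L.mkContinuous C fun ζ => ?_, fun ζ k => rfl⟩
  exact cr_norm_le μ Γ hC fun k => hx k _

/-- multiplication operators on `L²` -/
theorem cr_exists_mulL (f : X → ℂ) (hf : Measurable f) (C : ℝ) (hC : ∀ x, ‖f x‖ ≤ C) :
    ∃ y : Lp ℂ 2 μ →L[ℂ] Lp ℂ 2 μ, (∀ v : Lp ℂ 2 μ, (y v : X → ℂ) =ᵐ[μ]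
      fun x => f x * (v : X → ℂ) x) ∧ ∀ v, ‖y v‖ ≤ |C| * ‖v‖ := by
  have hmem : ∀ v : Lp ℂ 2 μ, MemLp (fun x => f x * (v : X → ℂ) x) 2 μ := by
    intro v
    refine MemLp.of_le_mul (g := (v : X → ℂ)) (c := C) (Lp.memLp v) ?_ ?_
    · exact hf.aestronglyMeasurable.mul (Lp.aestronglyMeasurable v)
    · refine Filter.Eventually.of_forall fun x => ?_
      rw [norm_mul]
      exact mul_le_mul_of_nonneg_right (hC x) (norm_nonneg _)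
  have hcoe : ∀ v : Lp ℂ 2 μ, ((hmem v).toLp _ : X → ℂ) =ᵐ[μ] fun x => f x * (v : X → ℂ) x :=
    fun v => MemLp.coeFn_toLp (hmem v)
  have hbd : ∀ v : Lp ℂ 2 μ, ‖(hmem v).toLp _‖ ≤ |C| * ‖v‖ := by
    intro v
    apply Lp.norm_le_mul_norm_of_ae_le_mul
    filter_upwards [hcoe v] with x hx
    rw [hx, norm_mul]
    exact mul_le_mul_of_nonneg_right ((hC x).trans (le_abs_self C)) (norm_nonneg _)
  let L : Lp ℂ 2 μ →ₗ[ℂ] Lp ℂ 2 μ :=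
    { toFun := fun v => (hmem v).toLp _
      map_add' := by
        intro a b
        apply Lp.ext
        filter_upwards [hcoe (a + b), hcoe a, hcoe b, Lp.coeFn_add a b,
          Lp.coeFn_add ((hmem a).toLp _) ((hmem b).toLp _)] with x h1 h2 h3 h4 h5
        rw [h1, h4, h5, Pi.add_apply, Pi.add_apply, h2, h3, mul_add]
      map_smul' := by
        intro c a
        apply Lp.ext
        filter_upwards [hcoe (c • a), hcoe a, Lp.coeFn_smul c a,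
          Lp.coeFn_smul c ((hmem a).toLp _)] with x h1 h2 h3 h4
        rw [h1, h3, RingHom.id_apply, h4, Pi.smul_apply, Pi.smul_apply, h2, smul_eq_mul,
          smul_eq_mul]
        ring }
  exact ⟨L.mkContinuous |C| hbd, fun v => hcoe v, hbd⟩

/-- multiplication operators exist -/
theorem exists_mul (hm : ∀ g : Γ, Measurable fun x : X => g • x) (f : X → ℂ) (hf : Measurable f)
    (hb : ∃ C : ℝ, ∀ x, ‖f x‖ ≤ C) : ∃ T : Kr μ Γ →L[ℂ] Kr μ Γ, IsMul μ f T := by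
  obtain ⟨C, hC⟩ := hb
  have h1 : ∀ h : Γ, ∃ y : Lp ℂ 2 μ →L[ℂ] Lp ℂ 2 μ, (∀ v : Lp ℂ 2 μ, (y v : X → ℂ) =ᵐ[μ]
      fun x => f (h • x) * (v : X → ℂ) x) ∧ ∀ v, ‖y v‖ ≤ |C| * ‖v‖ := fun h =>
    cr_exists_mulL μ (fun x => f (h • x)) (hf.comp (hm h)) C fun x => hC _
  choose y hy1 hy2 using h1
  obtain ⟨T, hT⟩ := cr_exists_diag μ Γ y |C| (abs_nonneg C) hy2
  refine ⟨T, fun ξ h => ?_⟩
  rw [hT]
  exact hy1 h _

theorem cr_shift_norm (g : Γ) {ξ η : Kr μ Γ} (h : ∀ k : Γ, (η : ∀ _ : Γ, Lp ℂ 2 μ) k =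
    (ξ : ∀ _ : Γ, Lp ℂ 2 μ) (g⁻¹ * k)) : ‖η‖ = ‖ξ‖ := by
  have h1 := lp.norm_rpow_eq_tsum cr_two_toReal_pos η
  have h2 := lp.norm_rpow_eq_tsum cr_two_toReal_pos ξ
  have h3 : ∑' k : Γ, ‖(η : ∀ _ : Γ, Lp ℂ 2 μ) k‖ ^ (2 : ℝ≥0∞).toReal =
      ∑' k : Γ, ‖(ξ : ∀ _ : Γ, Lp ℂ 2 μ) k‖ ^ (2 : ℝ≥0∞).toReal := by
    rw [← (Equiv.mulLeft g⁻¹).tsum_eq fun k => ‖(ξ : ∀ _ : Γ, Lp ℂ 2 μ) k‖ ^ (2 : ℝ≥0∞).toReal]
    refine tsum_congr fun k => ?_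
    rw [h k]
    rfl
  rw [h3, ← h2] at h1
  exact (Real.rpow_left_inj (norm_nonneg _) (norm_nonneg _) cr_two_toReal_pos.ne').mp h1

theorem exists_shift (g : Γ) : ∃ T : Kr μ Γ →L[ℂ] Kr μ Γ, IsShift μ g T := by
  have hmem : ∀ ζ : Kr μ Γ, Memℓp (fun k : Γ => (ζ : ∀ _ : Γ, Lp ℂ 2 μ) (g⁻¹ * k)) 2 := by
    intro ζ
    have h0 : Summable fun k => ‖(ζ : ∀ _ : Γ, Lp ℂ 2 μ) k‖ ^ (2 : ℝ≥0∞).toReal :=
      (lp.memℓp ζ).summable cr_two_toReal_pos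
    refine memℓp_gen ?_
    exact h0.comp_injective (mul_right_injective g⁻¹)
  let L : Kr μ Γ →ₗ[ℂ] Kr μ Γ :=
    { toFun := fun ζ => ⟨fun k => (ζ : ∀ _ : Γ, Lp ℂ 2 μ) (g⁻¹ * k), hmem ζ⟩
      map_add' := by
        intro a b
        apply cr_ext
        intro k
        rfl
      map_smul' := by
        intro c a
        apply cr_ext
        intro k
        rfl }
  refine ⟨L.mkContinuous 1 fun ζ => ?_, fun ζ k => rfl⟩
  rw [one_mul]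
  exact (cr_shift_norm μ Γ g fun k => rfl).le

theorem shift_unique {g : Γ} {S T : Kr μ Γ →L[ℂ] Kr μ Γ} (hS : IsShift μ g S)
    (hT : IsShift μ g T) : S = T := by
  ext1 ξ
  apply cr_ext
  intro k
  rw [hS, hT]

/-- the shifts are unitary, and multiplicative -/
theorem shift_star {g : Γ} {T : Kr μ Γ →L[ℂ] Kr μ Γ} (hT : IsShift μ g T) :
    IsShift μ g⁻¹ (star T) ∧ star T * T = 1 ∧ T * star T = 1 := by
  obtain ⟨S, hS⟩ := exists_shift μ Γ g⁻¹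
  have hST : S = star T := by
    rw [ContinuousLinearMap.star_eq_adjoint, ContinuousLinearMap.eq_adjoint_iff]
    intro ζ η
    rw [lp.inner_eq_tsum, lp.inner_eq_tsum,
      ← (Equiv.mulLeft g⁻¹).tsum_eq fun k => ⟪(S ζ : ∀ _ : Γ, Lp ℂ 2 μ) k,
        (η : ∀ _ : Γ, Lp ℂ 2 μ) k⟫_ℂ]
    refine tsum_congr fun k => ?_
    rw [hT, hS, Equiv.coe_mulLeft, inv_inv, mul_inv_cancel_left]
  rw [← hST]
  refine ⟨hS, ?_, ?_⟩
  · ext1 ξ
    apply cr_ext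
    intro k
    rw [ContinuousLinearMap.mul_apply, hS, hT, inv_inv, inv_mul_cancel_left]
    rfl
  · ext1 ξ
    apply cr_ext
    intro k
    rw [ContinuousLinearMap.mul_apply, hT, hS, inv_inv, mul_inv_cancel_left]
    rfl

theorem shift_mul {g h : Γ} {S T : Kr μ Γ →L[ℂ] Kr μ Γ} (hS : IsShift μ g S)
    (hT : IsShift μ h T) : IsShift μ (g * h) (S * T) := by
  intro ξ k
  rw [ContinuousLinearMap.mul_apply, hS, hT, mul_inv_rev, mul_assoc]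

theorem Linf_star (hm : ∀ g : Γ, Measurable fun x : X => g • x) :
    ∀ a ∈ Linf μ Γ, star a ∈ Linf μ Γ := by
  rintro T ⟨f, hf, ⟨C, hC⟩, hT⟩
  have hf2 : Measurable fun x => star (f x) := Complex.continuous_conj.measurable.comp hf
  have hb2 : ∀ x, ‖star (f x)‖ ≤ C := fun x => by rw [norm_star]; exact hC x
  obtain ⟨S, hS⟩ := exists_mul μ Γ hm (fun x => star (f x)) hf2 ⟨C, hb2⟩
  have hST : S = star T := by
    rw [ContinuousLinearMap.star_eq_adjoint, ContinuousLinearMap.eq_adjoint_iff]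
    intro ζ η
    rw [lp.inner_eq_tsum, lp.inner_eq_tsum]
    refine tsum_congr fun k => ?_
    rw [L2.inner_def, L2.inner_def]
    apply integral_congr_ae
    filter_upwards [hS ζ k, hT η k] with x h1 h2
    rw [h1, h2]
    simp only [RCLike.inner_apply, map_mul]
    simp
    ring
  rw [← hST]
  exact ⟨_, hf2, ⟨C, hb2⟩, hS⟩

theorem Linf_comm : ∀ a ∈ Linf μ Γ, ∀ b ∈ Linf μ Γ, a * b = b * a := by
  rintro S ⟨f, -, -, hS⟩ T ⟨f', -, -, hT⟩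
  ext1 ξ
  apply cr_ext
  intro k
  apply Lp.ext
  rw [ContinuousLinearMap.mul_apply, ContinuousLinearMap.mul_apply]
  filter_upwards [hS ξ k, hT ξ k, hS (T ξ) k, hT (S ξ) k] with x h1 h2 h3 h4
  rw [h3, h4, h1, h2]
  ring

/-- covariance: `T π(f) T⋆ = π(f (g⁻¹ • ·))` -/
theorem Linf_conj (hm : ∀ g : Γ, Measurable fun x : X => g • x) {g : Γ}
    {T : Kr μ Γ →L[ℂ] Kr μ Γ} (hT : IsShift μ g T) :
    ∀ a ∈ Linf μ Γ, T * a * star T ∈ Linf μ Γ := by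
  rintro a ⟨f, hf, ⟨C, hC⟩, ha⟩
  refine ⟨fun x => f (g⁻¹ • x), hf.comp (hm g⁻¹), ⟨C, fun x => hC _⟩, ?_⟩
  intro ξ k
  have hS := (shift_star μ Γ hT).1
  have e : ((T * a * star T) ξ : ∀ _ : Γ, Lp ℂ 2 μ) k =
      (a (star T ξ) : ∀ _ : Γ, Lp ℂ 2 μ) (g⁻¹ * k) := by
    rw [ContinuousLinearMap.mul_apply, ContinuousLinearMap.mul_apply, hT]
  rw [e]
  have h2 : (star T ξ : ∀ _ : Γ, Lp ℂ 2 μ) (g⁻¹ * k) = (ξ : ∀ _ : Γ, Lp ℂ 2 μ) k := by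
    rw [hS, inv_inv, mul_inv_cancel_left]
  filter_upwards [ha (star T ξ) (g⁻¹ * k)] with x h1
  rw [h1, h2, mul_smul]

/-- (`a` is diagonal, `T` moves the support) -/
theorem Linf_free (hm : ∀ g : Γ, MeasurePreserving (fun x : X => g • x) μ μ) {g : Γ} (hg : g ≠ 1)
    {T : Kr μ Γ →L[ℂ] Kr μ Γ} (hT : IsShift μ g T) :
    ∀ a ∈ Linf μ Γ, T * a ∈ Linf μ Γ → a = 0 := by
  classical
  rintro a ⟨f, -, -, ha⟩ ⟨f', -, -, hTa⟩
  ext1 ξ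
  apply cr_ext
  intro k
  -- the vector supported at `k`
  set v : Lp ℂ 2 μ := (ξ : ∀ _ : Γ, Lp ℂ 2 μ) k with hv
  set ζ : Kr μ Γ := lp.single 2 k v with hζ
  have h1 : (ζ : ∀ _ : Γ, Lp ℂ 2 μ) k = v := by rw [hζ, lp.single_apply_self]
  have hne : g * k ≠ k := by
    intro h
    exact hg (mul_eq_right.mp h)
  have h2 : (ζ : ∀ _ : Γ, Lp ℂ 2 μ) (g * k) = 0 := by
    rw [hζ, lp.single_apply_ne _ _ _ hne]
  have h3 : ((T * a) ζ : ∀ _ : Γ, Lp ℂ 2 μ) (g * k) = (a ζ : ∀ _ : Γ, Lp ℂ 2 μ) k := by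
    rw [ContinuousLinearMap.mul_apply, hT, inv_mul_cancel_left]
  have h4 : (a ζ : ∀ _ : Γ, Lp ℂ 2 μ) k = 0 := by
    rw [← h3]
    apply Lp.ext
    filter_upwards [hTa ζ (g * k), Lp.coeFn_zero ℂ 2 μ] with x h5 h6
    rw [h5, h2, h6]
    simp
  have h7 : (a ξ : ∀ _ : Γ, Lp ℂ 2 μ) k = (a ζ : ∀ _ : Γ, Lp ℂ 2 μ) k := by
    apply Lp.ext
    filter_upwards [ha ξ k, ha ζ k] with x h8 h9
    rw [h8, h9, h1]
  rw [h7, h4]
  rfl

theorem mem_cross : (∀ a ∈ Linf μ Γ, (∀ g : Γ, Measurable fun x : X => g • x) →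
    a ∈ crossP μ Γ) ∧ ∀ a ∈ Shifts μ Γ, (∀ g : Γ, Measurable fun x : X => g • x) →
    a ∈ crossP μ Γ := by
  have hs : (∀ g : Γ, Measurable fun x : X => g • x) →
      ∀ a ∈ Linf μ Γ ∪ Shifts μ Γ, star a ∈ Linf μ Γ ∪ Shifts μ Γ := by
    intro hm a ha
    rcases ha with ha | ⟨g, hg⟩
    · exact Or.inl (Linf_star μ Γ hm a ha)
    · exact Or.inr ⟨g⁻¹, (shift_star μ Γ hg).1⟩
  exact ⟨fun a ha hm => subset_dcV (hs hm) a (Or.inl ha),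
    fun a ha hm => subset_dcV (hs hm) a (Or.inr ha)⟩

/-- the canonical vector `δ₁ ⊗ 1` -/
theorem exists_unitVec [IsProbabilityMeasure μ] : ∃ ζ : Kr μ Γ,
    ((ζ : ∀ _ : Γ, Lp ℂ 2 μ) 1 : X → ℂ) =ᵐ[μ] (fun _ => 1) ∧
      ∀ h : Γ, h ≠ 1 → (ζ : ∀ _ : Γ, Lp ℂ 2 μ) h = 0 := by
  classical
  have hmem : MemLp (fun _ : X => (1 : ℂ)) 2 μ := memLp_const 1
  refine ⟨lp.single 2 1 (hmem.toLp _), ?_, ?_⟩
  · rw [lp.single_apply_self]
    exact MemLp.coeFn_toLp hmem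
  · intro h hh
    rw [lp.single_apply_ne _ _ _ hh]

end Pool.Agent.H256.KS
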