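import Mathlib
import Pool.Agent.H256.KS.Cross1

set_option autoImplicit false
set_option linter.unusedSectionVars false

open MeasureTheory
open scoped InnerProductSpace ComplexOrder ENNReal
/-! Density and trace property for the canonical vector of the crossed product. -/


namespace Pool.Agent.H256.KS

open Pool.Agent.TH254.CC

variable {X : Type} [MeasurableSpace X] (μ : Measure X) (Γ : Type) [Group Γ] [MulAction Γ X]

/-- diagonal operators composed with a permutation of the index set -/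
theorem c2_fam (A : Lp ℂ 2 μ →L[ℂ] Lp ℂ 2 μ) (σ : Γ ≃ Γ) :
    ∃ T : Kr μ Γ →L[ℂ] Kr μ Γ, ∀ (ξ : Kr μ Γ) (h : Γ),
      (T ξ : ∀ _ : Γ, Lp ℂ 2 μ) h = A ((ξ : ∀ _ : Γ, Lp ℂ 2 μ) (σ h)) := by
  have hsum : ∀ ξ : Kr μ Γ, HasSum (fun h : Γ => ‖(ξ : ∀ _ : Γ, Lp ℂ 2 μ) (σ h)‖ ^ 2)
      (‖ξ‖ ^ 2) := by
    intro ξ
    have h1 := lp.hasSum_norm (p := 2) (by norm_num) ξ
    have h2 : HasSum (fun h : Γ => ‖(ξ : ∀ _ : Γ, Lp ℂ 2 μ) h‖ ^ 2) (‖ξ‖ ^ 2) := by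
      simpa using h1
    exact (Equiv.hasSum_iff σ (f := fun h : Γ => ‖(ξ : ∀ _ : Γ, Lp ℂ 2 μ) h‖ ^ 2)).mpr h2
  have hle : ∀ (ξ : Kr μ Γ) (h : Γ), ‖A ((ξ : ∀ _ : Γ, Lp ℂ 2 μ) (σ h))‖ ^ 2 ≤
      ‖A‖ ^ 2 * ‖(ξ : ∀ _ : Γ, Lp ℂ 2 μ) (σ h)‖ ^ 2 := by
    intro ξ h
    rw [← mul_pow]
    exact pow_le_pow_left₀ (norm_nonneg _) (A.le_opNorm _) 2
  have hS : ∀ ξ : Kr μ Γ, Summable (fun h : Γ => ‖A ((ξ : ∀ _ : Γ, Lp ℂ 2 μ) (σ h))‖ ^ 2) :=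
    fun ξ => Summable.of_nonneg_of_le (fun h => by positivity) (hle ξ)
      ((hsum ξ).summable.mul_left _)
  have hmem : ∀ ξ : Kr μ Γ, Memℓp (fun h : Γ => A ((ξ : ∀ _ : Γ, Lp ℂ 2 μ) (σ h))) 2 := by
    intro ξ
    refine memℓp_gen ?_
    simpa using hS ξ
  let L : Kr μ Γ →ₗ[ℂ] Kr μ Γ :=
    { toFun := fun ξ => ⟨fun h : Γ => A ((ξ : ∀ _ : Γ, Lp ℂ 2 μ) (σ h)), hmem ξ⟩
      map_add' := by
        intro ξ η
        ext1
        funext h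
        change A (((ξ + η : Kr μ Γ) : ∀ _ : Γ, Lp ℂ 2 μ) (σ h)) = _
        rw [lp.coeFn_add, Pi.add_apply, map_add]
        rfl
      map_smul' := by
        intro c ξ
        ext1
        funext h
        change A (((c • ξ : Kr μ Γ) : ∀ _ : Γ, Lp ℂ 2 μ) (σ h)) = _
        rw [lp.coeFn_smul, Pi.smul_apply, map_smul]
        rfl }
  refine ⟨L.mkContinuous ‖A‖ ?_, ?_⟩
  · intro ξ
    have h1 : HasSum (fun h : Γ => ‖(L ξ : ∀ _ : Γ, Lp ℂ 2 μ) h‖ ^ 2) (‖L ξ‖ ^ 2) := by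
      simpa using lp.hasSum_norm (p := 2) (by norm_num) (L ξ)
    have h2 : ‖L ξ‖ ^ 2 ≤ ‖A‖ ^ 2 * ‖ξ‖ ^ 2 :=
      hasSum_le (fun h => hle ξ h) h1 ((hsum ξ).mul_left _)
    rw [← mul_pow] at h2
    exact le_of_sq_le_sq h2 (by positivity)
  · intro ξ h
    rfl

/-- multiplication by a bounded measurable function -/
theorem c2_mul (f : X → ℂ) (hf : Measurable f) (hb : ∃ C : ℝ, ∀ x, ‖f x‖ ≤ C) :
    ∃ A : Lp ℂ 2 μ →L[ℂ] Lp ℂ 2 μ, ∀ u : Lp ℂ 2 μ,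
      (A u : X → ℂ) =ᵐ[μ] fun x => f x * (u : X → ℂ) x := by
  obtain ⟨C, hC⟩ := hb
  have hmem : ∀ u : Lp ℂ 2 μ, MemLp (fun x => f x * (u : X → ℂ) x) 2 μ := by
    intro u
    refine (Lp.memLp u).of_le_mul (c := C)
      (hf.aestronglyMeasurable.mul (Lp.aestronglyMeasurable u)) ?_
    refine Filter.Eventually.of_forall fun x => ?_
    rw [norm_mul]
    exact mul_le_mul_of_nonneg_right (hC x) (norm_nonneg _)
  let L : Lp ℂ 2 μ →ₗ[ℂ] Lp ℂ 2 μ :=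
    { toFun := fun u => (hmem u).toLp _
      map_add' := by
        intro u v
        apply Lp.ext
        refine ((hmem (u + v)).coeFn_toLp).trans ?_
        refine Filter.EventuallyEq.trans ?_ (Lp.coeFn_add _ _).symm
        filter_upwards [Lp.coeFn_add u v, (hmem u).coeFn_toLp, (hmem v).coeFn_toLp] with x h1 h2 h3
        rw [h1, Pi.add_apply, Pi.add_apply, h2, h3, mul_add]
      map_smul' := by
        intro c u
        apply Lp.ext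
        refine ((hmem (c • u)).coeFn_toLp).trans ?_
        refine Filter.EventuallyEq.trans ?_ (Lp.coeFn_smul _ _).symm
        filter_upwards [Lp.coeFn_smul c u, (hmem u).coeFn_toLp] with x h1 h2
        rw [h1, Pi.smul_apply, Pi.smul_apply, RingHom.id_apply, h2, smul_eq_mul, smul_eq_mul]
        ring }
  refine ⟨L.mkContinuous C ?_, ?_⟩
  · intro u
    refine Lp.norm_le_mul_norm_of_ae_le_mul ?_
    filter_upwards [(hmem u).coeFn_toLp] with x h1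
    change ‖((hmem u).toLp _ : X → ℂ) x‖ ≤ _
    rw [h1, norm_mul]
    exact mul_le_mul_of_nonneg_right (hC x) (norm_nonneg _)
  · intro u
    exact (hmem u).coeFn_toLp

/-- composition with a measure preserving map -/
theorem c2_comp {p : X → X} (hp : MeasurePreserving p μ μ) :
    ∃ A : Lp ℂ 2 μ →L[ℂ] Lp ℂ 2 μ, ∀ u : Lp ℂ 2 μ,
      (A u : X → ℂ) =ᵐ[μ] fun x => (u : X → ℂ) (p x) :=
  ⟨(Lp.compMeasurePreservingₗᵢ ℂ p hp).toContinuousLinearMap,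
    fun u => Lp.coeFn_compMeasurePreserving u hp⟩

section

variable {μ Γ}

theorem c2_inner [IsProbabilityMeasure μ]
    {ζ : Kr μ Γ} (hζ : ((ζ : ∀ _ : Γ, Lp ℂ 2 μ) 1 : X → ℂ) =ᵐ[μ] (fun _ => 1))
    (hζ' : ∀ h : Γ, h ≠ 1 → (ζ : ∀ _ : Γ, Lp ℂ 2 μ) h = 0) (w : Kr μ Γ) :
    ⟪ζ, w⟫_ℂ = ∫ x, ((w : ∀ _ : Γ, Lp ℂ 2 μ) 1 : X → ℂ) x ∂μ := by
  rw [lp.inner_eq_tsum, tsum_eq_single (1 : Γ)]
  · rw [L2.inner_def]
    refine integral_congr_ae ?_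
    filter_upwards [hζ] with x hx
    rw [hx]
    simp
  · intro h hh
    rw [hζ' h hh, inner_zero_left]

theorem c2_norm [IsProbabilityMeasure μ]
    {ζ : Kr μ Γ} (hζ : ((ζ : ∀ _ : Γ, Lp ℂ 2 μ) 1 : X → ℂ) =ᵐ[μ] (fun _ => 1))
    (hζ' : ∀ h : Γ, h ≠ 1 → (ζ : ∀ _ : Γ, Lp ℂ 2 μ) h = 0) : ‖ζ‖ = 1 := by
  have h1 := c2_inner hζ hζ' ζ
  have h2 : ∫ x, ((ζ : ∀ _ : Γ, Lp ℂ 2 μ) 1 : X → ℂ) x ∂μ = 1 := by
    rw [integral_congr_ae hζ]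
    simp
  rw [h2, inner_self_eq_norm_sq_to_K] at h1
  have h3 : ‖ζ‖ ^ 2 = 1 := by
    have h4 : ((‖ζ‖ ^ 2 : ℝ) : ℂ) = ((1 : ℝ) : ℂ) := by
      rw [Complex.ofReal_pow, Complex.ofReal_one]
      exact h1
    exact Complex.ofReal_injective h4
  have h5 := norm_nonneg ζ
  nlinarith

/-- the vector `a T ζ` -/
theorem c2_vec {ζ : Kr μ Γ}
    (hζ : ((ζ : ∀ _ : Γ, Lp ℂ 2 μ) 1 : X → ℂ) =ᵐ[μ] (fun _ => 1))
    (hζ' : ∀ h : Γ, h ≠ 1 → (ζ : ∀ _ : Γ, Lp ℂ 2 μ) h = 0) {f : X → ℂ} {a T : Kr μ Γ →L[ℂ] Kr μ Γ}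
    (ha : IsMul μ f a) {g : Γ} (hT : IsShift μ g T) :
    (((a * T) ζ : ∀ _ : Γ, Lp ℂ 2 μ) g : X → ℂ) =ᵐ[μ] (fun x => f (g • x)) ∧
      ∀ h, h ≠ g → ((a * T) ζ : ∀ _ : Γ, Lp ℂ 2 μ) h = 0 := by
  constructor
  · refine (ha (T ζ) g).trans ?_
    have h1 : (T ζ : ∀ _ : Γ, Lp ℂ 2 μ) g = (ζ : ∀ _ : Γ, Lp ℂ 2 μ) 1 := by
      rw [hT ζ g, inv_mul_cancel]
    rw [h1]
    filter_upwards [hζ] with x hx
    rw [hx, mul_one]
  · intro h hh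
    apply Lp.ext
    refine (ha (T ζ) h).trans ?_
    have h1 : (T ζ : ∀ _ : Γ, Lp ℂ 2 μ) h = 0 := by
      rw [hT ζ h]
      refine hζ' _ fun h2 => hh ?_
      rw [inv_mul_eq_one] at h2
      exact h2.symm
    rw [h1]
    filter_upwards [Lp.coeFn_zero ℂ 2 μ] with x hx
    rw [hx]
    simp

theorem c2_int {p : X → X} (hp : MeasurePreserving p μ μ) {φ : X → ℂ}
    (hφ : AEStronglyMeasurable φ μ) : ∫ x, φ (p x) ∂μ = ∫ x, φ x ∂μ := by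
  have h2 := hp.map_eq
  have h3 : AEStronglyMeasurable φ (Measure.map p μ) := by rw [h2]; exact hφ
  rw [← integral_map hp.measurable.aemeasurable h3, h2]

/-- the commutant partner of `a T` -/
theorem c2_partner [IsProbabilityMeasure μ]
    (hm : ∀ g : Γ, MeasurePreserving (fun x : X => g • x) μ μ)
    {ζ : Kr μ Γ} (hζ : ((ζ : ∀ _ : Γ, Lp ℂ 2 μ) 1 : X → ℂ) =ᵐ[μ] (fun _ => 1))
    (hζ' : ∀ h : Γ, h ≠ 1 → (ζ : ∀ _ : Γ, Lp ℂ 2 μ) h = 0) {a T : Kr μ Γ →L[ℂ] Kr μ Γ}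
    (ha : a ∈ Linf μ Γ) (hT : T ∈ Shifts μ Γ) :
    ∃ y : Kr μ Γ →L[ℂ] Kr μ Γ, (∀ b ∈ Linf μ Γ ∪ Shifts μ Γ, b * y = y * b) ∧
      y ζ = (a * T) ζ ∧ ∀ v : Kr μ Γ, ⟪ζ, y v⟫_ℂ = ⟪ζ, (a * T) v⟫_ℂ := by
  obtain ⟨f, hf, hb, ha⟩ := ha
  obtain ⟨g, hT⟩ := hT
  obtain ⟨M, hM⟩ := c2_mul μ f hf hb
  obtain ⟨U, hU⟩ := c2_comp μ (hm g)
  obtain ⟨y, hy⟩ := c2_fam μ Γ (U * M) (Equiv.mulRight g⁻¹)
  have hUM : ∀ u : Lp ℂ 2 μ, ((U * M) u : X → ℂ) =ᵐ[μ]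
      fun x => f (g • x) * (u : X → ℂ) (g • x) := by
    intro u
    refine (hU (M u)).trans ?_
    exact (hm g).quasiMeasurePreserving.ae_eq_comp (hM u)
  have hy' : ∀ (ξ : Kr μ Γ) (h : Γ), ((y ξ : ∀ _ : Γ, Lp ℂ 2 μ) h : X → ℂ) =ᵐ[μ]
      fun x => f (g • x) * ((ξ : ∀ _ : Γ, Lp ℂ 2 μ) (h * g⁻¹) : X → ℂ) (g • x) := by
    intro ξ h
    rw [hy ξ h]
    exact hUM _
  refine ⟨y, ?_, ?_, ?_⟩
  · rintro b (⟨k, hk, -, hb⟩ | ⟨k, hb⟩)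
    · ext1 ξ
      ext1
      funext h
      apply Lp.ext
      refine (hb (y ξ) h).trans ?_
      refine Filter.EventuallyEq.trans ?_ (hy' (b ξ) h).symm
      have h1 := (hm g).quasiMeasurePreserving.ae_eq_comp (hb ξ (h * g⁻¹))
      filter_upwards [hy' ξ h, h1] with x h2 h3
      rw [h2]
      have h4 : (((b ξ : ∀ _ : Γ, Lp ℂ 2 μ) (h * g⁻¹)) : X → ℂ) (g • x) =
        k ((h * g⁻¹) • g • x) * ((ξ : ∀ _ : Γ, Lp ℂ 2 μ) (h * g⁻¹) : X → ℂ) (g • x) := h3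
      rw [h4, smul_smul, inv_mul_cancel_right]
      ring
    · ext1 ξ
      ext1
      funext h
      change (b (y ξ) : ∀ _ : Γ, Lp ℂ 2 μ) h = (y (b ξ) : ∀ _ : Γ, Lp ℂ 2 μ) h
      rw [hb (y ξ) h, hy ξ, hy (b ξ)]
      change _ = (U * M) ((b ξ : ∀ _ : Γ, Lp ℂ 2 μ) (h * g⁻¹))
      rw [hb ξ (h * g⁻¹), ← mul_assoc]
      rfl
  · obtain ⟨h1, h2⟩ := c2_vec hζ hζ' ha hT
    ext1
    funext h
    by_cases hh : h = g
    · subst hh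
      apply Lp.ext
      refine (hy' ζ h).trans ?_
      refine Filter.EventuallyEq.trans ?_ h1.symm
      rw [mul_inv_cancel]
      have h3 := (hm h).quasiMeasurePreserving.ae_eq_comp hζ
      filter_upwards [h3] with x h4
      have h5 : ((ζ : ∀ _ : Γ, Lp ℂ 2 μ) 1 : X → ℂ) (h • x) = 1 := h4
      rw [h5, mul_one]
    · rw [h2 h hh, hy ζ h]
      have h3 : (ζ : ∀ _ : Γ, Lp ℂ 2 μ) (Equiv.mulRight g⁻¹ h) = 0 := by
        refine hζ' _ fun h4 => hh ?_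
        exact mul_inv_eq_one.mp h4
      rw [h3, map_zero]
  · intro v
    rw [c2_inner hζ hζ', c2_inner hζ hζ', integral_congr_ae (hy' v 1)]
    have h1 : (((a * T) v : ∀ _ : Γ, Lp ℂ 2 μ) 1 : X → ℂ) =ᵐ[μ]
        fun x => f x * ((v : ∀ _ : Γ, Lp ℂ 2 μ) g⁻¹ : X → ℂ) x := by
      refine (ha (T v) 1).trans ?_
      rw [hT v 1, mul_one]
      simp
    rw [integral_congr_ae h1, one_mul]
    exact c2_int (hm g) (hf.aestronglyMeasurable.mul (Lp.aestronglyMeasurable _))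

end

theorem cross_dens [IsProbabilityMeasure μ] (hm : ∀ g : Γ, MeasurePreserving (fun x : X => g • x) μ μ)
    {ζ : Kr μ Γ} (hζ : ((ζ : ∀ _ : Γ, Lp ℂ 2 μ) 1 : X → ℂ) =ᵐ[μ] (fun _ => 1))
    (hζ' : ∀ h : Γ, h ≠ 1 → (ζ : ∀ _ : Γ, Lp ℂ 2 μ) h = 0) :
    ∀ v : Kr μ Γ, v ∈ (Submodule.span ℂ {w : Kr μ Γ | ∃ a ∈ Linf μ Γ, ∃ T ∈ Shifts μ Γ,
      w = (a * T) ζ}).topologicalClosure := by
  classical
  set V := (Submodule.span ℂ {w : Kr μ Γ | ∃ a ∈ Linf μ Γ, ∃ T ∈ Shifts μ Γ,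
      w = (a * T) ζ}).topologicalClosure with hV
  have hcl : IsClosed (V : Set (Kr μ Γ)) := Submodule.isClosed_topologicalClosure _
  have hsingle : ∀ (g : Γ) (u : Lp ℂ 2 μ),
      (lp.single (E := fun _ : Γ => Lp ℂ 2 μ) 2 g u : Kr μ Γ) ∈ V := by
    intro g
    refine Lp.induction (by norm_num) _ ?_ ?_ ?_
    · intro c s hs hμs
      have hgs : Measurable (fun x : X => g⁻¹ • x) := (hm g⁻¹).measurable
      have hf : Measurable ((fun x : X => (s.indicator (fun _ => c) (g⁻¹ • x) : ℂ))) :=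
        (measurable_const.indicator hs).comp hgs
      have hb : ∃ C : ℝ, ∀ x, ‖(s.indicator (fun _ => c) (g⁻¹ • x) : ℂ)‖ ≤ C := by
        refine ⟨‖c‖, fun x => ?_⟩
        exact norm_indicator_le_norm_self _ _
      obtain ⟨a, ha⟩ := exists_mul μ Γ (fun g => (hm g).measurable) _ hf hb
      obtain ⟨T, hT⟩ := exists_shift μ Γ g
      obtain ⟨h1, h2⟩ := c2_vec hζ hζ' ha hT
      have h3 : (lp.single (E := fun _ : Γ => Lp ℂ 2 μ) 2 g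
          ((Lp.simpleFunc.indicatorConst 2 hs hμs.ne c : Lp.simpleFunc ℂ 2 μ) : Lp ℂ 2 μ) :
          Kr μ Γ) = (a * T) ζ := by
        ext1
        funext h
        by_cases hh : h = g
        · subst hh
          rw [lp.single_apply_self]
          apply Lp.ext
          refine Filter.EventuallyEq.trans ?_ h1.symm
          rw [Lp.simpleFunc.coe_indicatorConst]
          refine (indicatorConstLp_coeFn).trans ?_
          refine Filter.Eventually.of_forall fun x => ?_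
          simp only [inv_smul_smul]
        · rw [lp.single_apply_ne _ _ _ hh, h2 h hh]
      rw [h3]
      exact Submodule.le_topologicalClosure _ (Submodule.subset_span ⟨a, ⟨_, hf, hb, ha⟩, T,
        ⟨g, hT⟩, rfl⟩)
    · intro f k hf hk _ h1 h2
      rw [lp.single_add]
      exact add_mem h1 h2
    · exact hcl.preimage (lp.isometry_single (E := fun _ : Γ => Lp ℂ 2 μ) (p := 2) g).continuous
  intro v
  have h1 := lp.hasSum_single (E := fun _ : Γ => Lp ℂ 2 μ) (p := 2) (by norm_num) v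
  exact hcl.mem_of_tendsto h1 (Filter.Eventually.of_forall fun s =>
    sum_mem fun i _ => hsingle i _)

theorem cross_tr [IsProbabilityMeasure μ] (hm : ∀ g : Γ, MeasurePreserving (fun x : X => g • x) μ μ)
    {ζ : Kr μ Γ} (hζ : ((ζ : ∀ _ : Γ, Lp ℂ 2 μ) 1 : X → ℂ) =ᵐ[μ] (fun _ => 1))
    (hζ' : ∀ h : Γ, h ≠ 1 → (ζ : ∀ _ : Γ, Lp ℂ 2 μ) h = 0) :
    ‖ζ‖ = 1 ∧ ∀ x ∈ crossP μ Γ, ∀ y ∈ crossP μ Γ, ⟪ζ, (x * y) ζ⟫_ℂ = ⟪ζ, (y * x) ζ⟫_ℂ := by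
  classical
  refine ⟨c2_norm hζ hζ', ?_⟩
  have hmm : ∀ g : Γ, Measurable fun x : X => g • x := fun g => (hm g).measurable
  have hstar : ∀ a ∈ Linf μ Γ ∪ Shifts μ Γ, star a ∈ Linf μ Γ ∪ Shifts μ Γ := by
    rintro a (ha | ⟨g, ha⟩)
    · exact Or.inl (Linf_star μ Γ hmm a ha)
    · exact Or.inr ⟨g⁻¹, (shift_star μ Γ ha).1⟩
  -- the span of the generators
  set G : Submodule ℂ (Kr μ Γ →L[ℂ] Kr μ Γ) :=
    Submodule.span ℂ {w | ∃ a ∈ Linf μ Γ, ∃ T ∈ Shifts μ Γ, w = a * T} with hG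
  have hGc : ∀ z ∈ G, z ∈ crossP μ Γ := by
    intro z hz
    have h1 : G ≤ Submodule.span ℂ (crossP μ Γ : Set (Kr μ Γ →L[ℂ] Kr μ Γ)) := by
      refine Submodule.span_mono ?_
      rintro w ⟨a, ha, T, hT, rfl⟩
      exact mul_mem ((mem_cross μ Γ).1 a ha hmm) ((mem_cross μ Γ).2 T hT hmm)
    refine Submodule.span_induction (p := fun w _ => w ∈ crossP μ Γ) (fun w hw => hw)
      (zero_mem _) (fun _ _ _ _ h1 h2 => add_mem h1 h2) (fun c _ _ h1 => vn_smul _ c h1) (h1 hz)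
  -- first step
  have hfirst : ∀ z ∈ G, ∀ x ∈ crossP μ Γ, ⟪ζ, (x * z) ζ⟫_ℂ = ⟪ζ, (z * x) ζ⟫_ℂ := by
    intro z hz x hx
    refine Submodule.span_induction (p := fun w _ => ⟪ζ, (x * w) ζ⟫_ℂ = ⟪ζ, (w * x) ζ⟫_ℂ)
      ?_ ?_ ?_ ?_ hz
    · rintro w ⟨a, ha, T, hT, rfl⟩
      obtain ⟨y, hy1, hy2, hy3⟩ := c2_partner hm hζ hζ' ha hT
      have h1 : y * x = x * y := mem_dcV.mp hx y ((mem_cenV hstar).mpr hy1)
      calc ⟪ζ, (x * (a * T)) ζ⟫_ℂ = ⟪ζ, x ((a * T) ζ)⟫_ℂ := rfl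
        _ = ⟪ζ, (x * y) ζ⟫_ℂ := by rw [← hy2]; rfl
        _ = ⟪ζ, (y * x) ζ⟫_ℂ := by rw [h1]
        _ = ⟪ζ, y (x ζ)⟫_ℂ := rfl
        _ = ⟪ζ, (a * T) (x ζ)⟫_ℂ := hy3 _
        _ = ⟪ζ, ((a * T) * x) ζ⟫_ℂ := rfl
    · rw [mul_zero, zero_mul]
    · intro u v _ _ h1 h2
      rw [mul_add, add_mul, add_apply, add_apply,
        inner_add_right, inner_add_right, h1, h2]
    · intro c u _ h1
      rw [mul_smul_comm, smul_mul_assoc, smul_apply,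
        smul_apply, inner_smul_right, inner_smul_right, h1]
  have hadj : ∀ (x y : Kr μ Γ →L[ℂ] Kr μ Γ), ⟪ζ, (x * y) ζ⟫_ℂ = ⟪(star x) ζ, y ζ⟫_ℂ := by
    intro x y
    rw [ContinuousLinearMap.star_eq_adjoint, ContinuousLinearMap.adjoint_inner_left]
    rfl
  -- density
  have hdens : ∀ v : Kr μ Γ, v ∈ closure ((fun z : Kr μ Γ →L[ℂ] Kr μ Γ => z ζ) '' (G : Set _)) := by
    intro v
    have h1 := cross_dens μ Γ hm hζ hζ' v
    have h2 : Submodule.span ℂ {w : Kr μ Γ | ∃ a ∈ Linf μ Γ, ∃ T ∈ Shifts μ Γ,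
        w = (a * T) ζ} ≤ G.map ((ContinuousLinearMap.apply ℂ (Kr μ Γ) ζ).toLinearMap :
          (Kr μ Γ →L[ℂ] Kr μ Γ) →ₗ[ℂ] Kr μ Γ) := by
      rw [Submodule.span_le]
      rintro w ⟨a, ha, T, hT, rfl⟩
      exact ⟨a * T, Submodule.subset_span ⟨a, ha, T, hT, rfl⟩, rfl⟩
    have h3 := closure_mono (s := ((Submodule.span ℂ {w : Kr μ Γ | ∃ a ∈ Linf μ Γ,
      ∃ T ∈ Shifts μ Γ, w = (a * T) ζ} : Submodule ℂ (Kr μ Γ)) : Set (Kr μ Γ)))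
      (t := ((fun z : Kr μ Γ →L[ℂ] Kr μ Γ => z ζ) '' (G : Set _))) (by
        intro w hw
        obtain ⟨z, hz, rfl⟩ := h2 hw
        exact ⟨z, hz, rfl⟩)
    exact h3 h1
  have hnorm : ∀ z ∈ G, ‖(star z) ζ‖ = ‖z ζ‖ := by
    intro z hz
    have h1 := hfirst z hz (star z) (star_mem (hGc z hz))
    rw [hadj, hadj, star_star] at h1
    rw [inner_self_eq_norm_sq_to_K, inner_self_eq_norm_sq_to_K] at h1
    have h2 : ((‖z ζ‖ ^ 2 : ℝ) : ℂ) = ((‖(star z) ζ‖ ^ 2 : ℝ) : ℂ) := by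
      push_cast
      exact h1
    have h3 := Complex.ofReal_injective h2
    have h4 := norm_nonneg (z ζ)
    have h5 := norm_nonneg ((star z) ζ)
    exact ((pow_left_inj₀ h4 h5 two_ne_zero).mp h3).symm
  intro x hx y hy
  obtain ⟨u, hu, hux⟩ := mem_closure_iff_seq_limit.mp (hdens (x ζ))
  choose z hz hzu using hu
  have hzx : Filter.Tendsto (fun n => (z n) ζ) Filter.atTop (nhds (x ζ)) := by
    refine hux.congr fun n => (hzu n).symm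
  have hcau : CauchySeq fun n => (star (z n)) ζ := by
    have h1 := hzx.cauchySeq
    rw [Metric.cauchySeq_iff] at h1 ⊢
    intro ε hε
    obtain ⟨N, hN⟩ := h1 ε hε
    refine ⟨N, fun m hm' n hn => ?_⟩
    have h2 := hN m hm' n hn
    rw [dist_eq_norm] at h2 ⊢
    have h3 := hnorm (z m - z n) (sub_mem (hz m) (hz n))
    rw [star_sub, sub_apply, sub_apply] at h3
    rw [h3]
    exact h2
  obtain ⟨p, hp⟩ := cauchySeq_tendsto_of_complete hcau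
  have hlim : ∀ w ∈ crossP μ Γ, ⟪p, w ζ⟫_ℂ = ⟪(star w) ζ, x ζ⟫_ℂ := by
    intro w hw
    have h1 : Filter.Tendsto (fun n => ⟪(star (z n)) ζ, w ζ⟫_ℂ) Filter.atTop
        (nhds ⟪p, w ζ⟫_ℂ) := hp.inner tendsto_const_nhds
    have h2 : Filter.Tendsto (fun n => ⟪(star w) ζ, (z n) ζ⟫_ℂ) Filter.atTop
        (nhds ⟪(star w) ζ, x ζ⟫_ℂ) := tendsto_const_nhds.inner hzx
    refine tendsto_nhds_unique h1 (h2.congr fun n => ?_)
    rw [← hadj, ← hadj]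
    exact (hfirst (z n) (hz n) w hw)
  have hpx : p = (star x) ζ := by
    have h1 : ∀ v ∈ closure ((fun z : Kr μ Γ →L[ℂ] Kr μ Γ => z ζ) '' (G : Set _)),
        ⟪p, v⟫_ℂ = ⟪(star x) ζ, v⟫_ℂ := by
      intro v hv
      refine closure_minimal (s := (fun z : Kr μ Γ →L[ℂ] Kr μ Γ => z ζ) '' (G : Set _))
        (t := {v : Kr μ Γ | ⟪p, v⟫_ℂ = ⟪(star x) ζ, v⟫_ℂ}) ?_ ?_ hv
      · rintro _ ⟨w, hw, rfl⟩
        change ⟪p, w ζ⟫_ℂ = ⟪(star x) ζ, w ζ⟫_ℂ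
        rw [hlim w (hGc w hw), ← hadj, ← hadj]
        exact (hfirst w hw x hx).symm
      · exact isClosed_eq (continuous_const.inner continuous_id)
          (continuous_const.inner continuous_id)
    exact ext_inner_right ℂ fun v => h1 v (hdens v)
  rw [hadj, ← hpx, hlim y hy, ← hadj]

end Pool.Agent.H256.KS
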