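import Mathlib
import Pool.Graph.R_pool_sql_team_seeded_ab47071d.TH254.CC.Core

set_option autoImplicit false
set_option linter.unusedSectionVars false
set_option linter.deprecated false
set_option linter.unusedVariables false

/-! The amplification `M ⊗ 1` on `ℓ²(ℕ, H)`. -/

open scoped InnerProductSpace ComplexOrder ENNReal

namespace Pool.Agent.H256.KS

open Pool.Agent.TH254.CC H759R2.Kad

variable {H : Type} [NormedAddCommGroup H] [InnerProductSpace ℂ H] [CompleteSpace H]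

/-- `ℓ²(ℕ, H)` -/
abbrev H2 (H : Type) [NormedAddCommGroup H] [InnerProductSpace ℂ H] : Type :=
  lp (fun _ : ℕ => H) 2

theorem two_toReal_pos : 0 < (2 : ℝ≥0∞).toReal := by norm_num

theorem memlp_map (x : H →L[ℂ] H) (ζ : H2 H) :
    Memℓp (fun k => x ((ζ : ∀ _ : ℕ, H) k)) 2 := by
  have h0 : Summable fun k => ‖(ζ : ∀ _ : ℕ, H) k‖ ^ (2 : ℝ≥0∞).toReal :=
    (lp.memℓp ζ).summable two_toReal_pos
  refine memℓp_gen ?_
  refine Summable.of_nonneg_of_le (fun k => by positivity) (fun k => ?_)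
    (h0.mul_left (‖x‖ ^ (2 : ℝ≥0∞).toReal))
  rw [← Real.mul_rpow (norm_nonneg _) (norm_nonneg _)]
  exact Real.rpow_le_rpow (norm_nonneg _) (x.le_opNorm _) two_toReal_pos.le

theorem norm_le_of_coord {ζ η : H2 H} {c : ℝ} (hc : 0 ≤ c)
    (h : ∀ k, ‖(η : ∀ _ : ℕ, H) k‖ ≤ c * ‖(ζ : ∀ _ : ℕ, H) k‖) : ‖η‖ ≤ c * ‖ζ‖ := by
  have h0 : ‖η‖ ≤ ‖(c : ℂ) • ζ‖ := by
    refine lp.norm_mono (by norm_num) fun k => ?_
    have : ‖(((c : ℂ) • ζ : H2 H) : ∀ _ : ℕ, H) k‖ = c * ‖(ζ : ∀ _ : ℕ, H) k‖ := by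
      rw [lp.coeFn_smul, Pi.smul_apply, norm_smul, Complex.norm_real, Real.norm_of_nonneg hc]
    rw [this]
    exact h k
  rwa [norm_smul, Complex.norm_real, Real.norm_of_nonneg hc] at h0

/-- `x ⊗ 1`, existence -/
theorem exists_am (x : H →L[ℂ] H) :
    ∃ y : H2 H →L[ℂ] H2 H, ∀ (ζ : H2 H) (k : ℕ),
      (y ζ : ∀ _ : ℕ, H) k = x ((ζ : ∀ _ : ℕ, H) k) := by
  let L : H2 H →ₗ[ℂ] H2 H :=
    { toFun := fun ζ => ⟨fun k => x ((ζ : ∀ _ : ℕ, H) k), memlp_map x ζ⟩
      map_add' := by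
        intro a b
        ext k
        exact map_add x _ _
      map_smul' := by
        intro c a
        ext k
        exact map_smul x _ _ }
  refine ⟨L.mkContinuous ‖x‖ fun ζ => ?_, fun ζ k => rfl⟩
  exact norm_le_of_coord (norm_nonneg _) fun k => x.le_opNorm _

/-- `x ⊗ 1` -/
noncomputable def am (x : H →L[ℂ] H) : H2 H →L[ℂ] H2 H := (exists_am x).choose

theorem am_apply (x : H →L[ℂ] H) (ζ : H2 H) (k : ℕ) :
    (am x ζ : ∀ _ : ℕ, H) k = x ((ζ : ∀ _ : ℕ, H) k) := (exists_am x).choose_spec ζ k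

theorem am_one : am (1 : H →L[ℂ] H) = 1 := by
  ext ζ k
  rw [am_apply]
  rfl

theorem am_mul (x y : H →L[ℂ] H) : am (x * y) = am x * am y := by
  ext ζ k
  rw [am_apply, ContinuousLinearMap.mul_apply, ContinuousLinearMap.mul_apply, am_apply, am_apply]

theorem am_add (x y : H →L[ℂ] H) : am (x + y) = am x + am y := by
  ext ζ k
  rw [am_apply, ContinuousLinearMap.add_apply, ContinuousLinearMap.add_apply, lp.coeFn_add,
    Pi.add_apply, am_apply, am_apply]

theorem am_smul (c : ℂ) (x : H →L[ℂ] H) : am (c • x) = c • am x := by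
  ext ζ k
  rw [am_apply, ContinuousLinearMap.smul_apply, ContinuousLinearMap.smul_apply, lp.coeFn_smul,
    Pi.smul_apply, am_apply]

theorem am_sub (x y : H →L[ℂ] H) : am (x - y) = am x - am y := by
  have h := am_smul (-1 : ℂ) y
  rw [sub_eq_add_neg, am_add, sub_eq_add_neg, show -y = (-1 : ℂ) • y by simp, h]
  simp

theorem am_star (x : H →L[ℂ] H) : am (star x) = star (am x) := by
  rw [ContinuousLinearMap.star_eq_adjoint (am x), ContinuousLinearMap.eq_adjoint_iff]
  intro ζ η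
  rw [lp.inner_eq_tsum, lp.inner_eq_tsum]
  refine tsum_congr fun k => ?_
  rw [am_apply, am_apply, ContinuousLinearMap.star_eq_adjoint,
    ContinuousLinearMap.adjoint_inner_left]

/-- the `k`-th embedding -/
noncomputable def sg (k : ℕ) : H →L[ℂ] H2 H :=
  lp.singleContinuousLinearMap ℂ (fun _ : ℕ => H) 2 k

/-- the `k`-th coordinate -/
noncomputable def co (k : ℕ) : H2 H →L[ℂ] H := lp.evalCLM ℂ (fun _ : ℕ => H) 2 k

theorem co_apply (k : ℕ) (ζ : H2 H) : co k ζ = (ζ : ∀ _ : ℕ, H) k := rfl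

theorem co_sg_self (k : ℕ) (v : H) : co k (sg k v) = v := by
  rw [co_apply, sg, lp.singleContinuousLinearMap_apply, lp.single_apply_self]

theorem co_sg_ne {k l : ℕ} (h : k ≠ l) (v : H) : co k (sg l v) = 0 := by
  rw [co_apply, sg, lp.singleContinuousLinearMap_apply, lp.single_apply_ne _ _ _ h]

theorem norm_sg (k : ℕ) (v : H) : ‖sg k v‖ = ‖v‖ := by
  rw [sg, lp.singleContinuousLinearMap_apply, lp.norm_single (by norm_num)]

theorem co_ext {ζ η : H2 H} (h : ∀ k, co k ζ = co k η) : ζ = η := by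
  ext k
  exact h k

theorem op_ext {s t : H2 H →L[ℂ] H2 H} (h : ∀ (l : ℕ) (v : H) (k : ℕ), co k (s (sg l v)) =
    co k (t (sg l v))) : s = t := by
  refine lp.ext_continuousLinearMap (by norm_num) fun l => ?_
  ext1 v
  exact co_ext fun k => h l v k

theorem co_am (x : H →L[ℂ] H) (k : ℕ) (ζ : H2 H) : co k (am x ζ) = x (co k ζ) := am_apply x ζ k

theorem am_sg (x : H →L[ℂ] H) (k : ℕ) (v : H) : am x (sg k v) = sg k (x v) := by
  refine co_ext fun l => ?_
  rw [co_am]
  by_cases h : l = k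
  · subst h
    rw [co_sg_self, co_sg_self]
  · rw [co_sg_ne h, co_sg_ne h, map_zero]

theorem am_injective : Function.Injective (am (H := H)) := by
  intro x y h
  ext v
  have h1 := congrArg (fun t : H2 H →L[ℂ] H2 H => co 0 (t (sg 0 v))) h
  simp only [co_am, co_sg_self] at h1
  exact h1

theorem norm_am (x : H →L[ℂ] H) : ‖am x‖ ≤ ‖x‖ := by
  refine ContinuousLinearMap.opNorm_le_bound _ (norm_nonneg _) fun ζ => ?_
  refine norm_le_of_coord (norm_nonneg _) fun k => ?_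
  rw [am_apply]
  exact x.le_opNorm _

theorem le_norm_am (x : H →L[ℂ] H) : ‖x‖ ≤ ‖am x‖ := by
  refine ContinuousLinearMap.opNorm_le_bound _ (norm_nonneg _) fun v => ?_
  have h1 := (am x).le_opNorm (sg 0 v)
  rwa [am_sg, norm_sg, norm_sg] at h1

/-- the von Neumann algebra `M ⊗ 1` -/
noncomputable def amV (M : VonNeumannAlgebra H) : VonNeumannAlgebra (H2 H) :=
  dcV {y | ∃ x ∈ M, y = am x}

theorem am_star_closed (M : VonNeumannAlgebra H) :
    ∀ a ∈ {y : H2 H →L[ℂ] H2 H | ∃ x ∈ M, y = am x}, star a ∈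
      {y : H2 H →L[ℂ] H2 H | ∃ x ∈ M, y = am x} := by
  rintro a ⟨x, hx, rfl⟩
  exact ⟨star x, star_mem hx, (am_star x).symm⟩

/-- matrix entries -/
noncomputable def en (t : H2 H →L[ℂ] H2 H) (k l : ℕ) : H →L[ℂ] H := (co k).comp (t.comp (sg l))

theorem en_apply (t : H2 H →L[ℂ] H2 H) (k l : ℕ) (v : H) : en t k l v = co k (t (sg l v)) := rfl

theorem en_am_mul (x : H →L[ℂ] H) (t : H2 H →L[ℂ] H2 H) (k l : ℕ) :
    en (am x * t) k l = x * en t k l := by
  ext v
  rw [en_apply, ContinuousLinearMap.mul_apply, ContinuousLinearMap.mul_apply, co_am, en_apply]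

theorem en_mul_am (x : H →L[ℂ] H) (t : H2 H →L[ℂ] H2 H) (k l : ℕ) :
    en (t * am x) k l = en t k l * x := by
  ext v
  rw [en_apply, ContinuousLinearMap.mul_apply, ContinuousLinearMap.mul_apply, am_sg, en_apply]

theorem en_ext {s t : H2 H →L[ℂ] H2 H} (h : ∀ k l, en s k l = en t k l) : s = t := by
  refine op_ext fun l v k => ?_
  rw [← en_apply, ← en_apply, h]

theorem comm_am_iff (x : H →L[ℂ] H) (t : H2 H →L[ℂ] H2 H) :
    am x * t = t * am x ↔ ∀ k l, x * en t k l = en t k l * x := by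
  constructor
  · intro h k l
    rw [← en_am_mul, ← en_mul_am, h]
  · intro h
    refine en_ext fun k l => ?_
    rw [en_am_mul, en_mul_am, h]

theorem mem_amV (M : VonNeumannAlgebra H) (y : H2 H →L[ℂ] H2 H) :
    y ∈ amV M ↔ ∃ x ∈ M, y = am x := by
  constructor
  · intro hy
    have hc := mem_dcV.mp hy
    -- matrix units commute with `am x`
    have h1 : ∀ k : ℕ, (sg k).comp (co 0) ∈
        cenV {y : H2 H →L[ℂ] H2 H | ∃ x ∈ M, y = am x} := by
      intro k
      rw [mem_cenV (am_star_closed M)]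
      rintro a ⟨x, hx, rfl⟩
      ext1 ζ
      rw [ContinuousLinearMap.mul_apply, ContinuousLinearMap.mul_apply]
      show am x (sg k (co 0 ζ)) = sg k (co 0 (am x ζ))
      rw [am_sg, co_am]
    have h2 : ∀ (k : ℕ) (v : H), y (sg k v) = sg k (en y 0 0 v) := by
      intro k v
      have h3 := congrArg (fun t : H2 H →L[ℂ] H2 H => t (sg 0 v)) (hc _ (h1 k))
      have h4 : sg k (co 0 (y (sg 0 v))) = y (sg k (co 0 (sg 0 v))) := h3
      rw [co_sg_self] at h4
      rw [← h4]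
      rfl
    have h5 : y = am (en y 0 0) := by
      refine op_ext fun l v k => ?_
      rw [h2, am_sg]
    refine ⟨en y 0 0, ?_, h5⟩
    refine mem_of_comm_commutant M fun t ht => ?_
    have h6 : am t ∈ cenV {y : H2 H →L[ℂ] H2 H | ∃ x ∈ M, y = am x} := by
      rw [mem_cenV (am_star_closed M)]
      rintro a ⟨x, hx, rfl⟩
      rw [← am_mul, ← am_mul, VonNeumannAlgebra.mem_commutant_iff.mp ht x hx]
    have h7 := hc _ h6
    rw [h5, ← am_mul, ← am_mul] at h7
    exact am_injective h7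
  · rintro ⟨x, hx, rfl⟩
    exact subset_dcV (am_star_closed M) _ ⟨x, hx, rfl⟩

/-- a generating set of `M` gives a generating set of `M ⊗ 1` (matrix entries
`coordinate k ∘ t ∘ single l` of `t` commute with `S`) -/
theorem amV_gen (M : VonNeumannAlgebra H) (S : Set (H →L[ℂ] H)) (hS : ∀ a ∈ S, star a ∈ S)
    (hM : ∀ x : H →L[ℂ] H, (∀ a ∈ S, a * x = x * a) → x ∈ M.commutant)
    (t : H2 H →L[ℂ] H2 H) (ht : ∀ a ∈ S, am a * t = t * am a) : t ∈ (amV M).commutant := by
  rw [VonNeumannAlgebra.mem_commutant_iff]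
  intro y hy
  obtain ⟨x, hx, rfl⟩ := (mem_amV M y).mp hy
  rw [comm_am_iff]
  intro k l
  have h1 : en t k l ∈ M.commutant := hM _ fun a ha => (comm_am_iff a t).mp (ht a ha) k l
  exact VonNeumannAlgebra.mem_commutant_iff.mp h1 x hx

/-- the trace vector -/
theorem exists_vec (ξ : ℕ → H) (hs : Summable fun k => ‖ξ k‖ ^ 2) :
    ∃ η : H2 H, ∀ x : H →L[ℂ] H, ⟪η, am x η⟫_ℂ = tr ξ x := by
  have hm : Memℓp (fun k => ξ k) 2 := by
    refine memℓp_gen ?_
    refine hs.congr fun k => ?_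
    rw [show (2 : ℝ≥0∞).toReal = ((2 : ℕ) : ℝ) by norm_num, Real.rpow_natCast]
  refine ⟨⟨fun k => ξ k, hm⟩, fun x => ?_⟩
  rw [lp.inner_eq_tsum, Pool.Agent.TH254.CC.tr]
  refine tsum_congr fun k => ?_
  rw [am_apply]

theorem tr_sing2 (η : H2 H) (y : H2 H →L[ℂ] H2 H) :
    tr (fun k => if k = 0 then η else 0) y = ⟪η, y η⟫_ℂ := by
  rw [Pool.Agent.TH254.CC.tr, tsum_eq_single 0]
  · simp
  · intro k hk
    simp [hk]

theorem amV_Fn (M : VonNeumannAlgebra H) (ξ : ℕ → H) (hM : Fn M ξ) (η : H2 H)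
    (hη : ∀ x : H →L[ℂ] H, ⟪η, am x η⟫_ℂ = tr ξ x) :
    Fn (amV M) (fun k => if k = 0 then η else 0) where
  fac := by
    intro z hz hc
    obtain ⟨x, hx, rfl⟩ := (mem_amV M z).mp hz
    obtain ⟨c, hc'⟩ := hM.fac x hx fun a ha => by
      have h1 := hc (am a) ((mem_amV M _).mpr ⟨a, ha, rfl⟩)
      rw [← am_mul, ← am_mul] at h1
      exact am_injective h1
    refine ⟨c, ?_⟩
    rw [hc', am_smul, am_one]
  inf := by
    intro hf
    apply hM.inf
    let L : M.toStarSubalgebra →ₗ[ℂ] (amV M).toStarSubalgebra :=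
      { toFun := fun x => ⟨am (x : H →L[ℂ] H), (mem_amV M _).mpr ⟨_, x.2, rfl⟩⟩
        map_add' := fun a b => Subtype.ext (am_add _ _)
        map_smul' := fun c a => Subtype.ext (am_smul _ _) }
    have hL : Function.Injective L := by
      intro a b h
      have h1 := congrArg Subtype.val h
      exact Subtype.ext (am_injective h1)
    exact Module.Finite.of_injective L hL
  sum := by
    refine summable_of_ne_finset_zero (s := {0}) fun k hk => ?_
    simp only [Finset.mem_singleton] at hk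
    simp [hk]
  one := by
    rw [tr_sing2, ← am_one, hη, hM.one]
  comm := by
    intro a ha b hb
    obtain ⟨x, hx, rfl⟩ := (mem_amV M a).mp ha
    obtain ⟨y, hy, rfl⟩ := (mem_amV M b).mp hb
    rw [tr_sing2, tr_sing2, ← am_mul, ← am_mul, hη, hη, hM.comm x hx y hy]
  faithful := by
    intro a ha h
    obtain ⟨x, hx, rfl⟩ := (mem_amV M a).mp ha
    rw [tr_sing2, ← am_star, ← am_mul, hη] at h
    rw [hM.faithful x hx h]
    ext ζ k
    rw [am_apply]
    rfl

theorem amV_near (M N : VonNeumannAlgebra H) (δ : ℝ) (hδ : 0 ≤ δ) (h : Near M N δ) :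
    Near (amV M) (amV N) δ := by
  intro y hy
  obtain ⟨x, hx, rfl⟩ := (mem_amV M y).mp hy
  obtain ⟨x', hx', hxx⟩ := h x hx
  refine ⟨am x', (mem_amV N _).mpr ⟨x', hx', rfl⟩, ?_⟩
  rw [← am_sub]
  refine (norm_am _).trans (hxx.trans ?_)
  exact mul_le_mul_of_nonneg_left (le_norm_am x) hδ

theorem amV_iso (M : VonNeumannAlgebra H) :
    Nonempty (M.toStarSubalgebra ≃⋆ₐ[ℂ] (amV M).toStarSubalgebra) := by
  let f : M.toStarSubalgebra →⋆ₐ[ℂ] (amV M).toStarSubalgebra :=
    { toFun := fun x => ⟨am (x : H →L[ℂ] H), (mem_amV M _).mpr ⟨_, x.2, rfl⟩⟩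
      map_one' := Subtype.ext am_one
      map_mul' := fun a b => Subtype.ext (am_mul _ _)
      map_zero' := by
        refine Subtype.ext ?_
        show am (0 : H →L[ℂ] H) = 0
        ext ζ k
        rw [am_apply]
        rfl
      map_add' := fun a b => Subtype.ext (am_add _ _)
      commutes' := by
        intro c
        refine Subtype.ext ?_
        show am (algebraMap ℂ (H →L[ℂ] H) c) = algebraMap ℂ (H2 H →L[ℂ] H2 H) c
        rw [Algebra.algebraMap_eq_smul_one, Algebra.algebraMap_eq_smul_one, am_smul, am_one]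
      map_star' := fun a => Subtype.ext (am_star _) }
  refine ⟨StarAlgEquiv.ofBijective f ⟨?_, ?_⟩⟩
  · intro a b h
    have h1 := congrArg Subtype.val h
    exact Subtype.ext (am_injective h1)
  · rintro ⟨y, hy⟩
    obtain ⟨x, hx, rfl⟩ := (mem_amV M y).mp hy
    exact ⟨⟨x, hx⟩, rfl⟩

end Pool.Agent.H256.KS
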