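import Mathlib

set_option autoImplicit false
set_option linter.unusedSectionVars false

/-! Boundaries of chains. -/

namespace Pool.Agent.H256.KS

variable {H : Type} [NormedAddCommGroup H] [InnerProductSpace ℂ H] [CompleteSpace H]

/-- sign as a complex number -/
def sgc (b : Bool) : ℂ := if b then 1 else -1

open Classical in
/-- the coefficient at `x` of the boundary of the chain `∑ j, ± p j δ_(g j, h j)` -/
noncomputable def kap {Γ : Type} [Group Γ] (U : Γ → (H →L[ℂ] H)) {J : Type} [Fintype J]
    (g h : J → Γ) (b : J → Bool) (p : J → (H →L[ℂ] H)) (x : Γ) : H →L[ℂ] H :=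
  ∑ j, sgc (b j) • ((if g j = x then p j else 0) +
    (if h j = x then star (U (g j)) * p j * U (g j) else 0) - (if g j * h j = x then p j else 0))

end Pool.Agent.H256.KS
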