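import Mathlib
import Pool.Agent.H256.KS.Arc

set_option autoImplicit false
set_option linter.unusedSectionVars false

/-! The addition law for the traces of arctangents. -/

open Filter Topology Set

namespace Pool.Agent.H256.KS

variable {𝔸 : Type} [CStarAlgebra 𝔸]

/-- the imaginary unit -/
noncomputable def jj (𝔸 : Type) [CStarAlgebra 𝔸] : 𝔸 := Complex.I • (1 : 𝔸)

theorem jj_comm (a : 𝔸) : jj 𝔸 * a = a * jj 𝔸 := by
  unfold jj
  rw [smul_mul_assoc, mul_smul_comm, one_mul, mul_one]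

theorem jj_sq : jj 𝔸 * jj 𝔸 = -1 := by
  unfold jj
  rw [smul_mul_smul_comm, Complex.I_mul_I, one_mul, neg_smul, one_smul]

theorem jj_star : star (jj 𝔸) = - jj 𝔸 := by
  unfold jj
  rw [star_smul, star_one]
  simp

theorem add_mul_sub (x : 𝔸) : (x + jj 𝔸) * (x - jj 𝔸) = 1 + x * x := by
  rw [add_mul, mul_sub, mul_sub, jj_comm, jj_sq]
  abel

theorem sub_mul_add (x : 𝔸) : (x - jj 𝔸) * (x + jj 𝔸) = 1 + x * x := by
  rw [sub_mul, mul_add, mul_add, jj_comm, jj_sq]
  abel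

theorem wt_mul (x : 𝔸) (hx : IsSelfAdjoint x) : cfc wt x * (1 + x * x) = 1 := by
  have h1 : (1 : 𝔸) + x * x = cfc (fun t : ℝ => 1 + t * t) x := by
    rw [cfc_const_add 1 (fun t : ℝ => t * t) x (by fun_prop), cfc_mul (fun t : ℝ => t) (fun t => t) x,
      cfc_id' ℝ x, map_one]
  rw [h1, ← cfc_mul _ _ x wt_cont.continuousOn (by fun_prop), ← cfc_const_one ℝ x]
  refine cfc_congr fun t _ => ?_
  unfold wt
  have : (1 + t * t) = 1 + t ^ 2 := by ring
  rw [this]
  exact inv_mul_cancel₀ (by positivity)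

/-- resolvents -/
theorem exists_res (x : 𝔸) (hx : IsSelfAdjoint x) : ∃ P Q : 𝔸, (x + jj 𝔸) * P = 1 ∧
    P * (x + jj 𝔸) = 1 ∧ (x - jj 𝔸) * Q = 1 ∧ Q * (x - jj 𝔸) = 1 ∧ cfc wt x = Q * P := by
  have hc : Commute (cfc wt x) x := (Commute.refl x).cfc_real wt
  have hcj : jj 𝔸 * cfc wt x = cfc wt x * jj 𝔸 := jj_comm _
  have hc' : x * cfc wt x = cfc wt x * x := hc.eq.symm
  have h1 := wt_mul x hx
  have c1 : (x + jj 𝔸) * cfc wt x = cfc wt x * (x + jj 𝔸) := by
    rw [add_mul, mul_add, hc', hcj]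
  have c2 : (x - jj 𝔸) * cfc wt x = cfc wt x * (x - jj 𝔸) := by
    rw [sub_mul, mul_sub, hc', hcj]
  refine ⟨cfc wt x * (x - jj 𝔸), cfc wt x * (x + jj 𝔸), ?_, ?_, ?_, ?_, ?_⟩
  · rw [← mul_assoc, c1, mul_assoc, add_mul_sub, h1]
  · rw [mul_assoc, sub_mul_add, h1]
  · rw [← mul_assoc, c2, mul_assoc, sub_mul_add, h1]
  · rw [mul_assoc, add_mul_sub, h1]
  · rw [mul_assoc, ← mul_assoc (x + jj 𝔸), c1, mul_assoc (cfc wt x), add_mul_sub, h1, mul_one]

theorem inv_uniq {a b c : 𝔸} (h1 : b * a = 1) (h2 : a * c = 1) : b = c := by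
  calc b = b * (a * c) := by rw [h2, mul_one]
    _ = c := by rw [← mul_assoc, h1, one_mul]

/-- the Cayley product of `x` and `y - x` -/
noncomputable def cz (a Y : 𝔸) : 𝔸 := a - (a - jj 𝔸) * Y * (a + jj 𝔸)

theorem cz_add (a y Y : 𝔸) (hy : y * Y = 1) :
    cz a Y + jj 𝔸 = (y - a + jj 𝔸) * Y * (a + jj 𝔸) := by
  unfold cz
  have : (y - a + jj 𝔸) * Y * (a + jj 𝔸) = (y * Y) * (a + jj 𝔸) -
      (a - jj 𝔸) * Y * (a + jj 𝔸) := by noncomm_ring
  rw [this, hy, one_mul]
  abel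

theorem cz_sub (a y Y : 𝔸) (hy : Y * y = 1) :
    cz a Y - jj 𝔸 = (a - jj 𝔸) * Y * (y - a - jj 𝔸) := by
  unfold cz
  have : (a - jj 𝔸) * Y * (y - a - jj 𝔸) = (a - jj 𝔸) * (Y * y) -
      (a - jj 𝔸) * Y * (a + jj 𝔸) := by noncomm_ring
  rw [this, hy, mul_one]
  abel

theorem cz_sa {a Y : 𝔸} (ha : IsSelfAdjoint a) (hY : IsSelfAdjoint Y) : IsSelfAdjoint (cz a Y) := by
  unfold cz
  have h1 : star (a - jj 𝔸) = a + jj 𝔸 := by rw [star_sub, jj_star, ha.star_eq, sub_neg_eq_add]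
  have h2 : star (a + jj 𝔸) = a - jj 𝔸 := by rw [star_add, jj_star, ha.star_eq, sub_eq_add_neg]
  show star _ = _
  rw [star_sub, star_mul, star_mul, h1, h2, hY.star_eq, ha.star_eq, mul_assoc]

variable (τ : 𝔸 →L[ℂ] ℂ) (hτ : ∀ a b : 𝔸, τ (a * b) = τ (b * a))

include hτ in
theorem alg_zero (a y Y b P Q S T : 𝔸) (hy : y * Y = 1) (hy' : Y * y = 1)
    (hP' : (a + jj 𝔸) * P = 1)
    (hQ : Q * (a - jj 𝔸) = 1) (hQ' : (a - jj 𝔸) * Q = 1)
    (hS : S * (y - a + jj 𝔸) = 1) (hS' : (y - a + jj 𝔸) * S = 1)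
    (hT : T * (y - a - jj 𝔸) = 1) (hT' : (y - a - jj 𝔸) * T = 1) :
    τ (T * y * Q * (P * y * S) * (b - b * Y * (a + jj 𝔸) - (a - jj 𝔸) * Y * b)) =
      τ (Q * P * b) - τ (T * S * b) := by
  have e1 : b - b * Y * (a + jj 𝔸) - (a - jj 𝔸) * Y * b =
      (y - a + jj 𝔸) * Y * b - b * Y * (a + jj 𝔸) := by
    have : (y - a + jj 𝔸) * Y * b = (y * Y) * b - (a - jj 𝔸) * Y * b := by noncomm_ring
    rw [this, hy, one_mul]
    abel
  have e2 : T * y * Q * (P * y * S) * ((y - a + jj 𝔸) * Y * b) = T * y * (Q * P * b) := by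
    calc T * y * Q * (P * y * S) * ((y - a + jj 𝔸) * Y * b)
        = T * y * Q * P * y * (S * (y - a + jj 𝔸)) * Y * b := by noncomm_ring
      _ = T * y * Q * P * (y * Y) * b := by rw [hS, mul_one]; noncomm_ring
      _ = T * y * (Q * P * b) := by rw [hy, mul_one]; noncomm_ring
  have e3 : T * y = 1 + T * (a + jj 𝔸) := by
    have : y = (y - a - jj 𝔸) + (a + jj 𝔸) := by abel
    calc T * y = T * (y - a - jj 𝔸) + T * (a + jj 𝔸) := by rw [← mul_add, ← this]
      _ = _ := by rw [hT]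
  have e4 : (a + jj 𝔸) * (Q * P) = Q := by
    have hc : (a + jj 𝔸) * Q = Q * (a + jj 𝔸) := by
      have h1 : (a + jj 𝔸) * (a - jj 𝔸) = (a - jj 𝔸) * (a + jj 𝔸) := by
        rw [add_mul_sub, sub_mul_add]
      calc (a + jj 𝔸) * Q = (Q * (a - jj 𝔸)) * (a + jj 𝔸) * Q := by rw [hQ, one_mul]
        _ = Q * ((a - jj 𝔸) * (a + jj 𝔸)) * Q := by noncomm_ring
        _ = Q * ((a + jj 𝔸) * (a - jj 𝔸)) * Q := by rw [h1]
        _ = Q * (a + jj 𝔸) * ((a - jj 𝔸) * Q) := by noncomm_ring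
        _ = Q * (a + jj 𝔸) := by rw [hQ', mul_one]
    rw [← mul_assoc, hc, mul_assoc, hP', mul_one]
  have e5 : T * y * (Q * P * b) = Q * P * b + T * Q * b := by
    rw [e3, add_mul, one_mul]
    congr 1
    calc T * (a + jj 𝔸) * (Q * P * b) = T * ((a + jj 𝔸) * (Q * P)) * b := by noncomm_ring
      _ = T * Q * b := by rw [e4]
  have e6 : Y * (a + jj 𝔸) * (T * y) = T * (a + jj 𝔸) := by
    have h1 : Y * (a + jj 𝔸) = 1 - Y * (y - a - jj 𝔸) := by
      have : Y * (y - a - jj 𝔸) = Y * y - Y * (a + jj 𝔸) := by noncomm_ring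
      rw [this, hy']
      abel
    rw [h1, sub_mul, one_mul]
    have h2 : Y * (y - a - jj 𝔸) * (T * y) = 1 := by
      calc Y * (y - a - jj 𝔸) * (T * y) = Y * ((y - a - jj 𝔸) * T) * y := by noncomm_ring
        _ = 1 := by rw [hT', mul_one, hy']
    rw [h2, e3]
    abel
  have e7 : Q * y * S = S + Q := by
    have : y = (a - jj 𝔸) + (y - a + jj 𝔸) := by abel
    calc Q * y * S = (Q * (a - jj 𝔸)) * S + Q * ((y - a + jj 𝔸) * S) := by
          conv_lhs => rw [this]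
          noncomm_ring
      _ = S + Q := by rw [hQ, hS', one_mul, mul_one]
  have e8 : τ (T * y * Q * (P * y * S) * (b * Y * (a + jj 𝔸))) = τ (T * S * b) + τ (T * Q * b) := by
    have h1 : T * y * Q * (P * y * S) * (b * Y * (a + jj 𝔸)) =
        (T * y * Q * (P * y * S) * b) * (Y * (a + jj 𝔸)) := by noncomm_ring
    rw [h1, hτ]
    have h2 : Y * (a + jj 𝔸) * (T * y * Q * (P * y * S) * b) =
        Y * (a + jj 𝔸) * (T * y) * (Q * P) * y * S * b := by noncomm_ring
    rw [h2, e6]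
    have h3 : T * (a + jj 𝔸) * (Q * P) * y * S * b = T * ((a + jj 𝔸) * (Q * P)) * y * S * b := by
      noncomm_ring
    rw [h3, e4]
    have h4 : T * Q * y * S * b = T * (Q * y * S) * b := by noncomm_ring
    rw [h4, e7, mul_add, add_mul, map_add]
  rw [e1, mul_sub, map_sub, e2, e5, e8, map_add]
  ring

include hτ in
/-- the addition law -/
theorem maslov (x y Y : 𝔸) (hx : IsSelfAdjoint x) (hys : IsSelfAdjoint y) (hy : y * Y = 1)
    (hy' : Y * y = 1) :
    τ (cfc Real.arctan x) + τ (cfc Real.arctan (y - x)) - τ (cfc Real.arctan (cz x Y)) =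
      (Real.pi / 2 : ℂ) * τ (cfc Real.sign y) := by
  have hYs : IsSelfAdjoint Y := by
    have h1 : star Y * y = 1 := by
      have := congrArg star hy
      rwa [star_mul, hys.star_eq, star_one] at this
    exact inv_uniq h1 hy
  obtain ⟨a, ha⟩ : ∃ a : ℝ → 𝔸, a = fun s => (1 - s) • x := ⟨_, rfl⟩
  have has : ∀ s, IsSelfAdjoint (a s) := fun s => by
    rw [ha]; exact IsSelfAdjoint.smul (by rw [isSelfAdjoint_iff]; simp) hx
  have had : ∀ s, HasDerivAt a (-x) s := by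
    intro s
    rw [ha]
    have h1 : HasDerivAt (fun s : ℝ => 1 - s) (-1) s := by
      simpa using (hasDerivAt_id s).const_sub 1
    have h2 := h1.smul_const x
    rwa [neg_smul, one_smul] at h2
  have hac : Continuous a := continuous_iff_continuousAt.mpr fun s => (had s).continuousAt
  have hbd : ∀ s, HasDerivAt (fun s => y - a s) x s := by
    intro s
    have := (had s).const_sub y
    rwa [neg_neg] at this
  have hzd : ∀ s, HasDerivAt (fun s => cz (a s) Y)
      ((-x) - (-x) * Y * (a s + jj 𝔸) - (a s - jj 𝔸) * Y * (-x)) s := by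
    intro s
    unfold cz
    have h1 := (had s).sub_const (jj 𝔸)
    have h2 := (had s).add_const (jj 𝔸)
    have h3 := (had s).sub ((h1.mul_const Y).mul h2)
    convert! h3 using 1
    abel
  have hzc : Continuous fun s => ((-x) - (-x) * Y * (a s + jj 𝔸) - (a s - jj 𝔸) * Y * (-x)) := by
    fun_prop
  have k1 : ∀ s, HasDerivAt (fun s => τ (cfc Real.arctan (a s)) +
      τ (cfc Real.arctan (y - a s)) - τ (cfc Real.arctan (cz (a s) Y))) 0 s := by
    intro s
    have d1 := hasDerivAt_arc τ hτ (x := a) (x' := fun _ => -x) has had continuous_const s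
    have d2 := hasDerivAt_arc τ hτ (x := fun s => y - a s) (x' := fun _ => x)
      (fun s => hys.sub (has s)) hbd continuous_const s
    have d3 := hasDerivAt_arc τ hτ (x := fun s => cz (a s) Y) (x' := fun s =>
      ((-x) - (-x) * Y * (a s + jj 𝔸) - (a s - jj 𝔸) * Y * (-x)))
      (fun s => cz_sa (has s) hYs) hzd hzc s
    have d4 := (d1.add d2).sub d3
    convert! d4 using 1
    obtain ⟨P, Q, hP', hP, hQ', hQ, hw1⟩ := exists_res (a s) (has s)
    obtain ⟨S, T, hS', hS, hT', hT, hw2⟩ := exists_res (y - a s) (hys.sub (has s))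
    obtain ⟨P2, Q2, hP2', hP2, hQ2', hQ2, hw3⟩ := exists_res (cz (a s) Y) (cz_sa (has s) hYs)
    have u1 : P2 = P * y * S := by
      refine inv_uniq hP2 ?_
      rw [cz_add (a s) y Y hy]
      calc (y - a s + jj 𝔸) * Y * (a s + jj 𝔸) * (P * y * S) =
          (y - a s + jj 𝔸) * Y * ((a s + jj 𝔸) * P) * y * S := by noncomm_ring
        _ = (y - a s + jj 𝔸) * (Y * y) * S := by rw [hP', mul_one]; noncomm_ring
        _ = 1 := by rw [hy', mul_one, hS']
    have u2 : Q2 = T * y * Q := by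
      refine inv_uniq hQ2 ?_
      rw [cz_sub (a s) y Y hy']
      calc (a s - jj 𝔸) * Y * (y - a s - jj 𝔸) * (T * y * Q) =
          (a s - jj 𝔸) * Y * ((y - a s - jj 𝔸) * T) * y * Q := by noncomm_ring
        _ = (a s - jj 𝔸) * (Y * y) * Q := by rw [hT', mul_one]; noncomm_ring
        _ = 1 := by rw [hy', mul_one, hQ']
    rw [hw1, hw2, hw3, u1, u2, alg_zero τ hτ (a s) y Y (-x) P Q S T hy hy' hP' hQ hQ' hS hS' hT
      hT']
    simp only [mul_neg, map_neg]
    ring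
  have k2 := is_const_of_deriv_eq_zero (fun s => (k1 s).differentiableAt) (fun s => (k1 s).deriv)
    0 1
  have ha0 : a 0 = x := by rw [ha]; simp
  have ha1 : a 1 = 0 := by rw [ha]; simp
  simp only [ha0, ha1, sub_zero] at k2
  rw [k2]
  have hcz : cz (0 : 𝔸) Y = -Y := by
    unfold cz
    rw [zero_sub, zero_add, zero_sub, neg_mul, neg_mul, neg_neg, mul_assoc, ← jj_comm, ← mul_assoc,
      jj_sq, neg_mul, one_mul]
  rw [hcz]
  have h0 : cfc Real.arctan (0 : 𝔸) = 0 := by simp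
  rw [h0, map_zero, zero_add]
  -- the spectrum of `y`
  have hsp : ∀ t ∈ spectrum ℝ y, t ≠ 0 := by
    rintro t ht rfl
    rw [spectrum.zero_mem_iff] at ht
    exact ht ⟨⟨y, Y, hy, hy'⟩, rfl⟩
  have hY : Y = cfc (fun t : ℝ => t⁻¹) y := by
    have h1 := cfc_inv_id (R := ℝ) (⟨y, Y, hy, hy'⟩ : 𝔸ˣ) hys
    exact h1.symm
  have hci : ContinuousOn (fun t : ℝ => t⁻¹) (spectrum ℝ y) :=
    continuousOn_inv₀.mono fun t ht => hsp t ht
  have h1 : cfc Real.arctan (-Y) = cfc (fun t : ℝ => Real.arctan (-(t⁻¹))) y := by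
    rw [hY, ← cfc_neg, ← cfc_comp' Real.arctan (fun t : ℝ => -t⁻¹) y
      Real.continuous_arctan.continuousOn hci.neg hys]
  have hsc : ContinuousOn Real.sign (spectrum ℝ y) := by
    intro t ht
    rcases lt_or_gt_of_ne (hsp t ht) with h | h
    · have : Real.sign =ᶠ[𝓝 t] fun _ => -1 := by
        filter_upwards [gt_mem_nhds h] with s hs using Real.sign_of_neg hs
      exact (continuousAt_const.congr this.symm).continuousWithinAt
    · have : Real.sign =ᶠ[𝓝 t] fun _ => 1 := by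
        filter_upwards [lt_mem_nhds h] with s hs using Real.sign_of_pos hs
      exact (continuousAt_const.congr this.symm).continuousWithinAt
  have h3 : ContinuousOn (fun t : ℝ => Real.arctan (-t⁻¹)) (spectrum ℝ y) :=
    Real.continuous_arctan.comp_continuousOn hci.neg
  rw [h1, ← map_sub, ← cfc_sub Real.arctan (fun t : ℝ => Real.arctan (-t⁻¹)) y
    Real.continuous_arctan.continuousOn h3]
  have h2 : cfc (fun t : ℝ => Real.arctan t - Real.arctan (-t⁻¹)) y =
      (Real.pi / 2 : ℝ) • cfc Real.sign y := by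
    rw [← cfc_smul (Real.pi / 2) Real.sign y hsc]
    refine cfc_congr fun t ht => ?_
    simp only [smul_eq_mul]
    rw [Real.arctan_neg, sub_neg_eq_add]
    rcases lt_or_gt_of_ne (hsp t ht) with h | h
    · rw [Real.arctan_inv_of_neg h, Real.sign_of_neg h]
      ring
    · rw [Real.arctan_inv_of_pos h, Real.sign_of_pos h]
      ring
  rw [h2]
  have : (Real.pi / 2 : ℝ) • cfc Real.sign y = ((Real.pi / 2 : ℝ) : ℂ) • cfc Real.sign y :=
    (Complex.coe_smul _ _).symm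
  rw [this, map_smul, smul_eq_mul]
  push_cast
  rfl

end Pool.Agent.H256.KS
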