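import Mathlib
import Pool.Agent.H256.KS.Arc

set_option autoImplicit false
set_option linter.unusedSectionVars false

/-! Uniform continuity of the functional calculus. -/

open Polynomial Filter Topology Set

namespace Pool.Agent.H256.KS

theorem norm_one_le_one {𝔸 : Type} [CStarAlgebra 𝔸] : ‖(1 : 𝔸)‖ ≤ 1 := by
  rcases subsingleton_or_nontrivial 𝔸 with h | h
  · rw [Subsingleton.elim (1 : 𝔸) 0, norm_zero]
    exact zero_le_one
  · rw [norm_one]

theorem pow_lip (L : ℝ) (n : ℕ) : ∃ C D : ℝ, 0 ≤ C ∧ 0 ≤ D ∧ ∀ (𝔸 : Type) [CStarAlgebra 𝔸] (a b : 𝔸),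
    ‖a‖ ≤ L → ‖b‖ ≤ L → ‖a ^ n‖ ≤ D ∧ ‖a ^ n - b ^ n‖ ≤ C * ‖a - b‖ := by
  induction n with
  | zero =>
    refine ⟨0, 1, le_rfl, zero_le_one, fun 𝔸 _ a b _ _ => ?_⟩
    rw [pow_zero, pow_zero, sub_self, norm_zero, zero_mul]
    exact ⟨norm_one_le_one, le_rfl⟩
  | succ n ih =>
    obtain ⟨C, D, hC, hD, h⟩ := ih
    refine ⟨D + C * |L|, D * |L|, by positivity, by positivity, fun 𝔸 _ a b ha hb => ?_⟩
    obtain ⟨h1, h2⟩ := h 𝔸 a b ha hb
    refine ⟨?_, ?_⟩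
    · rw [pow_succ]
      exact (norm_mul_le _ _).trans (mul_le_mul h1 (ha.trans (le_abs_self L)) (norm_nonneg _) hD)
    · have e : a ^ (n + 1) - b ^ (n + 1) = a ^ n * (a - b) + (a ^ n - b ^ n) * b := by
        rw [pow_succ, pow_succ]; noncomm_ring
      rw [e]
      have n1 : ‖a ^ n * (a - b)‖ ≤ D * ‖a - b‖ :=
        (norm_mul_le _ _).trans (mul_le_mul_of_nonneg_right h1 (norm_nonneg _))
      have n2 : ‖(a ^ n - b ^ n) * b‖ ≤ (C * ‖a - b‖) * |L| :=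
        (norm_mul_le _ _).trans (mul_le_mul h2 (hb.trans (le_abs_self L)) (norm_nonneg _)
          (by positivity))
      refine (norm_add_le _ _).trans ?_
      nlinarith

theorem poly_lip (L : ℝ) (p : ℝ[X]) : ∃ C : ℝ, 0 ≤ C ∧ ∀ (𝔸 : Type) [CStarAlgebra 𝔸] (a b : 𝔸),
    ‖a‖ ≤ L → ‖b‖ ≤ L → ‖aeval a p - aeval b p‖ ≤ C * ‖a - b‖ := by
  induction p using Polynomial.induction_on' with
  | add p q hp hq =>
    obtain ⟨C, hC, h⟩ := hp
    obtain ⟨D, hD, h'⟩ := hq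
    refine ⟨C + D, by positivity, fun 𝔸 _ a b ha hb => ?_⟩
    rw [map_add, map_add, add_sub_add_comm, add_mul]
    exact (norm_add_le _ _).trans (add_le_add (h 𝔸 a b ha hb) (h' 𝔸 a b ha hb))
  | monomial n r =>
    obtain ⟨C, D, hC, hD, h⟩ := pow_lip L n
    refine ⟨|r| * C, by positivity, fun 𝔸 _ a b ha hb => ?_⟩
    rw [aeval_monomial, aeval_monomial, ← Algebra.smul_def, ← Algebra.smul_def, ← smul_sub,
      norm_smul, Real.norm_eq_abs, mul_assoc]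
    exact mul_le_mul_of_nonneg_left (h 𝔸 a b ha hb).2 (abs_nonneg _)

theorem cfc_unif (L : ℝ) (f : ℝ → ℝ) (hf : ContinuousOn f (Icc (-L) L)) (η : ℝ) (hη : 0 < η) :
    ∃ ε : ℝ, 0 < ε ∧ ∀ (𝔸 : Type) [CStarAlgebra 𝔸] (a b : 𝔸), IsSelfAdjoint a → IsSelfAdjoint b →
      ‖a‖ ≤ L → ‖b‖ ≤ L → ‖a - b‖ ≤ ε → ‖cfc f a - cfc f b‖ ≤ η := by
  obtain ⟨p, hp⟩ := exists_polynomial_near_of_continuousOn (-L) L f hf (η / 3) (by positivity)
  obtain ⟨C, hC, h⟩ := poly_lip L p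
  refine ⟨η / (3 * (C + 1)), by positivity, fun 𝔸 _ a b ha hb hna hnb hab => ?_⟩
  have key : ∀ x : 𝔸, IsSelfAdjoint x → ‖x‖ ≤ L → ‖cfc f x - aeval x p‖ ≤ η / 3 := by
    intro x hx hxL
    have hsp : ∀ r ∈ spectrum ℝ x, r ∈ Icc (-L) L := fun r hr =>
      abs_le.mp ((spec_abs_le hr).trans hxL)
    rw [← cfc_polynomial p x hx, ← cfc_sub f _ x (hf.mono hsp) (by fun_prop)]
    refine norm_cfc_le (by positivity) fun r hr => ?_
    rw [Real.norm_eq_abs, abs_sub_comm]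
    exact (hp r (hsp r hr)).le
  have e : cfc f a - cfc f b = (cfc f a - aeval a p) + (aeval a p - aeval b p) -
      (cfc f b - aeval b p) := by abel
  have h1 := key a ha hna
  have h2 := key b hb hnb
  have h3 := h 𝔸 a b hna hnb
  have h4 : C * ‖a - b‖ ≤ η / 3 := by
    refine (mul_le_mul_of_nonneg_left hab hC).trans ?_
    rw [mul_div_assoc', div_le_div_iff₀ (by positivity) (by positivity)]
    nlinarith
  rw [e]
  have n1 := norm_sub_le ((cfc f a - aeval a p) + (aeval a p - aeval b p)) (cfc f b - aeval b p)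
  have n2 := norm_add_le (cfc f a - aeval a p) (aeval a p - aeval b p)
  linarith

end Pool.Agent.H256.KS
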