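import Mathlib
import Pool.Agent.H256.KS.Maslov
import Pool.Agent.H256.KS.Unif
import Pool.Graph.R_pool_sql_team_seeded_ab47071d.TH254.CC.Core

set_option autoImplicit false
set_option linter.unusedSectionVars false

/-! Unitaries with a spectral gap at one. -/

open Filter Topology Set
open scoped InnerProductSpace

namespace Pool.Agent.H256.KS

open Pool.Agent.TH254.CC H759R2.Kad

variable {H : Type} [NormedAddCommGroup H] [InnerProductSpace ℂ H] [CompleteSpace H]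

/-- unitary -/
def Un (u : H →L[ℂ] H) : Prop := star u * u = 1 ∧ u * star u = 1

theorem Un.mul {u v : H →L[ℂ] H} (hu : Un u) (hv : Un v) : Un (u * v) := by
  constructor
  · rw [star_mul]
    calc star v * star u * (u * v) = star v * (star u * u) * v := by noncomm_ring
      _ = 1 := by rw [hu.1, mul_one, hv.1]
  · rw [star_mul]
    calc u * v * (star v * star u) = u * (v * star v) * star u := by noncomm_ring
      _ = 1 := by rw [hv.2, mul_one, hu.2]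

theorem Un.star {u : H →L[ℂ] H} (hu : Un u) : Un (star u) := by
  constructor
  · rw [star_star]; exact hu.2
  · rw [star_star]; exact hu.1

theorem Un.one : Un (1 : H →L[ℂ] H) := by
  constructor <;> rw [star_one, one_mul]

theorem Un.neg_one : Un (-1 : H →L[ℂ] H) := by
  constructor <;> rw [star_neg, star_one, neg_mul_neg, one_mul]

theorem Un.norm_le {u : H →L[ℂ] H} (hu : Un u) : ‖u‖ ≤ 1 := norm_le_one_of_sq u hu.1

theorem Un.norm_apply {u : H →L[ℂ] H} (hu : Un u) (ζ : H) : ‖u ζ‖ = ‖ζ‖ := by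
  have h1 : ⟪u ζ, u ζ⟫_ℂ = ⟪ζ, ζ⟫_ℂ := by
    have h2 : ⟪u ζ, u ζ⟫_ℂ = ⟪ζ, (Star.star u * u) ζ⟫_ℂ := by
      rw [ContinuousLinearMap.star_eq_adjoint]
      exact (ContinuousLinearMap.adjoint_inner_right u ζ (u ζ)).symm
    rw [h2, hu.1]
    rfl
  rw [inner_self_eq_norm_sq_to_K, inner_self_eq_norm_sq_to_K] at h1
  have h3 : ‖u ζ‖ ^ 2 = ‖ζ‖ ^ 2 := by exact_mod_cast h1
  have h4 := congrArg Real.sqrt h3
  rwa [Real.sqrt_sq (norm_nonneg _), Real.sqrt_sq (norm_nonneg _)] at h4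

theorem Un.norm_mul_left {u : H →L[ℂ] H} (hu : Un u) (x : H →L[ℂ] H) : ‖u * x‖ ≤ ‖x‖ :=
  (norm_mul_le _ _).trans (mul_le_of_le_one_left (norm_nonneg _) hu.norm_le)

theorem Un.norm_mul_right {u : H →L[ℂ] H} (hu : Un u) (x : H →L[ℂ] H) : ‖x * u‖ ≤ ‖x‖ :=
  (norm_mul_le _ _).trans (mul_le_of_le_one_right (norm_nonneg _) hu.norm_le)

/-- products of near unitaries -/
theorem near_mul {u v a b : H →L[ℂ] H} (hv : Un v) (ha : Un a) {r s : ℝ}
    (h1 : ‖u - v‖ ≤ r) (h2 : ‖a - b‖ ≤ s) : ‖u * a - v * b‖ ≤ r + s := by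
  have e : u * a - v * b = (u - v) * a + v * (a - b) := by noncomm_ring
  rw [e]
  exact (norm_add_le _ _).trans (add_le_add ((ha.norm_mul_right _).trans h1)
    ((hv.norm_mul_left _).trans h2))

theorem near_star {u v : H →L[ℂ] H} {r : ℝ} (h : ‖u - v‖ ≤ r) : ‖star u - star v‖ ≤ r := by
  rw [← star_sub, norm_star]
  exact h

/-- spectral gap at one -/
def gp (γ : ℝ) (u : H →L[ℂ] H) : Prop := ∀ ζ : H, γ * ‖ζ‖ ≤ ‖ζ - u ζ‖

theorem gp.pert {γ r : ℝ} {u v : H →L[ℂ] H} (h : gp γ u) (huv : ‖u - v‖ ≤ r) :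
    gp (γ - r) v := by
  intro ζ
  have h1 := h ζ
  have h2 : ‖(u - v) ζ‖ ≤ r * ‖ζ‖ :=
    (ContinuousLinearMap.le_opNorm _ _).trans (mul_le_mul_of_nonneg_right huv (norm_nonneg _))
  have h3 : ζ - u ζ = (ζ - v ζ) - (u - v) ζ := by
    rw [sub_apply]
    abel
  have h4 := norm_sub_le (ζ - v ζ) ((u - v) ζ)
  rw [← h3] at h4
  nlinarith

theorem gp.mono {γ γ' : ℝ} {u : H →L[ℂ] H} (h : gp γ u) (h' : γ' ≤ γ) : gp γ' u := fun ζ =>
  (mul_le_mul_of_nonneg_right h' (norm_nonneg _)).trans (h ζ)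

theorem gp_neg_one : gp 2 (-1 : H →L[ℂ] H) := by
  intro ζ
  have : ζ - (-1 : H →L[ℂ] H) ζ = (2 : ℂ) • ζ := by
    rw [two_smul]
    simp
  rw [this, norm_smul]
  simp

/-- the inverse of `1 - u` -/
theorem exists_inv {γ : ℝ} (hγ : 0 < γ) {u : H →L[ℂ] H} (hu : Un u) (h : gp γ u) :
    ∃ g : H →L[ℂ] H, g * (1 - u) = 1 ∧ (1 - u) * g = 1 ∧ ‖g‖ ≤ γ⁻¹ := by
  have h1 : IsUnit (1 - u) := by
    refine ContinuousLinearMap.isUnit_of_forall_le_norm_inner_map (1 - u)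
      (c := Real.toNNReal (γ ^ 2 / 2)) (Real.toNNReal_pos.mpr (by positivity)) fun ζ => ?_
    rw [Real.coe_toNNReal _ (by positivity)]
    have e1 : (1 - u) ζ = ζ - u ζ := rfl
    have e2 : (⟪ζ - u ζ, ζ⟫_ℂ).re = ‖ζ - u ζ‖ ^ 2 / 2 := by
      have k1 := @norm_sub_sq ℂ H _ _ _ ζ (u ζ)
      rw [hu.norm_apply] at k1
      rw [inner_sub_left, Complex.sub_re]
      have k2 : (⟪ζ, ζ⟫_ℂ).re = ‖ζ‖ ^ 2 := by
        rw [inner_self_eq_norm_sq_to_K]
        norm_cast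
      have k3 : (⟪u ζ, ζ⟫_ℂ).re = (⟪ζ, u ζ⟫_ℂ).re := by
        rw [← inner_conj_symm]
        exact Complex.conj_re _
      have k4 : RCLike.re ⟪ζ, u ζ⟫_ℂ = (⟪ζ, u ζ⟫_ℂ).re := rfl
      rw [k4] at k1
      rw [k2, k3, k1]
      ring
    rw [e1]
    have e3 : (⟪ζ - u ζ, ζ⟫_ℂ).re ≤ ‖⟪ζ - u ζ, ζ⟫_ℂ‖ := Complex.re_le_norm _
    rw [e2] at e3
    have e4 : (γ * ‖ζ‖) ^ 2 ≤ ‖ζ - u ζ‖ ^ 2 := pow_le_pow_left₀ (by positivity) (h ζ) 2
    nlinarith
  obtain ⟨U, hU⟩ := h1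
  refine ⟨((U⁻¹ : (H →L[ℂ] H)ˣ) : H →L[ℂ] H), ?_, ?_, ?_⟩
  · rw [← hU]; exact U.inv_mul
  · rw [← hU]; exact U.mul_inv
  · refine ContinuousLinearMap.opNorm_le_bound _ (by positivity) fun ζ => ?_
    have h2 : ((1 - u) * ((U⁻¹ : (H →L[ℂ] H)ˣ) : H →L[ℂ] H)) ζ = ζ := by
      rw [← hU, U.mul_inv]; rfl
    have h3 := h (((U⁻¹ : (H →L[ℂ] H)ˣ) : H →L[ℂ] H) ζ)
    have h4 : ((U⁻¹ : (H →L[ℂ] H)ˣ) : H →L[ℂ] H) ζ -
        u (((U⁻¹ : (H →L[ℂ] H)ˣ) : H →L[ℂ] H) ζ) = ζ := h2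
    rw [h4] at h3
    rw [inv_mul_eq_div, le_div_iff₀ hγ, mul_comm]
    exact h3

/-- the Cayley transform of a unitary -/
noncomputable def cx (u : H →L[ℂ] H) : H →L[ℂ] H :=
  (2 : ℂ) • (jj (H →L[ℂ] H) * Ring.inverse (1 - u)) - jj (H →L[ℂ] H)

theorem ringInv_eq {a g : H →L[ℂ] H} (h1 : g * a = 1) (h2 : a * g = 1) : Ring.inverse a = g := by
  have : a = ((⟨a, g, h2, h1⟩ : (H →L[ℂ] H)ˣ) : H →L[ℂ] H) := rfl
  rw [this, Ring.inverse_unit]
  rfl

theorem cx_eq {u g : H →L[ℂ] H} (h1 : g * (1 - u) = 1) (h2 : (1 - u) * g = 1) :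
    cx u = (2 : ℂ) • (jj (H →L[ℂ] H) * g) - jj (H →L[ℂ] H) := by
  unfold cx
  rw [ringInv_eq h1 h2]

theorem cx_sa {u g : H →L[ℂ] H} (hu : Un u) (h1 : g * (1 - u) = 1) (h2 : (1 - u) * g = 1) :
    IsSelfAdjoint (cx u) := by
  have h3 : star g = 1 - g := by
    have k1 : star g * (1 - star u) = 1 := by
      have := congrArg star h2
      rwa [star_mul, star_sub, star_one] at this
    have k2 : (1 - star u) * (1 - g) = 1 := by
      have e1 : (1 - star u) = - (star u * (1 - u)) := by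
        rw [mul_sub, hu.1, mul_one]
        abel
      rw [mul_sub, mul_one]
      conv_lhs => rw [e1]
      rw [neg_mul, mul_assoc, h2, mul_one, mul_sub, hu.1, mul_one]
      abel
    exact inv_uniq k1 k2
  rw [cx_eq h1 h2]
  show star _ = _
  have h4 : star (2 : ℂ) = 2 := by simp
  rw [star_sub, star_smul, star_mul, h3, jj_star, sub_mul, one_mul, mul_neg, ← jj_comm g, h4,
    smul_sub, smul_neg, smul_neg, two_smul ℂ (jj (H →L[ℂ] H))]
  abel

theorem cx_norm {γ : ℝ} {u g : H →L[ℂ] H} (h1 : g * (1 - u) = 1)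
    (h2 : (1 - u) * g = 1) (hg : ‖g‖ ≤ γ⁻¹) : ‖cx u‖ ≤ 2 * γ⁻¹ + 1 := by
  rw [cx_eq h1 h2]
  have hj : ‖jj (H →L[ℂ] H)‖ ≤ 1 := by
    unfold jj
    rw [norm_smul, Complex.norm_I, one_mul]
    exact norm_one_le_one
  have n1 : ‖(2 : ℂ) • (jj (H →L[ℂ] H) * g)‖ ≤ 2 * γ⁻¹ := by
    rw [norm_smul]
    have : ‖jj (H →L[ℂ] H) * g‖ ≤ 1 * γ⁻¹ :=
      (norm_mul_le _ _).trans (mul_le_mul hj hg (norm_nonneg _) zero_le_one)
    simp only [Complex.norm_ofNat]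
    linarith
  exact (norm_sub_le _ _).trans (add_le_add n1 hj)

theorem cx_near {γ r : ℝ} (hγ : 0 < γ) {u v g k : H →L[ℂ] H} (h1 : g * (1 - u) = 1)
    (h2 : (1 - u) * g = 1) (hg : ‖g‖ ≤ γ⁻¹) (h1' : k * (1 - v) = 1)
    (h2' : (1 - v) * k = 1) (hk : ‖k‖ ≤ γ⁻¹) (huv : ‖u - v‖ ≤ r) :
    ‖cx u - cx v‖ ≤ 2 * (γ⁻¹ * r * γ⁻¹) := by
  have hj : ‖jj (H →L[ℂ] H)‖ ≤ 1 := by
    unfold jj
    rw [norm_smul, Complex.norm_I, one_mul]
    exact norm_one_le_one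
  have e1 : g - k = g * (u - v) * k := by
    have : g * (u - v) * k = g * ((1 - v) * k) - (g * (1 - u)) * k := by noncomm_ring
    rw [this, h2', h1, mul_one, one_mul]
  have e2 : cx u - cx v = (2 : ℂ) • (jj (H →L[ℂ] H) * (g * (u - v) * k)) := by
    rw [cx_eq h1 h2, cx_eq h1' h2', ← e1, mul_sub, smul_sub]
    abel
  rw [e2, norm_smul]
  simp only [Complex.norm_ofNat]
  refine mul_le_mul_of_nonneg_left ?_ (by norm_num)
  have n1 : ‖g * (u - v)‖ ≤ γ⁻¹ * r :=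
    (norm_mul_le _ _).trans (mul_le_mul hg huv (norm_nonneg _) (by positivity))
  have hr : 0 ≤ r := (norm_nonneg _).trans huv
  have n2 : ‖g * (u - v) * k‖ ≤ γ⁻¹ * r * γ⁻¹ :=
    (norm_mul_le _ _).trans (mul_le_mul n1 hk (norm_nonneg _) (by positivity))
  calc ‖jj (H →L[ℂ] H) * (g * (u - v) * k)‖ ≤ ‖jj (H →L[ℂ] H)‖ * ‖g * (u - v) * k‖ :=
        norm_mul_le _ _
    _ ≤ 1 * (γ⁻¹ * r * γ⁻¹) := mul_le_mul hj n2 (norm_nonneg _) zero_le_one
    _ = _ := one_mul _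

/-- the Cayley transform of a product -/
theorem cx_mul {u v g k m : H →L[ℂ] H} (hg1 : g * (1 - u) = 1) (hg2 : (1 - u) * g = 1)
    (hk1 : k * (1 - v) = 1) (hk2 : (1 - v) * k = 1) (hm1 : m * (1 - u * v) = 1)
    (hm2 : (1 - u * v) * m = 1) :
    ∃ Y : H →L[ℂ] H, Y = (-(1 / 2 : ℂ)) • (jj (H →L[ℂ] H) * ((1 - v) * m * (1 - u))) ∧
      (cx u + cx v) * Y = 1 ∧ Y * (cx u + cx v) = 1 ∧ cx (u * v) = cz (cx u) Y := by
  obtain ⟨j, hj⟩ : ∃ j : H →L[ℂ] H, j = jj (H →L[ℂ] H) := ⟨_, rfl⟩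
  have jc : ∀ a : H →L[ℂ] H, j * a = a * j := fun a => by rw [hj]; exact jj_comm a
  have j2 : j * j = -1 := by rw [hj]; exact jj_sq
  obtain ⟨Y, hY⟩ : ∃ Y : H →L[ℂ] H, Y = (-(1 / 2 : ℂ)) • (j * ((1 - v) * m * (1 - u))) := ⟨_, rfl⟩
  have hy : cx u + cx v = (2 : ℂ) • (j * (g * (1 - u * v) * k)) := by
    have e1 : g * (1 - u * v) * k = g + k - 1 := by
      have : g * (1 - u * v) * k = g * (((1 - v) * k)) + (g * (1 - u)) * k -
          (g * (1 - u)) * ((1 - v) * k) := by noncomm_ring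
      rw [this, hk2, hg1, mul_one, one_mul, mul_one]
    rw [e1, cx_eq hg1 hg2, cx_eq hk1 hk2, ← hj, mul_sub, mul_add, mul_one, smul_sub, smul_add,
      two_smul ℂ j]
    abel
  have c1 : ((2 : ℂ) * (-(1 / 2 : ℂ))) = -1 := by norm_num
  have h1 : (cx u + cx v) * Y = 1 := by
    rw [hy, hY, smul_mul_smul_comm, c1]
    have : j * (g * (1 - u * v) * k) * (j * ((1 - v) * m * (1 - u))) =
        (j * j) * (g * (1 - u * v) * (k * (1 - v)) * m * (1 - u)) := by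
      calc j * (g * (1 - u * v) * k) * (j * ((1 - v) * m * (1 - u)))
          = j * ((g * (1 - u * v) * k) * j) * ((1 - v) * m * (1 - u)) := by noncomm_ring
        _ = j * (j * (g * (1 - u * v) * k)) * ((1 - v) * m * (1 - u)) := by rw [jc (_ * k)]
        _ = _ := by noncomm_ring
    rw [this, hk1, mul_one, j2]
    have e2 : g * (1 - u * v) * m * (1 - u) = g * ((1 - u * v) * m) * (1 - u) := by noncomm_ring
    rw [e2, hm2, mul_one, hg1]
    simp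
  have h2 : Y * (cx u + cx v) = 1 := by
    rw [hy, hY, smul_mul_smul_comm, mul_comm (-(1 / 2 : ℂ)) 2, c1]
    have : j * ((1 - v) * m * (1 - u)) * (j * (g * (1 - u * v) * k)) =
        (j * j) * ((1 - v) * m * ((1 - u) * g) * (1 - u * v) * k) := by
      calc j * ((1 - v) * m * (1 - u)) * (j * (g * (1 - u * v) * k))
          = j * (((1 - v) * m * (1 - u)) * j) * (g * (1 - u * v) * k) := by noncomm_ring
        _ = j * (j * ((1 - v) * m * (1 - u))) * (g * (1 - u * v) * k) := by rw [jc (_ * (1 - u))]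
        _ = _ := by noncomm_ring
    rw [this, hg2, mul_one, j2]
    have e2 : (1 - v) * m * (1 - u * v) * k = (1 - v) * (m * (1 - u * v)) * k := by noncomm_ring
    rw [e2, hm1, mul_one, hk2]
    simp
  refine ⟨Y, by rw [hY, hj], h1, h2, ?_⟩
  have h3 := cz_add (cx u) (cx u + cx v) Y h1
  have h4 : cx (u * v) + jj (H →L[ℂ] H) = cz (cx u) Y + jj (H →L[ℂ] H) := by
    rw [h3, cx_eq hm1 hm2, ← hj, sub_add_cancel]
    have e1 : cx u + cx v - cx u + j = (2 : ℂ) • (j * k) := by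
      rw [cx_eq hk1 hk2, ← hj]
      abel
    have e2 : cx u + j = (2 : ℂ) • (j * g) := by
      rw [cx_eq hg1 hg2, ← hj]
      abel
    rw [e1, e2, hY, smul_mul_smul_comm, smul_mul_smul_comm]
    have c2 : (2 : ℂ) * (-(1 / 2)) * 2 = -2 := by norm_num
    rw [c2]
    have e3 : j * k * (j * ((1 - v) * m * (1 - u))) * (j * g) = - (j * m) := by
      calc j * k * (j * ((1 - v) * m * (1 - u))) * (j * g)
          = j * (k * j) * ((1 - v) * m * ((1 - u) * j)) * g := by noncomm_ring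
        _ = j * (j * k) * ((1 - v) * m * (j * (1 - u))) * g := by rw [jc k, jc (1 - u)]
        _ = (j * j) * (k * (1 - v)) * (m * j) * ((1 - u) * g) := by noncomm_ring
        _ = (j * j) * (k * (1 - v)) * (j * m) * ((1 - u) * g) := by rw [jc m]
        _ = - (j * m) := by rw [j2, hk1, hg2]; simp
    rw [e3]
    simp
  exact add_right_cancel h4

end Pool.Agent.H256.KS
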