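import Mathlib
import Pool.Agent.H256.KS.Gap

set_option autoImplicit false
set_option linter.unusedSectionVars false

/-! Creating spectral gaps. -/

open Filter Topology Set
open scoped InnerProductSpace

namespace Pool.Agent.H256.KS

open Pool.Agent.TH254.CC H759R2.Kad

variable {H : Type} [NormedAddCommGroup H] [InnerProductSpace ℂ H] [CompleteSpace H]

theorem inner_nonneg_of_sq (s : H →L[ℂ] H) (ζ : H) : 0 ≤ (⟪ζ, (star s * s) ζ⟫_ℂ).re := by
  have h2 : ⟪s ζ, s ζ⟫_ℂ = ⟪ζ, (Star.star s * s) ζ⟫_ℂ := by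
    rw [ContinuousLinearMap.star_eq_adjoint]
    exact (ContinuousLinearMap.adjoint_inner_right s ζ (s ζ)).symm
  rw [← h2, inner_self_eq_norm_sq_to_K]
  have : ((‖s ζ‖ : ℂ) ^ 2).re = ‖s ζ‖ ^ 2 := by norm_cast
  exact this ▸ (by positivity)

theorem cfc_inner_nonneg (h : H →L[ℂ] H) {f : ℝ → ℝ} (hf : Continuous f)
    (hf0 : ∀ t, 0 ≤ f t) (ζ : H) : 0 ≤ (⟪ζ, (cfc f h) ζ⟫_ℂ).re := by
  have h1 : cfc f h = star (cfc (fun t => Real.sqrt (f t)) h) * cfc (fun t => Real.sqrt (f t)) h := by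
    have h2 : IsSelfAdjoint (cfc (fun t => Real.sqrt (f t)) h) := cfc_predicate _ _
    rw [h2.star_eq, ← cfc_mul _ _ h (by fun_prop) (by fun_prop)]
    refine cfc_congr fun t _ => ?_
    exact (Real.mul_self_sqrt (hf0 t)).symm
  rw [h1]
  exact inner_nonneg_of_sq _ ζ

/-- the sign projection of a selfadjoint element -/
theorem exists_sign (M : VonNeumannAlgebra H) {h : H →L[ℂ] H} (hM : h ∈ M) (hh : IsSelfAdjoint h) :
    ∃ p ∈ M, IsPr p ∧ (∀ ζ, 0 ≤ (⟪ζ, (h * ((2 : ℂ) • p - 1)) ζ⟫_ℂ).re) ∧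
      ∀ b : H →L[ℂ] H, b * h = h * b → star b * h = h * star b → b * p = p * b := by
  obtain ⟨b, hb⟩ : ∃ b : H →L[ℂ] H, b = cfc (fun t : ℝ => max t 0) h := ⟨_, rfl⟩
  obtain ⟨n, hn⟩ : ∃ n : H →L[ℂ] H, n = cfc (fun t : ℝ => max (-t) 0) h := ⟨_, rfl⟩
  have hbn : h = b - n := by
    rw [hb, hn, ← cfc_sub _ _ h (by fun_prop) (by fun_prop)]
    conv_lhs => rw [← cfc_id' ℝ h]
    refine cfc_congr fun t _ => ?_
    rcases le_total t 0 with h0 | h0
    · simp [h0]
    · simp [h0]
  have hnb : n * b = 0 := by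
    rw [hb, hn, ← cfc_mul _ _ h (by fun_prop) (by fun_prop)]
    have : cfc (fun _ : ℝ => (0 : ℝ)) h = 0 := cfc_const_zero ℝ h
    rw [← this]
    refine cfc_congr fun t _ => ?_
    rcases le_total t 0 with h0 | h0
    · simp [h0]
    · simp [h0]
  have hbs : star b = b := by
    rw [hb]
    exact (cfc_predicate (fun t : ℝ => max t 0) h : IsSelfAdjoint _).star_eq
  have hbM : b ∈ M := by
    refine mem_of_comm M h b hM fun c hc => ?_
    have : Commute h c := hc.symm
    rw [hb]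
    exact (this.cfc_real _).symm
  obtain ⟨p, hpM, hp, hpb, hx⟩ := prove5_range H M b hbM
  have hnp : n * p = 0 := hx n hnb
  have hbp : b * p = b := by
    have := congrArg star hpb
    rwa [star_mul, hp.1, hbs] at this
  refine ⟨p, hpM, hp, fun ζ => ?_, fun c hc hc' => ?_⟩
  · have e : h * ((2 : ℂ) • p - 1) = b + n := by
      rw [two_smul, mul_sub, mul_add, mul_one, hbn, sub_mul, hnp, hbp]
      abel
    rw [e, add_apply, inner_add_right, Complex.add_re]
    refine add_nonneg ?_ ?_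
    · rw [hb]; exact cfc_inner_nonneg h (by fun_prop) (fun t => le_max_right _ _) ζ
    · rw [hn]; exact cfc_inner_nonneg h (by fun_prop) (fun t => le_max_right _ _) ζ
  · have key : ∀ c : H →L[ℂ] H, c * h = h * c → (1 - p) * c * p = 0 := by
      intro c hc
      refine hx _ ?_
      have h1 : c * b = b * c := by
        have : Commute h c := hc.symm
        rw [hb]
        exact (this.cfc_real _).symm
      rw [mul_assoc, h1, ← mul_assoc, sub_mul, one_mul, hpb, sub_self, zero_mul]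
    have k1 := key c hc
    have k2 := congrArg star (key (star c) hc')
    rw [star_mul, star_mul, star_star, hp.1, star_sub, star_one, hp.1, star_zero] at k2
    have e1 : c * p = p * c * p := by
      have : (1 - p) * c * p = c * p - p * c * p := by noncomm_ring
      rw [this] at k1
      exact sub_eq_zero.mp k1
    have e2 : p * c = p * c * p := by
      have : p * (c * (1 - p)) = p * c - p * c * p := by noncomm_ring
      rw [this] at k2
      exact sub_eq_zero.mp k2
    rw [e1, ← e2]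

/-- creating one gap -/
theorem gap_one (M : VonNeumannAlgebra H) {z : H →L[ℂ] H} (hzM : z ∈ M) (hz : Un z) {θ : ℝ}
    (hθ0 : 0 < θ) (hθ1 : θ ≤ 1) : ∃ c ∈ M, Un c ∧ ‖c - 1‖ ≤ θ ∧
      gp (Real.sqrt (2 * (1 - Real.cos θ))) (z * c) ∧
      ∀ b : H →L[ℂ] H, b * z = z * b → b * star z = star z * b → b * c = c * b := by
  obtain ⟨h, hh⟩ : ∃ h : H →L[ℂ] H, h = (-Complex.I / 2 : ℂ) • (z - star z) := ⟨_, rfl⟩
  have hhs : IsSelfAdjoint h := by
    show star h = h
    rw [hh, star_smul, star_sub, star_star, ← neg_sub z (star z), smul_neg, ← neg_smul]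
    congr 1
    simp [neg_div]
  have hhM : h ∈ M := by
    rw [hh]
    exact vn_smul M _ (sub_mem hzM (star_mem hzM))
  obtain ⟨p, hpM, hp, hpos, hcomm⟩ := exists_sign M hhM hhs
  obtain ⟨s, hs⟩ : ∃ s : H →L[ℂ] H, s = (2 : ℂ) • p - 1 := ⟨_, rfl⟩
  have hss : star s = s := by
    rw [hs, star_sub, star_smul, hp.1, star_one]
    simp
  have hs2 : s * s = 1 := by
    rw [hs, two_smul]
    calc (p + p - 1) * (p + p - 1) =
        p * p + p * p + p * p + p * p - p - p - p - p + 1 := by noncomm_ring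
      _ = 1 := by rw [hp.2]; abel
  have hsc : ∀ b : H →L[ℂ] H, b * z = z * b → b * star z = star z * b → b * s = s * b := by
    intro b hb1 hb2
    have k1 : b * h = h * b := by
      rw [hh, mul_smul_comm, smul_mul_assoc, mul_sub, sub_mul, hb1, hb2]
    have k2 : star b * h = h * star b := by
      have := congrArg star k1
      rw [star_mul, star_mul, hhs.star_eq] at this
      exact this.symm
    rw [hs, mul_sub, sub_mul, mul_smul_comm, smul_mul_assoc, hcomm b k1 k2, mul_one, one_mul]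
  have hzs : z * s = s * z := hsc z rfl (by rw [hz.1, hz.2])
  obtain ⟨c, hc⟩ : ∃ c : H →L[ℂ] H, c = ((Real.cos θ : ℝ) : ℂ) • 1 +
    ((Real.sin θ : ℝ) * Complex.I : ℂ) • s := ⟨_, rfl⟩
  have hcs : star c = ((Real.cos θ : ℝ) : ℂ) • 1 - ((Real.sin θ : ℝ) * Complex.I : ℂ) • s := by
    rw [hc, star_add, star_smul, star_smul, star_one, hss, sub_eq_add_neg, ← neg_smul]
    congr 2
    · rw [Complex.star_def, Complex.conj_ofReal]
    · rw [Complex.star_def, map_mul, Complex.conj_ofReal, Complex.conj_I, mul_neg]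
  have hcs2 : ((Real.cos θ : ℝ) : ℂ) * ((Real.cos θ : ℝ) : ℂ) +
      ((Real.sin θ : ℝ) : ℂ) * ((Real.sin θ : ℝ) : ℂ) = 1 := by
    have := Real.cos_sq_add_sin_sq θ
    have h2 : ((Real.cos θ : ℝ) : ℂ) ^ 2 + ((Real.sin θ : ℝ) : ℂ) ^ 2 = 1 := by exact_mod_cast this
    rw [← h2]; ring
  have hcu : Un c := by
    constructor
    · rw [hcs, hc]
      simp only [sub_mul, mul_add, smul_mul_smul_comm, one_mul, mul_one, hs2]
      have : ((Real.sin θ : ℝ) * Complex.I : ℂ) * ((Real.sin θ : ℝ) * Complex.I : ℂ) =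
          - (((Real.sin θ : ℝ) : ℂ) * ((Real.sin θ : ℝ) : ℂ)) := by
        have := Complex.I_mul_I
        linear_combination (((Real.sin θ : ℝ) : ℂ) * ((Real.sin θ : ℝ) : ℂ)) * this
      rw [this]
      have e0 : ((((Real.cos θ : ℝ) : ℂ) * ((Real.cos θ : ℝ) : ℂ) +
        ((Real.sin θ : ℝ) : ℂ) * ((Real.sin θ : ℝ) : ℂ)) • (1 : H →L[ℂ] H)) = 1 := by
        rw [hcs2, one_smul]
      refine Eq.trans ?_ e0
      module
    · rw [hcs, hc]
      simp only [add_mul, mul_sub, smul_mul_smul_comm, one_mul, mul_one, hs2]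
      have : ((Real.sin θ : ℝ) * Complex.I : ℂ) * ((Real.sin θ : ℝ) * Complex.I : ℂ) =
          - (((Real.sin θ : ℝ) : ℂ) * ((Real.sin θ : ℝ) : ℂ)) := by
        have := Complex.I_mul_I
        linear_combination (((Real.sin θ : ℝ) : ℂ) * ((Real.sin θ : ℝ) : ℂ)) * this
      rw [this]
      have e0 : ((((Real.cos θ : ℝ) : ℂ) * ((Real.cos θ : ℝ) : ℂ) +
        ((Real.sin θ : ℝ) : ℂ) * ((Real.sin θ : ℝ) : ℂ)) • (1 : H →L[ℂ] H)) = 1 := by
        rw [hcs2, one_smul]
      refine Eq.trans ?_ e0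
      module
  have hcM : c ∈ M := by
    rw [hc, hs]
    exact add_mem (vn_smul M _ (one_mem M)) (vn_smul M _ (sub_mem (vn_smul M _ hpM) (one_mem M)))
  have hcos : 1 - Real.cos θ ≤ θ ^ 2 / 2 := by
    have := Real.one_sub_sq_div_two_le_cos (x := θ)
    linarith
  refine ⟨c, hcM, hcu, ?_, ?_, ?_⟩
  · have e1 : star (c - 1) * (c - 1) = ((2 * (1 - Real.cos θ) : ℝ) : ℂ) • 1 := by
      rw [star_sub, star_one, sub_mul, mul_sub, hcu.1, mul_one, one_mul, hcs, hc]
      push_cast
      rw [mul_sub, mul_one, sub_smul, two_smul ℂ (1 : H →L[ℂ] H), two_mul, add_smul]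
      abel
    have e2 : ‖c - 1‖ * ‖c - 1‖ ≤ θ ^ 2 := by
      rw [← CStarRing.norm_star_mul_self, e1, norm_smul, Complex.norm_real, Real.norm_eq_abs,
        abs_of_nonneg (by nlinarith [Real.cos_le_one θ])]
      have h1 : ‖(1 : H →L[ℂ] H)‖ ≤ 1 := norm_one_le_one
      have h2 : 0 ≤ 2 * (1 - Real.cos θ) := by nlinarith [Real.cos_le_one θ]
      nlinarith
    by_contra hlt
    push Not at hlt
    nlinarith [norm_nonneg (c - 1)]
  · intro ζ
    have k1 := @norm_sub_sq ℂ H _ _ _ ζ ((z * c) ζ)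
    rw [(hz.mul hcu).norm_apply] at k1
    have k4 : RCLike.re ⟪ζ, (z * c) ζ⟫_ℂ = (⟪ζ, (z * c) ζ⟫_ℂ).re := rfl
    rw [k4] at k1
    have k5 : (⟪ζ, (z * c) ζ⟫_ℂ).re ≤ Real.cos θ * ‖ζ‖ ^ 2 := by
      have e1 : z * c = ((Real.cos θ : ℝ) : ℂ) • z + ((Real.sin θ : ℝ) * Complex.I : ℂ) • (z * s) := by
        rw [hc, mul_add, mul_smul_comm, mul_smul_comm, mul_one]
      rw [e1, add_apply, inner_add_right, smul_apply, smul_apply, inner_smul_right,
        inner_smul_right, Complex.add_re, Complex.re_ofReal_mul]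
      have e2 : (((Real.sin θ : ℝ) : ℂ) * Complex.I * ⟪ζ, (z * s) ζ⟫_ℂ).re =
          - (Real.sin θ * (⟪ζ, (h * s) ζ⟫_ℂ).re) := by
        have e3 : ⟪ζ, (star z * s) ζ⟫_ℂ = (starRingEnd ℂ) ⟪ζ, (z * s) ζ⟫_ℂ := by
          have : star z * s = star (z * s) := by
            rw [star_mul, hss]
            have := congrArg star hzs
            rw [star_mul, star_mul, hss] at this
            exact this.symm
          rw [this, ContinuousLinearMap.star_eq_adjoint,
            ContinuousLinearMap.adjoint_inner_right]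
          exact (inner_conj_symm _ _).symm
        have e4 : ⟪ζ, (h * s) ζ⟫_ℂ = (-Complex.I / 2) * (⟪ζ, (z * s) ζ⟫_ℂ -
            (starRingEnd ℂ) ⟪ζ, (z * s) ζ⟫_ℂ) := by
          rw [hh, smul_mul_assoc, sub_mul, smul_apply, sub_apply, inner_smul_right,
            inner_sub_right, e3]
        rw [e4]
        obtain ⟨w, hw⟩ : ∃ w : ℂ, w = ⟪ζ, (z * s) ζ⟫_ℂ := ⟨_, rfl⟩
        rw [← hw, Complex.sub_conj]
        have e5 : (-Complex.I / 2) * (((2 * w.im : ℝ) : ℂ) * Complex.I) = ((w.im : ℝ) : ℂ) := by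
          have := Complex.I_mul_I
          push_cast
          linear_combination (-(w.im : ℂ)) * this
        rw [e5, Complex.ofReal_re, mul_assoc, Complex.re_ofReal_mul, Complex.I_mul_re]
        ring
      rw [e2]
      have e6 := hpos ζ
      rw [← hs] at e6
      have e7 : 0 ≤ Real.sin θ := (Real.sin_pos_of_pos_of_le_one hθ0 hθ1).le
      have e8 : (⟪ζ, z ζ⟫_ℂ).re ≤ ‖ζ‖ ^ 2 := by
        refine (Complex.re_le_norm _).trans ((norm_inner_le_norm _ _).trans ?_)
        rw [hz.norm_apply, sq]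
      have e9 : 0 ≤ Real.cos θ := (Real.cos_pos_of_le_one (by rw [abs_of_pos hθ0]; exact hθ1)).le
      nlinarith [mul_nonneg e7 e6, mul_le_mul_of_nonneg_left e8 e9]
    have k6 : (Real.sqrt (2 * (1 - Real.cos θ)) * ‖ζ‖) ^ 2 ≤ ‖ζ - (z * c) ζ‖ ^ 2 := by
      rw [mul_pow, Real.sq_sqrt (by nlinarith [Real.cos_le_one θ]), k1]
      nlinarith
    exact le_of_sq_le_sq k6 (norm_nonneg _)
  · intro b hb1 hb2
    rw [hc, mul_add, add_mul, mul_smul_comm, mul_smul_comm, smul_mul_assoc, smul_mul_assoc,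
      mul_one, one_mul, hsc b hb1 hb2]

theorem gam_pos {θ : ℝ} (hθ0 : 0 < θ) (hθ1 : θ ≤ 1) : 0 < Real.sqrt (2 * (1 - Real.cos θ)) := by
  refine Real.sqrt_pos.mpr ?_
  have h1 : Real.cos θ < 1 := by
    have h2 : 0 < Real.sin θ := Real.sin_pos_of_pos_of_le_one hθ0 hθ1
    have h3 := Real.sin_sq_add_cos_sq θ
    nlinarith [Real.cos_le_one θ]
  linarith

/-- creating finitely many gaps -/
theorem gap_fam (k : ℕ) : ∃ γ : ℝ, 0 < γ ∧ ∀ (H : Type) [NormedAddCommGroup H]
    [InnerProductSpace ℂ H] [CompleteSpace H] (M : VonNeumannAlgebra H)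
    (z : Fin k → (H →L[ℂ] H)), (∀ i, z i ∈ M ∧ Un (z i)) →
    ∃ a ∈ M, Un a ∧ ∀ i, gp γ (z i * a) := by
  induction k with
  | zero => exact ⟨1, one_pos, fun H _ _ _ M z _ => ⟨1, one_mem M, Un.one, fun i => i.elim0⟩⟩
  | succ k ih =>
    obtain ⟨γ, hγ, h⟩ := ih
    obtain ⟨θ, hθ⟩ : ∃ θ : ℝ, θ = min 1 (γ / 2) := ⟨_, rfl⟩
    have hθ0 : 0 < θ := by rw [hθ]; exact lt_min one_pos (by linarith)
    have hθ1 : θ ≤ 1 := by rw [hθ]; exact min_le_left _ _
    have hθ2 : θ ≤ γ / 2 := by rw [hθ]; exact min_le_right _ _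
    refine ⟨min (γ / 2) (Real.sqrt (2 * (1 - Real.cos θ))), lt_min (by linarith)
      (gam_pos hθ0 hθ1), fun H _ _ _ M z hz => ?_⟩
    obtain ⟨a, haM, ha, hga⟩ := h H M (fun i => z i.castSucc) (fun i => hz _)
    obtain ⟨c, hcM, hc, hc1, hgc, -⟩ := gap_one M (mul_mem (hz (Fin.last k)).1 haM)
      ((hz (Fin.last k)).2.mul ha) hθ0 hθ1
    refine ⟨a * c, mul_mem haM hcM, ha.mul hc, fun i => ?_⟩
    induction i using Fin.lastCases with
    | last =>
      rw [← mul_assoc]
      exact hgc.mono (min_le_right _ _)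
    | cast i =>
      have h1 : ‖z i.castSucc * a - z i.castSucc * (a * c)‖ ≤ θ := by
        have e : z i.castSucc * a - z i.castSucc * (a * c) = z i.castSucc * a * (1 - c) := by
          noncomm_ring
        rw [e]
        refine (((hz _).2.mul ha).norm_mul_left _).trans ?_
        rw [norm_sub_rev]
        exact hc1
      refine ((hga i).pert h1).mono ?_
      refine (min_le_left _ _).trans ?_
      linarith

/-- unitaries near elements of an algebra -/
theorem unitary_near (N : VonNeumannAlgebra H) {a y : H →L[ℂ] H} (ha : Un a) (hy : y ∈ N) {η : ℝ}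
    (hη : η ≤ 1 / 8) (hay : ‖a - y‖ ≤ η) : ∃ b ∈ N, Un b ∧ ‖a - b‖ ≤ 9 * η ∧
      ∃ p ∈ N, b = y * p ∧ (∀ f : H →L[ℂ] H, star y * (y * f) = f → p * f = f) ∧
        ∀ t : H →L[ℂ] H, t * (star y * y) = star y * y * t → t * p = p * t := by
  have hη0 : 0 ≤ η := (norm_nonneg _).trans hay
  have hyn : ‖y‖ ≤ 1 + η := by
    calc ‖y‖ = ‖a - (a - y)‖ := by rw [sub_sub_cancel]
      _ ≤ ‖a‖ + ‖a - y‖ := norm_sub_le _ _
      _ ≤ 1 + η := add_le_add ha.norm_le hay
  have hP : ‖star y * y - 1‖ ≤ 3 * η := by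
    have e : star y * y - 1 = star y * (y - a) + star (y - a) * a := by
      rw [star_sub, ← ha.1]
      noncomm_ring
    rw [e]
    have n1 : ‖star y * (y - a)‖ ≤ (1 + η) * η := (norm_mul_le _ _).trans
      (mul_le_mul (by rw [norm_star]; exact hyn) (by rw [norm_sub_rev]; exact hay)
        (norm_nonneg _) (by positivity))
    have n2 : ‖star (y - a) * a‖ ≤ η := (ha.norm_mul_right _).trans
      (by rw [norm_star, norm_sub_rev]; exact hay)
    refine (norm_add_le _ _).trans ?_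
    nlinarith
  obtain ⟨p, hps, hpp, hp1, hpc⟩ := sqrt_near (star y * y) (by rw [star_mul, star_star]) (3 * η)
    (by linarith) hP
  obtain ⟨q, hpq, hqp, hq1⟩ := inv_near p (3 * η) (by linarith) hp1
  have hqs : star q = q := by
    have h1 : star q * p = 1 := by
      have := congrArg star hpq
      rwa [star_mul, hps, star_one] at this
    exact inv_uniq h1 hpq
  have hyy : star y * y ∈ N := mul_mem (star_mem hy) hy
  have hpN : p ∈ N := mem_of_comm N (star y * y) p hyy hpc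
  have hqN : q ∈ N := mem_of_comm N p q hpN fun b hb => comm_inv hpq hqp hb
  have hbb : star (y * q) * (y * q) = 1 := by
    rw [star_mul, hqs]
    calc q * star y * (y * q) = q * (star y * y) * q := by noncomm_ring
      _ = (q * p) * (p * q) := by rw [← hpp]; noncomm_ring
      _ = 1 := by rw [hqp, hpq, one_mul]
  have hnear : ‖a - y * q‖ ≤ 9 * η := by
    have e : a - y * q = (a - y) - y * (q - 1) := by noncomm_ring
    rw [e]
    have n1 : ‖y * (q - 1)‖ ≤ (1 + η) * (2 * (3 * η)) :=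
      (norm_mul_le _ _).trans (mul_le_mul hyn hq1 (norm_nonneg _) (by positivity))
    refine (norm_sub_le _ _).trans ?_
    nlinarith
  -- invertibility of `y`
  have hinv : ∃ w : H →L[ℂ] H, (y * q) * w = 1 := by
    obtain ⟨T, hT1, -, -⟩ := inv_near (star a * y) (1 / 2) le_rfl (by
      have e : star a * y - 1 = star a * (y - a) := by rw [mul_sub, ha.1]
      rw [e]
      refine (ha.star.norm_mul_left _).trans ?_
      rw [norm_sub_rev]
      linarith)
    refine ⟨p * T * star a, ?_⟩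
    calc y * q * (p * T * star a) = y * (q * p) * T * star a := by noncomm_ring
      _ = (a * star a) * y * T * star a := by rw [hqp, mul_one, ha.2, one_mul]
      _ = a * (star a * y * T) * star a := by noncomm_ring
      _ = 1 := by rw [hT1, mul_one, ha.2]
  obtain ⟨w, hw⟩ := hinv
  have hww : star (y * q) = w := inv_uniq hbb hw
  refine ⟨y * q, mul_mem hy hqN, ⟨hbb, by rw [hww]; exact hw⟩, hnear, q, hqN, rfl, ?_, ?_⟩
  · intro f hf
    -- `p * p * f = f`
    have h1 : (p + 1) * ((p - 1) * f) = 0 := by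
      have : (p + 1) * ((p - 1) * f) = (p * p) * f - f := by noncomm_ring
      rw [this, hpp, mul_assoc, hf, sub_self]
    obtain ⟨T, -, hT, -⟩ := inv_near ((1 / 2 : ℂ) • (p + 1)) (3 / 16) (by norm_num) (by
      have e : (1 / 2 : ℂ) • (p + 1) - 1 = (1 / 2 : ℂ) • (p - 1) := by
        rw [smul_add, smul_sub, ← sub_eq_zero]
        have : (1 / 2 : ℂ) • p + (1 / 2 : ℂ) • 1 - 1 - ((1 / 2 : ℂ) • p - (1 / 2 : ℂ) • 1) =
          ((1 / 2 : ℂ) + (1 / 2 : ℂ)) • (1 : H →L[ℂ] H) - 1 := by rw [add_smul]; abel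
        rw [this]
        norm_num
      rw [e, norm_smul]
      have : ‖(1 / 2 : ℂ)‖ = 1 / 2 := by simp
      rw [this]
      linarith)
    have h2 : (p - 1) * f = 0 := by
      have h3 : T * ((1 / 2 : ℂ) • ((p + 1) * ((p - 1) * f))) = (p - 1) * f := by
        rw [← smul_mul_assoc, ← mul_assoc, hT, one_mul]
      rw [← h3, h1, smul_zero, mul_zero]
    have h4 : p * f = f := by
      have : (p - 1) * f = p * f - f := by noncomm_ring
      rw [this] at h2
      exact sub_eq_zero.mp h2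
    calc q * f = q * (p * f) := by rw [h4]
      _ = f := by rw [← mul_assoc, hqp, one_mul]
  · intro t ht
    exact comm_inv hpq hqp (hpc t ht)

end Pool.Agent.H256.KS
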