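import Mathlib
import Pool.Graph.R_pool_sql_team_seeded_ab47071d.TH254.CC.Core

set_option autoImplicit false
set_option linter.unusedSectionVars false
set_option linter.unusedVariables false

/-! The dual of `L¹` of an abelian von Neumann algebra with a faithful vector state.

The ball of radius `K` of the selfadjoint part of `A` is compact in the weak operator topology, and a
functional which satisfies the hypothesis cannot be separated from the functionals given by the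
elements of this ball. -/

open scoped InnerProductSpace ComplexOrder
open Filter

namespace Pool.Agent.H256.KS

open Pool.Agent.TH254.CC

variable {H : Type} [NormedAddCommGroup H] [InnerProductSpace ℂ H] [CompleteSpace H]

theorem inner_sum_mul (ξ : H) {ι : Type} (s : Finset ι) (w : ι → ℝ) (a : ι → (H →L[ℂ] H))
    (b : H →L[ℂ] H) :
    (⟪ξ, ((∑ i ∈ s, (w i : ℂ) • a i) * b) ξ⟫_ℂ).re = ∑ i ∈ s, w i * (⟪ξ, (a i * b) ξ⟫_ℂ).re := by
  classical
  induction s using Finset.induction_on with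
  | empty => simp
  | insert i s hi ih =>
    rw [Finset.sum_insert hi, Finset.sum_insert hi, add_mul, ← ih]
    have : (((w i : ℂ) • a i * b + (∑ i ∈ s, (w i : ℂ) • a i) * b) ξ) =
        (w i : ℂ) • ((a i * b) ξ) + ((∑ i ∈ s, (w i : ℂ) • a i) * b) ξ := by
      rw [smul_mul_assoc]
      rfl
    rw [this, inner_add_right, inner_smul_right, Complex.add_re, Complex.re_ofReal_mul]

theorem phi_sum (A : VonNeumannAlgebra H) (φ : (H →L[ℂ] H) → ℝ)
    (hadd : ∀ a ∈ A, ∀ b ∈ A, star a = a → star b = b → φ (a + b) = φ a + φ b)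
    (hsmul : ∀ c : ℝ, ∀ a ∈ A, star a = a → φ ((c : ℂ) • a) = c * φ a)
    {ι : Type} (s : Finset ι) (w : ι → ℝ) (a : ι → (H →L[ℂ] H))
    (ha : ∀ i, a i ∈ A ∧ star (a i) = a i) :
    (∑ i ∈ s, (w i : ℂ) • a i) ∈ A ∧ star (∑ i ∈ s, (w i : ℂ) • a i) = ∑ i ∈ s, (w i : ℂ) • a i ∧
      φ (∑ i ∈ s, (w i : ℂ) • a i) = ∑ i ∈ s, w i * φ (a i) := by
  classical
  induction s using Finset.induction_on with
  | empty =>
    refine ⟨by simp, by simp, ?_⟩
    have h := hsmul 0 0 (zero_mem A) (star_zero _)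
    simp only [Complex.ofReal_zero, zero_smul, zero_mul] at h
    simpa using h
  | insert i s hi ih =>
    rw [Finset.sum_insert hi, Finset.sum_insert hi]
    have h1 : (w i : ℂ) • a i ∈ A := vn_smul A _ (ha i).1
    have h2 : star ((w i : ℂ) • a i) = (w i : ℂ) • a i := by
      rw [star_smul, (ha i).2]
      congr 1
      exact Complex.conj_ofReal _
    refine ⟨add_mem h1 ih.1, by rw [star_add, h2, ih.2.1], ?_⟩
    rw [hadd _ h1 _ ih.1 h2 ih.2.1, ih.2.2, hsmul _ _ (ha i).1 (ha i).2]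

theorem riesz_fin (A : VonNeumannAlgebra H) (ξ : H) (φ : (H →L[ℂ] H) → ℝ)
    (hadd : ∀ a ∈ A, ∀ b ∈ A, star a = a → star b = b → φ (a + b) = φ a + φ b)
    (hsmul : ∀ c : ℝ, ∀ a ∈ A, star a = a → φ ((c : ℂ) • a) = c * φ a) (K : ℝ) (hK : 0 ≤ K)
    (hφ : ∀ a ∈ A, star a = a → ∀ c : ℝ,
      (∀ b ∈ A, star b = b → ‖b‖ ≤ 1 → (⟪ξ, (a * b) ξ⟫_ℂ).re ≤ c) → φ a ≤ K * c)
    (F : Finset (H →L[ℂ] H)) (ε : ℝ) (hε : 0 < ε) :
    ∃ d ∈ A, star d = d ∧ ‖d‖ ≤ K ∧ ∀ a ∈ F, a ∈ A → star a = a →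
      |φ a - (⟪ξ, (a * d) ξ⟫_ℂ).re| ≤ ε := by
  classical
  let ι := {a : H →L[ℂ] H // a ∈ F ∧ a ∈ A ∧ star a = a}
  haveI : Finite ι := Set.Finite.subset (F.finite_toSet) fun a ha => ha.1
  haveI : Fintype ι := Fintype.ofFinite ι
  let C : Set (ι → ℝ) := {y | ∃ d ∈ A, star d = d ∧ ‖d‖ ≤ K ∧
    ∀ i : ι, y i = (⟪ξ, (i.1 * d) ξ⟫_ℂ).re}
  have hC : Convex ℝ C := by
    rintro y ⟨d, hd, hds, hdn, hy⟩ z ⟨e, he, hes, hen, hz⟩ s t hs ht hst
    refine ⟨(s : ℂ) • d + (t : ℂ) • e, add_mem (vn_smul A _ hd) (vn_smul A _ he), ?_, ?_, ?_⟩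
    · rw [star_add, star_smul, star_smul, hds, hes]
      congr 2
      · exact Complex.conj_ofReal _
      · exact Complex.conj_ofReal _
    · refine (norm_add_le _ _).trans ?_
      rw [norm_smul, norm_smul, Complex.norm_real, Complex.norm_real, Real.norm_of_nonneg hs,
        Real.norm_of_nonneg ht]
      calc s * ‖d‖ + t * ‖e‖ ≤ s * K + t * K := by gcongr
        _ = K := by rw [← add_mul, hst, one_mul]
    · intro i
      have h1 : (i.1 * ((s : ℂ) • d + (t : ℂ) • e)) ξ =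
          (s : ℂ) • ((i.1 * d) ξ) + (t : ℂ) • ((i.1 * e) ξ) := by
        rw [mul_add, mul_smul_comm, mul_smul_comm]
        rfl
      rw [h1, inner_add_right, inner_smul_right, inner_smul_right, Complex.add_re,
        Complex.re_ofReal_mul, Complex.re_ofReal_mul, ← hy i, ← hz i]
      simp
  let p : ι → ℝ := fun i => φ i.1
  have hp : p ∈ closure C := by
    by_contra hp
    obtain ⟨f, u, h1, h2⟩ := geometric_hahn_banach_closed_point hC.closure isClosed_closure hp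
    let w : ι → ℝ := fun i => f (fun j => if i = j then 1 else 0)
    have hf : ∀ y : ι → ℝ, f y = ∑ i, w i * y i := by
      intro y
      have := LinearMap.pi_apply_eq_sum_univ (f : (ι → ℝ) →ₗ[ℝ] ℝ) y
      have h3 : f y = ∑ i, y i • w i := this
      rw [h3]
      exact Finset.sum_congr rfl fun i _ => by rw [smul_eq_mul, mul_comm]
    obtain ⟨m1, m2, m3⟩ := phi_sum A φ hadd hsmul (Finset.univ : Finset ι) w (fun i => i.1)
      (fun i => i.2.2)
    set a : H →L[ℂ] H := ∑ i : ι, (w i : ℂ) • i.1 with ha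
    have hpa : f p = φ a := by rw [hf, m3]
    have hu : ∀ d ∈ A, star d = d → ‖d‖ ≤ K → (⟪ξ, (a * d) ξ⟫_ℂ).re < u := by
      intro d hd hds hdn
      have h3 := h1 (fun i => (⟪ξ, (i.1 * d) ξ⟫_ℂ).re)
        (subset_closure ⟨d, hd, hds, hdn, fun i => rfl⟩)
      rw [hf] at h3
      rw [ha, inner_sum_mul]
      exact h3
    rcases hK.eq_or_lt with hK0 | hK0
    · have h4 := hu 0 (zero_mem A) (star_zero _) (by rw [norm_zero]; exact hK)
      simp only [mul_zero, ContinuousLinearMap.zero_apply, inner_zero_right, Complex.zero_re] at h4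
      have h5 := hφ a m1 m2 (‖ξ‖ * (‖a‖ * ‖ξ‖)) (by
        intro b hb hbs hbn
        refine (Complex.re_le_norm _).trans ((norm_inner_le_norm _ _).trans ?_)
        gcongr
        refine ((a * b).le_opNorm ξ).trans ?_
        gcongr
        refine (norm_mul_le _ _).trans ?_
        exact mul_le_of_le_one_right (norm_nonneg _) hbn)
      rw [← hK0, zero_mul] at h5
      rw [hpa] at h2
      linarith
    · have h5 := hφ a m1 m2 (u / K) (by
        intro b hb hbs hbn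
        have h6 := hu ((K : ℂ) • b) (vn_smul A _ hb) (by
          rw [star_smul, hbs]
          congr 1
          exact Complex.conj_ofReal _) (by
          rw [norm_smul, Complex.norm_real, Real.norm_of_nonneg hK]
          exact mul_le_of_le_one_right hK hbn)
        have h7 : (a * ((K : ℂ) • b)) ξ = (K : ℂ) • ((a * b) ξ) := by
          rw [mul_smul_comm]
          rfl
        rw [h7, inner_smul_right, Complex.re_ofReal_mul] at h6
        rw [le_div_iff₀ hK0, mul_comm]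
        exact h6.le)
      rw [mul_div_cancel₀ _ hK0.ne'] at h5
      rw [hpa] at h2
      linarith
  obtain ⟨y, ⟨d, hd, hds, hdn, hy⟩, hpy⟩ := Metric.mem_closure_iff.mp hp ε hε
  refine ⟨d, hd, hds, hdn, fun a ha haA has => ?_⟩
  have h1 := (dist_le_pi_dist p y ⟨a, ha, haA, has⟩).trans hpy.le
  rw [hy, Real.dist_eq] at h1
  exact h1

theorem riesz_abelian {H : Type} [NormedAddCommGroup H] [InnerProductSpace ℂ H] [CompleteSpace H]
    (A : VonNeumannAlgebra H) (hA : ∀ a ∈ A, ∀ b ∈ A, a * b = b * a) (ξ : H) (hξ : ‖ξ‖ = 1)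
    (hf : ∀ a ∈ A, a ξ = 0 → a = 0) (φ : (H →L[ℂ] H) → ℝ)
    (hadd : ∀ a ∈ A, ∀ b ∈ A, star a = a → star b = b → φ (a + b) = φ a + φ b)
    (hsmul : ∀ c : ℝ, ∀ a ∈ A, star a = a → φ ((c : ℂ) • a) = c * φ a) (K : ℝ) (hK : 0 ≤ K)
    (hφ : ∀ a ∈ A, star a = a → ∀ c : ℝ,
      (∀ b ∈ A, star b = b → ‖b‖ ≤ 1 → (⟪ξ, (a * b) ξ⟫_ℂ).re ≤ c) → φ a ≤ K * c) :
    ∃ d ∈ A, star d = d ∧ ‖d‖ ≤ K ∧ ∀ a ∈ A, star a = a → φ a = (⟪ξ, (a * d) ξ⟫_ℂ).re := by
  classical
  have h0 := fun (j : Finset (H →L[ℂ] H) × ℕ) =>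
    riesz_fin A ξ φ hadd hsmul K hK hφ j.1 (1 / ((j.2 : ℝ) + 1)) (by positivity)
  choose T hT1 hT2 hT3 hT4 using h0
  let U : Ultrafilter (Finset (H →L[ℂ] H) × ℕ) := Ultrafilter.of atTop
  have hU : (U : Filter (Finset (H →L[ℂ] H) × ℕ)) ≤ atTop := Ultrafilter.of_le atTop
  obtain ⟨S, hS1, hS2⟩ := H710R2.DP.dp_ulim H _ U T K hT3
  refine ⟨S, ?_, ?_, hS1, ?_⟩
  · refine mem_of_comm_commutant A fun t ht => ?_
    ext1 x
    refine ext_inner_left ℂ fun y => ?_
    show ⟪y, t (S x)⟫_ℂ = ⟪y, S (t x)⟫_ℂ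
    refine tendsto_nhds_unique ?_ (hS2 (t x) y)
    have h1 := hS2 x (star t y)
    have h2 : ⟪star t y, S x⟫_ℂ = ⟪y, t (S x)⟫_ℂ := by
      rw [ContinuousLinearMap.star_eq_adjoint, ContinuousLinearMap.adjoint_inner_left]
    rw [h2] at h1
    refine h1.congr fun j => ?_
    rw [ContinuousLinearMap.star_eq_adjoint, ContinuousLinearMap.adjoint_inner_left]
    have h3 : T j * t = t * T j := VonNeumannAlgebra.mem_commutant_iff.mp ht _ (hT1 j)
    have h4 := congrArg (fun s : H →L[ℂ] H => s x) h3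
    exact congrArg (fun v => ⟪y, v⟫_ℂ) h4.symm
  · ext1 x
    refine ext_inner_left ℂ fun y => ?_
    have h1 : ⟪y, star S x⟫_ℂ = ⟪S y, x⟫_ℂ := by
      rw [ContinuousLinearMap.star_eq_adjoint, ContinuousLinearMap.adjoint_inner_right]
    rw [h1, ← inner_conj_symm]
    have h2 : Tendsto (fun j => (starRingEnd ℂ) ⟪x, T j y⟫_ℂ) U
        (nhds ((starRingEnd ℂ) ⟪x, S y⟫_ℂ)) :=
      (Complex.continuous_conj.tendsto _).comp (hS2 y x)
    refine tendsto_nhds_unique h2 ((hS2 x y).congr fun j => ?_)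
    rw [inner_conj_symm]
    have h3 : ⟪y, star (T j) x⟫_ℂ = ⟪T j y, x⟫_ℂ := by
      rw [ContinuousLinearMap.star_eq_adjoint, ContinuousLinearMap.adjoint_inner_right]
    rw [← h3, hT2 j]
  · intro a ha has
    have h1 : Tendsto (fun j => (⟪ξ, (a * T j) ξ⟫_ℂ).re) U (nhds (⟪ξ, (a * S) ξ⟫_ℂ).re) := by
      refine (Complex.continuous_re.tendsto _).comp ?_
      have h2 := hS2 ξ (star a ξ)
      have h3 : ∀ t : H →L[ℂ] H, ⟪star a ξ, t ξ⟫_ℂ = ⟪ξ, (a * t) ξ⟫_ℂ := by
        intro t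
        rw [ContinuousLinearMap.star_eq_adjoint, ContinuousLinearMap.adjoint_inner_left]
        rfl
      simp only [h3] at h2
      exact h2
    refine tendsto_nhds_unique ?_ h1
    rw [tendsto_iff_dist_tendsto_zero]
    have h4 : Tendsto (fun j : Finset (H →L[ℂ] H) × ℕ => 1 / ((j.2 : ℝ) + 1)) atTop (nhds 0) := by
      have h5 := tendsto_one_div_add_atTop_nhds_zero_nat (𝕜 := ℝ)
      rw [← Filter.prod_atTop_atTop_eq]
      exact h5.comp tendsto_snd
    refine squeeze_zero' (Eventually.of_forall fun j => dist_nonneg) ?_ (h4.mono_left hU)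
    have h6 : ∀ᶠ j in (atTop : Filter (Finset (H →L[ℂ] H) × ℕ)), a ∈ j.1 := by
      filter_upwards [eventually_ge_atTop (({a} : Finset (H →L[ℂ] H)), 0)] with j hj
      exact hj.1 (Finset.mem_singleton_self a)
    filter_upwards [hU h6] with j hj
    rw [dist_comm, Real.dist_eq]
    exact hT4 j a hj ha has

end Pool.Agent.H256.KS
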