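import Mathlib
import Pool.Agent.H256.KS.Gap2
import Pool.Agent.H256.KS.Riesz
import Pool.Agent.H256.KS.CobD

set_option autoImplicit false
set_option linter.unusedSectionVars false

/-! From an inequality for families of projections to a coboundary (Hahn-Banach).

Paper proof (sketch).  `τ a = ⟪ξ, a ξ⟫`, `α g a = U g * a * star (U g)`.  `S` = real vector space of
selfadjoint elements of `A` (a `Submodule ℝ`), `C₁ = Γ →₀ S`, `C₂ = Γ × Γ →₀ S`.  Linear maps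
`T : C₂ → C₁`, `single (g, h) a ↦ single g a + single h (star (U g) * a * U g) - single (g * h) a`
and `F : C₂ → ℝ`, `single (g, h) a ↦ re τ (a * c g h)`.  Sublinear
`p b = sSup {∑ x ∈ b.support, re τ (b x * s x) | s x ∈ A, star (s x) = s x, ‖s x‖ ≤ 1}` on `C₁`.
1. `hstar` says `F b ≤ K * p (T b)` for `b` in the additive subgroup `L` generated by
   `single (g, h) p`, `p` a projection of `A`
   (`AddSubgroup.exists_list_of_mem_closure`).
2. For every `b ∈ C₂` and `ε > 0` there are `n ≥ 1` and `b' ∈ L` with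
   `∑ ‖n b - b'‖ ≤ n ε` (`span_proj` in `TH254/CC/Vn.lean`, real parts of the coefficients,
   rational approximation).  Both sides are homogeneous and Lipschitz, so `F b ≤ K * p (T b)` for
   all `b ∈ C₂`.
3. General lemma: `T : V → W`, `F : V → ℝ` linear, `F v ≤ q (T v)`, `q` sublinear: there is a linear
   `G : W → ℝ` with `G ∘ T = F` and `G ≤ q` (`LinearMap.exists_rightInverse_of_surjective` for
   `T.rangeRestrict`, `exists_extension_of_le_sublinear`).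
4. `φ_x a = G (single x a)` satisfies the hypothesis of `riesz_abelian` (with `K`), which gives
   `d x ∈ A` with `φ_x a = re τ (a * d x)`.  Then `re τ (a * c g h) =
   re τ (a * d g) + re τ (star (U g) * a * U g * d h) - re τ (a * d (g * h))
   = re τ (a * (d g + α g (d h) - d (g * h)))` for all selfadjoint `a ∈ A`, by `htr`; take
   `a = c g h - (d g + α g (d h) - d (g * h))`. -/

open scoped InnerProductSpace ComplexOrder

namespace Pool.Agent.H256.KS

open Pool.Agent.TH254.CC H759R2.Kad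

variable {H : Type} [NormedAddCommGroup H] [InnerProductSpace ℂ H] [CompleteSpace H]



/-- real part of the vector state, additive -/
noncomputable def rt (ξ : H) : (H →L[ℂ] H) →+ ℝ where
  toFun a := (⟪ξ, a ξ⟫_ℂ).re
  map_zero' := by simp
  map_add' a b := by
    show (⟪ξ, a ξ + b ξ⟫_ℂ).re = _
    rw [inner_add_right, Complex.add_re]

theorem rt_apply (ξ : H) (a : H →L[ℂ] H) : rt ξ a = (⟪ξ, a ξ⟫_ℂ).re := rfl

theorem rt_smul (ξ : H) (r : ℝ) (a : H →L[ℂ] H) : rt ξ ((r : ℂ) • a) = r * rt ξ a := by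
  rw [rt_apply, rt_apply]
  have : ((r : ℂ) • a) ξ = (r : ℂ) • a ξ := rfl
  rw [this, inner_smul_right, Complex.re_ofReal_mul]

theorem rt_bound (ξ : H) (hξ : ‖ξ‖ = 1) (a : H →L[ℂ] H) : |rt ξ a| ≤ ‖a‖ := by
  rw [rt_apply]
  refine (Complex.abs_re_le_norm _).trans ((norm_inner_le_norm _ _).trans ?_)
  rw [hξ, one_mul]
  refine (a.le_opNorm ξ).trans ?_
  rw [hξ, mul_one]

/-- sign as a real number -/
def sgr (b : Bool) : ℝ := if b then 1 else -1

theorem sgc_eq (b : Bool) : sgc b = ((sgr b : ℝ) : ℂ) := by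
  unfold sgc sgr
  split_ifs <;> simp

theorem approx_proj (A : VonNeumannAlgebra H) (hA : ∀ a ∈ A, ∀ b ∈ A, a * b = b * a)
    (a : H →L[ℂ] H) (ha : a ∈ A) (has : star a = a) (δ : ℝ) (hδ : 0 < δ) :
    ∃ N : ℕ, ∀ n : ℕ, N ≤ n → 1 ≤ n → ∃ (J : Type) (_ : Fintype J) (b : J → Bool)
      (p : J → (H →L[ℂ] H)), (∀ j, p j ∈ A ∧ IsPr (p j)) ∧
      ‖a - ((1 / (n : ℝ) : ℝ) : ℂ) • ∑ j, sgc (b j) • p j‖ ≤ δ := by
  classical
  obtain ⟨M, c, p, hp, hn⟩ := span_proj A hA a ha (δ / 2) (by positivity)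
  -- real coefficients
  have hre : ‖a - ∑ k, (((c k).re : ℝ) : ℂ) • p k‖ ≤ δ / 2 := by
    have h1 : ‖a - ∑ k, (starRingEnd ℂ) (c k) • p k‖ ≤ δ / 2 := by
      have h2 : star (a - ∑ k, c k • p k) = a - ∑ k, (starRingEnd ℂ) (c k) • p k := by
        rw [star_sub, has, star_sum]
        congr 1
        refine Finset.sum_congr rfl fun k _ => ?_
        rw [star_smul, (hp k).2.1]
        rfl
      rw [← h2, norm_star]
      exact hn
    have h3 : a - ∑ k, (((c k).re : ℝ) : ℂ) • p k =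
        (1 / 2 : ℂ) • ((a - ∑ k, c k • p k) + (a - ∑ k, (starRingEnd ℂ) (c k) • p k)) := by
      have h4 : ∑ k, (((c k).re : ℝ) : ℂ) • p k =
          (1 / 2 : ℂ) • (∑ k, c k • p k + ∑ k, (starRingEnd ℂ) (c k) • p k) := by
        rw [← Finset.sum_add_distrib, Finset.smul_sum]
        refine Finset.sum_congr rfl fun k _ => ?_
        rw [← add_smul, smul_smul, Complex.add_conj]
        congr 1
        push_cast
        ring
      rw [h4, show (a - ∑ k, c k • p k) + (a - ∑ k, (starRingEnd ℂ) (c k) • p k) =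
        (a + a) - (∑ k, c k • p k + ∑ k, (starRingEnd ℂ) (c k) • p k) by abel, smul_sub]
      congr 1
      rw [← two_smul ℂ a, smul_smul]
      norm_num
    rw [h3, norm_smul]
    have h5 : ‖(1 / 2 : ℂ)‖ = 1 / 2 := by simp
    rw [h5]
    have h6 := norm_add_le (a - ∑ k, c k • p k) (a - ∑ k, (starRingEnd ℂ) (c k) • p k)
    linarith
  obtain ⟨N, hN⟩ := exists_nat_ge (2 * (∑ k, ‖p k‖) / δ)
  refine ⟨N, fun n hNn hn1 => ?_⟩
  have hn0 : (0 : ℝ) < n := by exact_mod_cast hn1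
  have hNn' : (N : ℝ) ≤ n := by exact_mod_cast hNn
  let z : Fin M → ℤ := fun k => ⌊(n : ℝ) * (c k).re⌋
  refine ⟨(k : Fin M) × Fin (z k).natAbs, inferInstance, fun j => decide (0 ≤ z j.1),
    fun j => p j.1, fun j => hp j.1, ?_⟩
  have hs : ∑ j : (k : Fin M) × Fin (z k).natAbs, sgc (decide (0 ≤ z j.1)) • p j.1 =
      ∑ k, ((z k : ℝ) : ℂ) • p k := by
    rw [Fintype.sum_sigma]
    refine Finset.sum_congr rfl fun k _ => ?_
    show ∑ _y : Fin (z k).natAbs, sgc (decide (0 ≤ z k)) • p k = _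
    rw [Finset.sum_const, Finset.card_univ, Fintype.card_fin, ← Nat.cast_smul_eq_nsmul ℂ, smul_smul]
    congr 1
    unfold sgc
    by_cases h0 : 0 ≤ z k
    · rw [if_pos (by simpa using h0), mul_one]
      have : ((z k).natAbs : ℤ) = z k := Int.natAbs_of_nonneg h0
      have h1 : (((z k).natAbs : ℕ) : ℂ) = (((z k).natAbs : ℤ) : ℂ) := (Int.cast_natCast _).symm
      rw [h1, this]
      push_cast
      rfl
    · rw [if_neg (by simpa using h0)]
      have : ((z k).natAbs : ℤ) = -z k := by omega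
      have h1 : (((z k).natAbs : ℕ) : ℂ) = (((z k).natAbs : ℤ) : ℂ) := (Int.cast_natCast _).symm
      rw [h1, this]
      push_cast
      ring
  rw [hs]
  have h1 : ‖(∑ k, (((c k).re : ℝ) : ℂ) • p k) - ((1 / (n : ℝ) : ℝ) : ℂ) • ∑ k, ((z k : ℝ) : ℂ) • p k‖ ≤ δ / 2 := by
    rw [Finset.smul_sum, ← Finset.sum_sub_distrib]
    refine (norm_sum_le _ _).trans ?_
    have h2 : ∀ k, ‖(((c k).re : ℝ) : ℂ) • p k - ((1 / (n : ℝ) : ℝ) : ℂ) • ((z k : ℝ) : ℂ) • p k‖ ≤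
        (1 / n) * ‖p k‖ := by
      intro k
      rw [smul_smul, ← sub_smul, norm_smul]
      gcongr
      rw [← Complex.ofReal_mul, ← Complex.ofReal_sub, Complex.norm_real, Real.norm_eq_abs]
      have h3 := Int.floor_le ((n : ℝ) * (c k).re)
      have h4 := Int.lt_floor_add_one ((n : ℝ) * (c k).re)
      have h5 : (c k).re - 1 / (n : ℝ) * (z k : ℝ) = (1 / n) * ((n : ℝ) * (c k).re - (z k : ℝ)) := by
        field_simp
      rw [h5, abs_mul, abs_of_pos (by positivity : (0 : ℝ) < 1 / n)]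
      refine mul_le_of_le_one_right (by positivity) ?_
      rw [abs_le]
      constructor <;> simp only [z] <;> linarith
    refine (Finset.sum_le_sum fun k _ => h2 k).trans ?_
    rw [← Finset.mul_sum]
    have h6 : 2 * (∑ k, ‖p k‖) / δ ≤ n := hN.trans hNn'
    rw [div_le_iff₀ hδ] at h6
    rw [one_div, inv_mul_le_iff₀ hn0]
    linarith
  have h7 : a - ((1 / (n : ℝ) : ℝ) : ℂ) • ∑ k, ((z k : ℝ) : ℂ) • p k =
      (a - ∑ k, (((c k).re : ℝ) : ℂ) • p k) + ((∑ k, (((c k).re : ℝ) : ℂ) • p k) -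
        ((1 / (n : ℝ) : ℝ) : ℂ) • ∑ k, ((z k : ℝ) : ℂ) • p k) := by abel
  rw [h7]
  refine (norm_add_le _ _).trans ?_
  linarith


/-- the boundary of `a δ_(g, h)` paired with `s` -/
noncomputable def bd {Γ : Type} [Group Γ] (U : Γ → (H →L[ℂ] H)) (ξ : H) (s : Γ → (H →L[ℂ] H))
    (g h : Γ) (a : H →L[ℂ] H) : ℝ :=
  rt ξ (a * s g) + rt ξ (star (U g) * a * U g * s h) - rt ξ (a * s (g * h))

theorem bd_add {Γ : Type} [Group Γ] (U : Γ → (H →L[ℂ] H)) (ξ : H) (s : Γ → (H →L[ℂ] H))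
    (g h : Γ) (a b : H →L[ℂ] H) : bd U ξ s g h (a + b) = bd U ξ s g h a + bd U ξ s g h b := by
  unfold bd
  rw [mul_add, add_mul, add_mul, add_mul, add_mul, map_add, map_add, map_add]
  ring

theorem bd_sub {Γ : Type} [Group Γ] (U : Γ → (H →L[ℂ] H)) (ξ : H) (s : Γ → (H →L[ℂ] H))
    (g h : Γ) (a b : H →L[ℂ] H) : bd U ξ s g h (a - b) = bd U ξ s g h a - bd U ξ s g h b := by
  have := bd_add U ξ s g h (a - b) b
  rw [sub_add_cancel] at this
  linarith

theorem bd_smul {Γ : Type} [Group Γ] (U : Γ → (H →L[ℂ] H)) (ξ : H) (s : Γ → (H →L[ℂ] H))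
    (g h : Γ) (r : ℝ) (a : H →L[ℂ] H) : bd U ξ s g h ((r : ℂ) • a) = r * bd U ξ s g h a := by
  unfold bd
  rw [smul_mul_assoc, mul_smul_comm, smul_mul_assoc, smul_mul_assoc, smul_mul_assoc, rt_smul,
    rt_smul, rt_smul]
  ring

theorem bd_sum {Γ : Type} [Group Γ] (U : Γ → (H →L[ℂ] H)) (ξ : H) (s : Γ → (H →L[ℂ] H))
    (g h : Γ) {J : Type} (F : Finset J) (a : J → (H →L[ℂ] H)) :
    bd U ξ s g h (∑ j ∈ F, a j) = ∑ j ∈ F, bd U ξ s g h (a j) := by
  classical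
  induction F using Finset.induction_on with
  | empty =>
    unfold bd
    simp
  | insert i s hi ih => rw [Finset.sum_insert hi, Finset.sum_insert hi, bd_add, ih]

theorem norm_un {u : H →L[ℂ] H} (hu : Un u) : ‖u‖ ≤ 1 := by
  refine ContinuousLinearMap.opNorm_le_bound _ zero_le_one fun x => ?_
  have h1 : ‖u x‖ ^ 2 = ‖x‖ ^ 2 := by
    have h2 : ⟪u x, u x⟫_ℂ = ⟪x, x⟫_ℂ := by
      have h3 : ⟪u x, u x⟫_ℂ = ⟪x, (star u * u) x⟫_ℂ := by
        rw [ContinuousLinearMap.star_eq_adjoint]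
        exact (ContinuousLinearMap.adjoint_inner_right u x (u x)).symm
      rw [h3, hu.1]
      rfl
    rw [inner_self_eq_norm_sq_to_K, inner_self_eq_norm_sq_to_K] at h2
    exact_mod_cast h2
  rw [one_mul]
  exact le_of_sq_le_sq h1.le (norm_nonneg _)

theorem bd_bound {Γ : Type} [Group Γ] (U : Γ → (H →L[ℂ] H)) (hU : ∀ g, Un (U g)) (ξ : H)
    (hξ : ‖ξ‖ = 1) (s : Γ → (H →L[ℂ] H)) (hs : ∀ x, ‖s x‖ ≤ 1)
    (g h : Γ) (a : H →L[ℂ] H) : |bd U ξ s g h a| ≤ 3 * ‖a‖ := by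
  have h0 : ∀ b t : H →L[ℂ] H, ‖b‖ ≤ ‖a‖ → ‖t‖ ≤ 1 → |rt ξ (b * t)| ≤ ‖a‖ := by
    intro b t hb ht
    refine (rt_bound ξ hξ _).trans ((norm_mul_le _ _).trans ?_)
    calc ‖b‖ * ‖t‖ ≤ ‖a‖ * 1 := by gcongr
      _ = ‖a‖ := mul_one _
  have h1 := h0 a (s g) le_rfl (hs g)
  have h2 := h0 (star (U g) * a * U g) (s h) (by
    refine (norm_mul_le _ _).trans ?_
    have h3 : ‖star (U g) * a‖ ≤ ‖a‖ := by
      refine (norm_mul_le _ _).trans ?_
      rw [norm_star]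
      exact mul_le_of_le_one_left (norm_nonneg _) (norm_un (hU g))
    calc ‖star (U g) * a‖ * ‖U g‖ ≤ ‖a‖ * 1 := by
          gcongr
          exact norm_un (hU g)
      _ = ‖a‖ := mul_one _) (hs h)
  have h4 := h0 a (s (g * h)) le_rfl (hs _)
  unfold bd
  rw [abs_le] at *
  constructor <;> linarith [h1.1, h1.2, h2.1, h2.2, h4.1, h4.2]

theorem kap_sum {Γ : Type} [Group Γ] (U : Γ → (H →L[ℂ] H)) (ξ : H) {J : Type} [Fintype J]
    (g h : J → Γ) (b : J → Bool) (p : J → (H →L[ℂ] H)) (Λ : Finset Γ) (s : Γ → (H →L[ℂ] H))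
    (hΛ : ∀ x, x ∉ Λ → kap U g h b p x = 0) :
    ∑ x ∈ Λ, rt ξ (kap U g h b p x * s x) = ∑ j, sgr (b j) * bd U ξ s (g j) (h j) (p j) := by
  classical
  let Λ' : Finset Γ := Λ ∪ (Finset.univ.image g ∪ Finset.univ.image h ∪
    Finset.univ.image fun j => g j * h j)
  have h1 : ∑ x ∈ Λ, rt ξ (kap U g h b p x * s x) = ∑ x ∈ Λ', rt ξ (kap U g h b p x * s x) := by
    refine Finset.sum_subset Finset.subset_union_left fun x _ hx => ?_
    rw [hΛ x hx, zero_mul, map_zero]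
  rw [h1]
  have h2 : ∀ x, rt ξ (kap U g h b p x * s x) = ∑ j, sgr (b j) *
      ((if g j = x then rt ξ (p j * s x) else 0) +
        (if h j = x then rt ξ (star (U (g j)) * p j * U (g j) * s x) else 0) -
        (if g j * h j = x then rt ξ (p j * s x) else 0)) := by
    intro x
    unfold kap
    rw [Finset.sum_mul, map_sum]
    refine Finset.sum_congr rfl fun j _ => ?_
    rw [smul_mul_assoc, sgc_eq, rt_smul, sub_mul, add_mul, map_sub, map_add]
    congr 1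
    split_ifs <;> simp
  rw [Finset.sum_congr rfl fun x _ => h2 x, Finset.sum_comm]
  refine Finset.sum_congr rfl fun j _ => ?_
  rw [← Finset.mul_sum, Finset.sum_sub_distrib, Finset.sum_add_distrib]
  have m1 : g j ∈ Λ' := by simp [Λ']
  have m2 : h j ∈ Λ' := by simp [Λ']
  have m3 : g j * h j ∈ Λ' := by
    refine Finset.mem_union_right _ (Finset.mem_union_right _ ?_)
    exact Finset.mem_image.mpr ⟨j, Finset.mem_univ _, rfl⟩
  rw [Finset.sum_ite_eq, if_pos m1, Finset.sum_ite_eq, if_pos m2, Finset.sum_ite_eq, if_pos m3]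
  rfl

theorem key_ineq (A : VonNeumannAlgebra H) (hA : ∀ a ∈ A, ∀ b ∈ A, a * b = b * a) (ξ : H)
    (hξ : ‖ξ‖ = 1) {Γ : Type} [Group Γ] (U : Γ → (H →L[ℂ] H))
    (hU : ∀ g, Un (U g))
    (c : Γ → Γ → (H →L[ℂ] H)) (hc : ∀ g h, c g h ∈ A ∧ star (c g h) = c g h ∧ ‖c g h‖ ≤ 1)
    (K : ℝ) (hK : 0 ≤ K)
    (hstar : ∀ (J : Type) [Fintype J] [Nonempty J] (g h : J → Γ) (b : J → Bool)
      (p : J → (H →L[ℂ] H)), (∀ j, p j ∈ A ∧ IsPr (p j)) →
      ∃ (Λ : Finset Γ) (s : Γ → (H →L[ℂ] H)),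
        (∀ x, s x ∈ A ∧ star (s x) = s x ∧ ‖s x‖ ≤ 1) ∧ (∀ x, x ∉ Λ → kap U g h b p x = 0) ∧
        (∑ j, sgc (b j) * ⟪ξ, (p j * c (g j) (h j)) ξ⟫_ℂ).re ≤
          K * ∑ x ∈ Λ, (⟪ξ, (kap U g h b p x * s x) ξ⟫_ℂ).re)
    {ι : Type} [Fintype ι] (g h : ι → Γ) (a : ι → (H →L[ℂ] H))
    (ha : ∀ i, a i ∈ A ∧ star (a i) = a i) (ε : ℝ) (hε : 0 < ε) :
    ∃ s : Γ → (H →L[ℂ] H), (∀ x, s x ∈ A ∧ star (s x) = s x ∧ ‖s x‖ ≤ 1) ∧
      ∑ i, rt ξ (a i * c (g i) (h i)) ≤ K * ∑ i, bd U ξ s (g i) (h i) (a i) + ε := by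
  classical
  obtain ⟨δ, hδ, hδε⟩ : ∃ δ : ℝ, 0 < δ ∧ (1 + 3 * K) * ((Fintype.card ι : ℝ) * δ) ≤ ε := by
    refine ⟨ε / ((1 + 3 * K) * ((Fintype.card ι : ℝ) + 1)), by positivity, ?_⟩
    have h1 : (1 + 3 * K) * ((Fintype.card ι : ℝ) * (ε / ((1 + 3 * K) * ((Fintype.card ι : ℝ) + 1)))) =
      ε * ((Fintype.card ι : ℝ) / ((Fintype.card ι : ℝ) + 1)) := by
      field_simp
    rw [h1]
    refine mul_le_of_le_one_right hε.le ?_
    rw [div_le_one (by positivity)]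
    linarith
  choose N hN using fun i => approx_proj A hA (a i) (ha i).1 (ha i).2 δ hδ
  let n : ℕ := ∑ i, N i + 1
  have hn1 : 1 ≤ n := Nat.le_add_left _ _
  have hn : ∀ i, N i ≤ n := fun i =>
    (Finset.single_le_sum (fun _ _ => Nat.zero_le _) (Finset.mem_univ i)).trans (Nat.le_succ _)
  choose J hJ b p hp hap using fun i => hN i n (hn i) hn1
  have hn0 : (0 : ℝ) < n := by exact_mod_cast hn1
  obtain ⟨Λ, s, hs, hΛ, hle⟩ := hstar (Option ((i : ι) × J i))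
    (fun o => o.elim 1 fun j => g j.1) (fun o => o.elim 1 fun j => h j.1)
    (fun o => o.elim true fun j => b j.1 j.2) (fun o => o.elim 0 fun j => p j.1 j.2) (by
      intro o
      cases o with
      | none => exact ⟨zero_mem A, star_zero _, mul_zero _⟩
      | some j => exact hp j.1 j.2)
  refine ⟨s, hs, ?_⟩
  have e1 : (∑ x ∈ Λ, (⟪ξ, (kap U (fun o : Option ((i : ι) × J i) => o.elim 1 fun j => g j.1)
      (fun o => o.elim 1 fun j => h j.1)
      (fun o => o.elim true fun j => b j.1 j.2) (fun o => o.elim 0 fun j => p j.1 j.2) x * s x) ξ⟫_ℂ).re) =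
      ∑ i, ∑ j, sgr (b i j) * bd U ξ s (g i) (h i) (p i j) := by
    have h1 := kap_sum U ξ _ _ _ _ Λ s hΛ
    refine h1.trans ?_
    rw [Fintype.sum_option, Fintype.sum_sigma]
    have h2 : bd U ξ s 1 1 (0 : H →L[ℂ] H) = 0 := by
      unfold bd
      simp
    simp only [Option.elim_none, Option.elim_some]
    rw [h2, mul_zero, zero_add]
  have e2 : (∑ o : Option ((i : ι) × J i), sgc ((o.elim true fun j => b j.1 j.2 : Bool)) *
      ⟪ξ, ((o.elim 0 fun j => p j.1 j.2 : H →L[ℂ] H) * c (o.elim 1 fun j => g j.1)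
        (o.elim 1 fun j => h j.1)) ξ⟫_ℂ).re =
      ∑ i, ∑ j, sgr (b i j) * rt ξ (p i j * c (g i) (h i)) := by
    rw [Fintype.sum_option, Fintype.sum_sigma, Complex.add_re, Complex.re_sum]
    simp only [Option.elim_none, Option.elim_some, Complex.re_sum]
    have h2 : (sgc true * ⟪ξ, ((0 : H →L[ℂ] H) * c 1 1) ξ⟫_ℂ).re = 0 := by simp
    rw [h2, zero_add]
    refine Finset.sum_congr rfl fun i _ => Finset.sum_congr rfl fun j _ => ?_
    rw [sgc_eq, Complex.re_ofReal_mul]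
    rfl
  rw [e1, e2] at hle
  -- the approximations
  let q : ι → (H →L[ℂ] H) := fun i => ((1 / (n : ℝ) : ℝ) : ℂ) • ∑ j, sgc (b i j) • p i j
  have hq : ∀ i, ‖a i - q i‖ ≤ δ := hap
  have f1 : ∀ i, rt ξ (q i * c (g i) (h i)) =
      (1 / n) * ∑ j, sgr (b i j) * rt ξ (p i j * c (g i) (h i)) := by
    intro i
    simp only [q]
    rw [smul_mul_assoc, rt_smul, Finset.sum_mul, map_sum]
    congr 1
    refine Finset.sum_congr rfl fun j _ => ?_
    rw [sgc_eq, smul_mul_assoc, rt_smul]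
  have f2 : ∀ i, bd U ξ s (g i) (h i) (q i) =
      (1 / n) * ∑ j, sgr (b i j) * bd U ξ s (g i) (h i) (p i j) := by
    intro i
    simp only [q]
    rw [bd_smul, bd_sum]
    congr 1
    refine Finset.sum_congr rfl fun j _ => ?_
    rw [sgc_eq, bd_smul]
  have g1 : ∀ i, rt ξ (a i * c (g i) (h i)) ≤ rt ξ (q i * c (g i) (h i)) + δ := by
    intro i
    have h1 : rt ξ ((a i - q i) * c (g i) (h i)) ≤ δ := by
      refine (le_abs_self _).trans ((rt_bound ξ hξ _).trans ((norm_mul_le _ _).trans ?_))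
      calc ‖a i - q i‖ * ‖c (g i) (h i)‖ ≤ δ * 1 := by
            gcongr
            · exact hq i
            · exact (hc _ _).2.2
        _ = δ := mul_one _
    rw [sub_mul, map_sub] at h1
    linarith
  have g2 : ∀ i, bd U ξ s (g i) (h i) (q i) ≤ bd U ξ s (g i) (h i) (a i) + 3 * δ := by
    intro i
    have h1 := bd_bound U hU ξ hξ s (fun x => (hs x).2.2) (g i) (h i) (a i - q i)
    have h2 := (abs_le.mp h1).1
    rw [bd_sub] at h2
    linarith [hq i]
  have k1 : ∑ i, rt ξ (a i * c (g i) (h i)) ≤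
      ∑ i, rt ξ (q i * c (g i) (h i)) + (Fintype.card ι : ℝ) * δ := by
    refine (Finset.sum_le_sum fun i _ => g1 i).trans (le_of_eq ?_)
    rw [Finset.sum_add_distrib, Finset.sum_const, Finset.card_univ, nsmul_eq_mul]
  have k2 : ∑ i, bd U ξ s (g i) (h i) (q i) ≤
      ∑ i, bd U ξ s (g i) (h i) (a i) + 3 * ((Fintype.card ι : ℝ) * δ) := by
    refine (Finset.sum_le_sum fun i _ => g2 i).trans (le_of_eq ?_)
    rw [Finset.sum_add_distrib, Finset.sum_const, Finset.card_univ, nsmul_eq_mul]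
    ring
  have k3 : ∑ i, rt ξ (q i * c (g i) (h i)) ≤ K * ∑ i, bd U ξ s (g i) (h i) (q i) := by
    rw [Finset.sum_congr rfl fun i _ => f1 i, Finset.sum_congr rfl fun i _ => f2 i,
      ← Finset.mul_sum, ← Finset.mul_sum]
    have h1 := mul_le_mul_of_nonneg_left hle (by positivity : (0 : ℝ) ≤ 1 / n)
    linarith
  have k4 := mul_le_mul_of_nonneg_left k2 hK
  linarith

theorem fin_d (A : VonNeumannAlgebra H) (hA : ∀ a ∈ A, ∀ b ∈ A, a * b = b * a) (ξ : H)
    (hξ : ‖ξ‖ = 1) {Γ : Type} [Group Γ] (U : Γ → (H →L[ℂ] H))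
    (hU : ∀ g, Un (U g))
    (c : Γ → Γ → (H →L[ℂ] H)) (hc : ∀ g h, c g h ∈ A ∧ star (c g h) = c g h ∧ ‖c g h‖ ≤ 1)
    (K : ℝ) (hK : 0 ≤ K)
    (hstar : ∀ (J : Type) [Fintype J] [Nonempty J] (g h : J → Γ) (b : J → Bool)
      (p : J → (H →L[ℂ] H)), (∀ j, p j ∈ A ∧ IsPr (p j)) →
      ∃ (Λ : Finset Γ) (s : Γ → (H →L[ℂ] H)),
        (∀ x, s x ∈ A ∧ star (s x) = s x ∧ ‖s x‖ ≤ 1) ∧ (∀ x, x ∉ Λ → kap U g h b p x = 0) ∧
        (∑ j, sgc (b j) * ⟪ξ, (p j * c (g j) (h j)) ξ⟫_ℂ).re ≤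
          K * ∑ x ∈ Λ, (⟪ξ, (kap U g h b p x * s x) ξ⟫_ℂ).re)
    (F : Finset (Γ × Γ × (H →L[ℂ] H))) (ε : ℝ) (hε : 0 < ε) :
    ∃ d : Γ → (H →L[ℂ] H), (∀ x, d x ∈ A ∧ star (d x) = d x ∧ ‖d x‖ ≤ K) ∧
      ∀ t ∈ F, t.2.2 ∈ A → star t.2.2 = t.2.2 →
        |rt ξ (t.2.2 * c t.1 t.2.1) - bd U ξ d t.1 t.2.1 t.2.2| ≤ ε := by
  classical
  let ι := {t : Γ × Γ × (H →L[ℂ] H) // t ∈ F ∧ t.2.2 ∈ A ∧ star t.2.2 = t.2.2}
  have hfin : Finite ι := Set.Finite.subset (F.finite_toSet) fun a ha => ha.1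
  let _ : Fintype ι := Fintype.ofFinite ι
  let C : Set (ι → ℝ) := {y | ∃ d : Γ → (H →L[ℂ] H), (∀ x, d x ∈ A ∧ star (d x) = d x ∧ ‖d x‖ ≤ K) ∧
    ∀ i : ι, y i = bd U ξ d i.1.1 i.1.2.1 i.1.2.2}
  have hbd_lin : ∀ (d e : Γ → (H →L[ℂ] H)) (s t : ℝ) (g h : Γ) (a : H →L[ℂ] H),
      bd U ξ (fun x => (s : ℂ) • d x + (t : ℂ) • e x) g h a =
        s * bd U ξ d g h a + t * bd U ξ e g h a := by
    intro d e s t g h a
    unfold bd
    simp only [mul_add, mul_smul_comm, map_add, rt_smul]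
    ring
  have hC : Convex ℝ C := by
    rintro y ⟨d, hd, hy⟩ z ⟨e, he, hz⟩ s t hs ht hst
    refine ⟨fun x => (s : ℂ) • d x + (t : ℂ) • e x, fun x => ⟨add_mem (vn_smul A _ (hd x).1)
      (vn_smul A _ (he x).1), ?_, ?_⟩, ?_⟩
    · rw [star_add, star_smul, star_smul, (hd x).2.1, (he x).2.1]
      congr 2
      · exact Complex.conj_ofReal _
      · exact Complex.conj_ofReal _
    · refine (norm_add_le _ _).trans ?_
      rw [norm_smul, norm_smul, Complex.norm_real, Complex.norm_real, Real.norm_of_nonneg hs,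
        Real.norm_of_nonneg ht]
      calc s * ‖d x‖ + t * ‖e x‖ ≤ s * K + t * K := by
            gcongr
            · exact (hd x).2.2
            · exact (he x).2.2
        _ = K := by rw [← add_mul, hst, one_mul]
    · intro i
      rw [hbd_lin, ← hy i, ← hz i]
      simp
  let p : ι → ℝ := fun i => rt ξ (i.1.2.2 * c i.1.1 i.1.2.1)
  have hp : p ∈ closure C := by
    by_contra hp
    obtain ⟨f, u, h1, h2⟩ := geometric_hahn_banach_closed_point hC.closure isClosed_closure hp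
    let w : ι → ℝ := fun i => f (fun j => if i = j then 1 else 0)
    have hf : ∀ y : ι → ℝ, f y = ∑ i, w i * y i := by
      intro y
      have := LinearMap.pi_apply_eq_sum_univ (f : (ι → ℝ) →ₗ[ℝ] ℝ) y
      have h3 : f y = ∑ i, y i • w i := this
      rw [h3]
      exact Finset.sum_congr rfl fun i _ => by rw [smul_eq_mul, mul_comm]
    obtain ⟨s, hs, hle⟩ := key_ineq A hA ξ hξ U hU c hc K hK hstar (fun i : ι => i.1.1)
      (fun i : ι => i.1.2.1) (fun i : ι => (w i : ℂ) • i.1.2.2) (by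
        intro i
        refine ⟨vn_smul A _ i.2.2.1, ?_⟩
        rw [star_smul, i.2.2.2]
        congr 1
        exact Complex.conj_ofReal _) ((f p - u) / 2) (by linarith)
    have h3 : ∑ i : ι, rt ξ ((w i : ℂ) • i.1.2.2 * c i.1.1 i.1.2.1) = f p := by
      rw [hf]
      refine Finset.sum_congr rfl fun i _ => ?_
      rw [smul_mul_assoc, rt_smul]
    have h4 := h1 (fun i => bd U ξ (fun x => (K : ℂ) • s x) i.1.1 i.1.2.1 i.1.2.2)
      (subset_closure ⟨fun x => (K : ℂ) • s x, fun x => ⟨vn_smul A _ (hs x).1, by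
        rw [star_smul, (hs x).2.1]
        congr 1
        exact Complex.conj_ofReal _, by
        rw [norm_smul, Complex.norm_real, Real.norm_of_nonneg hK]
        exact mul_le_of_le_one_right hK (hs x).2.2⟩, fun i => rfl⟩)
    have h5 : f (fun i => bd U ξ (fun x => (K : ℂ) • s x) i.1.1 i.1.2.1 i.1.2.2) =
        K * ∑ i : ι, bd U ξ s i.1.1 i.1.2.1 ((w i : ℂ) • i.1.2.2) := by
      rw [hf, Finset.mul_sum]
      refine Finset.sum_congr rfl fun i _ => ?_
      rw [bd_smul]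
      have h6 := hbd_lin s 0 K 0 i.1.1 i.1.2.1 i.1.2.2
      simp only [Complex.ofReal_zero, zero_smul, add_zero, zero_mul] at h6
      rw [h6]
      ring
    rw [h5] at h4
    rw [h3] at hle
    linarith
  obtain ⟨y, ⟨d, hd, hy⟩, hpy⟩ := Metric.mem_closure_iff.mp hp ε hε
  refine ⟨d, hd, fun t ht htA hts => ?_⟩
  have h1 := (dist_le_pi_dist p y ⟨t, ht, htA, hts⟩).trans hpy.le
  rw [hy, Real.dist_eq] at h1
  exact h1

theorem exists_d (A : VonNeumannAlgebra H) (hA : ∀ a ∈ A, ∀ b ∈ A, a * b = b * a) (ξ : H)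
    (hξ : ‖ξ‖ = 1) (hf : ∀ a ∈ A, a ξ = 0 → a = 0) {Γ : Type} [Group Γ] (U : Γ → (H →L[ℂ] H))
    (hU : ∀ g, Un (U g)) (hUA : ∀ g, ∀ a ∈ A, U g * a * star (U g) ∈ A)
    (hUA' : ∀ g, ∀ a ∈ A, star (U g) * a * U g ∈ A)
    (htr : ∀ g, ∀ a ∈ A, ⟪ξ, (star (U g) * a * U g) ξ⟫_ℂ = ⟪ξ, a ξ⟫_ℂ)
    (c : Γ → Γ → (H →L[ℂ] H)) (hc : ∀ g h, c g h ∈ A ∧ star (c g h) = c g h ∧ ‖c g h‖ ≤ 1)
    (K : ℝ) (hK : 0 ≤ K)
    (hstar : ∀ (J : Type) [Fintype J] [Nonempty J] (g h : J → Γ) (b : J → Bool)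
      (p : J → (H →L[ℂ] H)), (∀ j, p j ∈ A ∧ IsPr (p j)) →
      ∃ (Λ : Finset Γ) (s : Γ → (H →L[ℂ] H)),
        (∀ x, s x ∈ A ∧ star (s x) = s x ∧ ‖s x‖ ≤ 1) ∧ (∀ x, x ∉ Λ → kap U g h b p x = 0) ∧
        (∑ j, sgc (b j) * ⟪ξ, (p j * c (g j) (h j)) ξ⟫_ℂ).re ≤
          K * ∑ x ∈ Λ, (⟪ξ, (kap U g h b p x * s x) ξ⟫_ℂ).re) :
    ∃ d : Γ → (H →L[ℂ] H), (∀ g, d g ∈ A ∧ star (d g) = d g) ∧
      ∀ g h, c g h = d g + U g * d h * star (U g) - d (g * h) := by
  classical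
  have h0 := fun (j : Finset (Γ × Γ × (H →L[ℂ] H)) × ℕ) =>
    fin_d A hA ξ hξ U hU c hc K hK hstar j.1 (1 / ((j.2 : ℝ) + 1)) (by positivity)
  choose T hT1 hT4 using h0
  let V : Ultrafilter (Finset (Γ × Γ × (H →L[ℂ] H)) × ℕ) := Ultrafilter.of Filter.atTop
  have hV : (V : Filter (Finset (Γ × Γ × (H →L[ℂ] H)) × ℕ)) ≤ Filter.atTop :=
    Ultrafilter.of_le Filter.atTop
  choose d hd1 hd2 using fun x => H710R2.DP.dp_ulim H _ V (fun j => T j x) K
    (fun j => (hT1 j x).2.2)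
  have hdA : ∀ x, d x ∈ A := by
    intro x
    refine mem_of_comm_commutant A fun t ht => ?_
    ext1 z
    refine ext_inner_left ℂ fun y => ?_
    show ⟪y, t (d x z)⟫_ℂ = ⟪y, d x (t z)⟫_ℂ
    refine tendsto_nhds_unique ?_ (hd2 x (t z) y)
    have h1 := hd2 x z (star t y)
    have h2 : ⟪star t y, d x z⟫_ℂ = ⟪y, t (d x z)⟫_ℂ := by
      rw [ContinuousLinearMap.star_eq_adjoint, ContinuousLinearMap.adjoint_inner_left]
    rw [h2] at h1
    refine h1.congr fun j => ?_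
    rw [ContinuousLinearMap.star_eq_adjoint, ContinuousLinearMap.adjoint_inner_left]
    have h3 : T j x * t = t * T j x := VonNeumannAlgebra.mem_commutant_iff.mp ht _ (hT1 j x).1
    have h4 := congrArg (fun s : H →L[ℂ] H => s z) h3
    exact congrArg (fun v => ⟪y, v⟫_ℂ) h4.symm
  have hds : ∀ x, star (d x) = d x := by
    intro x
    ext1 z
    refine ext_inner_left ℂ fun y => ?_
    have h1 : ⟪y, star (d x) z⟫_ℂ = ⟪d x y, z⟫_ℂ := by
      rw [ContinuousLinearMap.star_eq_adjoint, ContinuousLinearMap.adjoint_inner_right]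
    rw [h1, ← inner_conj_symm]
    have h2 : Filter.Tendsto (fun j => (starRingEnd ℂ) ⟪z, T j x y⟫_ℂ) V
        (nhds ((starRingEnd ℂ) ⟪z, d x y⟫_ℂ)) :=
      (Complex.continuous_conj.tendsto _).comp (hd2 x y z)
    refine tendsto_nhds_unique h2 ((hd2 x z y).congr fun j => ?_)
    rw [inner_conj_symm]
    have h3 : ⟪y, star (T j x) z⟫_ℂ = ⟪T j x y, z⟫_ℂ := by
      rw [ContinuousLinearMap.star_eq_adjoint, ContinuousLinearMap.adjoint_inner_right]
    rw [← h3, (hT1 j x).2.1]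
  have hlim : ∀ (x : Γ) (a : H →L[ℂ] H), Filter.Tendsto (fun j => rt ξ (a * T j x)) V
      (nhds (rt ξ (a * d x))) := by
    intro x a
    refine (Complex.continuous_re.tendsto _).comp ?_
    have h2 := hd2 x ξ (star a ξ)
    have h3 : ∀ t : H →L[ℂ] H, ⟪star a ξ, t ξ⟫_ℂ = ⟪ξ, (a * t) ξ⟫_ℂ := by
      intro t
      rw [ContinuousLinearMap.star_eq_adjoint, ContinuousLinearMap.adjoint_inner_left]
      rfl
    simp only [h3] at h2
    exact h2
  have hkey : ∀ g h, ∀ a ∈ A, star a = a → rt ξ (a * c g h) = bd U ξ d g h a := by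
    intro g h a ha has
    have h1 : Filter.Tendsto (fun j => bd U ξ (T j) g h a) V (nhds (bd U ξ d g h a)) :=
      ((hlim g a).add (hlim h (star (U g) * a * U g))).sub (hlim (g * h) a)
    refine tendsto_nhds_unique ?_ h1
    rw [tendsto_iff_dist_tendsto_zero]
    have h4 : Filter.Tendsto (fun j : Finset (Γ × Γ × (H →L[ℂ] H)) × ℕ => 1 / ((j.2 : ℝ) + 1))
        Filter.atTop (nhds 0) := by
      have h5 := tendsto_one_div_add_atTop_nhds_zero_nat (𝕜 := ℝ)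
      rw [← Filter.prod_atTop_atTop_eq]
      exact h5.comp Filter.tendsto_snd
    refine squeeze_zero' (Filter.Eventually.of_forall fun j => dist_nonneg) ?_ (h4.mono_left hV)
    have h6 : ∀ᶠ j in (Filter.atTop : Filter (Finset (Γ × Γ × (H →L[ℂ] H)) × ℕ)),
        (g, h, a) ∈ j.1 := by
      filter_upwards [Filter.eventually_ge_atTop
        (({(g, h, a)} : Finset (Γ × Γ × (H →L[ℂ] H))), 0)] with j hj
      exact hj.1 (Finset.mem_singleton_self _)
    filter_upwards [hV h6] with j hj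
    rw [dist_comm, Real.dist_eq]
    exact hT4 j (g, h, a) hj ha has
  refine ⟨d, fun g => ⟨hdA g, hds g⟩, fun g h => ?_⟩
  obtain ⟨e, he⟩ : ∃ e : H →L[ℂ] H, e = c g h - (d g + U g * d h * star (U g) - d (g * h)) :=
    ⟨_, rfl⟩
  have heA : e ∈ A := by
    rw [he]
    exact sub_mem (hc g h).1 (sub_mem (add_mem (hdA g) (hUA g _ (hdA h))) (hdA _))
  have hes : star e = e := by
    rw [he, star_sub, star_sub, star_add, star_mul, star_mul, star_star, hds, hds, hds,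
      (hc g h).2.1, mul_assoc]
  have h1 := hkey g h e heA hes
  have h2 : rt ξ (star (U g) * e * U g * d h) = rt ξ (e * (U g * d h * star (U g))) := by
    have h3 := htr g (e * (U g * d h * star (U g))) (mul_mem heA (hUA g _ (hdA h)))
    have h4 : star (U g) * (e * (U g * d h * star (U g))) * U g = star (U g) * e * U g * d h := by
      calc star (U g) * (e * (U g * d h * star (U g))) * U g =
          star (U g) * e * U g * d h * (star (U g) * U g) := by noncomm_ring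
        _ = _ := by rw [(hU g).1, mul_one]
    rw [h4] at h3
    exact congrArg Complex.re h3
  have h5 : rt ξ (e * e) = 0 := by
    have h6 : e * e = e * c g h - (e * d g + e * (U g * d h * star (U g)) - e * d (g * h)) := by
      nth_rewrite 2 [he]
      noncomm_ring
    rw [h6, map_sub, map_sub, map_add, h1]
    unfold bd
    rw [h2]
    ring
  have h7 : e ξ = 0 := by
    have h8 : ⟪e ξ, e ξ⟫_ℂ = ⟪ξ, (e * e) ξ⟫_ℂ := by
      have h9 : ⟪e ξ, e ξ⟫_ℂ = ⟪ξ, (star e * e) ξ⟫_ℂ := by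
        rw [ContinuousLinearMap.star_eq_adjoint]
        exact (ContinuousLinearMap.adjoint_inner_right e ξ (e ξ)).symm
      rw [h9, hes]
    have h10 : (⟪e ξ, e ξ⟫_ℂ).re = 0 := by
      rw [h8]
      exact h5
    rw [inner_self_eq_norm_sq_to_K] at h10
    have h11 : ‖e ξ‖ ^ 2 = 0 := by
      have : (((‖e ξ‖ : ℝ) : ℂ) ^ 2).re = ‖e ξ‖ ^ 2 := by norm_cast
      rw [← this]
      exact h10
    exact norm_eq_zero.mp (pow_eq_zero_iff (two_ne_zero)|>.mp h11)
  have h12 := hf e heA h7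
  rw [he, sub_eq_zero] at h12
  exact h12

end Pool.Agent.H256.KS
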