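import Mathlib
import Pool.Graph.R_pool_sql_team_seeded_ab47071d.TH254.CC.Core

set_option autoImplicit false
set_option linter.unusedSectionVars false

/-! Two finite von Neumann algebras with trace vectors, containing weakly dense *-subalgebras with
the same moments, are isomorphic. -/

open scoped InnerProductSpace ComplexOrder
open Filter Topology

namespace Pool.Agent.H256.KS

open Pool.Agent.TH254.CC

variable {H : Type} [NormedAddCommGroup H] [InnerProductSpace ℂ H] [CompleteSpace H]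

/-- the vector map of a linear subspace of operators -/
noncomputable def evv (S : Submodule ℂ (H →L[ℂ] H)) (ξ : H) : S →ₗ[ℂ] H :=
  (ContinuousLinearMap.apply ℂ H ξ).toLinearMap ∘ₗ S.subtype

theorem evv_apply (S : Submodule ℂ (H →L[ℂ] H)) (ξ : H) (b : S) :
    evv S ξ b = (b : H →L[ℂ] H) ξ := rfl

/-- the linear space of the commutant -/
noncomputable def com (N : VonNeumannAlgebra H) : Submodule ℂ (H →L[ℂ] H) :=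
  N.commutant.toStarSubalgebra.toSubalgebra.toSubmodule

theorem mem_com {N : VonNeumannAlgebra H} {b : H →L[ℂ] H} : b ∈ com N ↔ b ∈ N.commutant :=
  Iff.rfl

theorem cyc_commutant (N : VonNeumannAlgebra H) (ξ : H) (hNf : ∀ a ∈ N, a ξ = 0 → a = 0) :
    DenseRange (evv (com N) ξ) := by
  set K : Submodule ℂ H := (LinearMap.range (evv (com N) ξ)).topologicalClosure with hK
  have inv : ∀ t ∈ N.commutant, ∀ v ∈ K, t v ∈ K := by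
    intro t ht v hv
    have h1 : v ∈ closure ((LinearMap.range (evv (com N) ξ) : Submodule ℂ H) : Set H) := hv
    have h2 : t v ∈ closure ((LinearMap.range (evv (com N) ξ) : Submodule ℂ H) : Set H) := by
      refine map_mem_closure t.continuous h1 ?_
      rintro w ⟨b, rfl⟩
      exact ⟨⟨t * b, mem_com.mpr (mul_mem ht (mem_com.mp b.2))⟩, rfl⟩
    exact h2
  have hP : K.starProjection ∈ N := by
    refine mem_of_comm_commutant N fun t ht => ?_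
    ext v
    have h1 : t (K.starProjection v) ∈ K := inv t ht _ (Submodule.starProjection_apply_mem K v)
    have h2 : t v - t (K.starProjection v) ∈ Kᗮ := by
      rw [← map_sub, Submodule.mem_orthogonal]
      intro u hu
      rw [← ContinuousLinearMap.adjoint_inner_left]
      exact Submodule.inner_right_of_mem_orthogonal
        (inv _ (star_mem (S := VonNeumannAlgebra H) ht) u hu)
        (Submodule.sub_starProjection_mem_orthogonal v)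
    exact (Submodule.eq_starProjection_of_mem_orthogonal h1 h2).symm
  have hξ : ξ ∈ K := by
    refine subset_closure ⟨⟨1, one_mem N.commutant⟩, ?_⟩
    rfl
  have h0 : (1 : H →L[ℂ] H) - K.starProjection = 0 := by
    refine hNf _ (sub_mem (one_mem N) hP) ?_
    have : K.starProjection ξ = ξ := Submodule.starProjection_eq_self_iff.mpr hξ
    simp [this]
  have hT : K = ⊤ := by
    rw [eq_top_iff]
    intro v _
    have h1 : (1 - K.starProjection : H →L[ℂ] H) v = 0 := by rw [h0]; rfl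
    have h2 : v = K.starProjection v := by
      have : v - K.starProjection v = 0 := h1
      exact sub_eq_zero.mp this
    rw [h2]
    exact Submodule.starProjection_apply_mem K v
  intro v
  have h1 : v ∈ K := by rw [hT]; trivial
  exact h1

theorem exists_elt (N : VonNeumannAlgebra H) (ξ η : H) (hNf : ∀ a ∈ N, a ξ = 0 → a = 0) (C : ℝ)
    (h : ∀ b ∈ N.commutant, ‖b η‖ ≤ C * ‖b ξ‖) : ∃ y ∈ N, y ξ = η := by
  have hd := cyc_commutant N ξ hNf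
  have hn : ∃ C : ℝ, ∀ b : com N, ‖evv (com N) η b‖ ≤ C * ‖evv (com N) ξ b‖ :=
    ⟨C, fun b => h b.1 b.2⟩
  let y : H →L[ℂ] H := (evv (com N) η).extendOfNorm (evv (com N) ξ)
  have hy : ∀ b : com N, y ((b : H →L[ℂ] H) ξ) = (b : H →L[ℂ] H) η := fun b =>
    LinearMap.extendOfNorm_eq hd hn b
  refine ⟨y, ?_, ?_⟩
  · refine mem_of_comm_commutant N fun t ht => ?_
    have e : (t * y : H →L[ℂ] H) = y * t := by
      apply DFunLike.coe_injective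
      refine hd.equalizer (t * y).continuous (y * t).continuous ?_
      funext b
      have h1 := hy b
      have h2 := hy ⟨t * b, mem_com.mpr (mul_mem ht (mem_com.mp b.2))⟩
      change t (y ((b : H →L[ℂ] H) ξ)) = y (t ((b : H →L[ℂ] H) ξ))
      rw [h1]
      exact h2.symm
    exact e
  · exact hy ⟨1, one_mem N.commutant⟩

theorem norm_star_vec (M : VonNeumannAlgebra H) (ξ : H)
    (hM : ∀ a ∈ M, ∀ b ∈ M, ⟪ξ, (a * b) ξ⟫_ℂ = ⟪ξ, (b * a) ξ⟫_ℂ) {a : H →L[ℂ] H} (ha : a ∈ M) :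
    ‖(star a) ξ‖ = ‖a ξ‖ := by
  have h1 : ⟪a ξ, a ξ⟫_ℂ = ⟪ξ, (star a * a) ξ⟫_ℂ := by
    change _ = ⟪ξ, (star a) (a ξ)⟫_ℂ
    exact (ContinuousLinearMap.adjoint_inner_right a ξ (a ξ)).symm
  have h2 : ⟪(star a) ξ, (star a) ξ⟫_ℂ = ⟪ξ, (a * star a) ξ⟫_ℂ := by
    change _ = ⟪ξ, a ((star a) ξ)⟫_ℂ
    exact ContinuousLinearMap.adjoint_inner_left a ((star a) ξ) ξ
  rw [hM a ha _ (star_mem (S := VonNeumannAlgebra H) ha), ← h1, inner_self_eq_norm_sq_to_K,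
    inner_self_eq_norm_sq_to_K] at h2
  have h3 : ‖(star a) ξ‖ ^ 2 = ‖a ξ‖ ^ 2 := by exact_mod_cast h2
  exact (sq_eq_sq₀ (norm_nonneg _) (norm_nonneg _)).mp h3

theorem norm_mul_vec (M : VonNeumannAlgebra H) (ξ : H)
    (hM : ∀ a ∈ M, ∀ b ∈ M, ⟪ξ, (a * b) ξ⟫_ℂ = ⟪ξ, (b * a) ξ⟫_ℂ) {a b : H →L[ℂ] H} (ha : a ∈ M)
    (hb : b ∈ M) : ‖a (b ξ)‖ ≤ ‖b‖ * ‖a ξ‖ := by
  have h1 := norm_star_vec M ξ hM (mul_mem ha hb)
  have h2 : (star (a * b)) ξ = (star b) ((star a) ξ) := by rw [star_mul]; rfl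
  have h3 : (a * b) ξ = a (b ξ) := rfl
  rw [← h3, ← h1, h2, ← norm_star_vec M ξ hM ha, ← norm_star b]
  exact (star b).le_opNorm _

theorem exists_compl (M : VonNeumannAlgebra H) {x : H →L[ℂ] H} (hx : x ∈ M) :
    ∃ e ∈ M, star e * e + star x * x = ((‖x‖ ^ 2 : ℝ) : ℂ) • (1 : H →L[ℂ] H) := by
  have h0 : star x * x ≤ algebraMap ℝ (H →L[ℂ] H) (‖x‖ ^ 2) :=
    CStarAlgebra.star_mul_le_algebraMap_norm_sq
  set d : H →L[ℂ] H := algebraMap ℝ (H →L[ℂ] H) (‖x‖ ^ 2) - star x * x with hd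
  have hd0 : 0 ≤ d := sub_nonneg.mpr h0
  have hdM : d ∈ M := by
    refine sub_mem ?_ (mul_mem (star_mem (S := VonNeumannAlgebra H) hx) hx)
    have : algebraMap ℝ (H →L[ℂ] H) (‖x‖ ^ 2) = ((‖x‖ ^ 2 : ℝ) : ℂ) • (1 : H →L[ℂ] H) := by
      rw [Algebra.algebraMap_eq_smul_one]
      rfl
    rw [this]
    exact vn_smul M _ (one_mem M)
  have hs0 : 0 ≤ CFC.sqrt d := CFC.sqrt_nonneg d
  have hss : star (CFC.sqrt d) = CFC.sqrt d := (IsSelfAdjoint.of_nonneg hs0).star_eq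
  refine ⟨CFC.sqrt d, ?_, ?_⟩
  · refine mem_of_comm_commutant M fun t ht => ?_
    have h1 : Commute d t := (VonNeumannAlgebra.mem_commutant_iff.mp ht d hdM)
    have h2 : Commute (CFC.sqrt d) t := by
      unfold CFC.sqrt
      exact Commute.cfcₙ_nnreal h1 _
    exact h2.symm.eq
  · rw [hss, CFC.sqrt_mul_sqrt_self d hd0, hd]
    rw [sub_add_cancel, Algebra.algebraMap_eq_smul_one]
    rfl

section rel

variable {A : Type} [Ring A] [StarRing A] [Algebra ℂ A] (π₁ π₂ : A →⋆ₐ[ℂ] (H →L[ℂ] H)) (ξ : H)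

/-- the closure of the pairs of vectors -/
def G (u v : H) : Prop := (u, v) ∈ closure (Set.range fun a : A => (π₁ a ξ, π₂ a ξ))

variable {π₁ π₂ ξ}

theorem G_seq {u v : H} (h : G π₁ π₂ ξ u v) : ∃ a : ℕ → A,
    Tendsto (fun n => π₁ (a n) ξ) atTop (𝓝 u) ∧ Tendsto (fun n => π₂ (a n) ξ) atTop (𝓝 v) := by
  obtain ⟨x, hx, h1⟩ := mem_closure_iff_seq_limit.mp h
  choose a ha using hx
  refine ⟨a, ?_, ?_⟩
  · have h2 := (continuous_fst.tendsto _).comp h1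
    refine h2.congr fun n => ?_
    change (x n).1 = _
    rw [← ha n]
  · have h2 := (continuous_snd.tendsto _).comp h1
    refine h2.congr fun n => ?_
    change (x n).2 = _
    rw [← ha n]

theorem G_lim {u v : H} (f g : ℕ → H) (h : ∀ n, G π₁ π₂ ξ (f n) (g n))
    (hf : Tendsto f atTop (𝓝 u)) (hg : Tendsto g atTop (𝓝 v)) : G π₁ π₂ ξ u v :=
  isClosed_closure.mem_of_tendsto (hf.prodMk_nhds hg) (Eventually.of_forall h)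

theorem G_mem (a : A) : G π₁ π₂ ξ (π₁ a ξ) (π₂ a ξ) := subset_closure ⟨a, rfl⟩

theorem G_act {u v : H} (h : G π₁ π₂ ξ u v) (a : A) : G π₁ π₂ ξ (π₁ a u) (π₂ a v) := by
  obtain ⟨b, h1, h2⟩ := G_seq h
  refine G_lim (fun n => π₁ (a * b n) ξ) (fun n => π₂ (a * b n) ξ) (fun n => G_mem _) ?_ ?_
  · refine (((π₁ a).continuous.tendsto u).comp h1).congr fun n => ?_
    change π₁ a (π₁ (b n) ξ) = _
    rw [map_mul]; rfl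
  · refine (((π₂ a).continuous.tendsto v).comp h2).congr fun n => ?_
    change π₂ a (π₂ (b n) ξ) = _
    rw [map_mul]; rfl

theorem Gi_add {u v u' v' : H} (h : G π₁ π₂ ξ u v) (h' : G π₁ π₂ ξ u' v') :
    G π₁ π₂ ξ (u + u') (v + v') := by
  obtain ⟨b, h1, h2⟩ := G_seq h
  obtain ⟨b', h1', h2'⟩ := G_seq h'
  refine G_lim (fun n => π₁ (b n + b' n) ξ) (fun n => π₂ (b n + b' n) ξ) (fun n => G_mem _) ?_ ?_
  · refine (h1.add h1').congr fun n => ?_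
    rw [map_add]; rfl
  · refine (h2.add h2').congr fun n => ?_
    rw [map_add]; rfl

theorem G_smul {u v : H} (h : G π₁ π₂ ξ u v) (c : ℂ) : G π₁ π₂ ξ (c • u) (c • v) := by
  obtain ⟨b, h1, h2⟩ := G_seq h
  refine G_lim (fun n => π₁ (c • b n) ξ) (fun n => π₂ (c • b n) ξ) (fun n => G_mem _) ?_ ?_
  · refine (h1.const_smul c).congr fun n => ?_
    rw [map_smul]; rfl
  · refine (h2.const_smul c).congr fun n => ?_
    rw [map_smul]; rfl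

theorem G_symm {u v : H} (h : G π₁ π₂ ξ u v) : G π₂ π₁ ξ v u := by
  obtain ⟨b, h1, h2⟩ := G_seq h
  exact G_lim (fun n => π₂ (b n) ξ) (fun n => π₁ (b n) ξ) (fun n => G_mem _) h2 h1

theorem inner_gen (hτ : ∀ a, ⟪ξ, π₁ a ξ⟫_ℂ = ⟪ξ, π₂ a ξ⟫_ℂ) (a b : A) :
    ⟪π₁ a ξ, π₁ b ξ⟫_ℂ = ⟪π₂ a ξ, π₂ b ξ⟫_ℂ := by
  have h1 : ⟪π₁ a ξ, π₁ b ξ⟫_ℂ = ⟪ξ, π₁ (star a * b) ξ⟫_ℂ := by
    rw [map_mul, map_star]
    exact (ContinuousLinearMap.adjoint_inner_right (π₁ a) ξ (π₁ b ξ)).symm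
  have h2 : ⟪π₂ a ξ, π₂ b ξ⟫_ℂ = ⟪ξ, π₂ (star a * b) ξ⟫_ℂ := by
    rw [map_mul, map_star]
    exact (ContinuousLinearMap.adjoint_inner_right (π₂ a) ξ (π₂ b ξ)).symm
  rw [h1, h2, hτ]

theorem norm_gen (hτ : ∀ a, ⟪ξ, π₁ a ξ⟫_ℂ = ⟪ξ, π₂ a ξ⟫_ℂ) (a : A) :
    ‖π₁ a ξ‖ = ‖π₂ a ξ‖ := by
  have h := inner_gen hτ a a
  rw [inner_self_eq_norm_sq_to_K, inner_self_eq_norm_sq_to_K] at h
  have h3 : ‖π₁ a ξ‖ ^ 2 = ‖π₂ a ξ‖ ^ 2 := by exact_mod_cast h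
  exact (sq_eq_sq₀ (norm_nonneg _) (norm_nonneg _)).mp h3

theorem G_inner (hτ : ∀ a, ⟪ξ, π₁ a ξ⟫_ℂ = ⟪ξ, π₂ a ξ⟫_ℂ) {u v u' v' : H}
    (h : G π₁ π₂ ξ u v) (h' : G π₁ π₂ ξ u' v') : ⟪u, u'⟫_ℂ = ⟪v, v'⟫_ℂ := by
  obtain ⟨b, h1, h2⟩ := G_seq h
  obtain ⟨b', h1', h2'⟩ := G_seq h'
  refine tendsto_nhds_unique (h1.inner h1') ((h2.inner h2').congr fun n => ?_)
  exact (inner_gen hτ (b n) (b' n)).symm

theorem G_unique (hτ : ∀ a, ⟪ξ, π₁ a ξ⟫_ℂ = ⟪ξ, π₂ a ξ⟫_ℂ) {u v v' : H}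
    (h : G π₁ π₂ ξ u v) (h' : G π₁ π₂ ξ u v') : v = v' := by
  have h1 := Gi_add h (G_smul h' (-1))
  have h2 := G_inner hτ h1 h1
  have h3 : u + (-1 : ℂ) • u = 0 := by simp
  rw [h3, inner_zero_left] at h2
  have h4 := inner_self_eq_zero.mp h2.symm
  have h5 : v - v' = 0 := by rw [← h4]; simp [sub_eq_add_neg]
  exact sub_eq_zero.mp h5

theorem G_lift (hτ : ∀ a, ⟪ξ, π₁ a ξ⟫_ℂ = ⟪ξ, π₂ a ξ⟫_ℂ) {u : H}
    (h : u ∈ closure (Set.range fun a : A => π₁ a ξ)) : ∃ v, G π₁ π₂ ξ u v := by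
  obtain ⟨x, hx, h1⟩ := mem_closure_iff_seq_limit.mp h
  choose a ha using hx
  have h2 : Tendsto (fun n => π₁ (a n) ξ) atTop (𝓝 u) := h1.congr fun n => (ha n).symm
  have h3 : CauchySeq (fun n => π₂ (a n) ξ) := by
    have h4 := h2.cauchySeq
    rw [Metric.cauchySeq_iff] at h4 ⊢
    intro ε hε
    obtain ⟨N, hN⟩ := h4 ε hε
    refine ⟨N, fun m hm n hn => ?_⟩
    have h5 := hN m hm n hn
    rw [dist_eq_norm] at h5 ⊢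
    have e1 : π₁ (a m) ξ - π₁ (a n) ξ = π₁ (a m - a n) ξ := by rw [map_sub]; rfl
    have e2 : π₂ (a m) ξ - π₂ (a n) ξ = π₂ (a m - a n) ξ := by rw [map_sub]; rfl
    rw [e2, ← norm_gen hτ, ← e1]
    exact h5
  obtain ⟨v, hv⟩ := cauchySeq_tendsto_of_complete h3
  exact ⟨v, G_lim _ _ (fun n => G_mem (a n)) h2 hv⟩

variable (M N : VonNeumannAlgebra H)

theorem tends_mul (hM : ∀ a ∈ M, ∀ b ∈ M, ⟪ξ, (a * b) ξ⟫_ℂ = ⟪ξ, (b * a) ξ⟫_ℂ)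
    (h1 : ∀ a, π₁ a ∈ M) {x y : H →L[ℂ] H} (hx : x ∈ M) (hy : y ∈ M) (a : ℕ → A)
    (h : Tendsto (fun n => π₁ (a n) ξ) atTop (𝓝 (x ξ))) :
    Tendsto (fun n => π₁ (a n) (y ξ)) atTop (𝓝 (x (y ξ))) := by
  rw [tendsto_iff_norm_sub_tendsto_zero] at h ⊢
  have h2 := h.const_mul ‖y‖
  rw [mul_zero] at h2
  refine squeeze_zero (fun _ => norm_nonneg _) (fun n => ?_) h2
  exact norm_mul_vec M ξ hM (sub_mem (h1 (a n)) hx) hy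

theorem tends_star (hM : ∀ a ∈ M, ∀ b ∈ M, ⟪ξ, (a * b) ξ⟫_ℂ = ⟪ξ, (b * a) ξ⟫_ℂ)
    (h1 : ∀ a, π₁ a ∈ M) {x : H →L[ℂ] H} (hx : x ∈ M) (a : ℕ → A)
    (h : Tendsto (fun n => π₁ (a n) ξ) atTop (𝓝 (x ξ))) :
    Tendsto (fun n => π₁ (star (a n)) ξ) atTop (𝓝 ((star x) ξ)) := by
  rw [tendsto_iff_norm_sub_tendsto_zero] at h ⊢
  refine h.congr fun n => ?_
  have h2 := norm_star_vec M ξ hM (sub_mem (h1 (a n)) hx)
  rw [star_sub, ← map_star] at h2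
  exact h2.symm

theorem G_star (hM : ∀ a ∈ M, ∀ b ∈ M, ⟪ξ, (a * b) ξ⟫_ℂ = ⟪ξ, (b * a) ξ⟫_ℂ)
    (hN : ∀ a ∈ N, ∀ b ∈ N, ⟪ξ, (a * b) ξ⟫_ℂ = ⟪ξ, (b * a) ξ⟫_ℂ)
    (h1 : ∀ a, π₁ a ∈ M) (h2 : ∀ a, π₂ a ∈ N) {x y : H →L[ℂ] H} (hx : x ∈ M) (hy : y ∈ N)
    (h : G π₁ π₂ ξ (x ξ) (y ξ)) : G π₁ π₂ ξ ((star x) ξ) ((star y) ξ) := by
  obtain ⟨b, h3, h4⟩ := G_seq h
  exact G_lim _ _ (fun n => G_mem (star (b n))) (tends_star M hM h1 hx b h3)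
    (tends_star N hN h2 hy b h4)

theorem G_mul (hM : ∀ a ∈ M, ∀ b ∈ M, ⟪ξ, (a * b) ξ⟫_ℂ = ⟪ξ, (b * a) ξ⟫_ℂ)
    (hN : ∀ a ∈ N, ∀ b ∈ N, ⟪ξ, (a * b) ξ⟫_ℂ = ⟪ξ, (b * a) ξ⟫_ℂ)
    (h1 : ∀ a, π₁ a ∈ M) (h2 : ∀ a, π₂ a ∈ N) {x y x' y' : H →L[ℂ] H} (hx : x ∈ M) (hy : y ∈ N)
    (hx' : x' ∈ M) (hy' : y' ∈ N)
    (h : G π₁ π₂ ξ (x ξ) (y ξ)) (h' : G π₁ π₂ ξ (x' ξ) (y' ξ)) :
    G π₁ π₂ ξ ((x * x') ξ) ((y * y') ξ) := by
  obtain ⟨b, h3, h4⟩ := G_seq h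
  exact G_lim _ _ (fun n => G_act h' (b n)) (tends_mul M hM h1 hx hx' b h3)
    (tends_mul N hN h2 hy hy' b h4)

/-- the functional given by an element of the commutant -/
theorem com_func (hM : ∀ a ∈ M, ∀ b ∈ M, ⟪ξ, (a * b) ξ⟫_ℂ = ⟪ξ, (b * a) ξ⟫_ℂ)
    (h1 : ∀ a, π₁ a ∈ M) (h2 : ∀ a, π₂ a ∈ N) (hτ : ∀ a, ⟪ξ, π₁ a ξ⟫_ℂ = ⟪ξ, π₂ a ξ⟫_ℂ)
    (c : H →L[ℂ] H) (hc : c ∈ N.commutant) :
    ∃ ζ : H, ∀ x ∈ M, ∀ η, G π₁ π₂ ξ (x ξ) η → ⟪η, c η⟫_ℂ = ⟪(star x * x) ξ, ζ⟫_ℂ := by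
  have hτ' : ∀ a, ⟪ξ, π₂ a ξ⟫_ℂ = ⟪ξ, π₁ a ξ⟫_ℂ := fun a => (hτ a).symm
  let L : A →ₗ[ℂ] H := (ContinuousLinearMap.apply ℂ H ξ).toLinearMap ∘ₗ π₂.toAlgHom.toLinearMap
  let K : Submodule ℂ H := (LinearMap.range L).topologicalClosure
  have hKm : K.starProjection (c ξ) ∈ K := Submodule.starProjection_apply_mem K _
  have hK1 : K.starProjection (c ξ) ∈ closure (Set.range fun a : A => π₂ a ξ) := hKm
  obtain ⟨ζ, hζ⟩ := G_lift (π₁ := π₂) (π₂ := π₁) hτ' hK1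
  have hζ' := G_symm hζ
  have hp : ∀ a : A, ⟪π₂ a ξ, c ξ⟫_ℂ = ⟪π₁ a ξ, ζ⟫_ℂ := by
    intro a
    have h3 : π₂ a ξ ∈ K := subset_closure ⟨a, rfl⟩
    have h4 : ⟪π₂ a ξ, c ξ - K.starProjection (c ξ)⟫_ℂ = 0 :=
      Submodule.inner_right_of_mem_orthogonal h3 (Submodule.sub_starProjection_mem_orthogonal _)
    rw [inner_sub_right, sub_eq_zero] at h4
    rw [h4]
    exact (G_inner hτ (G_mem a) hζ').symm
  refine ⟨ζ, fun x hx η hG => ?_⟩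
  obtain ⟨a, ha1, ha2⟩ := G_seq hG
  have hxs := star_mem (S := VonNeumannAlgebra H) hx
  have e1 : ∀ n m, ⟪π₂ (a n) ξ, c (π₂ (a m) ξ)⟫_ℂ = ⟪π₁ (star (a m)) (π₁ (a n) ξ), ζ⟫_ℂ := by
    intro n m
    have h3 : c (π₂ (a m) ξ) = π₂ (a m) (c ξ) := by
      have h4 := VonNeumannAlgebra.mem_commutant_iff.mp hc _ (h2 (a m))
      exact (congrArg (fun f : H →L[ℂ] H => f ξ) h4).symm
    have h5 : ⟪π₂ (a n) ξ, π₂ (a m) (c ξ)⟫_ℂ = ⟪π₂ (star (a m) * a n) ξ, c ξ⟫_ℂ := by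
      rw [map_mul, map_star]
      exact (ContinuousLinearMap.adjoint_inner_left (π₂ (a m)) (c ξ) (π₂ (a n) ξ)).symm
    rw [h3, h5, hp, map_mul]
    rfl
  have e2 : ∀ n, ⟪π₂ (a n) ξ, c η⟫_ℂ = ⟪(star x) (π₁ (a n) ξ), ζ⟫_ℂ := by
    intro n
    have t1 : Tendsto (fun m => ⟪π₂ (a n) ξ, c (π₂ (a m) ξ)⟫_ℂ) atTop (𝓝 ⟪π₂ (a n) ξ, c η⟫_ℂ) :=
      tendsto_const_nhds.inner ((c.continuous.tendsto η).comp ha2)
    have t2 : Tendsto (fun m => ⟪π₁ (star (a m)) (π₁ (a n) ξ), ζ⟫_ℂ) atTop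
        (𝓝 ⟪(star x) (π₁ (a n) ξ), ζ⟫_ℂ) :=
      (tends_mul M hM h1 hxs (h1 (a n)) (fun m => star (a m))
        (tends_star M hM h1 hx a ha1)).inner tendsto_const_nhds
    exact tendsto_nhds_unique t1 (t2.congr fun m => (e1 n m).symm)
  have t1 : Tendsto (fun n => ⟪π₂ (a n) ξ, c η⟫_ℂ) atTop (𝓝 ⟪η, c η⟫_ℂ) :=
    ha2.inner tendsto_const_nhds
  have t2 : Tendsto (fun n => ⟪(star x) (π₁ (a n) ξ), ζ⟫_ℂ) atTop
      (𝓝 ⟪(star x) (x ξ), ζ⟫_ℂ) :=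
    (((star x).continuous.tendsto _).comp ha1).inner tendsto_const_nhds
  exact tendsto_nhds_unique t1 (t2.congr fun n => (e2 n).symm)

/-- every element of `M` has a partner in `N` -/
theorem partner (hM : ∀ a ∈ M, ∀ b ∈ M, ⟪ξ, (a * b) ξ⟫_ℂ = ⟪ξ, (b * a) ξ⟫_ℂ)
    (hNf : ∀ a ∈ N, a ξ = 0 → a = 0)
    (h1 : ∀ a, π₁ a ∈ M) (h2 : ∀ a, π₂ a ∈ N) (hτ : ∀ a, ⟪ξ, π₁ a ξ⟫_ℂ = ⟪ξ, π₂ a ξ⟫_ℂ)
    (hd : ∀ x ∈ M, x ξ ∈ closure (Set.range fun a : A => π₁ a ξ)) (x : H →L[ℂ] H) (hx : x ∈ M) :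
    ∃ y ∈ N, G π₁ π₂ ξ (x ξ) (y ξ) := by
  obtain ⟨η, hη⟩ := G_lift hτ (hd x hx)
  obtain ⟨e, he, hee⟩ := exists_compl M hx
  obtain ⟨θ, hθ⟩ := G_lift hτ (hd e he)
  have hG1 : G π₁ π₂ ξ ((1 : H →L[ℂ] H) ξ) ξ := by
    have := G_mem (π₁ := π₁) (π₂ := π₂) (ξ := ξ) (1 : A)
    rw [map_one, map_one] at this
    exact this
  have key : ∀ b ∈ N.commutant, ‖b η‖ ≤ ‖x‖ * ‖b ξ‖ := by
    intro b hb
    have hc : star b * b ∈ N.commutant := mul_mem (star_mem (S := VonNeumannAlgebra H) hb) hb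
    obtain ⟨ζ, hζ⟩ := com_func M N hM h1 h2 hτ _ hc
    have q1 := hζ x hx η hη
    have q2 := hζ e he θ hθ
    have q3 := hζ 1 (one_mem M) ξ hG1
    have r : ∀ v : H, ⟪v, (star b * b) v⟫_ℂ = ((‖b v‖ ^ 2 : ℝ) : ℂ) := by
      intro v
      have : ⟪v, (star b * b) v⟫_ℂ = ⟪b v, b v⟫_ℂ :=
        ContinuousLinearMap.adjoint_inner_right b v (b v)
      rw [this, inner_self_eq_norm_sq_to_K]
      push_cast
      rfl
    rw [r] at q1 q2 q3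
    have q4 : ((‖b θ‖ ^ 2 : ℝ) : ℂ) + ((‖b η‖ ^ 2 : ℝ) : ℂ) =
        ((‖x‖ ^ 2 : ℝ) : ℂ) * ((‖b ξ‖ ^ 2 : ℝ) : ℂ) := by
      rw [q1, q2, q3, ← inner_add_left]
      have : (star e * e) ξ + (star x * x) ξ =
          ((‖x‖ ^ 2 : ℝ) : ℂ) • ((star (1 : H →L[ℂ] H) * 1) ξ) := by
        have h3 : (star e * e + star x * x) ξ = (((‖x‖ ^ 2 : ℝ) : ℂ) • (1 : H →L[ℂ] H)) ξ := by
          rw [hee]
        rw [star_one, one_mul]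
        exact h3
      rw [this, inner_smul_left, Complex.conj_ofReal]
    have q5 : ‖b θ‖ ^ 2 + ‖b η‖ ^ 2 = ‖x‖ ^ 2 * ‖b ξ‖ ^ 2 := by exact_mod_cast q4
    have q6 : ‖b η‖ ^ 2 ≤ (‖x‖ * ‖b ξ‖) ^ 2 := by
      rw [mul_pow]
      nlinarith [sq_nonneg ‖b θ‖]
    exact (sq_le_sq₀ (norm_nonneg _) (by positivity)).mp q6
  obtain ⟨y, hy, hyη⟩ := exists_elt N ξ η hNf _ key
  exact ⟨y, hy, by rw [hyη]; exact hη⟩

theorem iso_of_reps (hM : ∀ a ∈ M, ∀ b ∈ M, ⟪ξ, (a * b) ξ⟫_ℂ = ⟪ξ, (b * a) ξ⟫_ℂ)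
    (hMf : ∀ a ∈ M, a ξ = 0 → a = 0)
    (hN : ∀ a ∈ N, ∀ b ∈ N, ⟪ξ, (a * b) ξ⟫_ℂ = ⟪ξ, (b * a) ξ⟫_ℂ)
    (hNf : ∀ a ∈ N, a ξ = 0 → a = 0)
    (h1 : ∀ a, π₁ a ∈ M) (h2 : ∀ a, π₂ a ∈ N) (hτ : ∀ a, ⟪ξ, π₁ a ξ⟫_ℂ = ⟪ξ, π₂ a ξ⟫_ℂ)
    (hd : ∀ x ∈ M, x ξ ∈ closure (Set.range fun a : A => π₁ a ξ))
    (hd' : ∀ y ∈ N, y ξ ∈ closure (Set.range fun a : A => π₂ a ξ)) :
    Nonempty (M.toStarSubalgebra ≃⋆ₐ[ℂ] N.toStarSubalgebra) := by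
  have hτ' : ∀ a, ⟪ξ, π₂ a ξ⟫_ℂ = ⟪ξ, π₁ a ξ⟫_ℂ := fun a => (hτ a).symm
  have F := partner M N hM hNf h1 h2 hτ hd
  have F' := partner (π₁ := π₂) (π₂ := π₁) N M hN hMf h2 h1 hτ' hd'
  choose! f hf1 hf2 using F
  choose! g hg1 hg2 using F'
  have inj : ∀ a ∈ N, ∀ b ∈ N, a ξ = b ξ → a = b := by
    intro a ha b hb hab
    have := hNf (a - b) (sub_mem ha hb) (by
      change a ξ - b ξ = 0
      rw [hab, sub_self])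
    exact sub_eq_zero.mp this
  have inj' : ∀ a ∈ M, ∀ b ∈ M, a ξ = b ξ → a = b := by
    intro a ha b hb hab
    have := hMf (a - b) (sub_mem ha hb) (by
      change a ξ - b ξ = 0
      rw [hab, sub_self])
    exact sub_eq_zero.mp this
  have u1 : ∀ x ∈ M, ∀ y ∈ N, G π₁ π₂ ξ (x ξ) (y ξ) → f x = y := fun x hx y hy h =>
    inj _ (hf1 x hx) y hy (G_unique hτ (hf2 x hx) h)
  have u2 : ∀ x ∈ M, ∀ y ∈ N, G π₁ π₂ ξ (x ξ) (y ξ) → g y = x := fun x hx y hy h =>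
    inj' _ (hg1 y hy) x hx (G_unique hτ' (hg2 y hy) (G_symm h))
  let e : M.toStarSubalgebra ≃ N.toStarSubalgebra :=
    { toFun := fun x => ⟨f x.1, hf1 x.1 x.2⟩
      invFun := fun y => ⟨g y.1, hg1 y.1 y.2⟩
      left_inv := fun x => Subtype.ext (u2 x.1 x.2 _ (hf1 x.1 x.2) (hf2 x.1 x.2))
      right_inv := fun y => Subtype.ext
        (u1 _ (hg1 y.1 y.2) y.1 y.2 (G_symm (hg2 y.1 y.2))) }
  have star_mem' : ∀ (W : VonNeumannAlgebra H), ∀ a ∈ W, star a ∈ W := fun W a ha =>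
    star_mem (S := VonNeumannAlgebra H) ha
  exact ⟨{
    toFun := e.toFun
    invFun := e.invFun
    left_inv := e.left_inv
    right_inv := e.right_inv
    map_mul' := fun x y => Subtype.ext
      (u1 _ (mul_mem x.2 y.2) _ (mul_mem (hf1 x.1 x.2) (hf1 y.1 y.2))
        (G_mul M N hM hN h1 h2 x.2 (hf1 x.1 x.2) y.2 (hf1 y.1 y.2) (hf2 x.1 x.2) (hf2 y.1 y.2)))
    map_add' := fun x y => Subtype.ext
      (u1 _ (add_mem x.2 y.2) _ (add_mem (hf1 x.1 x.2) (hf1 y.1 y.2))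
        (Gi_add (hf2 x.1 x.2) (hf2 y.1 y.2)))
    map_star' := fun x => Subtype.ext
      (u1 _ (star_mem' M _ x.2) _ (star_mem' N _ (hf1 x.1 x.2))
        (G_star M N hM hN h1 h2 x.2 (hf1 x.1 x.2) (hf2 x.1 x.2)))
    map_smul' := fun c x => Subtype.ext
      (u1 _ (vn_smul M c x.2) _ (vn_smul N c (hf1 x.1 x.2)) (G_smul (hf2 x.1 x.2) c)) }⟩

end rel

theorem iso_of_pairs
    (M N : VonNeumannAlgebra H) (ξ : H)
    (hM : ∀ a ∈ M, ∀ b ∈ M, ⟪ξ, (a * b) ξ⟫_ℂ = ⟪ξ, (b * a) ξ⟫_ℂ) (hMf : ∀ a ∈ M, a ξ = 0 → a = 0)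
    (hN : ∀ a ∈ N, ∀ b ∈ N, ⟪ξ, (a * b) ξ⟫_ℂ = ⟪ξ, (b * a) ξ⟫_ℂ) (hNf : ∀ a ∈ N, a ξ = 0 → a = 0)
    (R : StarSubalgebra ℂ ((H →L[ℂ] H) × (H →L[ℂ] H)))
    (hR : ∀ r ∈ R, r.1 ∈ M ∧ r.2 ∈ N ∧ ⟪ξ, r.1 ξ⟫_ℂ = ⟪ξ, r.2 ξ⟫_ℂ)
    (hMd : ∀ x ∈ M, x ξ ∈ closure {v : H | ∃ r ∈ R, v = r.1 ξ})
    (hNd : ∀ y ∈ N, y ξ ∈ closure {v : H | ∃ r ∈ R, v = r.2 ξ}) :
    Nonempty (M.toStarSubalgebra ≃⋆ₐ[ℂ] N.toStarSubalgebra) := by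
  let π₁ : R →⋆ₐ[ℂ] (H →L[ℂ] H) := (StarAlgHom.fst ℂ _ _).comp R.subtype
  let π₂ : R →⋆ₐ[ℂ] (H →L[ℂ] H) := (StarAlgHom.snd ℂ _ _).comp R.subtype
  refine iso_of_reps (π₁ := π₁) (π₂ := π₂) (ξ := ξ) M N hM hMf hN hNf
    (fun a => (hR a.1 a.2).1) (fun a => (hR a.1 a.2).2.1) (fun a => (hR a.1 a.2).2.2) ?_ ?_
  · intro x hx
    refine closure_mono ?_ (hMd x hx)
    rintro v ⟨r, hr, rfl⟩
    exact ⟨⟨r, hr⟩, rfl⟩
  · intro x hx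
    refine closure_mono ?_ (hNd x hx)
    rintro v ⟨r, hr, rfl⟩
    exact ⟨⟨r, hr⟩, rfl⟩

end Pool.Agent.H256.KS
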