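import Mathlib
import Pool.Graph.R_pool_sql_team_seeded_ab47071d.TH254.CC.Core

set_option autoImplicit false
set_option linter.unusedSectionVars false

/-! Two near finite factors in good position. -/

open scoped InnerProductSpace ComplexOrder

namespace Pool.Agent.H256.KS

open Pool.Agent.TH254.CC H759R2.Kad

variable {H : Type} [NormedAddCommGroup H] [InnerProductSpace ℂ H] [CompleteSpace H]

/-- the family with one vector -/
noncomputable def sv (ξ : H) : ℕ → H := fun k => if k = 0 then ξ else 0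

/-- `M` and `N` are near, `ξ` is a trace vector for both, `A ⊆ M ∩ N` is maximal abelian in `M`
and in `N`, the right multiplications by symmetries of `A` and the projection onto the closure of
`M ξ` are in both commutants -/
structure Pos (M N : VonNeumannAlgebra H) (ξ : H) (A : VonNeumannAlgebra H) (δ : ℝ) : Prop where
  hM : Fn M (sv ξ)
  hN : Fn N (sv ξ)
  d0 : 0 < δ
  d1 : δ ≤ 1 / 100000
  MN : Near M N δ
  NM : Near N M δ
  comm : ∀ a ∈ A, ∀ b ∈ A, a * b = b * a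
  AM : ∀ x ∈ A, x ∈ M
  AN : ∀ x ∈ A, x ∈ N
  masaM : ∀ x ∈ M, (∀ c ∈ A, c * x = x * c) → x ∈ A
  masaN : ∀ x ∈ N, (∀ c ∈ A, c * x = x * c) → x ∈ A
  rt : ∀ u ∈ A, star u = u → u * u = 1 →
    ∃ r : H →L[ℂ] H, ‖r‖ ≤ 1 ∧ r ∈ M.commutant ∧ r ∈ N.commutant ∧ r ξ = u ξ
  pr : ∃ e : H →L[ℂ] H, e ∈ M.commutant ∧ e ∈ N.commutant ∧ (∀ x ∈ M, e (x ξ) = x ξ) ∧
    ∀ v : H, e v ∈ closure {w : H | ∃ x ∈ M, w = x ξ}

end Pool.Agent.H256.KS
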