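import Mathlib
import Pool.Agent.H256.KS.PosD

set_option autoImplicit false
set_option linter.unusedSectionVars false

/-! Normalizing unitaries of `A` in `M` have counterparts in `N`.

`Pos` is the structure of the file `PosD.lean` (in the same folder).
(1) `exists_V`: take `y ∈ N` with `‖U - y‖ ≤ δ`; with `G = Sy A` (see `syGroup`, `IsMn`,
`exists_mn` in `TH254/CC/Grp.lean`, `Mean.lean`) let `T` be the mean of
`g ↦ (U g U⋆) y g`.  Then `T ∈ N`, `‖U - T‖ ≤ δ` (as `(U g U⋆) U g = U`), `(U a U⋆) T = T a` for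
`a` a symmetry of `A`, hence for all `a ∈ A` (`comm_of_sy`-like argument by `span_proj`, both
sides are linear and norm continuous in `a`).  `T⋆ T` commutes with `A`, so it is in `A`
(`masaN`); `s = (T⋆ T)^(-1/2) ∈ A` (`sqrt_near`, `inv_near`, `mem_of_comm`), `V = T s`.
(2) `V_vec`: for `T = U⋆ V` and also for `T = V⋆ U`: `T` commutes with `A`, with the operators
`r` of `Pos.rt` and with `e` of `Pos.pr`.  So `T ξ = e T ξ` is in the closure of `M ξ`, and
`g r_g T ξ = T g r_g ξ = T ξ` for symmetries `g`.  For `x ∈ M` the mean of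
`g r_g (x ξ) = (g x g) ξ` is `E(x) ξ` with `E(x) ∈ A` (mean of `g x g`, in `M` and
commuting with `A`).  If `x_k ξ → T ξ` then `‖T ξ - E(x_k) ξ‖ ≤ ‖T ξ - x_k ξ‖` (look at matrix
coefficients / norms under means), so `T ξ` is in the closure of `A ξ`.
(3) `V_tr`: let `b` be the mean of `g V g`; `b ∈ A`, `b a = (U a U⋆) b`, and
`⟪ξ, a V ξ⟫ = ⟪ξ, a b ξ⟫` (trace).  `d = b⋆ U ∈ M` commutes with `A`, so `d ∈ A`; by hypothesis
`⟪ξ, (d⋆ b⋆) U ξ⟫ = 0`, i.e. `⟪d ξ, d ξ⟫ = 0`, so `d = 0`, `b = 0`. -/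

open scoped InnerProductSpace ComplexOrder

namespace Pool.Agent.H256.KS

open Pool.Agent.TH254.CC H759R2.Kad

variable {H : Type} [NormedAddCommGroup H] [InnerProductSpace ℂ H] [CompleteSpace H]

theorem ks_norm_le_one {U : H →L[ℂ] H} (h : star U * U = 1) : ‖U‖ ≤ 1 := norm_of_unitary h

theorem ks_sv (ξ : H) (x : H →L[ℂ] H) :
    Pool.Agent.TH254.CC.tr (sv ξ) x = ⟪ξ, x ξ⟫_ℂ := by
  unfold Pool.Agent.TH254.CC.tr
  rw [tsum_eq_single 0]
  · simp [sv]
  · intro k hk
    simp [sv, hk]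

theorem ks_vec {G : Type} [CommGroup G] {f : G → (H →L[ℂ] H)} {S : H →L[ℂ] H} (h : IsMn f S)
    (ξ v : H) (c : ℝ) (hc : ∀ s, ‖f s ξ - v‖ ≤ c) : ‖S ξ - v‖ ≤ c := by
  have hc0 : 0 ≤ c := (norm_nonneg _).trans (hc 1)
  have hav : ∀ F : Finset G, ‖av F f ξ - v‖ ≤ c := by
    intro F
    have h2 := av_map (ContinuousLinearMap.apply ℂ H ξ).toLinearMap F f
    have h3 : av F f ξ = av F (fun s => f s ξ) := h2
    have h4 : av F f ξ - v = av F (fun s => f s ξ - v) := by
      have h5 := av_add F (fun s => f s ξ - v) (fun _ => v)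
      simp only [sub_add_cancel] at h5
      rw [av_const] at h5
      rw [h3, h5, add_sub_cancel_right]
    rw [h4]
    exact av_norm F _ c hc
  have key : ∀ η : H, ‖⟪η, S ξ - v⟫_ℂ‖ ≤ ‖η‖ * c := by
    intro η
    have h1 : Filter.Tendsto (fun F => ‖⟪η, av F f ξ⟫_ℂ - ⟪η, v⟫_ℂ‖) (UU G)
        (nhds ‖⟪η, S ξ⟫_ℂ - ⟪η, v⟫_ℂ‖) := ((h ξ η).sub_const _).norm
    rw [inner_sub_right]
    refine le_of_tendsto h1 (Filter.Eventually.of_forall fun F => ?_)
    rw [← inner_sub_right]
    exact (norm_inner_le_norm _ _).trans (by gcongr; exact hav F)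
  have h2 := key (S ξ - v)
  rw [inner_self_eq_norm_sq_to_K] at h2
  have h3 : ‖((‖S ξ - v‖ : ℂ)) ^ 2‖ = ‖S ξ - v‖ ^ 2 := by
    rw [norm_pow, Complex.norm_real, norm_norm]
  have h4 : ‖S ξ - v‖ ^ 2 ≤ ‖S ξ - v‖ * c := by
    rw [← h3]
    exact h2
  by_contra hcon
  push Not at hcon
  nlinarith [norm_nonneg (S ξ - v)]

theorem exists_V {M N A : VonNeumannAlgebra H} {ξ : H} {δ : ℝ} (h : Pos M N ξ A δ)
    {U : H →L[ℂ] H} (hU : U ∈ M) (hU1 : star U * U = 1) (hU2 : U * star U = 1)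
    (hA : ∀ a ∈ A, U * a * star U ∈ A) (hA' : ∀ a ∈ A, star U * a * U ∈ A) :
    ∃ V ∈ N, star V * V = 1 ∧ V * star V = 1 ∧ ‖U - V‖ ≤ 9 * δ ∧
      ∀ a ∈ A, V * a = U * a * star U * V := by
  let _ := syGroup A h.comm
  have hd0 := h.d0
  have hd1 := h.d1
  have hUn : ‖U‖ ≤ 1 := norm_of_unitary hU1
  have hUsn : ‖star U‖ ≤ 1 := norm_star_of_unitary hU1
  have hgn : ∀ g : Sy A, ‖g.1‖ ≤ 1 := fun g =>
    norm_le_one_of_sq _ (by rw [g.2.2.1, g.2.2.2])
  obtain ⟨y, hy, hUy⟩ := h.MN U hU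
  have hUy' : ‖y - U‖ ≤ δ := by
    rw [norm_sub_rev]
    exact hUy.trans (mul_le_of_le_one_right hd0.le hUn)
  have hkn : ∀ g : Sy A, ‖U * g.1 * star U‖ ≤ 1 := fun g => by
    have : ‖U * g.1 * star U‖ ≤ 1 * 1 * 1 := (norm_mul_le _ _).trans
      (mul_le_mul ((norm_mul_le _ _).trans (mul_le_mul hUn (hgn g) (norm_nonneg _) zero_le_one))
        hUsn (norm_nonneg _) (by norm_num))
    linarith
  obtain ⟨T, -, hT⟩ := exists_mn (G := Sy A) (fun g => (U * g.1 * star U) * y * g.1)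
    (1 * ‖y‖ * 1) (fun g => (norm_mul_le _ _).trans (mul_le_mul ((norm_mul_le _ _).trans
      (mul_le_mul (hkn g) le_rfl (norm_nonneg _) zero_le_one)) (hgn g) (norm_nonneg _)
        (by positivity)))
  have hTN : T ∈ N := hT.mem N fun g =>
    mul_mem (mul_mem (h.AN _ (hA _ g.2.1)) hy) (h.AN _ g.2.1)
  have hTU : ‖T - U‖ ≤ δ := by
    refine hT.norm_sub U δ fun g => ?_
    have e : (U * g.1 * star U) * y * g.1 - U = (U * g.1 * star U) * (y - U) * g.1 := by
      have e1 : (U * g.1 * star U) * U * g.1 = U := by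
        calc (U * g.1 * star U) * U * g.1 = U * g.1 * (star U * U) * g.1 := by noncomm_ring
          _ = U * (g.1 * g.1) := by rw [hU1]; noncomm_ring
          _ = U := by rw [g.2.2.2, mul_one]
      have e2 : (U * g.1 * star U) * (y - U) * g.1 =
          (U * g.1 * star U) * y * g.1 - (U * g.1 * star U) * U * g.1 := by noncomm_ring
      rw [e2, e1]
    rw [e]
    have : ‖(U * g.1 * star U) * (y - U) * g.1‖ ≤ 1 * δ * 1 := (norm_mul_le _ _).trans
      (mul_le_mul ((norm_mul_le _ _).trans (mul_le_mul (hkn g) hUy' (norm_nonneg _) zero_le_one))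
        (hgn g) (norm_nonneg _) (by positivity))
    linarith
  have hTt : ∀ t : Sy A, (U * t.1 * star U) * T = T * t.1 := by
    intro t
    refine (IsMn.congr (hT.mulLeft (U * t.1 * star U)) fun g => ?_).unique
      ((hT.shift (fun g : Sy A => Subtype.ext g.2.2.2) t).mulRight t.1)
    have e1 : (t * g).1 = t.1 * g.1 := rfl
    show (U * t.1 * star U) * ((U * g.1 * star U) * y * g.1) =
      (U * (t * g).1 * star U) * y * (t * g).1 * t.1
    rw [e1]
    have e2 : t.1 * g.1 * t.1 = g.1 := by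
      rw [h.comm _ t.2.1 _ g.2.1, mul_assoc, t.2.2.2, mul_one]
    calc (U * t.1 * star U) * ((U * g.1 * star U) * y * g.1) =
        U * t.1 * (star U * U) * g.1 * star U * y * g.1 := by noncomm_ring
      _ = U * (t.1 * g.1) * star U * y * (t.1 * g.1 * t.1) := by
          rw [hU1, e2]; noncomm_ring
      _ = _ := by noncomm_ring
  have hTa : ∀ a ∈ A, T * a = U * a * star U * T := by
    have h1 := comm_of_sy A h.comm (star U * T) (fun u => by
      have := hTt u
      calc u.1 * (star U * T) = (star U * U) * u.1 * star U * T := by rw [hU1]; noncomm_ring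
        _ = star U * (U * u.1 * star U * T) := by noncomm_ring
        _ = star U * T * u.1 := by rw [this]; noncomm_ring)
    intro a ha
    have h2 := h1 a ha
    calc T * a = (U * star U) * T * a := by rw [hU2, one_mul]
      _ = U * (star U * T * a) := by noncomm_ring
      _ = U * (a * (star U * T)) := by rw [h2]
      _ = _ := by noncomm_ring
  have hTs : ∀ a ∈ A, star T * (U * a * star U) = a * star T := by
    intro a ha
    have h1 := congrArg star (hTa (star a) (star_mem ha))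
    rw [star_mul, star_mul, star_mul, star_mul, star_star, star_star] at h1
    rw [h1]
    noncomm_ring
  have hPA : star T * T ∈ A := by
    refine h.masaN _ (mul_mem (star_mem hTN) hTN) fun c hc => ?_
    calc c * (star T * T) = (c * star T) * T := by noncomm_ring
      _ = star T * (U * c * star U * T) := by rw [← hTs c hc]; noncomm_ring
      _ = star T * T * c := by rw [← hTa c hc]; noncomm_ring
  have hTn : ‖T‖ ≤ 1 + δ := by
    have e : T = U + (T - U) := by abel
    rw [e]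
    exact (norm_add_le _ _).trans (add_le_add hUn hTU)
  have hP1 : ‖star T * T - 1‖ ≤ 3 * δ := by
    have e : star T * T - 1 = star T * (T - U) + star (T - U) * U := by
      rw [star_sub, ← hU1]
      noncomm_ring
    rw [e]
    have n1 : ‖star T * (T - U)‖ ≤ (1 + δ) * δ := (norm_mul_le _ _).trans
      (mul_le_mul (by rw [norm_star]; exact hTn) hTU (norm_nonneg _) (by linarith))
    have n2 : ‖star (T - U) * U‖ ≤ δ * 1 := (norm_mul_le _ _).trans
      (mul_le_mul (by rw [norm_star]; exact hTU) hUn (norm_nonneg _) hd0.le)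
    have n3 := norm_add_le (star T * (T - U)) (star (T - U) * U)
    nlinarith
  obtain ⟨p, p1, p2, p3, p4⟩ := sqrt_near (star T * T) (by rw [star_mul, star_star]) (3 * δ)
    (by linarith) hP1
  obtain ⟨s, s1, s2, s3⟩ := inv_near p (3 * δ) (by linarith) p3
  have hpA : p ∈ A := mem_of_comm A _ p hPA p4
  have hsc : ∀ b : H →L[ℂ] H, b * p = p * b → b * s = s * b := by
    intro b hb
    calc b * s = (s * p) * b * s := by rw [s2, one_mul]
      _ = s * (p * b) * s := by noncomm_ring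
      _ = s * b * (p * s) := by rw [← hb]; noncomm_ring
      _ = s * b := by rw [s1, mul_one]
  have hsA : s ∈ A := mem_of_comm A p s hpA hsc
  have hss : star s = s := by
    have h1 := congrArg star s1
    rw [star_mul, p1, star_one] at h1
    exact left_inv_eq_right_inv h1 s1
  have hVV : star (T * s) * (T * s) = 1 := by
    rw [star_mul, hss]
    calc s * star T * (T * s) = s * (star T * T) * s := by noncomm_ring
      _ = (s * p) * (p * s) := by rw [← p2]; noncomm_ring
      _ = 1 := by rw [s1, s2, one_mul]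
  have hVN : T * s ∈ N := mul_mem hTN (h.AN _ hsA)
  refine ⟨T * s, hVN, hVV, ?_, ?_, ?_⟩
  · have e1 : star (1 - T * s * star (T * s)) * (1 - T * s * star (T * s)) =
        1 - T * s * star (T * s) := by
      have e2 : star (1 - T * s * star (T * s)) = 1 - T * s * star (T * s) := by
        rw [star_sub, star_one, star_mul, star_star]
      rw [e2]
      have e3 : T * s * star (T * s) * (T * s * star (T * s)) = T * s * star (T * s) := by
        calc T * s * star (T * s) * (T * s * star (T * s)) =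
            T * s * (star (T * s) * (T * s)) * star (T * s) := by noncomm_ring
          _ = _ := by rw [hVV, mul_one]
      calc (1 - T * s * star (T * s)) * (1 - T * s * star (T * s)) =
          1 - T * s * star (T * s) - T * s * star (T * s) +
            T * s * star (T * s) * (T * s * star (T * s)) := by noncomm_ring
        _ = _ := by rw [e3]; abel
    have e4 := h.hN.faithful (1 - T * s * star (T * s))
      (sub_mem (one_mem N) (mul_mem hVN (star_mem hVN))) (by
        rw [e1, tr_sub h.hN.sum, h.hN.comm _ hVN _ (star_mem hVN), hVV, sub_self])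
    exact (sub_eq_zero.mp e4).symm
  · have e : U - T * s = (U - T) - T * (s - 1) := by noncomm_ring
    rw [e]
    have n1 : ‖U - T‖ ≤ δ := by rw [norm_sub_rev]; exact hTU
    have n2 : ‖T * (s - 1)‖ ≤ (1 + δ) * (2 * (3 * δ)) := (norm_mul_le _ _).trans
      (mul_le_mul hTn s3 (norm_nonneg _) (by linarith))
    have n3 := norm_sub_le (U - T) (T * (s - 1))
    nlinarith
  · intro a ha
    have e : a * s = s * a := h.comm _ ha _ hsA
    calc T * s * a = T * (s * a) := by noncomm_ring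
      _ = T * a * s := by rw [← e]; noncomm_ring
      _ = _ := by rw [hTa a ha]; noncomm_ring

theorem V_vec {M N A : VonNeumannAlgebra H} {ξ : H} {δ : ℝ} (h : Pos M N ξ A δ)
    {T : H →L[ℂ] H} (hTA : ∀ a ∈ A, a * T = T * a)
    (hT : ∀ r : H →L[ℂ] H, r ∈ M.commutant → r ∈ N.commutant → r * T = T * r) :
    T ξ ∈ closure {w : H | ∃ a ∈ A, w = a ξ} := by
  let _ := syGroup A h.comm
  have hgn : ∀ g : Sy A, ‖g.1‖ ≤ 1 := fun g =>
    norm_le_one_of_sq _ (by rw [g.2.2.1, g.2.2.2])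
  obtain ⟨e, e1, e2, e3, e4⟩ := h.pr
  have h1 : T ξ ∈ closure {w : H | ∃ x ∈ M, w = x ξ} := by
    have h2 : e (T ξ) = T ξ := by
      have h3 : (e * T) ξ = (T * e) ξ := by rw [hT e e1 e2]
      have h4 : e ξ = ξ := e3 1 (one_mem M)
      calc e (T ξ) = (T * e) ξ := h3
        _ = T (e ξ) := rfl
        _ = T ξ := by rw [h4]
    rw [← h2]
    exact e4 _
  rw [Metric.mem_closure_iff] at h1 ⊢
  intro ε hε
  obtain ⟨_, ⟨x, hx, rfl⟩, hxd⟩ := h1 ε hε
  obtain ⟨E, -, hE⟩ := exists_mn (G := Sy A) (fun g => g.1 * x * g.1) (1 * ‖x‖ * 1) (fun g =>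
    (norm_mul_le _ _).trans (mul_le_mul ((norm_mul_le _ _).trans
      (mul_le_mul (hgn g) le_rfl (norm_nonneg _) zero_le_one)) (hgn g) (norm_nonneg _)
        (by positivity)))
  have hEM : E ∈ M := hE.mem M fun g => mul_mem (mul_mem (h.AM _ g.2.1) hx) (h.AM _ g.2.1)
  have hEc : ∀ t : Sy A, t.1 * E = E * t.1 := by
    intro t
    refine (IsMn.congr (hE.mulLeft t.1) fun g => ?_).unique
      ((hE.shift (fun g : Sy A => Subtype.ext g.2.2.2) t).mulRight t.1)
    have a1 : (t * g).1 = t.1 * g.1 := rfl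
    have a2 : t.1 * g.1 * t.1 = g.1 := by
      rw [h.comm _ t.2.1 _ g.2.1, mul_assoc, t.2.2.2, mul_one]
    show t.1 * (g.1 * x * g.1) = (t * g).1 * x * (t * g).1 * t.1
    rw [a1]
    calc t.1 * (g.1 * x * g.1) = t.1 * g.1 * x * (t.1 * g.1 * t.1) := by
          rw [a2]; noncomm_ring
      _ = _ := by noncomm_ring
  have hEA : E ∈ A := h.masaM E hEM (comm_of_sy A h.comm E hEc)
  refine ⟨E ξ, ⟨E, hEA, rfl⟩, ?_⟩
  rw [dist_comm, dist_eq_norm] at *
  refine lt_of_le_of_lt (ks_vec hE ξ (T ξ) ‖x ξ - T ξ‖ fun g => ?_) hxd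
  obtain ⟨r, r1, r2, r3, r4⟩ := h.rt g.1 g.2.1 g.2.2.1 g.2.2.2
  have b1 : (g.1 * x * g.1) ξ = g.1 (r (x ξ)) := by
    have c1 : (x * r) ξ = (r * x) ξ := by
      rw [VonNeumannAlgebra.mem_commutant_iff.mp r2 x hx]
    have c2 : r (x ξ) = x (g.1 ξ) := by
      calc r (x ξ) = (x * r) ξ := c1.symm
        _ = x (r ξ) := rfl
        _ = x (g.1 ξ) := by rw [r4]
    rw [c2]
    rfl
  have b2 : T ξ = g.1 (r (T ξ)) := by
    have c1 : (r * T) ξ = (T * r) ξ := by rw [hT r r2 r3]
    have c2 : r (T ξ) = T (g.1 ξ) := by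
      calc r (T ξ) = (T * r) ξ := c1
        _ = T (r ξ) := rfl
        _ = T (g.1 ξ) := by rw [r4]
    have c3 : (g.1 * T * g.1) ξ = T ξ := by
      rw [hTA _ g.2.1, mul_assoc, g.2.2.2, mul_one]
    rw [c2]
    exact c3.symm
  have b3 : (g.1 * x * g.1) ξ - T ξ = g.1 (r (x ξ - T ξ)) := by
    rw [map_sub, map_sub, ← b1, ← b2]
  show ‖(g.1 * x * g.1) ξ - T ξ‖ ≤ _
  rw [b3]
  have n1 : ‖g.1 (r (x ξ - T ξ))‖ ≤ 1 * ‖r (x ξ - T ξ)‖ :=
    (ContinuousLinearMap.le_opNorm _ _).trans (by gcongr; exact hgn g)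
  have n2 : ‖r (x ξ - T ξ)‖ ≤ 1 * ‖x ξ - T ξ‖ :=
    (ContinuousLinearMap.le_opNorm _ _).trans (by gcongr)
  linarith

theorem V_tr {M N A : VonNeumannAlgebra H} {ξ : H} {δ : ℝ} (h : Pos M N ξ A δ)
    {U V : H →L[ℂ] H} (hU : U ∈ M) (hU1 : star U * U = 1) (hU2 : U * star U = 1)
    (hA : ∀ a ∈ A, U * a * star U ∈ A) (hV : V ∈ N)
    (hVa : ∀ a ∈ A, V * a = U * a * star U * V) (h0 : ∀ a ∈ A, ⟪ξ, (a * U) ξ⟫_ℂ = 0) :
    ∀ a ∈ A, ⟪ξ, (a * V) ξ⟫_ℂ = 0 := by
  let _ := syGroup A h.comm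
  have hgn : ∀ g : Sy A, ‖g.1‖ ≤ 1 := fun g =>
    norm_le_one_of_sq _ (by rw [g.2.2.1, g.2.2.2])
  obtain ⟨b, -, hb⟩ := exists_mn (G := Sy A) (fun g => g.1 * V * g.1) (1 * ‖V‖ * 1) (fun g =>
    (norm_mul_le _ _).trans (mul_le_mul ((norm_mul_le _ _).trans
      (mul_le_mul (hgn g) le_rfl (norm_nonneg _) zero_le_one)) (hgn g) (norm_nonneg _)
        (by positivity)))
  have hbN : b ∈ N := hb.mem N fun g => mul_mem (mul_mem (h.AN _ g.2.1) hV) (h.AN _ g.2.1)
  have hbc : ∀ t : Sy A, t.1 * b = b * t.1 := by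
    intro t
    refine (IsMn.congr (hb.mulLeft t.1) fun g => ?_).unique
      ((hb.shift (fun g : Sy A => Subtype.ext g.2.2.2) t).mulRight t.1)
    have a1 : (t * g).1 = t.1 * g.1 := rfl
    have a2 : t.1 * g.1 * t.1 = g.1 := by
      rw [h.comm _ t.2.1 _ g.2.1, mul_assoc, t.2.2.2, mul_one]
    show t.1 * (g.1 * V * g.1) = (t * g).1 * V * (t * g).1 * t.1
    rw [a1]
    calc t.1 * (g.1 * V * g.1) = t.1 * g.1 * V * (t.1 * g.1 * t.1) := by
          rw [a2]; noncomm_ring
      _ = _ := by noncomm_ring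
  have hbA : b ∈ A := h.masaN b hbN (comm_of_sy A h.comm b hbc)
  have hba : ∀ a ∈ A, b * a = U * a * star U * b := by
    intro a ha
    refine (IsMn.congr (hb.mulRight a) fun g => ?_).unique (hb.mulLeft (U * a * star U))
    show g.1 * V * g.1 * a = (U * a * star U) * (g.1 * V * g.1)
    calc g.1 * V * g.1 * a = g.1 * V * (g.1 * a) := by noncomm_ring
      _ = g.1 * (V * a) * g.1 := by rw [h.comm _ g.2.1 _ ha]; noncomm_ring
      _ = (g.1 * (U * a * star U)) * V * g.1 := by rw [hVa a ha]; noncomm_ring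
      _ = ((U * a * star U) * g.1) * V * g.1 := by rw [h.comm _ g.2.1 _ (hA a ha)]
      _ = _ := by noncomm_ring
  have hbs : ∀ a ∈ A, a * star b = star b * (U * a * star U) := by
    intro a ha
    have h1 := congrArg star (hba (star a) (star_mem ha))
    rw [star_mul, star_mul, star_mul, star_mul, star_star, star_star] at h1
    rw [h1]
    noncomm_ring
  have hdM : star b * U ∈ M := mul_mem (h.AM _ (star_mem hbA)) hU
  have hdA : star b * U ∈ A := by
    refine h.masaM _ hdM fun c hc => ?_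
    calc c * (star b * U) = (c * star b) * U := by noncomm_ring
      _ = star b * (U * c) * (star U * U) := by rw [hbs c hc]; noncomm_ring
      _ = star b * U * c := by rw [hU1]; noncomm_ring
  have hd0 : star b * U = 0 := by
    refine h.hM.faithful _ hdM ?_
    rw [ks_sv]
    have h1 := h0 (star (star b * U) * star b) (mul_mem (star_mem hdA) (star_mem hbA))
    rw [mul_assoc] at h1
    exact h1
  have hb0 : b = 0 := by
    have h1 : star b = 0 := by
      calc star b = star b * U * star U := by rw [mul_assoc, hU2, mul_one]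
        _ = 0 := by rw [hd0, zero_mul]
    rw [← star_star b, h1, star_zero]
  intro a ha
  have h1 : ∀ g : Sy A, ⟪ξ, (a * (g.1 * V * g.1)) ξ⟫_ℂ = ⟪ξ, (a * V) ξ⟫_ℂ := by
    intro g
    have e1 : a * (g.1 * V * g.1) = (a * g.1 * V) * g.1 := by noncomm_ring
    rw [← ks_sv, ← ks_sv, e1, h.hN.comm _ (mul_mem (mul_mem (h.AN _ ha) (h.AN _ g.2.1)) hV) _
      (h.AN _ g.2.1)]
    have e2 : g.1 * (a * g.1 * V) = a * V := by
      calc g.1 * (a * g.1 * V) = (g.1 * a) * g.1 * V := by noncomm_ring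
        _ = a * (g.1 * g.1) * V := by rw [h.comm _ g.2.1 _ ha]; noncomm_ring
        _ = a * V := by rw [g.2.2.2, mul_one]
    rw [e2]
  have h2 := (hb.mulLeft a).re_inner ξ ξ _ h1
  rw [← h2, hb0, mul_zero]
  simp

end Pool.Agent.H256.KS
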