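import Mathlib
import Pool.Agent.H256.KS.Gap2
import Pool.Agent.H256.KS.Iso
import Pool.Agent.H256.KS.Normal

set_option autoImplicit false
set_option linter.unusedSectionVars false

/-! Multiplicative families of normalizing unitaries give an isomorphism.

Paper proof (sketch), for `iso_of_pairs` (file `Iso.lean`).  `R` is the span of the pairs
`(a * U g, a * V g)`, `a ∈ A`, which is a *-subalgebra (`a U_g b U_h = a (U_g b U_g⋆) U_gh`,
`(a U_g)⋆ = (U_g⁻¹ a⋆ U_g) U_g⁻¹`; `U 1 = V 1 = 1`, `U g⁻¹ = star (U g)`).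
Moments: `⟪ξ, a U_g ξ⟫ = ⟪ξ, a V_g ξ⟫` is clear for `g = 1`, for `g ≠ 1` both are `0`
(`h0`, and `V_tr` of `Normal.lean`).
Density for `M` is the hypothesis `hd`.
Density for `N`: with `e` from `Pos.pr`, `y ξ = y e ξ = e y ξ` is in the closure of `M ξ`, so in `L`.
And `U_g ξ = V_g T ξ`, `T = V_g⋆ U_g`, commutes with `A` and with the common commutant, so by
`V_vec` of `Normal.lean` `T ξ` is in the closure of `A ξ`, so `U_g ξ` is in the closure of
`V_g A ξ = (U_g A U_g⋆) V_g ξ`.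
Faithfulness (`a ξ = 0 → a = 0`) and trace property are from `Pos.hM`, `Pos.hN` (`Fn`), as
`tr (sv ξ) x = ⟪ξ, x ξ⟫` (`ks_sv` in `Normal.lean`). -/

open scoped InnerProductSpace ComplexOrder

namespace Pool.Agent.H256.KS

open Pool.Agent.TH254.CC H759R2.Kad

variable {H : Type} [NormedAddCommGroup H] [InnerProductSpace ℂ H] [CompleteSpace H]

namespace RepAux

theorem vstar {W : VonNeumannAlgebra H} {a : H →L[ℂ] H} (ha : a ∈ W) : star a ∈ W :=
  star_mem (S := VonNeumannAlgebra H) ha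

theorem rep_one {Γ : Type} [Group Γ] (U : Γ → (H →L[ℂ] H)) (hU : ∀ g, Un (U g))
    (hUm : ∀ g h, U (g * h) = U g * U h) : U 1 = 1 := by
  have h1 := hUm 1 1
  rw [mul_one] at h1
  calc U 1 = star (U 1) * U 1 * U 1 := by rw [(hU 1).1, one_mul]
    _ = star (U 1) * (U 1 * U 1) := by rw [mul_assoc]
    _ = star (U 1) * U 1 := by rw [← h1]
    _ = 1 := (hU 1).1

theorem rep_star {Γ : Type} [Group Γ] (U : Γ → (H →L[ℂ] H)) (hU : ∀ g, Un (U g))
    (hUm : ∀ g h, U (g * h) = U g * U h) (g : Γ) : star (U g) = U g⁻¹ := by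
  have h1 : U g * U g⁻¹ = 1 := by rw [← hUm, mul_inv_cancel, rep_one U hU hUm]
  calc star (U g) = star (U g) * (U g * U g⁻¹) := by rw [h1, mul_one]
    _ = (star (U g) * U g) * U g⁻¹ := by rw [mul_assoc]
    _ = U g⁻¹ := by rw [(hU g).1, one_mul]

/-- orthogonal projections onto invariant subspaces commute -/
theorem proj_comm (K : Submodule ℂ H) [K.HasOrthogonalProjection] (t : H →L[ℂ] H)
    (h1 : ∀ v ∈ K, t v ∈ K) (h2 : ∀ v ∈ K, star t v ∈ K) :
    t * K.starProjection = K.starProjection * t := by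
  ext v
  have h3 : t (K.starProjection v) ∈ K := h1 _ (Submodule.starProjection_apply_mem K v)
  have h4 : t v - t (K.starProjection v) ∈ Kᗮ := by
    rw [← map_sub, Submodule.mem_orthogonal]
    intro u hu
    rw [← ContinuousLinearMap.adjoint_inner_left]
    exact Submodule.inner_right_of_mem_orthogonal (h2 _ hu)
      (Submodule.sub_starProjection_mem_orthogonal v)
  exact (Submodule.eq_starProjection_of_mem_orthogonal h3 h4).symm

end RepAux

open RepAux in
theorem iso_of_rep {M N A : VonNeumannAlgebra H} {ξ : H} {δ : ℝ} (h : Pos M N ξ A δ)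
    {Γ : Type} [Group Γ] (U V : Γ → (H →L[ℂ] H)) (hU : ∀ g, U g ∈ M ∧ Un (U g))
    (hV : ∀ g, V g ∈ N ∧ Un (V g)) (hUm : ∀ g h, U (g * h) = U g * U h)
    (hVm : ∀ g h, V (g * h) = V g * V h) (hUA : ∀ g, ∀ a ∈ A, U g * a * star (U g) ∈ A)
    (hVa : ∀ g, ∀ a ∈ A, V g * a = U g * a * star (U g) * V g)
    (h0 : ∀ g, g ≠ 1 → ∀ a ∈ A, ⟪ξ, (a * U g) ξ⟫_ℂ = 0)
    (hd : ∀ x ∈ M, x ξ ∈ (Submodule.span ℂ {v : H | ∃ a ∈ A, ∃ g, v = (a * U g) ξ}).topologicalClosure) :
    Nonempty (M.toStarSubalgebra ≃⋆ₐ[ℂ] N.toStarSubalgebra) := by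
  have u1 : U 1 = 1 := rep_one U (fun g => (hU g).2) hUm
  have v1 : V 1 = 1 := rep_one V (fun g => (hV g).2) hVm
  have us : ∀ g, star (U g) = U g⁻¹ := rep_star U (fun g => (hU g).2) hUm
  have vs : ∀ g, star (V g) = V g⁻¹ := rep_star V (fun g => (hV g).2) hVm
  have us' : ∀ g, star (U g⁻¹) = U g := fun g => by rw [us, inv_inv]
  -- the generating pairs
  set P : Set ((H →L[ℂ] H) × (H →L[ℂ] H)) := {p | ∃ a ∈ A, ∃ g, p = (a * U g, a * V g)} with hP
  have hPmul : ∀ p ∈ P, ∀ q ∈ P, p * q ∈ P := by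
    rintro _ ⟨a, ha, g, rfl⟩ _ ⟨b, hb, k, rfl⟩
    refine ⟨a * (U g * b * star (U g)), mul_mem ha (hUA g b hb), g * k, ?_⟩
    refine Prod.ext ?_ ?_
    · show a * U g * (b * U k) = a * (U g * b * star (U g)) * U (g * k)
      rw [hUm]
      calc a * U g * (b * U k) = a * U g * b * 1 * U k := by noncomm_ring
        _ = a * U g * b * (star (U g) * U g) * U k := by rw [(hU g).2.1]
        _ = _ := by noncomm_ring
    · show a * V g * (b * V k) = a * (U g * b * star (U g)) * V (g * k)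
      rw [hVm]
      calc a * V g * (b * V k) = a * (V g * b) * V k := by noncomm_ring
        _ = a * (U g * b * star (U g) * V g) * V k := by rw [hVa g b hb]
        _ = _ := by noncomm_ring
  have hPstar : ∀ p ∈ P, star p ∈ P := by
    rintro _ ⟨a, ha, g, rfl⟩
    have e1 : U g⁻¹ * star a * star (U g⁻¹) ∈ A := hUA g⁻¹ _ (vstar ha)
    refine ⟨U g⁻¹ * star a * star (U g⁻¹), e1, g⁻¹, ?_⟩
    refine Prod.ext ?_ ?_
    · show star (a * U g) = _
      rw [star_mul, us]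
      calc U g⁻¹ * star a = U g⁻¹ * star a * (star (U g⁻¹) * U g⁻¹) := by
            rw [(hU g⁻¹).2.1, mul_one]
        _ = _ := by noncomm_ring
    · show star (a * V g) = _
      rw [star_mul, vs, hVa g⁻¹ _ (vstar ha)]
  have hPone : (1 : (H →L[ℂ] H) × (H →L[ℂ] H)) ∈ P := by
    refine ⟨1, one_mem A, 1, ?_⟩
    rw [u1, v1, one_mul]
    rfl
  let R : StarSubalgebra ℂ ((H →L[ℂ] H) × (H →L[ℂ] H)) :=
    { carrier := (Submodule.span ℂ P : Set ((H →L[ℂ] H) × (H →L[ℂ] H)))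
      mul_mem' := by
        intro x y hx hy
        refine Submodule.span_induction₂ (p := fun x y _ _ => x * y ∈ Submodule.span ℂ P)
          (fun x y hx hy => Submodule.subset_span (hPmul x hx y hy)) ?_ ?_ ?_ ?_ ?_ ?_ hx hy
        · intro y _; rw [zero_mul]; exact zero_mem _
        · intro x _; rw [mul_zero]; exact zero_mem _
        · intro x y z _ _ _ h1 h2; rw [add_mul]; exact add_mem h1 h2
        · intro x y z _ _ _ h1 h2; rw [mul_add]; exact add_mem h1 h2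
        · intro r x y _ _ h1; rw [smul_mul_assoc]; exact Submodule.smul_mem _ _ h1
        · intro r x y _ _ h1; rw [mul_smul_comm]; exact Submodule.smul_mem _ _ h1
      one_mem' := Submodule.subset_span hPone
      add_mem' := fun hx hy => add_mem hx hy
      zero_mem' := zero_mem _
      algebraMap_mem' := by
        intro r
        rw [Algebra.algebraMap_eq_smul_one]
        exact Submodule.smul_mem _ _ (Submodule.subset_span hPone)
      star_mem' := by
        intro x hx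
        refine Submodule.span_induction (p := fun x _ => star x ∈ Submodule.span ℂ P)
          (fun x hx => Submodule.subset_span (hPstar x hx)) ?_ ?_ ?_ hx
        · show star (0 : (H →L[ℂ] H) × (H →L[ℂ] H)) ∈ _
          rw [star_zero]; exact zero_mem _
        · intro x y _ _ h1 h2; rw [star_add]; exact add_mem h1 h2
        · intro r x _ h1; rw [star_smul]; exact Submodule.smul_mem _ _ h1 }
  have hRP : ∀ p ∈ P, p ∈ R := fun p hp => Submodule.subset_span hp
  have hRind : ∀ Q : (H →L[ℂ] H) × (H →L[ℂ] H) → Prop, (∀ p ∈ P, Q p) → Q 0 →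
      (∀ x y, Q x → Q y → Q (x + y)) → (∀ (c : ℂ) x, Q x → Q (c • x)) → ∀ r ∈ R, Q r := by
    intro Q q1 q2 q3 q4 r hr
    exact Submodule.span_induction (p := fun x _ => Q x) q1 q2 (fun x y _ _ => q3 x y)
      (fun c x _ => q4 c x) hr
  -- trace and faithfulness
  have tM : ∀ a ∈ M, ∀ b ∈ M, ⟪ξ, (a * b) ξ⟫_ℂ = ⟪ξ, (b * a) ξ⟫_ℂ := by
    intro a ha b hb
    rw [← ks_sv, ← ks_sv]; exact h.hM.comm a ha b hb
  have tN : ∀ a ∈ N, ∀ b ∈ N, ⟪ξ, (a * b) ξ⟫_ℂ = ⟪ξ, (b * a) ξ⟫_ℂ := by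
    intro a ha b hb
    rw [← ks_sv, ← ks_sv]; exact h.hN.comm a ha b hb
  have fM : ∀ a ∈ M, a ξ = 0 → a = 0 := by
    intro a ha h1
    refine h.hM.faithful a ha ?_
    rw [ks_sv]
    show ⟪ξ, (star a) (a ξ)⟫_ℂ = 0
    rw [h1, map_zero, inner_zero_right]
  have fN : ∀ a ∈ N, a ξ = 0 → a = 0 := by
    intro a ha h1
    refine h.hN.faithful a ha ?_
    rw [ks_sv]
    show ⟪ξ, (star a) (a ξ)⟫_ℂ = 0
    rw [h1, map_zero, inner_zero_right]
  have hR : ∀ r ∈ R, r.1 ∈ M ∧ r.2 ∈ N ∧ ⟪ξ, r.1 ξ⟫_ℂ = ⟪ξ, r.2 ξ⟫_ℂ := by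
    refine hRind _ ?_ ?_ ?_ ?_
    · rintro _ ⟨a, ha, g, rfl⟩
      refine ⟨mul_mem (h.AM a ha) (hU g).1, mul_mem (h.AN a ha) (hV g).1, ?_⟩
      show ⟪ξ, (a * U g) ξ⟫_ℂ = ⟪ξ, (a * V g) ξ⟫_ℂ
      by_cases hg : g = 1
      · rw [hg, u1, v1]
      · rw [h0 g hg a ha, V_tr h (hU g).1 (hU g).2.1 (hU g).2.2 (hUA g) (hV g).1 (hVa g) (h0 g hg) a ha]
    · exact ⟨zero_mem M, zero_mem N, rfl⟩
    · intro x y hx hy
      refine ⟨add_mem hx.1 hy.1, add_mem hx.2.1 hy.2.1, ?_⟩
      show ⟪ξ, x.1 ξ + y.1 ξ⟫_ℂ = ⟪ξ, x.2 ξ + y.2 ξ⟫_ℂ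
      rw [inner_add_right, inner_add_right, hx.2.2, hy.2.2]
    · intro c x hx
      refine ⟨vn_smul M c hx.1, vn_smul N c hx.2.1, ?_⟩
      show ⟪ξ, c • x.1 ξ⟫_ℂ = ⟪ξ, c • x.2 ξ⟫_ℂ
      rw [inner_smul_right, inner_smul_right, hx.2.2]
  -- the two subspaces
  let L₁ : Submodule ℂ H := (Submodule.span ℂ P).map
    ((ContinuousLinearMap.apply ℂ H ξ).toLinearMap ∘ₗ LinearMap.fst ℂ (H →L[ℂ] H) (H →L[ℂ] H))
  let L₂ : Submodule ℂ H := (Submodule.span ℂ P).map
    ((ContinuousLinearMap.apply ℂ H ξ).toLinearMap ∘ₗ LinearMap.snd ℂ (H →L[ℂ] H) (H →L[ℂ] H))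
  have hL₁ : (L₁ : Set H) = {v : H | ∃ r ∈ R, v = r.1 ξ} := by
    ext v
    constructor
    · rintro ⟨r, hr, rfl⟩; exact ⟨r, hr, rfl⟩
    · rintro ⟨r, hr, rfl⟩; exact ⟨r, hr, rfl⟩
  have hL₂ : (L₂ : Set H) = {v : H | ∃ r ∈ R, v = r.2 ξ} := by
    ext v
    constructor
    · rintro ⟨r, hr, rfl⟩; exact ⟨r, hr, rfl⟩
    · rintro ⟨r, hr, rfl⟩; exact ⟨r, hr, rfl⟩
  set K₁ : Submodule ℂ H := L₁.topologicalClosure with hK₁
  set K₂ : Submodule ℂ H := L₂.topologicalClosure with hK₂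
  have hAR : ∀ a ∈ A, (a, a) ∈ R := by
    intro a ha
    refine hRP _ ⟨a, ha, 1, ?_⟩
    rw [u1, v1, mul_one]
  have hUR : ∀ g, (U g, V g) ∈ R := by
    intro g
    refine hRP _ ⟨1, one_mem A, g, ?_⟩
    rw [one_mul, one_mul]
  have inv₁ : ∀ r ∈ R, ∀ v ∈ K₁, r.1 v ∈ K₁ := by
    intro r hr v hv
    refine map_mem_closure r.1.continuous (s := (L₁ : Set H)) hv ?_
    intro w hw
    have hw' : w ∈ (L₁ : Set H) := hw
    rw [hL₁] at hw'
    obtain ⟨r', hr', rfl⟩ := hw'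
    have h9 : r.1 (r'.1 ξ) ∈ (L₁ : Set H) := by
      rw [hL₁]
      exact ⟨r * r', mul_mem hr hr', rfl⟩
    exact h9
  have inv₂ : ∀ r ∈ R, ∀ v ∈ K₂, r.2 v ∈ K₂ := by
    intro r hr v hv
    refine map_mem_closure r.2.continuous (s := (L₂ : Set H)) hv ?_
    intro w hw
    have hw' : w ∈ (L₂ : Set H) := hw
    rw [hL₂] at hw'
    obtain ⟨r', hr', rfl⟩ := hw'
    have h9 : r.2 (r'.2 ξ) ∈ (L₂ : Set H) := by
      rw [hL₂]
      exact ⟨r * r', mul_mem hr hr', rfl⟩
    exact h9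
  have hξ₁ : ξ ∈ K₁ := by
    have h9 : ξ ∈ (L₁ : Set H) := by
      rw [hL₁]
      exact ⟨1, one_mem R, rfl⟩
    exact subset_closure h9
  have dM : ∀ x ∈ M, x ξ ∈ K₁ := by
    intro x hx
    have h1 : Submodule.span ℂ {v : H | ∃ a ∈ A, ∃ g, v = (a * U g) ξ} ≤ L₁ := by
      rw [Submodule.span_le]
      rintro v ⟨a, ha, g, rfl⟩
      have h9 : (a * U g) ξ ∈ (L₁ : Set H) := by
        rw [hL₁]
        exact ⟨(a * U g, a * V g), hRP _ ⟨a, ha, g, rfl⟩, rfl⟩
      exact h9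
    exact closure_mono h1 (hd x hx)
  have h12 : ∀ v ∈ K₁, v ∈ K₂ := by
    have hgenv : ∀ g, U g ξ ∈ K₂ := by
      intro g
      have e1 : ∀ c ∈ A, c * star (V g) = star (V g) * (U g * c * star (U g)) := by
        intro c hc
        have h1 := congrArg star (hVa g (star c) (vstar hc))
        rw [star_mul, star_mul, star_mul, star_mul, star_star, star_star] at h1
        rw [h1]
        noncomm_ring
      have hT := V_vec h (T := star (V g) * U g) (fun c hc => by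
        calc c * (star (V g) * U g) = (c * star (V g)) * U g := by noncomm_ring
          _ = star (V g) * (U g * c) * (star (U g) * U g) := by rw [e1 c hc]; noncomm_ring
          _ = star (V g) * U g * c := by rw [(hU g).2.1]; noncomm_ring) (fun r hrM hrN => by
        have c1 := VonNeumannAlgebra.mem_commutant_iff.mp hrM (U g) (hU g).1
        have c2 := VonNeumannAlgebra.mem_commutant_iff.mp hrN (star (V g)) (vstar (hV g).1)
        calc r * (star (V g) * U g) = (r * star (V g)) * U g := by noncomm_ring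
          _ = star (V g) * (r * U g) := by rw [← c2]; noncomm_ring
          _ = star (V g) * U g * r := by rw [← c1]; noncomm_ring)
      have e2 : U g ξ = V g ((star (V g) * U g) ξ) := by
        have : U g = V g * (star (V g) * U g) := by rw [← mul_assoc, (hV g).2.2, one_mul]
        calc U g ξ = (V g * (star (V g) * U g)) ξ := by rw [← this]
          _ = _ := rfl
      rw [e2]
      have h3 : V g ((star (V g) * U g) ξ) ∈ closure (L₂ : Set H) := by
        refine map_mem_closure (V g).continuous hT ?_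
        rintro w ⟨a, ha, rfl⟩
        show V g (a ξ) ∈ (L₂ : Set H)
        rw [hL₂]
        refine ⟨(U g * a * star (U g) * U g, U g * a * star (U g) * V g),
          hRP _ ⟨_, hUA g a ha, g, rfl⟩, ?_⟩
        show V g (a ξ) = (U g * a * star (U g) * V g) ξ
        rw [← hVa g a ha]
        rfl
      exact h3
    have hL : L₁ ≤ K₂ := by
      rintro _ ⟨r, hr, rfl⟩
      show r.1 ξ ∈ K₂
      refine hRind (fun r => r.1 ξ ∈ K₂) ?_ ?_ ?_ ?_ r hr
      · rintro _ ⟨a, ha, g, rfl⟩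
        exact inv₂ (a, a) (hAR a ha) _ (hgenv g)
      · exact zero_mem K₂
      · intro x y hx hy
        exact add_mem hx hy
      · intro c x hx
        exact Submodule.smul_mem K₂ c hx
    intro v hv
    exact Submodule.topologicalClosure_minimal L₁ hL (Submodule.isClosed_topologicalClosure L₂) hv
  have dN : ∀ y ∈ N, y ξ ∈ K₂ := by
    intro y hy
    obtain ⟨e, e1, e2, e3, e4⟩ := h.pr
    have h1 := VonNeumannAlgebra.mem_commutant_iff.mp e2 y hy
    have h2 : e ξ = ξ := e3 1 (one_mem M)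
    have h3 : y ξ = e (y ξ) := by
      calc y ξ = y (e ξ) := by rw [h2]
        _ = (y * e) ξ := rfl
        _ = (e * y) ξ := by rw [h1]
        _ = _ := rfl
    rw [h3]
    apply h12
    have h4 := e4 (y ξ)
    have h5 : closure {w : H | ∃ x ∈ M, w = x ξ} ⊆ (K₁ : Set H) := by
      refine closure_minimal ?_ (Submodule.isClosed_topologicalClosure L₁)
      rintro w ⟨x, hx, rfl⟩
      exact dM x hx
    exact h5 h4
  refine iso_of_pairs M N ξ tM fM tN fN R hR ?_ ?_
  · intro x hx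
    rw [← hL₁]
    exact dM x hx
  · intro y hy
    rw [← hL₂]
    exact dN y hy

end Pool.Agent.H256.KS
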