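import Mathlib
import Pool.Graph.R_pool_sql_team_seeded_ab47071d.TH254.CC.Core

set_option autoImplicit false
set_option linter.unusedSectionVars false
set_option linter.unusedVariables false

/-! Finite combinatorics with commuting projections.  `A` is an abelian von Neumann algebra; think of
`A = L^∞(X)`, projections are measurable subsets, and everything is done pointwise: the finite data
at a point `x` is the set `t` of indices `i` with `x ∈ q i`; `f t` is the indicator function of
`{x | data at x = t}`. -/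

open scoped InnerProductSpace ComplexOrder

namespace Pool.Agent.H256.KS

open Pool.Agent.TH254.CC H759R2.Kad

variable {H : Type} [NormedAddCommGroup H] [InnerProductSpace ℂ H] [CompleteSpace H]

/-- atoms of the Boolean algebra generated by finitely many commuting projections -/
theorem exists_atoms (A : VonNeumannAlgebra H) (hA : ∀ a ∈ A, ∀ b ∈ A, a * b = b * a)
    {ι : Type} [Fintype ι] [DecidableEq ι] (q : ι → (H →L[ℂ] H)) (hq : ∀ i, q i ∈ A ∧ IsPr (q i)) :
    ∃ f : Finset ι → (H →L[ℂ] H), (∀ t, f t ∈ A ∧ IsPr (f t)) ∧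
      (∀ s t, s ≠ t → f s * f t = 0) ∧ ∑ t, f t = 1 ∧
      ∀ i, q i = ∑ t, if i ∈ t then f t else 0 := by
  let _ : CommRing A.toStarSubalgebra :=
    { (inferInstance : Ring A.toStarSubalgebra) with
      mul_comm := fun a b => Subtype.ext (hA a a.2 b b.2) }
  let Q : ι → A.toStarSubalgebra := fun i => ⟨q i, (hq i).1⟩
  have hQs : ∀ i, star (Q i) = Q i := fun i => Subtype.ext (hq i).2.1
  have hQm : ∀ i, Q i * Q i = Q i := fun i => Subtype.ext (hq i).2.2
  let F : Finset ι → A.toStarSubalgebra := fun t => (∏ i ∈ t, Q i) * ∏ i ∈ tᶜ, (1 - Q i)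
  have hFm : ∀ t, F t * F t = F t := by
    intro t
    have h1 : F t * F t = ((∏ i ∈ t, Q i) * ∏ i ∈ t, Q i) *
        ((∏ i ∈ tᶜ, (1 - Q i)) * ∏ i ∈ tᶜ, (1 - Q i)) := by ring
    rw [h1, ← Finset.prod_mul_distrib, ← Finset.prod_mul_distrib]
    congr 1
    · exact Finset.prod_congr rfl fun i _ => hQm i
    · refine Finset.prod_congr rfl fun i _ => ?_
      have : (1 - Q i) * (1 - Q i) = 1 - Q i - Q i + Q i * Q i := by ring
      rw [this, hQm]
      ring
  have hFs : ∀ t, star (F t) = F t := by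
    intro t
    show star ((∏ i ∈ t, Q i) * ∏ i ∈ tᶜ, (1 - Q i)) = _
    rw [star_mul, mul_comm]
    congr 1
    · rw [star_prod]
      exact Finset.prod_congr rfl fun i _ => hQs i
    · rw [star_prod]
      refine Finset.prod_congr rfl fun i _ => ?_
      rw [star_sub, star_one, hQs]
  have hQF : ∀ i t, Q i * F t = if i ∈ t then F t else 0 := by
    intro i t
    split_ifs with h
    · show Q i * ((∏ i ∈ t, Q i) * ∏ i ∈ tᶜ, (1 - Q i)) = _
      rw [← Finset.mul_prod_erase t Q h, ← mul_assoc, ← mul_assoc, hQm]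
      show _ = (∏ i ∈ t, Q i) * ∏ i ∈ tᶜ, (1 - Q i)
      rw [← Finset.mul_prod_erase t Q h]
    · show Q i * ((∏ i ∈ t, Q i) * ∏ i ∈ tᶜ, (1 - Q i)) = _
      have h' : i ∈ tᶜ := Finset.mem_compl.mpr h
      rw [← Finset.mul_prod_erase tᶜ (fun i => 1 - Q i) h']
      have : Q i * ((∏ i ∈ t, Q i) * ((1 - Q i) * ∏ x ∈ tᶜ.erase i, (1 - Q x))) =
          (Q i - Q i * Q i) * ((∏ i ∈ t, Q i) * ∏ x ∈ tᶜ.erase i, (1 - Q x)) := by ring
      rw [this, hQm, sub_self, zero_mul]
  have hFo : ∀ s t, s ≠ t → F s * F t = 0 := by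
    intro s t hst
    have key : ∀ s t : Finset ι, ∀ i, i ∈ s → i ∉ t → F s * F t = 0 := by
      intro s t i hs ht
      have h1 : F s = Q i * F s := by rw [hQF, if_pos hs]
      rw [h1, mul_comm (Q i), mul_assoc, hQF, if_neg ht, mul_zero]
    by_contra hne
    apply hst
    ext i
    constructor
    · intro hi
      by_contra h
      exact hne (key s t i hi h)
    · intro hi
      by_contra h
      exact hne (by rw [mul_comm]; exact key t s i hi h)
  have hF1 : ∑ t, F t = 1 := by
    have h1 := Finset.prod_add Q (fun i => 1 - Q i) (Finset.univ : Finset ι)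
    have h2 : ∏ i, (Q i + (1 - Q i)) = 1 := by
      refine Finset.prod_eq_one fun i _ => by ring
    rw [h2, Finset.powerset_univ] at h1
    rw [h1]
    rfl
  refine ⟨fun t => (F t : H →L[ℂ] H), fun t => ⟨(F t).2, congrArg Subtype.val (hFs t),
    congrArg Subtype.val (hFm t)⟩, fun s t h => congrArg Subtype.val (hFo s t h), ?_, ?_⟩
  · have h1 := congrArg (fun a : A.toStarSubalgebra => (a : H →L[ℂ] H)) hF1
    simpa using h1
  · intro i
    have h1 : Q i = ∑ t, if i ∈ t then F t else 0 := by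
      calc Q i = Q i * ∑ t, F t := by rw [hF1, mul_one]
        _ = ∑ t, if i ∈ t then F t else 0 := by
          rw [Finset.mul_sum]
          exact Finset.sum_congr rfl fun t _ => hQF i t
    have h2 := congrArg (fun a : A.toStarSubalgebra => (a : H →L[ℂ] H)) h1
    have h3 : q i = ((∑ t, if i ∈ t then F t else 0 : A.toStarSubalgebra) : H →L[ℂ] H) := h2
    rw [h3]
    push_cast
    refine Finset.sum_congr rfl fun t _ => ?_
    split_ifs <;> rfl

/-- a finite partition of unity -/
structure Part (A : VonNeumannAlgebra H) {T : Type} [Fintype T] (f : T → (H →L[ℂ] H)) : Prop where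
  mem : ∀ t, f t ∈ A
  pr : ∀ t, IsPr (f t)
  orth : ∀ s t, s ≠ t → f s * f t = 0
  sum : ∑ t, f t = 1

/-- functions of the state -/
noncomputable def Ph {T : Type} [Fintype T] (f : T → (H →L[ℂ] H)) (φ : T → ℂ) : H →L[ℂ] H :=
  ∑ t, φ t • f t

section Ph

variable {A : VonNeumannAlgebra H} {T : Type} [Fintype T] [DecidableEq T] {f : T → (H →L[ℂ] H)}

theorem Ph_mem (h : Part A f) (φ : T → ℂ) : Ph f φ ∈ A :=
  sum_mem fun t _ => vn_smul A (φ t) (h.mem t)

theorem Ph_add (φ ψ : T → ℂ) : Ph f (φ + ψ) = Ph f φ + Ph f ψ := by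
  simp [Ph, add_smul, Finset.sum_add_distrib]

theorem Ph_sub (φ ψ : T → ℂ) : Ph f (φ - ψ) = Ph f φ - Ph f ψ := by
  simp [Ph, sub_smul, Finset.sum_sub_distrib]

theorem Ph_smul (c : ℂ) (φ : T → ℂ) : Ph f (c • φ) = c • Ph f φ := by
  simp [Ph, mul_smul, Finset.smul_sum]

theorem Ph_zero : Ph f (0 : T → ℂ) = 0 := by simp [Ph]

theorem Ph_one (h : Part A f) : Ph f (1 : T → ℂ) = 1 := by simp [Ph, h.sum]

theorem Ph_sum {α : Type} (s : Finset α) (φ : α → T → ℂ) :
    Ph f (∑ a ∈ s, φ a) = ∑ a ∈ s, Ph f (φ a) := by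
  classical
  induction s using Finset.induction_on with
  | empty => simp [Ph_zero]
  | insert a s ha ih => rw [Finset.sum_insert ha, Finset.sum_insert ha, Ph_add, ih]

theorem Ph_mul (h : Part A f) (φ ψ : T → ℂ) : Ph f (φ * ψ) = Ph f φ * Ph f ψ := by
  unfold Ph
  rw [Finset.sum_mul_sum]
  refine Finset.sum_congr rfl fun s _ => ?_
  rw [Finset.sum_eq_single s]
  · rw [smul_mul_smul_comm, (h.pr s).2, Pi.mul_apply]
  · intro t _ hts
    rw [smul_mul_smul_comm, h.orth s t hts.symm, smul_zero]
  · simp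

theorem Ph_star (h : Part A f) (φ : T → ℂ) : star (Ph f φ) = Ph f (fun t => star (φ t)) := by
  unfold Ph
  rw [star_sum]
  refine Finset.sum_congr rfl fun t _ => ?_
  rw [star_smul, (h.pr t).1]

theorem Ph_pr (h : Part A f) (φ : T → ℂ) (hφ : ∀ t, φ t = 0 ∨ φ t = 1) : IsPr (Ph f φ) := by
  constructor
  · rw [Ph_star h]
    congr 1
    funext t
    rcases hφ t with e | e <;> simp [e]
  · rw [← Ph_mul h]
    congr 1
    funext t
    rcases hφ t with e | e <;> simp [e]

theorem Ph_norm (h : Part A f) (φ : T → ℂ) (hφ : ∀ t, φ t = 0 ∨ φ t = 1 ∨ φ t = -1) :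
    star (Ph f φ) = Ph f φ ∧ ‖Ph f φ‖ ≤ 1 := by
  have h1 : star (Ph f φ) = Ph f φ := by
    rw [Ph_star h]
    congr 1
    funext t
    rcases hφ t with e | e | e <;> simp [e]
  refine ⟨h1, ?_⟩
  have h2 : IsPr (Ph f (φ * φ)) := Ph_pr h _ fun t => by
    rcases hφ t with e | e | e <;> simp [e]
  have h3 : ‖Ph f φ‖ * ‖Ph f φ‖ ≤ 1 := by
    rw [← CStarRing.norm_star_mul_self, h1, ← Ph_mul h]
    exact pr_norm h2
  by_contra h
  push Not at h
  nlinarith

end Ph

theorem part_of_atoms {A : VonNeumannAlgebra H} {ι : Type} [Fintype ι] [DecidableEq ι]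
    {f : Finset ι → (H →L[ℂ] H)} (h1 : ∀ t, f t ∈ A ∧ IsPr (f t))
    (h2 : ∀ s t, s ≠ t → f s * f t = 0) (h3 : ∑ t, f t = 1) : Part A f :=
  ⟨fun t => (h1 t).1, fun t => (h1 t).2, h2, h3⟩

theorem eq_Ph {ι : Type} [Fintype ι] [DecidableEq ι] {f : Finset ι → (H →L[ℂ] H)}
    {q : H →L[ℂ] H} {i : ι} (h : q = ∑ t, if i ∈ t then f t else 0) :
    q = Ph f (fun t => if i ∈ t then 1 else 0) := by
  rw [h, Ph]
  refine Finset.sum_congr rfl fun t _ => ?_
  split_ifs <;> simp

/-- a finite partial injection extends to a permutation -/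
theorem exists_perm {I : Type} [Fintype I] [DecidableEq I] (t : Finset (I × I))
    (h1 : ∀ i j k, (i, j) ∈ t → (i, k) ∈ t → j = k)
    (h2 : ∀ i j k, (i, j) ∈ t → (k, j) ∈ t → i = k) :
    ∃ σ : Equiv.Perm I, ∀ i j, (i, j) ∈ t → σ i = j := by
  classical
  let p : I → Prop := fun i => ∃ j, (i, j) ∈ t
  let q : I → Prop := fun j => ∃ i, (i, j) ∈ t
  let e : {i // p i} ≃ {j // q j} :=
    { toFun := fun i => ⟨i.2.choose, i.1, i.2.choose_spec⟩
      invFun := fun j => ⟨j.2.choose, j.1, j.2.choose_spec⟩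
      left_inv := by
        intro i
        refine Subtype.ext ?_
        have a1 := i.2.choose_spec
        have hq : q i.2.choose := ⟨i.1, a1⟩
        have a2 := hq.choose_spec
        exact h2 _ _ _ a2 a1
      right_inv := by
        intro j
        refine Subtype.ext ?_
        have a1 := j.2.choose_spec
        have hp : p j.2.choose := ⟨j.1, a1⟩
        have a2 := hp.choose_spec
        exact h1 _ _ _ a2 a1 }
  refine ⟨e.extendSubtype, fun i j hij => ?_⟩
  have hp : p i := ⟨j, hij⟩
  rw [Equiv.extendSubtype_apply_of_mem e i hp]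
  exact h1 _ _ _ hp.choose_spec hij

/-- A partial permutation matrix over `A` extends to a permutation matrix over `A`.
(Pointwise: a partial injection `I ⇀ I` extends to a permutation, cf. `Equiv.extendSubtype`.) -/
theorem exists_completion (A : VonNeumannAlgebra H) (hA : ∀ a ∈ A, ∀ b ∈ A, a * b = b * a)
    {I : Type} [Fintype I] [DecidableEq I] (c : I → I → (H →L[ℂ] H))
    (hc : ∀ i j, c i j ∈ A ∧ IsPr (c i j)) (hrow : ∀ i j k, j ≠ k → c i j * c i k = 0)
    (hcol : ∀ i j k, i ≠ k → c i j * c k j = 0) :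
    ∃ c' : I → I → (H →L[ℂ] H), (∀ i j, c' i j ∈ A ∧ IsPr (c' i j)) ∧
      (∀ i j, c i j * c' i j = c i j) ∧ (∀ i j k, j ≠ k → c' i j * c' i k = 0) ∧
      (∀ i j k, i ≠ k → c' i j * c' k j = 0) ∧ (∀ i, ∑ j, c' i j = 1) ∧ ∀ j, ∑ i, c' i j = 1 := by
  classical
  obtain ⟨f, hf1, hf2, hf3, hf4⟩ := exists_atoms A hA (fun p : I × I => c p.1 p.2)
    (fun p => hc p.1 p.2)
  have hP := part_of_atoms hf1 hf2 hf3
  have hcf : ∀ i j t, c i j * f t = if (i, j) ∈ t then f t else 0 := by
    intro i j t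
    have e1 : f t = Ph f (fun s => if s = t then 1 else 0) := by simp [Ph]
    rw [eq_Ph (hf4 (i, j)), e1, ← Ph_mul hP]
    split_ifs with h
    · congr 1
      funext s
      by_cases hs : s = t
      · subst hs; simp [h]
      · simp [hs]
    · rw [← Ph_zero (f := f)]
      congr 1
      funext s
      by_cases hs : s = t
      · subst hs; simp [h]
      · simp [hs]
  let good : Finset (I × I) → Prop := fun t =>
    (∀ i j k, (i, j) ∈ t → (i, k) ∈ t → j = k) ∧ ∀ i j k, (i, j) ∈ t → (k, j) ∈ t → i = k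
  have hgood : ∀ t, f t = 0 ∨ good t := by
    intro t
    by_cases h : f t = 0
    · exact Or.inl h
    right
    constructor
    · intro i j k hj hk
      by_contra hne
      apply h
      have : c i j * (c i k * f t) = 0 := by rw [← mul_assoc, hrow i j k hne, zero_mul]
      rwa [hcf, if_pos hk, hcf, if_pos hj] at this
    · intro i j k hj hk
      by_contra hne
      apply h
      have : c i j * (c k j * f t) = 0 := by rw [← mul_assoc, hcol i j k hne, zero_mul]
      rwa [hcf, if_pos hk, hcf, if_pos hj] at this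
  have hσ : ∀ t : Finset (I × I), ∃ σ : Equiv.Perm I, good t → ∀ i j, (i, j) ∈ t → σ i = j := by
    intro t
    by_cases h : good t
    · obtain ⟨σ, hσ⟩ := exists_perm t h.1 h.2
      exact ⟨σ, fun _ => hσ⟩
    · exact ⟨1, fun h' => absurd h' h⟩
  choose σ hσ using hσ
  refine ⟨fun i j => Ph f (fun t => if σ t i = j then 1 else 0), ?_, ?_, ?_, ?_, ?_, ?_⟩
  · intro i j
    exact ⟨Ph_mem hP _, Ph_pr hP _ fun t => by by_cases h : σ t i = j <;> simp [h]⟩
  · intro i j
    rw [eq_Ph (hf4 (i, j)), ← Ph_mul hP]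
    unfold Ph
    refine Finset.sum_congr rfl fun t _ => ?_
    rcases hgood t with h | h
    · rw [h, smul_zero, smul_zero]
    · congr 1
      by_cases hij : (i, j) ∈ t
      · simp [hij, hσ t h i j hij]
      · simp [hij]
  · intro i j k hjk
    rw [← Ph_mul hP, ← Ph_zero (f := f)]
    congr 1
    funext t
    by_cases h : σ t i = j
    · have : σ t i ≠ k := fun h' => hjk (h.symm.trans h')
      simp [this]
    · simp [h]
  · intro i j k hik
    rw [← Ph_mul hP, ← Ph_zero (f := f)]
    congr 1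
    funext t
    by_cases h : σ t i = j
    · have : σ t k ≠ j := fun h' => hik ((σ t).injective (h.trans h'.symm))
      simp [this]
    · simp [h]
  · intro i
    rw [← Ph_sum, ← Ph_one hP]
    congr 1
    funext t
    simp
  · intro j
    rw [← Ph_sum, ← Ph_one hP]
    congr 1
    funext t
    rw [Finset.sum_apply, Finset.sum_eq_single ((σ t).symm j)]
    · simp
    · intro i _ hi
      have : σ t i ≠ j := fun h' => hi (by rw [← h', Equiv.symm_apply_apply])
      simp [this]
    · simp

/-- a numbering of a finite set -/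
theorem exists_rank {α : Type} [DecidableEq α] (S : Finset α) :
    ∃ ρ : α → ℕ, Set.InjOn ρ S ∧ S.image ρ = Finset.range S.card := by
  classical
  refine ⟨fun a => if h : a ∈ S then (S.equivFin ⟨a, h⟩ : ℕ) else 0, ?_, ?_⟩
  · intro a ha b hb hab
    have ha' : a ∈ S := ha
    have hb' : b ∈ S := hb
    simp only [dif_pos ha', dif_pos hb'] at hab
    have := S.equivFin.injective (Fin.ext hab)
    exact congrArg Subtype.val this
  · ext n
    simp only [Finset.mem_image, Finset.mem_range]
    constructor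
    · rintro ⟨a, ha, rfl⟩
      rw [dif_pos ha]
      exact (S.equivFin ⟨a, ha⟩).2
    · intro hn
      refine ⟨(S.equivFin.symm ⟨n, hn⟩).1, (S.equivFin.symm ⟨n, hn⟩).2, ?_⟩
      rw [dif_pos (S.equivFin.symm ⟨n, hn⟩).2]
      simp

/-- matching of two finite sets by numbers -/
theorem exists_match {P Q : Type} [DecidableEq P] [DecidableEq Q] (S : Finset P) (S' : Finset Q) :
    ∃ M : P → Q → Prop, (∀ i j, M i j → i ∈ S ∧ j ∈ S') ∧ (∀ i j k, M i j → M i k → j = k) ∧
      (∀ i j k, M i j → M k j → i = k) ∧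
      ∀ [∀ i j, Decidable (M i j)], ∑ i ∈ S, ∑ j ∈ S', (if M i j then (1 : ℂ) else 0) =
        ((min S.card S'.card : ℕ) : ℂ) := by
  classical
  obtain ⟨ρ, h1, h2⟩ := exists_rank S
  obtain ⟨ρ', h1', h2'⟩ := exists_rank S'
  refine ⟨fun i j => i ∈ S ∧ j ∈ S' ∧ ρ i = ρ' j, fun i j h => ⟨h.1, h.2.1⟩, ?_, ?_, ?_⟩
  · rintro i j k ⟨_, hj, e⟩ ⟨_, hk, e'⟩
    exact h1' hj hk (e.symm.trans e')
  · rintro i j k ⟨hi, _, e⟩ ⟨hk, _, e'⟩
    exact h1 hi hk (e.trans e'.symm)
  · intro _
    have e1 : ∑ i ∈ S, ∑ j ∈ S', (if i ∈ S ∧ j ∈ S' ∧ ρ i = ρ' j then (1 : ℂ) else 0) =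
        ∑ i ∈ S, ∑ j ∈ S', (if ρ i = ρ' j then (1 : ℂ) else 0) := by
      refine Finset.sum_congr rfl fun i hi => Finset.sum_congr rfl fun j hj => ?_
      simp [hi, hj]
    have e2 : ∀ i, ∑ j ∈ S', (if ρ i = ρ' j then (1 : ℂ) else 0) =
        ∑ b ∈ Finset.range S'.card, (if ρ i = b then (1 : ℂ) else 0) := by
      intro i
      rw [← h2', Finset.sum_image h1']
    have e3 : ∑ i ∈ S, ∑ b ∈ Finset.range S'.card, (if ρ i = b then (1 : ℂ) else 0) =
        ∑ a ∈ Finset.range S.card, ∑ b ∈ Finset.range S'.card, (if a = b then (1 : ℂ) else 0) := by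
      rw [← h2, Finset.sum_image h1]
    have e4 : ∑ a ∈ Finset.range S.card, ∑ b ∈ Finset.range S'.card, (if a = b then (1 : ℂ) else 0)
        = ((min S.card S'.card : ℕ) : ℂ) := by
      simp only [Finset.sum_ite_eq, Finset.mem_range]
      rw [← Finset.sum_filter, Finset.sum_const, nsmul_eq_mul, mul_one]
      congr 1
      have : (Finset.range S.card).filter (fun a => a < S'.card) =
          Finset.range (min S.card S'.card) := by
        ext a
        simp
      rw [this, Finset.card_range]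
    convert e1.trans ((Finset.sum_congr rfl fun i _ => e2 i).trans (e3.trans e4)) using 1

/-- Optimal matching of two families of projections, carrying labels.
(Pointwise: at a point `x` and for a label `g` there are the finite sets
`P = {i | l i = g, x ∈ r i}`, `Q = {j | l' j = g, x ∈ r' j}`; match `min (#P) (#Q)` elements; then
`#P + #Q - 2 min = |#P - #Q| = (#P - #Q) * s`, `s = sign (#P - #Q)`.) -/
theorem exists_matching (A : VonNeumannAlgebra H) (hA : ∀ a ∈ A, ∀ b ∈ A, a * b = b * a)
    {P Q Λ : Type} [Fintype P] [DecidableEq P] [Fintype Q] [DecidableEq Q] [DecidableEq Λ]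
    (r : P → (H →L[ℂ] H)) (r' : Q → (H →L[ℂ] H)) (l : P → Λ) (l' : Q → Λ)
    (hr : ∀ i, r i ∈ A ∧ IsPr (r i)) (hr' : ∀ j, r' j ∈ A ∧ IsPr (r' j)) :
    ∃ (m : P → Q → (H →L[ℂ] H)) (s : Λ → (H →L[ℂ] H)), (∀ i j, m i j ∈ A ∧ IsPr (m i j)) ∧
      (∀ i j, r i * m i j = m i j) ∧ (∀ i j, r' j * m i j = m i j) ∧
      (∀ i j, l i ≠ l' j → m i j = 0) ∧ (∀ i j k, j ≠ k → m i j * m i k = 0) ∧
      (∀ i j k, i ≠ k → m i j * m k j = 0) ∧
      (∀ g, s g ∈ A ∧ star (s g) = s g ∧ ‖s g‖ ≤ 1) ∧
      ∀ g, (∑ i, if l i = g then r i else 0) + (∑ j, if l' j = g then r' j else 0) -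
          (2 : ℂ) • (∑ i, ∑ j, if l i = g then m i j else 0) =
        ((∑ i, if l i = g then r i else 0) - (∑ j, if l' j = g then r' j else 0)) * s g := by
  classical
  obtain ⟨f, hf1, hf2, hf3, hf4⟩ := exists_atoms A hA (Sum.elim r r' : P ⊕ Q → (H →L[ℂ] H))
    (by rintro (i | j); exacts [hr i, hr' j])
  have hP := part_of_atoms hf1 hf2 hf3
  have er : ∀ i, r i = Ph f (fun t => if Sum.inl i ∈ t then 1 else 0) := fun i => eq_Ph (q := r i) (i := Sum.inl i) (hf4 (Sum.inl i))
  have er' : ∀ j, r' j = Ph f (fun t => if Sum.inr j ∈ t then 1 else 0) := fun j => eq_Ph (q := r' j) (i := Sum.inr j) (hf4 (Sum.inr j))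
  let SP : Finset (P ⊕ Q) → Λ → Finset P := fun t g =>
    Finset.univ.filter fun i => l i = g ∧ Sum.inl i ∈ t
  let SQ : Finset (P ⊕ Q) → Λ → Finset Q := fun t g =>
    Finset.univ.filter fun j => l' j = g ∧ Sum.inr j ∈ t
  have hSP : ∀ t g i, i ∈ SP t g ↔ l i = g ∧ Sum.inl i ∈ t := by intro t g i; simp [SP]
  have hSQ : ∀ t g j, j ∈ SQ t g ↔ l' j = g ∧ Sum.inr j ∈ t := by intro t g j; simp [SQ]
  choose M hM1 hM2 hM3 hM4 using fun t g => exists_match (SP t g) (SQ t g)
  let sgn : Finset (P ⊕ Q) → Λ → ℂ := fun t g =>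
    if (SP t g).card = (SQ t g).card then 0 else if (SQ t g).card < (SP t g).card then 1 else -1
  refine ⟨fun i j => Ph f (fun t => if M t (l i) i j then 1 else 0), fun g => Ph f (fun t => sgn t g),
    ?_, ?_, ?_, ?_, ?_, ?_, ?_, ?_⟩
  · intro i j
    exact ⟨Ph_mem hP _, Ph_pr hP _ fun t => by by_cases h : M t (l i) i j <;> simp [h]⟩
  · intro i j
    rw [er, ← Ph_mul hP]
    congr 1
    funext t
    by_cases h : M t (l i) i j
    · have h1 := ((hSP _ _ _).mp (hM1 t (l i) i j h).1).2
      simp [h, h1]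
    · simp [h]
  · intro i j
    rw [er', ← Ph_mul hP]
    congr 1
    funext t
    by_cases h : M t (l i) i j
    · have h1 := ((hSQ _ _ _).mp (hM1 t (l i) i j h).2).2
      simp [h, h1]
    · simp [h]
  · intro i j hij
    show Ph f (fun t => if M t (l i) i j then 1 else 0) = 0
    rw [← Ph_zero (f := f)]
    congr 1
    funext t
    have h : ¬ M t (l i) i j := fun h => hij ((hSQ _ _ _).mp (hM1 t (l i) i j h).2).1.symm
    simp [h]
  · intro i j k hjk
    rw [← Ph_mul hP, ← Ph_zero (f := f)]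
    congr 1
    funext t
    by_cases h : M t (l i) i j
    · have : ¬ M t (l i) i k := fun h' => hjk (hM2 t (l i) i j k h h')
      simp [this]
    · simp [h]
  · intro i j k hik
    rw [← Ph_mul hP, ← Ph_zero (f := f)]
    congr 1
    funext t
    by_cases h : M t (l i) i j
    · have : ¬ M t (l k) k j := by
        intro h'
        have e1 := ((hSQ _ _ _).mp (hM1 t (l i) i j h).2).1
        have e2 := ((hSQ _ _ _).mp (hM1 t (l k) k j h').2).1
        have e3 : l k = l i := e2.symm.trans e1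
        rw [e3] at h'
        exact hik (hM3 t (l i) i j k h h')
      simp [this]
    · simp [h]
  · intro g
    refine ⟨Ph_mem hP _, Ph_norm hP _ fun t => ?_⟩
    show sgn t g = 0 ∨ sgn t g = 1 ∨ sgn t g = -1
    simp only [sgn]
    split_ifs <;> simp
  · intro g
    have a1 : (∑ i, if l i = g then r i else 0) = Ph f (fun t => ((SP t g).card : ℂ)) := by
      have : ∀ i, (if l i = g then r i else 0) =
          Ph f (fun t => if l i = g ∧ Sum.inl i ∈ t then 1 else 0) := by
        intro i
        by_cases h : l i = g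
        · simp [h, er i]
        · simp [h]
          exact (Ph_zero (f := f)).symm
      rw [Finset.sum_congr rfl fun i _ => this i, ← Ph_sum]
      congr 1
      funext t
      rw [Finset.sum_apply, Finset.sum_boole]
    have a2 : (∑ j, if l' j = g then r' j else 0) = Ph f (fun t => ((SQ t g).card : ℂ)) := by
      have : ∀ j, (if l' j = g then r' j else 0) =
          Ph f (fun t => if l' j = g ∧ Sum.inr j ∈ t then 1 else 0) := by
        intro j
        by_cases h : l' j = g
        · simp [h, er' j]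
        · simp [h]
          exact (Ph_zero (f := f)).symm
      rw [Finset.sum_congr rfl fun j _ => this j, ← Ph_sum]
      congr 1
      funext t
      rw [Finset.sum_apply, Finset.sum_boole]
    have a3 : (∑ i, ∑ j, if l i = g then Ph f (fun t => if M t (l i) i j then 1 else 0) else 0) =
        Ph f (fun t => ((min (SP t g).card (SQ t g).card : ℕ) : ℂ)) := by
      have : ∀ i j, (if l i = g then Ph f (fun t => if M t (l i) i j then (1 : ℂ) else 0) else 0) =
          Ph f (fun t => if l i = g ∧ M t g i j then 1 else 0) := by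
        intro i j
        by_cases h : l i = g
        · simp [h]
        · simp [h]
          exact (Ph_zero (f := f)).symm
      rw [Finset.sum_congr rfl fun i _ => Finset.sum_congr rfl fun j _ => this i j]
      rw [Finset.sum_congr rfl fun i _ => (Ph_sum _ _).symm, ← Ph_sum]
      congr 1
      funext t
      rw [← hM4 t g, Finset.sum_apply]
      simp only [Finset.sum_apply]
      symm
      refine (Finset.sum_subset (Finset.subset_univ _) fun i _ hi => ?_).trans
        (Finset.sum_congr rfl fun i _ => ?_)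
      · refine Finset.sum_eq_zero fun j _ => ?_
        rw [if_neg fun h => hi (hM1 t g i j h).1]
      · refine (Finset.sum_subset (Finset.subset_univ _) fun j _ hj => ?_).trans
          (Finset.sum_congr rfl fun j _ => ?_)
        · rw [if_neg fun h => hj (hM1 t g i j h).2]
        · by_cases h : M t g i j
          · have h1 := ((hSP _ _ _).mp (hM1 t g i j h).1).1
            simp [h, h1]
          · simp [h]
    rw [a1, a2, a3, ← Ph_add, ← Ph_smul, ← Ph_sub, ← Ph_sub, ← Ph_mul hP]
    congr 1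
    funext t
    simp only [Pi.add_apply, Pi.sub_apply, Pi.smul_apply, Pi.mul_apply, smul_eq_mul, sgn]
    rcases lt_trichotomy (SP t g).card (SQ t g).card with h | h | h
    · rw [min_eq_left h.le, if_neg h.ne, if_neg (not_lt.mpr h.le)]
      ring
    · rw [if_pos h, h, min_self]
      ring
    · rw [min_eq_right h.le, if_neg h.ne', if_pos h]
      ring

end Pool.Agent.H256.KS
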