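import Mathlib
import Pool.Agent.H256.KS.Gap2

set_option autoImplicit false
set_option linter.unusedSectionVars false

/-! The relative determinant, first part. -/

open Filter Topology Set
open scoped InnerProductSpace

namespace Pool.Agent.H256.KS

open Pool.Agent.TH254.CC H759R2.Kad

variable {H : Type} [NormedAddCommGroup H] [InnerProductSpace ℂ H] [CompleteSpace H]

theorem coe_cfc (M : VonNeumannAlgebra H) (x : M.toStarSubalgebra) (hx : IsSelfAdjoint x)
    (f : ℝ → ℝ) (hf : ContinuousOn f (spectrum ℝ x)) :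
    ((cfc f x : M.toStarSubalgebra) : H →L[ℂ] H) = cfc f (x : H →L[ℂ] H) := by
  have h := StarAlgHomClass.map_cfc (M.toStarSubalgebra.subtype) f x hf (by
    exact continuous_subtype_val) hx (by
    have := congrArg Subtype.val hx.star_eq
    exact this)
  exact h

theorem cfc_mem (M : VonNeumannAlgebra H) {x : H →L[ℂ] H} (hx : x ∈ M) (f : ℝ → ℝ) :
    cfc f x ∈ M := by
  refine mem_of_comm M x _ hx fun c hc => ?_
  have : Commute x c := hc.symm
  exact (this.cfc_real _).symm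

theorem sign_cont {𝔸 : Type} [CStarAlgebra 𝔸] {y Y : 𝔸} (hy : y * Y = 1) (hy' : Y * y = 1) :
    ContinuousOn Real.sign (spectrum ℝ y) := by
  have hsp : ∀ t ∈ spectrum ℝ y, t ≠ 0 := by
    rintro t ht rfl
    rw [spectrum.zero_mem_iff] at ht
    exact ht ⟨⟨y, Y, hy, hy'⟩, rfl⟩
  intro t ht
  rcases lt_or_gt_of_ne (hsp t ht) with h | h
  · have : Real.sign =ᶠ[𝓝 t] fun _ => -1 := by
      filter_upwards [gt_mem_nhds h] with s hs using Real.sign_of_neg hs
    exact (continuousAt_const.congr this.symm).continuousWithinAt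
  · have : Real.sign =ᶠ[𝓝 t] fun _ => 1 := by
      filter_upwards [lt_mem_nhds h] with s hs using Real.sign_of_pos hs
    exact (continuousAt_const.congr this.symm).continuousWithinAt

/-- the trace as a continuous functional -/
noncomputable def tauC {M : VonNeumannAlgebra H} {ξ : ℕ → H} (h : Fn M ξ) :
    M.toStarSubalgebra →L[ℂ] ℂ :=
  h.tau.mkContinuous 1 fun x => by
    rw [one_mul]
    exact h.norm_tr (x : H →L[ℂ] H)

theorem tauC_apply {M : VonNeumannAlgebra H} {ξ : ℕ → H} (h : Fn M ξ)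
    (x : M.toStarSubalgebra) : tauC h x = tr ξ (x : H →L[ℂ] H) := rfl

theorem jj_coe (M : VonNeumannAlgebra H) :
    ((jj M.toStarSubalgebra : M.toStarSubalgebra) : H →L[ℂ] H) = jj (H →L[ℂ] H) := rfl

theorem tauC_comm {M : VonNeumannAlgebra H} {ξ : ℕ → H} (h : Fn M ξ)
    (a b : M.toStarSubalgebra) : tauC h (a * b) = tauC h (b * a) := by
  rw [tauC_apply, tauC_apply]
  exact h.comm (a : H →L[ℂ] H) a.2 (b : H →L[ℂ] H) b.2

/-- the addition law in a finite factor -/
theorem maslov_vn {M : VonNeumannAlgebra H} {ξ : ℕ → H} (h : Fn M ξ) {x y Y : H →L[ℂ] H}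
    (hxM : x ∈ M) (hyM : y ∈ M) (hYM : Y ∈ M) (hx : IsSelfAdjoint x) (hys : IsSelfAdjoint y)
    (hy : y * Y = 1) (hy' : Y * y = 1) :
    tr ξ (cfc Real.arctan x) + tr ξ (cfc Real.arctan (y - x)) -
      tr ξ (cfc Real.arctan (cz x Y)) = (Real.pi / 2 : ℂ) * tr ξ (cfc Real.sign y) := by
  have hYs : IsSelfAdjoint Y := by
    have h1 : star Y * y = 1 := by
      have := congrArg star hy
      rwa [star_mul, hys.star_eq, star_one] at this
    exact inv_uniq h1 hy
  obtain ⟨x', hx'⟩ : ∃ x' : M.toStarSubalgebra, (x' : H →L[ℂ] H) = x := ⟨⟨x, hxM⟩, rfl⟩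
  obtain ⟨y', hy1⟩ : ∃ y' : M.toStarSubalgebra, (y' : H →L[ℂ] H) = y := ⟨⟨y, hyM⟩, rfl⟩
  obtain ⟨Y', hY1⟩ : ∃ Y' : M.toStarSubalgebra, (Y' : H →L[ℂ] H) = Y := ⟨⟨Y, hYM⟩, rfl⟩
  have k1 : IsSelfAdjoint x' := by
    apply Subtype.ext
    rw [StarMemClass.coe_star, hx', hx.star_eq]
  have k2 : IsSelfAdjoint y' := by
    apply Subtype.ext
    rw [StarMemClass.coe_star, hy1, hys.star_eq]
  have k3 : IsSelfAdjoint Y' := by
    apply Subtype.ext
    rw [StarMemClass.coe_star, hY1, hYs.star_eq]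
  have k4 : y' * Y' = 1 := by
    apply Subtype.ext
    rw [MulMemClass.coe_mul, hy1, hY1, hy]
    rfl
  have k5 : Y' * y' = 1 := by
    apply Subtype.ext
    rw [MulMemClass.coe_mul, hy1, hY1, hy']
    rfl
  have h1 := maslov (tauC h) (tauC_comm h) x' y' Y' k1 k2 k4 k5
  rw [tauC_apply, tauC_apply, tauC_apply, tauC_apply,
    coe_cfc M _ k1 _ Real.continuous_arctan.continuousOn,
    coe_cfc M _ (k2.sub k1) _ Real.continuous_arctan.continuousOn,
    coe_cfc M _ (cz_sa k1 k3) _ Real.continuous_arctan.continuousOn,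
    coe_cfc M _ k2 _ (sign_cont k4 k5)] at h1
  have e1 : ((y' - x' : M.toStarSubalgebra) : H →L[ℂ] H) = y - x := by
    rw [AddSubgroupClass.coe_sub, hy1, hx']
  have e2 : ((cz x' Y' : M.toStarSubalgebra) : H →L[ℂ] H) = cz x Y := by
    unfold cz
    rw [AddSubgroupClass.coe_sub, MulMemClass.coe_mul, MulMemClass.coe_mul,
      AddSubgroupClass.coe_sub, AddMemClass.coe_add, jj_coe, hx', hY1]
  rw [e1, e2, hx', hy1] at h1
  exact h1

/-- the arctangent functional -/
noncomputable def Fa (ξ : ℕ → H) (u : H →L[ℂ] H) : ℝ := (tr ξ (cfc Real.arctan (cx u))).re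

theorem cfc_arctan_norm (x : H →L[ℂ] H) : ‖cfc Real.arctan x‖ ≤ Real.pi / 2 := by
  refine norm_cfc_le (by positivity) fun t _ => ?_
  rw [Real.norm_eq_abs, abs_le]
  exact ⟨(Real.neg_pi_div_two_lt_arctan t).le, (Real.arctan_lt_pi_div_two t).le⟩

theorem Fa_abs {M : VonNeumannAlgebra H} {ξ : ℕ → H} (h : Fn M ξ) (u : H →L[ℂ] H) :
    |Fa ξ u| ≤ Real.pi / 2 :=
  (Complex.abs_re_le_norm _).trans ((h.norm_tr _).trans (cfc_arctan_norm _))

/-- the sign and the positive projection -/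
theorem sign_pr {y Y : H →L[ℂ] H} (hys : IsSelfAdjoint y) (hy : y * Y = 1) (hy' : Y * y = 1) :
    IsPr ((1 / 2 : ℂ) • (1 + cfc Real.sign y)) := by
  have hs : star (cfc Real.sign y) = cfc Real.sign y :=
    (cfc_predicate Real.sign y : IsSelfAdjoint _).star_eq
  have h2 : cfc Real.sign y * cfc Real.sign y = 1 := by
    rw [← cfc_mul _ _ y (sign_cont hy hy') (sign_cont hy hy'), ← cfc_const_one ℝ y]
    refine cfc_congr fun t ht => ?_
    have : t ≠ 0 := by
      rintro rfl
      rw [spectrum.zero_mem_iff] at ht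
      exact ht ⟨⟨y, Y, hy, hy'⟩, rfl⟩
    rcases lt_or_gt_of_ne this with h | h
    · simp [Real.sign_of_neg h]
    · simp [Real.sign_of_pos h]
  refine ⟨?_, ?_⟩
  · rw [star_smul, star_add, star_one, hs]
    congr 1
    simp
  · rw [smul_mul_smul_comm]
    have : (1 + cfc Real.sign y) * (1 + cfc Real.sign y) = (2 : ℂ) • (1 + cfc Real.sign y) := by
      rw [two_smul, mul_add, add_mul, add_mul, h2]
      simp only [one_mul, mul_one]
      abel
    rw [this, smul_smul]
    norm_num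

/-- a continuous function equal to the sign away from zero -/
noncomputable def cl (c t : ℝ) : ℝ := max (-1) (min 1 (t / c))

theorem cl_cont (c : ℝ) : Continuous (cl c) := by
  unfold cl
  fun_prop

theorem cfc_sign_eq {y Y : H →L[ℂ] H} (hy : y * Y = 1) (hy' : Y * y = 1)
    {c : ℝ} (hc : 0 < c) (hY : ‖Y‖ ≤ c⁻¹) : cfc Real.sign y = cfc (cl c) y := by
  refine cfc_congr fun t ht => ?_
  have hct : c ≤ |t| := by
    by_contra hlt
    push Not at hlt
    rw [spectrum.mem_iff] at ht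
    refine ht ?_
    have h1 : ‖(t : ℂ) • Y‖ < 1 := by
      rw [norm_smul, Complex.norm_real, Real.norm_eq_abs]
      calc |t| * ‖Y‖ ≤ |t| * c⁻¹ := mul_le_mul_of_nonneg_left hY (abs_nonneg _)
        _ < c * c⁻¹ := mul_lt_mul_of_pos_right hlt (inv_pos.mpr hc)
        _ = 1 := mul_inv_cancel₀ hc.ne'
    have h2 : algebraMap ℝ (H →L[ℂ] H) t - y = -(y * (1 - (t : ℂ) • Y)) := by
      rw [mul_sub, mul_one, mul_smul_comm, hy, Algebra.algebraMap_eq_smul_one]
      have : (t : ℂ) • (1 : H →L[ℂ] H) = t • 1 := Complex.coe_smul t _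
      rw [this]
      abel
    rw [h2]
    refine IsUnit.neg (IsUnit.mul ⟨⟨y, Y, hy, hy'⟩, rfl⟩ ?_)
    exact ⟨Units.oneSub ((t : ℂ) • Y) h1, Units.val_oneSub _ _⟩
  unfold cl
  rcases lt_or_ge t 0 with h | h
  · rw [abs_of_neg h] at hct
    rw [Real.sign_of_neg h]
    have h1 : t / c ≤ -1 := by rw [div_le_iff₀ hc]; linarith
    rw [min_eq_right (by linarith), max_eq_left h1]
  · rw [abs_of_nonneg h] at hct
    have h0 : 0 < t := lt_of_lt_of_le hc hct
    rw [Real.sign_of_pos h0]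
    have h1 : 1 ≤ t / c := by rw [le_div_iff₀ hc]; linarith
    rw [min_eq_left h1, max_eq_right (by norm_num)]

end Pool.Agent.H256.KS
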