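import Mathlib
import Pool.Agent.H256.KS.Det

set_option autoImplicit false
set_option linter.unusedSectionVars false

/-! The relative determinant, second part: additivity on gapped pairs. -/

open Filter Topology Set
open scoped InnerProductSpace

namespace Pool.Agent.H256.KS

open Pool.Agent.TH254.CC H759R2.Kad

variable {H : Type} [NormedAddCommGroup H] [InnerProductSpace ℂ H] [CompleteSpace H]

/-- two near factors -/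
structure Cl (M N : VonNeumannAlgebra H) (ξ ξ' : ℕ → H) (δ : ℝ) : Prop where
  hM : Fn M ξ
  hN : Fn N ξ'
  d0 : 0 < δ
  d1 : δ ≤ 1 / 100000
  MN : Near M N δ
  NM : Near N M δ

theorem inv_mem (M : VonNeumannAlgebra H) {a g : H →L[ℂ] H} (ha : a ∈ M) (h1 : g * a = 1)
    (h2 : a * g = 1) : g ∈ M :=
  mem_of_comm M a g ha fun _ hb => comm_inv h2 h1 hb

theorem cx_mem (M : VonNeumannAlgebra H) {u g : H →L[ℂ] H} (hu : u ∈ M) (h1 : g * (1 - u) = 1)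
    (h2 : (1 - u) * g = 1) : cx u ∈ M := by
  rw [cx_eq h1 h2]
  have hj : jj (H →L[ℂ] H) ∈ M := vn_smul M _ (one_mem M)
  exact sub_mem (vn_smul M _ (mul_mem hj (inv_mem M (sub_mem (one_mem M) hu) h1 h2))) hj

theorem Fa_mul {M : VonNeumannAlgebra H} {ξ : ℕ → H} (h : Fn M ξ) {γ : ℝ} (hγ : 0 < γ)
    {u v : H →L[ℂ] H} (huM : u ∈ M) (hvM : v ∈ M) (hu : Un u) (hv : Un v) (gu : gp γ u)
    (gv : gp γ v) (guv : gp γ (u * v)) :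
    ∃ Y : H →L[ℂ] H, (cx u + cx v) ∈ M ∧ IsSelfAdjoint (cx u + cx v) ∧
      (cx u + cx v) * Y = 1 ∧ Y * (cx u + cx v) = 1 ∧ ‖Y‖ ≤ (γ / 2)⁻¹ ∧
      ‖cx u + cx v‖ ≤ 2 * (2 * γ⁻¹ + 1) ∧
      Fa ξ u + Fa ξ v - Fa ξ (u * v) = Real.pi / 2 * (tr ξ (cfc Real.sign (cx u + cx v))).re := by
  obtain ⟨g, g1, g2, g3⟩ := exists_inv hγ hu gu
  obtain ⟨k, k1, k2, k3⟩ := exists_inv hγ hv gv
  obtain ⟨m, m1, m2, m3⟩ := exists_inv hγ (hu.mul hv) guv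
  obtain ⟨Y, hY, y1, y2, y3⟩ := cx_mul g1 g2 k1 k2 m1 m2
  have xu := cx_sa hu g1 g2
  have xv := cx_sa hv k1 k2
  have mu := cx_mem M huM g1 g2
  have mv := cx_mem M hvM k1 k2
  have hyM : cx u + cx v ∈ M := add_mem mu mv
  have hys : IsSelfAdjoint (cx u + cx v) := xu.add xv
  have hYM : Y ∈ M := inv_mem M hyM y2 y1
  refine ⟨Y, hyM, hys, y1, y2, ?_, ?_, ?_⟩
  · have hj : ‖jj (H →L[ℂ] H)‖ ≤ 1 := by
      unfold jj
      rw [norm_smul, Complex.norm_I, one_mul]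
      exact norm_one_le_one
    have n1 : ∀ w : H →L[ℂ] H, Un w → ‖1 - w‖ ≤ 2 := by
      intro w hw
      refine (norm_sub_le _ _).trans ?_
      have := hw.norm_le
      have h1 : ‖(1 : H →L[ℂ] H)‖ ≤ 1 := norm_one_le_one
      linarith
    have n2 : ‖(1 - v) * m * (1 - u)‖ ≤ 2 * γ⁻¹ * 2 :=
      (norm_mul_le _ _).trans (mul_le_mul ((norm_mul_le _ _).trans
        (mul_le_mul (n1 v hv) m3 (norm_nonneg _) (by norm_num))) (n1 u hu) (norm_nonneg _)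
          (by positivity))
    have n3 : ‖jj (H →L[ℂ] H) * ((1 - v) * m * (1 - u))‖ ≤ 1 * (2 * γ⁻¹ * 2) :=
      (norm_mul_le _ _).trans (mul_le_mul hj n2 (norm_nonneg _) zero_le_one)
    rw [hY, norm_smul]
    have e1 : ‖(-(1 / 2 : ℂ))‖ = 1 / 2 := by simp
    have e2 : (γ / 2)⁻¹ = 2 * γ⁻¹ := by field_simp
    rw [e1, e2]
    linarith
  · have n1 := cx_norm g1 g2 g3
    have n2 := cx_norm k1 k2 k3
    refine (norm_add_le _ _).trans ?_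
    linarith
  · have h1 := maslov_vn h mu hyM hYM xu hys y1 y2
    rw [add_sub_cancel_left, ← y3] at h1
    have h2 := congrArg Complex.re h1
    rw [Complex.sub_re, Complex.add_re] at h2
    unfold Fa
    rw [h2]
    have e : (Real.pi / 2 : ℂ) = ((Real.pi / 2 : ℝ) : ℂ) := by push_cast; rfl
    rw [e, Complex.re_ofReal_mul]

theorem sign_tr {M N : VonNeumannAlgebra H} {ξ ξ' : ℕ → H} {δ : ℝ} (h : Cl M N ξ ξ' δ)
    {y Y z Z : H →L[ℂ] H} (hyM : y ∈ M) (hzN : z ∈ N) (hys : IsSelfAdjoint y)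
    (hzs : IsSelfAdjoint z) (y1 : y * Y = 1) (y2 : Y * y = 1) (z1 : z * Z = 1) (z2 : Z * z = 1)
    (hyz : ‖cfc Real.sign y - cfc Real.sign z‖ ≤ 1 / 8) :
    (tr ξ (cfc Real.sign y)).re = (tr ξ' (cfc Real.sign z)).re := by
  have p1 := sign_pr hys y1 y2
  have p2 := sign_pr hzs z1 z2
  have m1 : (1 / 2 : ℂ) • (1 + cfc Real.sign y) ∈ M :=
    vn_smul M _ (add_mem (one_mem M) (cfc_mem M hyM _))
  have m2 : (1 / 2 : ℂ) • (1 + cfc Real.sign z) ∈ N :=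
    vn_smul N _ (add_mem (one_mem N) (cfc_mem N hzN _))
  have hn : ‖(1 / 2 : ℂ) • (1 + cfc Real.sign y) - (1 / 2 : ℂ) • (1 + cfc Real.sign z)‖ ≤
      1 / 8 := by
    rw [← smul_sub, norm_smul, add_sub_add_left_eq_sub]
    have e1 : ‖(1 / 2 : ℂ)‖ = 1 / 2 := by simp
    rw [e1]
    linarith [norm_nonneg (cfc Real.sign y - cfc Real.sign z)]
  have a1 := tr_le h.hM h.hN h.d0 h.d1 h.MN m1 m2 p1 p2 hn
  have a2 := tr_le h.hN h.hM h.d0 h.d1 h.NM m2 m1 p2 p1 (by rw [norm_sub_rev]; exact hn)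
  have a3 := le_antisymm a1 a2
  rw [tr_smul, tr_smul, tr_add h.hM.sum, tr_add h.hN.sum, h.hM.one, h.hN.one] at a3
  have e : (1 / 2 : ℂ) = ((1 / 2 : ℝ) : ℂ) := by push_cast; rfl
  rw [e, Complex.re_ofReal_mul, Complex.re_ofReal_mul, Complex.add_re, Complex.add_re] at a3
  linarith

/-- additivity on gapped pairs -/
theorem G_add (γ : ℝ) (hγ : 0 < γ) : ∃ ε : ℝ, 0 < ε ∧ ∀ (H : Type) [NormedAddCommGroup H]
    [InnerProductSpace ℂ H] [CompleteSpace H] (M N : VonNeumannAlgebra H) (ξ ξ' : ℕ → H) (δ : ℝ),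
    Cl M N ξ ξ' δ → ∀ u₁ u₂ v₁ v₂ : H →L[ℂ] H, u₁ ∈ M → u₂ ∈ M → v₁ ∈ N → v₂ ∈ N → Un u₁ →
    Un u₂ → Un v₁ → Un v₂ → ‖u₁ - v₁‖ ≤ ε → ‖u₂ - v₂‖ ≤ ε → gp γ u₁ → gp γ u₂ →
    gp γ (u₁ * u₂) → gp γ v₁ → gp γ v₂ → gp γ (v₁ * v₂) →
    Fa ξ u₁ + Fa ξ u₂ - Fa ξ (u₁ * u₂) = Fa ξ' v₁ + Fa ξ' v₂ - Fa ξ' (v₁ * v₂) := by
  obtain ⟨ε, hε, hu⟩ := cfc_unif (2 * (2 * γ⁻¹ + 1)) (cl (γ / 2)) (cl_cont _).continuousOn
    (1 / 8) (by norm_num)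
  refine ⟨ε * γ ^ 2 / 4, by positivity, ?_⟩
  intro H _ _ _ M N ξ ξ' δ h u₁ u₂ v₁ v₂ mu₁ mu₂ mv₁ mv₂ Uu₁ Uu₂ Uv₁ Uv₂ n1 n2 g1 g2 g12 k1 k2 k12
  obtain ⟨Y, a1, a2, a3, a4, a5, a6, a7⟩ := Fa_mul h.hM hγ mu₁ mu₂ Uu₁ Uu₂ g1 g2 g12
  obtain ⟨Z, b1, b2, b3, b4, b5, b6, b7⟩ := Fa_mul h.hN hγ mv₁ mv₂ Uv₁ Uv₂ k1 k2 k12
  have hn : ∀ u v : H →L[ℂ] H, Un u → Un v → gp γ u → gp γ v → ‖u - v‖ ≤ ε * γ ^ 2 / 4 →
      ‖cx u - cx v‖ ≤ ε / 2 := by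
    intro u v hu hv gu gv huv
    obtain ⟨g, g1, g2, g3⟩ := exists_inv hγ hu gu
    obtain ⟨k, k1, k2, k3⟩ := exists_inv hγ hv gv
    refine (cx_near hγ g1 g2 g3 k1 k2 k3 huv).trans (le_of_eq ?_)
    field_simp
    ring
  have e1 : ‖(cx u₁ + cx u₂) - (cx v₁ + cx v₂)‖ ≤ ε := by
    rw [add_sub_add_comm]
    refine (norm_add_le _ _).trans ?_
    have := hn u₁ v₁ Uu₁ Uv₁ g1 k1 n1
    have := hn u₂ v₂ Uu₂ Uv₂ g2 k2 n2
    linarith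
  have e2 := hu (H →L[ℂ] H) _ _ a2 b2 a6 b6 e1
  rw [← cfc_sign_eq a3 a4 (by positivity) a5, ← cfc_sign_eq b3 b4 (by positivity) b5] at e2
  rw [a7, b7, sign_tr h a1 b1 a2 b2 a3 a4 b3 b4 e2]

end Pool.Agent.H256.KS
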