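import Mathlib
import Pool.Agent.H256.KS.Gap2

set_option autoImplicit false
set_option linter.unusedSectionVars false

/-! Exponentials and logarithms of unitaries near one. -/

open Filter Topology Set
open scoped InnerProductSpace

namespace Pool.Agent.H256.KS

open Pool.Agent.TH254.CC H759R2.Kad

variable {H : Type} [NormedAddCommGroup H] [InnerProductSpace ℂ H] [CompleteSpace H]

/-- `exp (i c)` -/
noncomputable def ex (c : H →L[ℂ] H) : H →L[ℂ] H := NormedSpace.exp (Complex.I • c)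

theorem ex_eq (c : H →L[ℂ] H) (hc : IsSelfAdjoint c) :
    ex c = ((selfAdjoint.expUnitary (⟨c, hc⟩ : selfAdjoint (H →L[ℂ] H)) :
      unitary (H →L[ℂ] H)) : H →L[ℂ] H) := rfl

theorem ex_un {c : H →L[ℂ] H} (hc : IsSelfAdjoint c) : Un (ex c) := by
  rw [ex_eq c hc]
  exact ⟨Unitary.coe_star_mul_self _, Unitary.coe_mul_star_self _⟩

theorem ex_zero : ex (0 : H →L[ℂ] H) = 1 := by
  unfold ex
  rw [smul_zero, NormedSpace.exp_zero]

theorem ex_add {a b : H →L[ℂ] H} (h : a * b = b * a) : ex (a + b) = ex a * ex b := by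
  unfold ex
  let +nondep : NormedAlgebra ℚ (H →L[ℂ] H) := .restrictScalars ℚ ℂ (H →L[ℂ] H)
  rw [smul_add]
  exact NormedSpace.exp_add_of_commute
    ((Commute.smul_left (show Commute a b from h) Complex.I).smul_right Complex.I)

theorem ex_neg_mul (a : H →L[ℂ] H) : ex (-a) * ex a = 1 := by
  rw [← ex_add (by rw [neg_mul, mul_neg]), neg_add_cancel, ex_zero]

theorem ex_mul_neg (a : H →L[ℂ] H) : ex a * ex (-a) = 1 := by
  rw [← ex_add (by rw [neg_mul, mul_neg]), add_neg_cancel, ex_zero]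

theorem ex_star {c : H →L[ℂ] H} (hc : IsSelfAdjoint c) : star (ex c) = ex (-c) :=
  inv_uniq (ex_un hc).1 (ex_mul_neg c)

theorem ex_cfc {c : H →L[ℂ] H} (hc : IsSelfAdjoint c) :
    ex c = cfc (fun z : ℂ => Complex.exp (Complex.I * z)) c := by
  unfold ex
  have hn : IsStarNormal c := hc.isStarNormal
  have hn2 : IsStarNormal (Complex.I • c) := ⟨by
    show star (Complex.I • c) * (Complex.I • c) = (Complex.I • c) * star (Complex.I • c)
    rw [star_smul, hc.star_eq, smul_mul_smul_comm, smul_mul_smul_comm, mul_comm]⟩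
  rw [← CFC.complex_exp_eq_normedSpace_exp hn2,
    cfc_comp_const_mul Complex.I Complex.exp c]

theorem ex_comm {c b : H →L[ℂ] H} (h : b * c = c * b) : b * ex c = ex c * b := by
  unfold ex
  exact (Commute.exp_right ((Commute.smul_right (show Commute b c from h) Complex.I)) : _)

theorem ex_mem (M : VonNeumannAlgebra H) {c : H →L[ℂ] H} (hc : c ∈ M) : ex c ∈ M :=
  mem_of_comm M c _ hc fun _ hb => ex_comm hb

theorem ex_conj {u c : H →L[ℂ] H} (hu : Un u) : ex (u * c * star u) = u * ex c * star u := by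
  unfold ex
  let +nondep : NormedAlgebra ℚ (H →L[ℂ] H) := .restrictScalars ℚ ℂ (H →L[ℂ] H)
  let U : (H →L[ℂ] H)ˣ := ⟨u, star u, hu.2, hu.1⟩
  have h := NormedSpace.exp_units_conj (𝔸 := H →L[ℂ] H) U (Complex.I • c)
  have e : ((U : (H →L[ℂ] H)) * (Complex.I • c) * ((U⁻¹ : (H →L[ℂ] H)ˣ) : H →L[ℂ] H)) =
      Complex.I • (u * c * star u) := by
    show u * (Complex.I • c) * star u = _
    rw [mul_smul_comm, smul_mul_assoc]
  rw [e] at h
  exact h

theorem ex_near {c : H →L[ℂ] H} (hc : IsSelfAdjoint c) : ‖ex c - 1‖ ≤ ‖c‖ := by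
  have hn : IsStarNormal c := hc.isStarNormal
  have h1 : ex c - 1 = cfc (fun z : ℂ => Complex.exp (Complex.I * z) - 1) c := by
    rw [ex_cfc hc, ← cfc_const_one ℂ c, ← cfc_sub _ _ c (by fun_prop) (by fun_prop)]
  rw [h1]
  refine norm_cfc_le (norm_nonneg _) fun z hz => ?_
  have hzr : z = (z.re : ℂ) := by
    have := hc.mem_spectrum_eq_re hz
    exact this
  have h2 : ‖z‖ ≤ ‖c‖ := by
    rcases subsingleton_or_nontrivial (H →L[ℂ] H) with h | h
    · rw [spectrum.of_subsingleton] at hz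
      exact hz.elim
    · exact spectrum.norm_le_norm_of_mem hz
  rw [hzr] at h2 ⊢
  rw [Complex.norm_real] at h2
  have h3 := Real.norm_exp_I_mul_ofReal_sub_one_le (x := z.re)
  exact h3.trans h2

/-- logarithms -/
theorem exists_log (M : VonNeumannAlgebra H) {u : H →L[ℂ] H} (huM : u ∈ M) (hu : Un u) {r : ℝ}
    (hr : r ≤ 1) (h : ‖u - 1‖ ≤ r) : ∃ c ∈ M, IsSelfAdjoint c ∧ ‖c‖ ≤ 2 * r ∧ ex c = u := by
  have hr0 : 0 ≤ r := (norm_nonneg _).trans h
  let U : unitary (H →L[ℂ] H) := ⟨u, Unitary.mem_iff.mpr ⟨hu.1, hu.2⟩⟩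
  have hU : ‖((U : H →L[ℂ] H) - 1 : H →L[ℂ] H)‖ < 2 := lt_of_le_of_lt h (by linarith)
  have h1 := expUnitary_argSelfAdjoint hU
  have h2 := Unitary.two_mul_one_sub_cos_norm_argSelfAdjoint hU
  refine ⟨(Unitary.argSelfAdjoint U : selfAdjoint (H →L[ℂ] H)), ?_,
    (Unitary.argSelfAdjoint U).2, ?_, ?_⟩
  · have h3 : ((Unitary.argSelfAdjoint U : selfAdjoint (H →L[ℂ] H)) : H →L[ℂ] H) ∈
        Set.centralizer (Set.centralizer (M : Set (H →L[ℂ] H))) := by
      intro b hb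
      have c1 : Commute u b := hb u huM
      have c2 : Commute (star u) b := hb (star u) (star_mem huM)
      exact (c1.cfc c2 (fun z : ℂ => ((Complex.arg z : ℝ) : ℂ))).symm
    rw [VonNeumannAlgebra.centralizer_centralizer] at h3
    exact h3
  · obtain ⟨s, hs⟩ : ∃ s : ℝ, s = ‖Unitary.argSelfAdjoint U‖ := ⟨_, rfl⟩
    have hs' : ‖((Unitary.argSelfAdjoint U : selfAdjoint (H →L[ℂ] H)) : H →L[ℂ] H)‖ = s := by
      rw [hs]; rfl
    rw [hs']
    rw [← hs] at h2
    have hs0 : 0 ≤ s := by rw [hs]; exact norm_nonneg _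
    have hspi : s ≤ Real.pi := by rw [hs]; exact Unitary.norm_argSelfAdjoint_le_pi U
    have h4 : ‖((U : H →L[ℂ] H) - 1 : H →L[ℂ] H)‖ ^ 2 ≤ r ^ 2 :=
      pow_le_pow_left₀ (norm_nonneg _) h 2
    have h6 : Real.cos s ≤ 1 - 2 / Real.pi ^ 2 * s ^ 2 :=
      Real.cos_le_one_sub_mul_cos_sq (by rw [abs_of_nonneg hs0]; exact hspi)
    have h7 : 4 / Real.pi ^ 2 * s ^ 2 ≤ r ^ 2 := by
      have : 2 * (2 / Real.pi ^ 2 * s ^ 2) ≤ 2 * (1 - Real.cos s) := by linarith
      calc 4 / Real.pi ^ 2 * s ^ 2 = 2 * (2 / Real.pi ^ 2 * s ^ 2) := by ring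
        _ ≤ r ^ 2 := by linarith
    have hpi : Real.pi < 4 := Real.pi_lt_four
    have h8 : s ^ 2 ≤ (2 * r) ^ 2 := by
      have hp2 : Real.pi ^ 2 ≤ 16 := by nlinarith [Real.pi_pos]
      have : s ^ 2 ≤ Real.pi ^ 2 / 4 * r ^ 2 := by
        have hpp : 0 < Real.pi ^ 2 := by positivity
        rw [div_mul_eq_mul_div, div_le_iff₀ hpp] at h7
        linarith
      nlinarith [sq_nonneg r]
    exact le_of_sq_le_sq h8 (by linarith)
  · have := congrArg (fun v : unitary (H →L[ℂ] H) => (v : H →L[ℂ] H)) h1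
    exact this

theorem alg_tan (C S : ℂ) (hC : C ≠ 0) (h : C ^ 2 + S ^ 2 = 1) :
    (S / C + Complex.I) * (1 + (C + S * Complex.I) ^ 2) = 2 * Complex.I := by
  have e : S / C + Complex.I = (S + C * Complex.I) / C := by field_simp
  have hI := Complex.I_sq
  rw [e, div_mul_eq_mul_div, div_eq_iff hC]
  linear_combination (2 * C * Complex.I - (S + C * Complex.I)) * h +
    (2 * C ^ 2 * S + (S + C * Complex.I) * S ^ 2) * hI

/-- the Cayley transform of `- exp (i c)` -/
theorem cx_ex {c : H →L[ℂ] H} (hc : IsSelfAdjoint c) (h1 : ‖c‖ ≤ 1) :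
    cfc Real.arctan (cx (- ex c)) = (1 / 2 : ℝ) • c := by
  have hn : IsStarNormal c := hc.isStarNormal
  obtain ⟨x, hx⟩ : ∃ x : H →L[ℂ] H, x = cfc (fun t : ℝ => Real.tan (t / 2)) c := ⟨_, rfl⟩
  have hsp : ∀ t ∈ spectrum ℝ c, |t| ≤ 1 := fun t ht => (spec_abs_le ht).trans h1
  have hcos : ∀ t : ℝ, |t| ≤ 1 → Real.cos (t / 2) ≠ 0 := by
    intro t ht
    have := abs_le.mp ht
    refine (Real.cos_pos_of_mem_Ioo ⟨?_, ?_⟩).ne'
    · have := Real.pi_gt_three; linarith
    · have := Real.pi_gt_three; linarith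
  have htc : ContinuousOn (fun t : ℝ => Real.tan (t / 2)) (spectrum ℝ c) := by
    intro t ht
    have h2 : ContinuousAt Real.tan (t / 2) := Real.continuousAt_tan.mpr (hcos t (hsp t ht))
    exact (ContinuousAt.comp (f := fun t : ℝ => t / 2) h2 (by fun_prop)).continuousWithinAt
  have hspc : ∀ z ∈ spectrum ℂ c, z = (z.re : ℂ) ∧ |z.re| ≤ 1 := by
    intro z hz
    have e := hc.mem_spectrum_eq_re hz
    refine ⟨e, ?_⟩
    have h2 : ‖z‖ ≤ ‖c‖ := by
      rcases subsingleton_or_nontrivial (H →L[ℂ] H) with h | h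
      · rw [spectrum.of_subsingleton] at hz
        exact hz.elim
      · exact spectrum.norm_le_norm_of_mem hz
    rw [e, Complex.norm_real, Real.norm_eq_abs] at h2
    exact h2.trans h1
  have htcc : ContinuousOn (fun z : ℂ => ((Real.tan (z.re / 2) : ℝ) : ℂ)) (spectrum ℂ c) := by
    intro z hz
    have h2 : ContinuousAt Real.tan (z.re / 2) :=
      Real.continuousAt_tan.mpr (hcos _ (hspc z hz).2)
    have h3 : ContinuousAt (fun z : ℂ => z.re / 2) z := by fun_prop
    exact (Complex.continuous_ofReal.continuousAt.comp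
      (ContinuousAt.comp (f := fun z : ℂ => z.re / 2) h2 h3)).continuousWithinAt
  have hxc : x = cfc (fun z : ℂ => ((Real.tan (z.re / 2) : ℝ) : ℂ)) c := by
    rw [hx, cfc_real_eq_complex _ hc]
  have hj : jj (H →L[ℂ] H) = cfc (fun _ : ℂ => Complex.I) c := by
    rw [cfc_const Complex.I c]
    unfold jj
    rw [Algebra.algebraMap_eq_smul_one]
  obtain ⟨j, hjj⟩ : ∃ j : H →L[ℂ] H, j = jj (H →L[ℂ] H) := ⟨_, rfl⟩
  have jc : ∀ a : H →L[ℂ] H, j * a = a * j := fun a => by rw [hjj]; exact jj_comm a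
  have j2 : j * j = -1 := by rw [hjj]; exact jj_sq
  have key : (x + j) * (1 + ex c) = (2 : ℂ) • j := by
    have e1 : x + j = cfc (fun z : ℂ => ((Real.tan (z.re / 2) : ℝ) : ℂ) + Complex.I) c := by
      rw [hxc, hjj, hj, ← cfc_add c _ _ htcc (by fun_prop)]
    have e2 : 1 + ex c = cfc (fun z : ℂ => 1 + Complex.exp (Complex.I * z)) c := by
      rw [cfc_const_add 1 (fun z : ℂ => Complex.exp (Complex.I * z)) c (by fun_prop), map_one,
        ex_cfc hc]
    have e3 : (2 : ℂ) • j = cfc (fun _ : ℂ => 2 * Complex.I) c := by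
      rw [cfc_const _ c, hjj]
      unfold jj
      rw [Algebra.algebraMap_eq_smul_one, smul_smul]
    rw [e1, e2, e3, ← cfc_mul (fun z : ℂ => ((Real.tan (z.re / 2) : ℝ) : ℂ) + Complex.I)
      (fun z : ℂ => 1 + Complex.exp (Complex.I * z)) c (htcc.add continuousOn_const) (by fun_prop)]
    refine cfc_congr fun z hz => ?_
    obtain ⟨hz1, hz2⟩ := hspc z hz
    obtain ⟨t, ht⟩ : ∃ t : ℝ, t = z.re / 2 := ⟨_, rfl⟩
    have ht' : z = 2 * (t : ℂ) := by
      rw [hz1, ht]; push_cast; ring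
    have hct : Real.cos t ≠ 0 := by rw [ht]; exact hcos _ hz2
    show (((Real.tan (z.re / 2) : ℝ) : ℂ) + Complex.I) * (1 + Complex.exp (Complex.I * z)) =
      2 * Complex.I
    rw [← ht, ht', Real.tan_eq_sin_div_cos]
    have e4 : Complex.exp (Complex.I * (2 * (t : ℂ))) =
        (((Real.cos t : ℝ) : ℂ) + ((Real.sin t : ℝ) : ℂ) * Complex.I) ^ 2 := by
      rw [Complex.ofReal_cos, Complex.ofReal_sin, ← Complex.exp_mul_I, ← Complex.exp_nat_mul]
      congr 1
      push_cast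
      ring
    have e5 : ((Real.cos t : ℝ) : ℂ) ^ 2 + ((Real.sin t : ℝ) : ℂ) ^ 2 = 1 := by
      exact_mod_cast Real.cos_sq_add_sin_sq t
    have hct' : ((Real.cos t : ℝ) : ℂ) ≠ 0 := by exact_mod_cast hct
    rw [e4, Complex.ofReal_div]
    exact alg_tan _ _ hct' e5
  have hcx : c * x = x * c := by
    have : Commute (cfc (fun t : ℝ => Real.tan (t / 2)) c) c := (Commute.refl c).cfc_real _
    rw [hx]
    exact this.eq.symm
  have hxe : (x + j) * (1 + ex c) = (1 + ex c) * (x + j) := by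
    have := ex_comm (c := c) (b := x) hcx.symm
    rw [add_mul, mul_add, mul_add, add_mul, mul_add, mul_add, this, jc (ex c)]
    simp only [one_mul, mul_one]
    abel
  obtain ⟨g, hg⟩ : ∃ g : H →L[ℂ] H, g = (-(1 / 2) : ℂ) • (j * (x + j)) := ⟨_, rfl⟩
  have g1 : g * (1 - -ex c) = 1 := by
    rw [sub_neg_eq_add, hg, smul_mul_assoc, mul_assoc, key, mul_smul_comm, j2, smul_smul]
    norm_num
  have g2 : (1 - -ex c) * g = 1 := by
    rw [sub_neg_eq_add, hg, mul_smul_comm, ← mul_assoc, ← jc, mul_assoc, ← hxe, key,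
      mul_smul_comm, j2, smul_smul]
    norm_num
  have hcx2 : cx (-ex c) = x := by
    rw [cx_eq g1 g2, ← hjj, hg, mul_smul_comm, ← mul_assoc, j2, smul_smul]
    have : (2 : ℂ) * -(1 / 2) = -1 := by norm_num
    rw [this, neg_mul, one_mul, neg_smul, one_smul, neg_neg, add_sub_cancel_right]
  rw [hcx2, hx, ← cfc_comp' Real.arctan (fun t : ℝ => Real.tan (t / 2)) c
    Real.continuous_arctan.continuousOn htc hc]
  have e1 : (1 / 2 : ℝ) • c = cfc (fun t : ℝ => (1 / 2 : ℝ) • t) c := by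
    rw [cfc_smul_id (1 / 2 : ℝ) c]
  rw [e1]
  refine cfc_congr fun t ht => ?_
  show Real.arctan (Real.tan (t / 2)) = (1 / 2 : ℝ) • t
  have h2 := abs_le.mp (hsp t ht)
  rw [Real.arctan_tan (by have := Real.pi_gt_three; linarith)
    (by have := Real.pi_gt_three; linarith), smul_eq_mul]
  ring

end Pool.Agent.H256.KS
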