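import Mathlib
import Pool.Agent.H256.KS.Det2
import Pool.Agent.H256.KS.Ex

set_option autoImplicit false
set_option linter.unusedSectionVars false

/-! The relative determinant, third part: pairs of near unitaries. -/

open Filter Topology Set
open scoped InnerProductSpace

namespace Pool.Agent.H256.KS

open Pool.Agent.TH254.CC H759R2.Kad

variable {H : Type} [NormedAddCommGroup H] [InnerProductSpace ℂ H] [CompleteSpace H]

/-- good auxiliary pairs -/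
structure Gd (M N : VonNeumannAlgebra H) (γ r : ℝ) (u v a b : H →L[ℂ] H) : Prop where
  aM : a ∈ M
  bN : b ∈ N
  ua : Un a
  ub : Un b
  ab : ‖a - b‖ ≤ r
  ga : gp γ a
  gb : gp γ b
  gua : gp γ (u * a)
  gvb : gp γ (v * b)

/-- the value for an auxiliary pair -/
noncomputable def vl (ξ ξ' : ℕ → H) (u v a b : H →L[ℂ] H) : ℝ :=
  (Fa ξ' (v * b) - Fa ξ (u * a)) - (Fa ξ' b - Fa ξ a)

theorem exists_pair {M N : VonNeumannAlgebra H} {ξ ξ' : ℕ → H} {δ r ρ γ₄ γ : ℝ}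
    (h : Cl M N ξ ξ' δ) (hr : 9 * δ ≤ r) (hρ : ρ + r ≤ γ₄ / 2) (hγ : γ ≤ γ₄ / 2)
    (hg : ∀ z : Fin 4 → (H →L[ℂ] H), (∀ i, z i ∈ M ∧ Un (z i)) →
      ∃ a ∈ M, Un a ∧ ∀ i, gp γ₄ (z i * a))
    (z w : Fin 4 → (H →L[ℂ] H)) (hz : ∀ i, z i ∈ M ∧ Un (z i)) (hw : ∀ i, w i ∈ N ∧ Un (w i))
    (hzw : ∀ i, ‖z i - w i‖ ≤ ρ) :
    ∃ a ∈ M, ∃ b ∈ N, Un a ∧ Un b ∧ ‖a - b‖ ≤ r ∧ ∀ i, gp γ (z i * a) ∧ gp γ (w i * b) := by
  have h4 : 0 ≤ γ₄ := by
    have h1 := h.d0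
    have h2 : 0 ≤ ρ := (norm_nonneg _).trans (hzw 0)
    linarith
  obtain ⟨a, haM, ha, hga⟩ := hg z hz
  obtain ⟨y, hy, hay⟩ := h.MN a haM
  have hay' : ‖a - y‖ ≤ δ := hay.trans (mul_le_of_le_one_right h.d0.le ha.norm_le)
  obtain ⟨b, hbN, hb, hab, -⟩ := unitary_near N ha hy (by linarith [h.d1]) hay'
  refine ⟨a, haM, b, hbN, ha, hb, hab.trans hr, fun i => ⟨(hga i).mono (by linarith), ?_⟩⟩
  exact ((hga i).pert (near_mul (hw i).2 ha (hzw i) (hab.trans hr))).mono (by linarith)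

theorem vl_uniq {M N : VonNeumannAlgebra H} {ξ ξ' : ℕ → H} {δ r γ₄ γ ε : ℝ}
    (h : Cl M N ξ ξ' δ) (hr : 9 * δ ≤ r) (hr2 : 3 * r ≤ γ₄ / 2) (hr3 : 3 * r ≤ ε)
    (hγ : γ ≤ γ₄ / 2)
    (hg : ∀ z : Fin 4 → (H →L[ℂ] H), (∀ i, z i ∈ M ∧ Un (z i)) →
      ∃ a ∈ M, Un a ∧ ∀ i, gp γ₄ (z i * a))
    (hG : ∀ u₁ u₂ v₁ v₂ : H →L[ℂ] H, u₁ ∈ M → u₂ ∈ M → v₁ ∈ N → v₂ ∈ N → Un u₁ →
      Un u₂ → Un v₁ → Un v₂ → ‖u₁ - v₁‖ ≤ ε → ‖u₂ - v₂‖ ≤ ε → gp γ u₁ → gp γ u₂ →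
      gp γ (u₁ * u₂) → gp γ v₁ → gp γ v₂ → gp γ (v₁ * v₂) →
      Fa ξ u₁ + Fa ξ u₂ - Fa ξ (u₁ * u₂) = Fa ξ' v₁ + Fa ξ' v₂ - Fa ξ' (v₁ * v₂))
    {u v a b a' b' : H →L[ℂ] H} (hu : u ∈ M) (hv : v ∈ N) (Uu : Un u) (Uv : Un v)
    (huv : ‖u - v‖ ≤ r) (g : Gd M N γ r u v a b) (g' : Gd M N γ r u v a' b') :
    vl ξ ξ' u v a b = vl ξ ξ' u v a' b' := by
  have hr0 : 0 ≤ r := (norm_nonneg _).trans huv
  obtain ⟨s, hsM, t, htN, Us, Ut, hst, hgap⟩ := exists_pair (ρ := 2 * r) (γ := γ) h hr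
    (by linarith) hγ hg ![1, a, u * a, star a' * a] ![1, b, v * b, star b' * b] (by
      intro i
      fin_cases i
      · exact ⟨one_mem M, Un.one⟩
      · exact ⟨g.aM, g.ua⟩
      · exact ⟨mul_mem hu g.aM, Uu.mul g.ua⟩
      · exact ⟨mul_mem (star_mem g'.aM) g.aM, g'.ua.star.mul g.ua⟩) (by
      intro i
      fin_cases i
      · exact ⟨one_mem N, Un.one⟩
      · exact ⟨g.bN, g.ub⟩
      · exact ⟨mul_mem hv g.bN, Uv.mul g.ub⟩
      · exact ⟨mul_mem (star_mem g'.bN) g.bN, g'.ub.star.mul g.ub⟩) (by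
      intro i
      fin_cases i
      · show ‖(1 : H →L[ℂ] H) - 1‖ ≤ 2 * r
        rw [sub_self, norm_zero]
        linarith
      · show ‖a - b‖ ≤ 2 * r
        linarith [g.ab]
      · show ‖u * a - v * b‖ ≤ 2 * r
        have := near_mul Uv g.ua huv g.ab
        linarith
      · show ‖star a' * a - star b' * b‖ ≤ 2 * r
        have := near_mul g'.ub.star g.ua (near_star g'.ab) g.ab
        linarith)
  have G0 := hgap 0
  have G1 := hgap 1
  have G2 := hgap 2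
  have G3 := hgap 3
  simp only [Matrix.cons_val_zero, Matrix.cons_val_one, Matrix.cons_val, one_mul] at G0 G1 G2 G3
  have e1 : u * a' * (star a' * a * s) = u * a * s := by
    calc u * a' * (star a' * a * s) = u * (a' * star a') * a * s := by noncomm_ring
      _ = u * a * s := by rw [g'.ua.2, mul_one]
  have e2 : v * b' * (star b' * b * t) = v * b * t := by
    calc v * b' * (star b' * b * t) = v * (b' * star b') * b * t := by noncomm_ring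
      _ = v * b * t := by rw [g'.ub.2, mul_one]
  have e3 : a' * (star a' * a * s) = a * s := by
    calc a' * (star a' * a * s) = (a' * star a') * a * s := by noncomm_ring
      _ = a * s := by rw [g'.ua.2, one_mul]
  have e4 : b' * (star b' * b * t) = b * t := by
    calc b' * (star b' * b * t) = (b' * star b') * b * t := by noncomm_ring
      _ = b * t := by rw [g'.ub.2, one_mul]
  have n1 := near_mul Uv g.ua huv g.ab
  have n2 := near_mul Uv g'.ua huv g'.ab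
  have n3 := near_mul g'.ub.star g.ua (near_star g'.ab) g.ab
  have n4 := near_mul (g'.ub.star.mul g.ub) Us n3 hst
  have k1 := hG (u * a) s (v * b) t (mul_mem hu g.aM) hsM (mul_mem hv g.bN) htN (Uu.mul g.ua) Us
    (Uv.mul g.ub) Ut (by linarith) (by linarith) g.gua G0.1 G2.1 g.gvb G0.2 G2.2
  have k2 := hG a s b t g.aM hsM g.bN htN g.ua Us g.ub Ut (by linarith [g.ab]) (by linarith)
    g.ga G0.1 G1.1 g.gb G0.2 G1.2
  have k3 := hG (u * a') (star a' * a * s) (v * b') (star b' * b * t) (mul_mem hu g'.aM)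
    (mul_mem (mul_mem (star_mem g'.aM) g.aM) hsM) (mul_mem hv g'.bN)
    (mul_mem (mul_mem (star_mem g'.bN) g.bN) htN) (Uu.mul g'.ua) ((g'.ua.star.mul g.ua).mul Us)
    (Uv.mul g'.ub) ((g'.ub.star.mul g.ub).mul Ut) (by linarith) (by linarith) g'.gua G3.1
    (by rw [e1]; exact G2.1) g'.gvb G3.2 (by rw [e2]; exact G2.2)
  have k4 := hG a' (star a' * a * s) b' (star b' * b * t) g'.aM
    (mul_mem (mul_mem (star_mem g'.aM) g.aM) hsM) g'.bN
    (mul_mem (mul_mem (star_mem g'.bN) g.bN) htN) g'.ua ((g'.ua.star.mul g.ua).mul Us)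
    g'.ub ((g'.ub.star.mul g.ub).mul Ut) (by linarith [g'.ab]) (by linarith) g'.ga G3.1
    (by rw [e3]; exact G1.1) g'.gb G3.2 (by rw [e4]; exact G1.2)
  rw [e1, e2] at k3
  rw [e3, e4] at k4
  unfold vl
  linarith

end Pool.Agent.H256.KS
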