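import Mathlib
import Pool.Agent.H256.KS.Det3

set_option autoImplicit false
set_option linter.unusedSectionVars false

/-! The relative determinant, fourth part: the main properties. -/

open Filter Topology Set
open scoped InnerProductSpace

namespace Pool.Agent.H256.KS

open Pool.Agent.TH254.CC H759R2.Kad

variable {H : Type} [NormedAddCommGroup H] [InnerProductSpace ℂ H] [CompleteSpace H]

theorem tr_corner {ξ : ℕ → H} (hs : Summable fun k => ‖ξ k‖ ^ 2) {e T : H →L[ℂ] H} (he : IsPr e)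
    (h : e * T * e = T) : ‖tr ξ T‖ ≤ ‖T‖ * (tr ξ e).re := by
  have h1 : (tr ξ e).re = ∑' k, ‖e (ξ k)‖ ^ 2 := by
    have e1 : tr ξ e = tr ξ (star e * e) := by rw [he.1, he.2]
    rw [e1, tr_sq, Complex.ofReal_re]
  have hse : Summable fun k => ‖e (ξ k)‖ ^ 2 := by
    refine hs.of_nonneg_of_le (fun k => by positivity) fun k => ?_
    have : ‖e (ξ k)‖ ≤ 1 * ‖ξ k‖ := (ContinuousLinearMap.le_opNorm _ _).trans
      (mul_le_mul_of_nonneg_right (pr_norm he) (norm_nonneg _))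
    rw [one_mul] at this
    exact pow_le_pow_left₀ (norm_nonneg _) this 2
  have h2 : ∀ k, ‖⟪ξ k, T (ξ k)⟫_ℂ‖ ≤ ‖T‖ * ‖e (ξ k)‖ ^ 2 := by
    intro k
    have e2 : ⟪ξ k, T (ξ k)⟫_ℂ = ⟪e (ξ k), T (e (ξ k))⟫_ℂ := by
      have : ⟪ξ k, (e * T * e) (ξ k)⟫_ℂ = ⟪e (ξ k), T (e (ξ k))⟫_ℂ := by
        have := ContinuousLinearMap.adjoint_inner_right e (ξ k) (T (e (ξ k)))
        rw [← ContinuousLinearMap.star_eq_adjoint, he.1] at this
        exact this
      rw [← this, h]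
    rw [e2]
    calc ‖⟪e (ξ k), T (e (ξ k))⟫_ℂ‖ ≤ ‖e (ξ k)‖ * ‖T (e (ξ k))‖ := norm_inner_le_norm _ _
      _ ≤ ‖e (ξ k)‖ * (‖T‖ * ‖e (ξ k)‖) := by gcongr; exact T.le_opNorm _
      _ = _ := by ring
  rw [h1, ← tsum_mul_left]
  exact tsum_of_norm_bounded (hse.mul_left _).hasSum h2

theorem arctan_corner {x f : H →L[ℂ] H} (hx : IsSelfAdjoint x) (h : x * f = 0) :
    cfc Real.arctan x * f = 0 := by
  have hc : Continuous (dslope Real.arctan 0) := by
    rw [← continuousOn_univ]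
    rw [continuousOn_dslope Filter.univ_mem]
    exact ⟨Real.continuous_arctan.continuousOn, Real.differentiableAt_arctan 0⟩
  have h1 : cfc Real.arctan x = cfc (dslope Real.arctan 0) x * x := by
    conv_rhs => rw [← cfc_id' ℝ x]
    rw [cfc_id' ℝ x]
    conv_rhs => enter [2]; rw [← cfc_id' ℝ x]
    rw [← cfc_mul _ _ x hc.continuousOn (by fun_prop)]
    refine cfc_congr fun t _ => ?_
    have := sub_smul_dslope Real.arctan 0 t
    rw [sub_zero, Real.arctan_zero, sub_zero, smul_eq_mul] at this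
    rw [← this, mul_comm]
  rw [h1, mul_assoc, h, mul_zero]

theorem Fa_corner {ξ : ℕ → H} (hs : Summable fun k => ‖ξ k‖ ^ 2) {γ : ℝ} (hγ : 0 < γ)
    {e w : H →L[ℂ] H} (he : IsPr e) (hw : Un w) (hg : gp γ w) (h : w * (1 - e) = -(1 - e)) :
    |Fa ξ w| ≤ Real.pi / 2 * (tr ξ e).re := by
  obtain ⟨g, g1, g2, -⟩ := exists_inv hγ hw hg
  obtain ⟨f, hf⟩ : ∃ f : H →L[ℂ] H, f = 1 - e := ⟨_, rfl⟩
  rw [← hf] at h
  have hfs : star f = f := by rw [hf, star_sub, star_one, he.1]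
  have h1 : g * f = (1 / 2 : ℂ) • f := by
    have h2 : (1 - w) * f = (2 : ℂ) • f := by
      rw [sub_mul, one_mul, h, sub_neg_eq_add, two_smul]
    have h3 : f = g * ((2 : ℂ) • f) := by rw [← h2, ← mul_assoc, g1, one_mul]
    rw [mul_smul_comm] at h3
    conv_rhs => rw [h3]
    rw [smul_smul]
    norm_num
  have hxs := cx_sa hw g1 g2
  have h4 : cx w * f = 0 := by
    rw [cx_eq g1 g2, sub_mul, smul_mul_assoc, mul_assoc, h1, mul_smul_comm, smul_smul]
    norm_num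
  have h5 := arctan_corner hxs h4
  have hTs : star (cfc Real.arctan (cx w)) = cfc Real.arctan (cx w) :=
    (cfc_predicate Real.arctan (cx w) : IsSelfAdjoint _).star_eq
  have h6 : f * cfc Real.arctan (cx w) = 0 := by
    have := congrArg star h5
    rwa [star_mul, hfs, hTs, star_zero] at this
  have h7 : e * cfc Real.arctan (cx w) * e = cfc Real.arctan (cx w) := by
    have e1 : e = 1 - f := by rw [hf]; abel
    rw [e1, sub_mul, one_mul, h6, sub_zero, mul_sub, mul_one, h5, sub_zero]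
  unfold Fa
  refine (Complex.abs_re_le_norm _).trans ((tr_corner hs he h7).trans ?_)
  exact mul_le_mul_of_nonneg_right (cfc_arctan_norm _) (tr_pr he).2

theorem pyth {e : H →L[ℂ] H} (he : IsPr e) {x y : H} (hx : e x = x) (hy : e y = 0) :
    ‖x + y‖ ^ 2 = ‖x‖ ^ 2 + ‖y‖ ^ 2 := by
  have h1 : ⟪x, y⟫_ℂ = 0 := by
    have := ContinuousLinearMap.adjoint_inner_right e x y
    rw [← ContinuousLinearMap.star_eq_adjoint, he.1, hy, hx, inner_zero_right] at this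
    exact this.symm
  have h2 := @norm_add_sq ℂ H _ _ _ x y
  rw [h1] at h2
  simpa using h2

theorem gp_block {γ : ℝ} {e a : H →L[ℂ] H} (he : IsPr e) (hea : e * a = a * e) (hγ0 : 0 ≤ γ)
    (hγ : γ ≤ 2) (h : gp γ a) : gp γ (a * e - (1 - e)) := by
  intro ζ
  have e0 : e (e ζ) = e ζ := by
    have : (e * e) ζ = e ζ := by rw [he.2]
    exact this
  have e1 : ζ - (a * e - (1 - e)) ζ = (e ζ - a (e ζ)) + (2 : ℂ) • (ζ - e ζ) := by
    have : (a * e - (1 - e)) ζ = a (e ζ) - (ζ - e ζ) := rfl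
    rw [this, two_smul]
    abel
  have e2 : e (e ζ - a (e ζ)) = e ζ - a (e ζ) := by
    have : (e * a) (e ζ) = (a * e) (e ζ) := by rw [hea]
    have h2 : e (a (e ζ)) = a (e (e ζ)) := this
    rw [map_sub, h2, e0]
  have e3 : e ((2 : ℂ) • (ζ - e ζ)) = 0 := by
    rw [map_smul, map_sub, e0, sub_self, smul_zero]
  have e4 : e (ζ - e ζ) = 0 := by rw [map_sub, e0, sub_self]
  have p1 := pyth he e2 e3
  have p2 := pyth he e0 e4
  rw [add_sub_cancel] at p2
  have p3 := pow_le_pow_left₀ (by positivity) (h (e ζ)) 2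
  rw [norm_smul] at p1
  simp only [Complex.norm_ofNat] at p1
  rw [e1]
  refine le_of_sq_le_sq ?_ (norm_nonneg _)
  rw [p1, mul_pow, p2, mul_pow]
  rw [mul_pow] at p3
  have p4 : γ ^ 2 ≤ 2 ^ 2 := pow_le_pow_left₀ hγ0 hγ 2
  nlinarith [sq_nonneg (‖ζ - e ζ‖), mul_le_mul_of_nonneg_right p4 (sq_nonneg (‖ζ - e ζ‖))]

/-- an auxiliary pair adapted to a corner -/
theorem exists_corner_pair {M N : VonNeumannAlgebra H} {ξ ξ' : ℕ → H} {δ r γ γ' : ℝ}
    (h : Cl M N ξ ξ' δ) (hr : 9 * δ ≤ r) (hγ'0 : 0 < γ')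
    (hγ' : γ' ≤ Real.sqrt (2 * (1 - Real.cos 1))) (hγ'1 : γ' ≤ 1) (hγ : γ + 2 * r ≤ γ')
    {u v e : H →L[ℂ] H} (hu : u ∈ M) (Uu : Un u) (Uv : Un v)
    (huv : ‖u - v‖ ≤ r) (heM : e ∈ M) (heN : e ∈ N) (he : IsPr e)
    (hue : u * (1 - e) = 1 - e) (hve : v * (1 - e) = 1 - e) :
    ∃ a b : H →L[ℂ] H, Gd M N γ r u v a b ∧ a * (1 - e) = -(1 - e) ∧ b * (1 - e) = -(1 - e) ∧
      u * a * (1 - e) = -(1 - e) ∧ v * b * (1 - e) = -(1 - e) := by
  have hr0 : 0 ≤ r := (norm_nonneg _).trans huv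
  obtain ⟨f, hf⟩ : ∃ f : H →L[ℂ] H, f = 1 - e := ⟨_, rfl⟩
  rw [← hf] at hue hve ⊢
  have hfs : star f = f := by rw [hf, star_sub, star_one, he.1]
  have hff : f * f = f := by
    rw [hf, mul_sub, mul_one, sub_mul, one_mul, he.2, sub_self, sub_zero]
  have hef : e * f = 0 := by rw [hf, mul_sub, mul_one, he.2, sub_self]
  have hfe : f * e = 0 := by rw [hf, sub_mul, one_mul, he.2, sub_self]
  have e1f : e = 1 - f := by rw [hf]; abel
  have hfM : f ∈ M := by rw [hf]; exact sub_mem (one_mem M) heM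
  have hfN : f ∈ N := by rw [hf]; exact sub_mem (one_mem N) heN
  have husf : star u * f = f := by
    calc star u * f = star u * (u * f) := by rw [hue]
      _ = f := by rw [← mul_assoc, Uu.1, one_mul]
  have hfu : f * u = f := by
    have := congrArg star husf
    rwa [star_mul, star_star, hfs] at this
  have hfus : f * star u = f := by
    have := congrArg star hue
    rwa [star_mul, hfs] at this
  have heu : e * u = u * e := by rw [e1f, sub_mul, mul_sub, hfu, hue, one_mul, mul_one]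
  have heus : e * star u = star u * e := by
    rw [e1f, sub_mul, mul_sub, hfus, husf, one_mul, mul_one]
  have Unu : Un (-u) := ⟨by rw [star_neg, neg_mul_neg, Uu.1], by rw [star_neg, neg_mul_neg, Uu.2]⟩
  obtain ⟨c, hcM, Uc, hc1, hgc, hcc⟩ := gap_one M (neg_mem hu) Unu one_pos le_rfl
  have hec : e * c = c * e := hcc e (by rw [mul_neg, neg_mul, heu])
    (by rw [star_neg, mul_neg, neg_mul, heus])
  -- the unitary in `M`
  obtain ⟨a₀, ha₀⟩ : ∃ a₀ : H →L[ℂ] H, a₀ = -c := ⟨_, rfl⟩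
  have Ua₀ : Un a₀ := by
    rw [ha₀]
    exact ⟨by rw [star_neg, neg_mul_neg, Uc.1], by rw [star_neg, neg_mul_neg, Uc.2]⟩
  have hea₀ : e * a₀ = a₀ * e := by rw [ha₀, mul_neg, neg_mul, hec]
  have heas₀ : e * star a₀ = star a₀ * e := by
    have := congrArg star hea₀
    rw [star_mul, star_mul, he.1] at this
    exact this.symm
  have ga₀ : gp γ' a₀ := by
    refine (gp_neg_one.pert (r := 1) (v := a₀) ?_).mono (by linarith)
    rw [ha₀]
    have : (-1 : H →L[ℂ] H) - -c = c - 1 := by abel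
    rw [this]
    exact hc1
  have gua₀ : gp γ' (u * a₀) := by
    have e2 : u * a₀ = -u * c := by rw [ha₀, mul_neg, neg_mul]
    rw [e2]
    exact hgc.mono hγ'
  obtain ⟨a, ha⟩ : ∃ a : H →L[ℂ] H, a = a₀ * e - (1 - e) := ⟨_, rfl⟩
  have haM : a ∈ M := by
    rw [ha, ha₀]
    exact sub_mem (mul_mem (neg_mem hcM) heM) (sub_mem (one_mem M) heM)
  have ga : gp γ' a := by
    rw [ha]
    exact gp_block he hea₀ hγ'0.le (by linarith) ga₀
  have hua : u * a = u * a₀ * e - (1 - e) := by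
    rw [ha, mul_sub, ← mul_assoc, ← hf, hue]
  have gua : gp γ' (u * a) := by
    rw [hua]
    refine gp_block he ?_ hγ'0.le (by linarith) gua₀
    rw [← mul_assoc, heu, mul_assoc, hea₀, mul_assoc]
  have haf : a * f = -f := by
    rw [ha, ← hf, sub_mul, mul_assoc, hef, mul_zero, hff, zero_sub]
  have hfa₀ : f * (a₀ * e) = 0 := by
    rw [← hea₀, ← mul_assoc, hfe, zero_mul]
  have Ua : Un a := by
    rw [ha, ← hf]
    have h1 : star (a₀ * e) = e * star a₀ := by rw [star_mul, he.1]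
    have h2 : e * star a₀ * f = 0 := by rw [heas₀, mul_assoc, hef, mul_zero]
    have h3 : a₀ * e * f = 0 := by rw [mul_assoc, hef, mul_zero]
    have h4 : f * (e * star a₀) = 0 := by rw [← mul_assoc, hfe, zero_mul]
    constructor
    · rw [star_sub, h1, hfs, sub_mul, mul_sub, mul_sub, h2, hfa₀, hff]
      have : e * star a₀ * (a₀ * e) = e * (star a₀ * a₀) * e := by noncomm_ring
      rw [this, Ua₀.1, mul_one, he.2, e1f]
      abel
    · rw [star_sub, h1, hfs, sub_mul, mul_sub, mul_sub, h3, h4, hff]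
      have : a₀ * e * (e * star a₀) = a₀ * (e * e) * star a₀ := by noncomm_ring
      rw [this, he.2, ← hea₀, mul_assoc, Ua₀.2, mul_one, e1f]
      abel
  -- the unitary in `N`
  obtain ⟨y, hy, hay⟩ := h.MN a haM
  have hay' : ‖a - y‖ ≤ δ := hay.trans (mul_le_of_le_one_right h.d0.le Ua.norm_le)
  have hy' : e * y * e - f ∈ N := sub_mem (mul_mem (mul_mem heN hy) heN) hfN
  have hae : a = e * a * e - f := by
    have h1 : e * a * e = a₀ * e := by
      rw [ha, ← hf, mul_sub, sub_mul, hef, zero_mul, sub_zero, ← mul_assoc, hea₀]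
      calc a₀ * e * e * e = a₀ * (e * e) * e := by noncomm_ring
        _ = a₀ * e := by rw [he.2, mul_assoc, he.2]
    rw [h1, ha, ← hf]
  have hay2 : ‖a - (e * y * e - f)‖ ≤ δ := by
    have h1 : a - (e * y * e - f) = e * (a - y) * e := by
      conv_lhs => rw [hae]
      noncomm_ring
    rw [h1]
    have n1 : ‖e * (a - y) * e‖ ≤ 1 * δ * 1 := (norm_mul_le _ _).trans
      (mul_le_mul ((norm_mul_le _ _).trans (mul_le_mul (pr_norm he) hay' (norm_nonneg _)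
        zero_le_one)) (pr_norm he) (norm_nonneg _) (by linarith [h.d0]))
    linarith
  obtain ⟨b, hbN, Ub, hab, p, hpN, hbp, hpf, -⟩ := unitary_near N Ua hy' (by linarith [h.d1]) hay2
  have hyf : (e * y * e - f) * f = -f := by
    rw [sub_mul, mul_assoc (e * y), hef, mul_zero, hff, zero_sub]
  have hbf : b * f = -f := by
    rw [hbp, mul_assoc, hpf f ?_, hyf]
    rw [hyf, mul_neg, star_sub, star_mul, star_mul, he.1, hfs, sub_mul, mul_assoc e,
      mul_assoc (star y), hef, mul_zero, mul_zero, hff, zero_sub, neg_neg]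
  have hab' : ‖a - b‖ ≤ r := hab.trans hr
  refine ⟨a, b, ⟨haM, hbN, Ua, Ub, hab', ga.mono (by linarith), ?_, gua.mono (by linarith), ?_⟩,
    haf, hbf, ?_, ?_⟩
  · exact (ga.pert hab').mono (by linarith)
  · exact (gua.pert (near_mul Uv Ua huv hab')).mono (by linarith)
  · rw [mul_assoc, haf, mul_neg, hue]
  · rw [mul_assoc, hbf, mul_neg, hve]

/-- existence of the relative determinant -/
theorem exists_det : ∃ δ₀ κ : ℝ, 0 < δ₀ ∧ δ₀ ≤ 1 / 100000 ∧ 0 < κ ∧ κ ≤ 1 ∧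
    ∀ (H : Type) [NormedAddCommGroup H]
    [InnerProductSpace ℂ H] [CompleteSpace H] (M N : VonNeumannAlgebra H) (ξ ξ' : ℕ → H),
    Cl M N ξ ξ' δ₀ → ∃ D : (H →L[ℂ] H) → (H →L[ℂ] H) → ℝ,
    (∀ u₁ u₂ v₁ v₂ : H →L[ℂ] H, u₁ ∈ M → u₂ ∈ M → v₁ ∈ N → v₂ ∈ N → Un u₁ → Un u₂ → Un v₁ →
      Un v₂ → ‖u₁ - v₁‖ ≤ κ → ‖u₂ - v₂‖ ≤ κ → D (u₁ * u₂) (v₁ * v₂) = D u₁ v₁ + D u₂ v₂) ∧
    (∀ u v e : H →L[ℂ] H, u ∈ M → v ∈ N → Un u → Un v → ‖u - v‖ ≤ κ → e ∈ M → e ∈ N → IsPr e →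
      u * (1 - e) = 1 - e → v * (1 - e) = 1 - e →
      |D u v| ≤ Real.pi * ((tr ξ e).re + (tr ξ' e).re)) ∧
    ∀ c ∈ N, IsSelfAdjoint c → ‖c‖ ≤ κ → D 1 (ex c) = 1 / 2 * (tr ξ' c).re := by
  obtain ⟨γ₄, hγ₄, hg⟩ := gap_fam 4
  obtain ⟨γ', hγ'⟩ : ∃ γ' : ℝ, γ' = min 1 (Real.sqrt (2 * (1 - Real.cos 1))) := ⟨_, rfl⟩
  have hγ'0 : 0 < γ' := by rw [hγ']; exact lt_min one_pos (gam_pos one_pos le_rfl)
  have hγ'1 : γ' ≤ 1 := by rw [hγ']; exact min_le_left _ _
  have hγ'2 : γ' ≤ Real.sqrt (2 * (1 - Real.cos 1)) := by rw [hγ']; exact min_le_right _ _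
  obtain ⟨γ, hγe⟩ : ∃ γ : ℝ, γ = min (γ₄ / 2) (γ' / 2) := ⟨_, rfl⟩
  have hγ0 : 0 < γ := by rw [hγe]; exact lt_min (by linarith) (by linarith)
  have hγ1 : γ ≤ γ₄ / 2 := by rw [hγe]; exact min_le_left _ _
  have hγ2 : γ ≤ γ' / 2 := by rw [hγe]; exact min_le_right _ _
  obtain ⟨ε, hε, hG⟩ := G_add γ hγ0
  obtain ⟨r, hre⟩ : ∃ r : ℝ, r = min (min (γ₄ / 6) (γ' / 4)) (min (ε / 3) 1) := ⟨_, rfl⟩
  have hr0 : 0 < r := by
    rw [hre]
    exact lt_min (lt_min (by linarith) (by linarith)) (lt_min (by linarith) one_pos)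
  have hr1 : r ≤ γ₄ / 6 := by rw [hre]; exact (min_le_left _ _).trans (min_le_left _ _)
  have hr2 : r ≤ γ' / 4 := by rw [hre]; exact (min_le_left _ _).trans (min_le_right _ _)
  have hr3 : r ≤ ε / 3 := by rw [hre]; exact (min_le_right _ _).trans (min_le_left _ _)
  have hr4 : r ≤ 1 := by rw [hre]; exact (min_le_right _ _).trans (min_le_right _ _)
  refine ⟨min (r / 18) (1 / 100000), r / 2, lt_min (by linarith) (by norm_num), min_le_right _ _,
    by linarith, by linarith, ?_⟩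
  intro H _ _ _ M N ξ ξ' h
  obtain ⟨δ, hδ⟩ : ∃ δ : ℝ, δ = min (r / 18) (1 / 100000) := ⟨_, rfl⟩
  rw [← hδ] at h
  have hδr : 9 * δ ≤ r / 2 := by
    have : δ ≤ r / 18 := by rw [hδ]; exact min_le_left _ _
    linarith
  have hg' := hg H M
  have hG' := hG H M N ξ ξ' δ h
  classical
  obtain ⟨D, hD⟩ : ∃ D : (H →L[ℂ] H) → (H →L[ℂ] H) → ℝ, ∀ u v a b : H →L[ℂ] H, u ∈ M → v ∈ N →
      Un u → Un v → ‖u - v‖ ≤ r → Gd M N γ r u v a b → D u v = vl ξ ξ' u v a b := by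
    refine ⟨fun u v => if hx : ∃ p : (H →L[ℂ] H) × (H →L[ℂ] H), Gd M N γ r u v p.1 p.2 then
      vl ξ ξ' u v hx.choose.1 hx.choose.2 else 0, ?_⟩
    intro u v a b hu hv Uu Uv huv hab
    have hx : ∃ p : (H →L[ℂ] H) × (H →L[ℂ] H), Gd M N γ r u v p.1 p.2 := ⟨(a, b), hab⟩
    show (if hx : ∃ p : (H →L[ℂ] H) × (H →L[ℂ] H), Gd M N γ r u v p.1 p.2 then
      vl ξ ξ' u v hx.choose.1 hx.choose.2 else 0) = _
    rw [dif_pos hx]
    exact vl_uniq h (by linarith) (by linarith) (by linarith) hγ1 hg' hG' hu hv Uu Uv huv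
      hx.choose_spec hab
  refine ⟨D, ?_, ?_, ?_⟩
  · intro u₁ u₂ v₁ v₂ mu₁ mu₂ mv₁ mv₂ Uu₁ Uu₂ Uv₁ Uv₂ n1 n2
    obtain ⟨a, haM, b, hbN, Ua, Ub, hab, hgap⟩ := exists_pair (r := r / 2) (ρ := r) (γ := γ) h hδr
      (by linarith) hγ1 hg' ![1, u₂, u₁ * u₂, 1] ![1, v₂, v₁ * v₂, 1] (by
        intro i
        fin_cases i
        · exact ⟨one_mem M, Un.one⟩
        · exact ⟨mu₂, Uu₂⟩
        · exact ⟨mul_mem mu₁ mu₂, Uu₁.mul Uu₂⟩
        · exact ⟨one_mem M, Un.one⟩) (by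
        intro i
        fin_cases i
        · exact ⟨one_mem N, Un.one⟩
        · exact ⟨mv₂, Uv₂⟩
        · exact ⟨mul_mem mv₁ mv₂, Uv₁.mul Uv₂⟩
        · exact ⟨one_mem N, Un.one⟩) (by
        intro i
        fin_cases i
        · show ‖(1 : H →L[ℂ] H) - 1‖ ≤ r
          rw [sub_self, norm_zero]
          linarith
        · show ‖u₂ - v₂‖ ≤ r
          linarith
        · show ‖u₁ * u₂ - v₁ * v₂‖ ≤ r
          have := near_mul Uv₁ Uu₂ n1 n2
          linarith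
        · show ‖(1 : H →L[ℂ] H) - 1‖ ≤ r
          rw [sub_self, norm_zero]
          linarith)
    have G0 := hgap 0
    have G1 := hgap 1
    have G2 := hgap 2
    simp only [Matrix.cons_val_zero, Matrix.cons_val_one, Matrix.cons_val, one_mul] at G0 G1 G2
    have n3 := near_mul Uv₁ Uu₂ n1 n2
    have n4 := near_mul Uv₂ Ua n2 hab
    have k1 := hD (u₁ * u₂) (v₁ * v₂) a b (mul_mem mu₁ mu₂) (mul_mem mv₁ mv₂) (Uu₁.mul Uu₂)
      (Uv₁.mul Uv₂) (by linarith) ⟨haM, hbN, Ua, Ub, by linarith, G0.1, G0.2, G2.1, G2.2⟩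
    have k2 := hD u₂ v₂ a b mu₂ mv₂ Uu₂ Uv₂ (by linarith)
      ⟨haM, hbN, Ua, Ub, by linarith, G0.1, G0.2, G1.1, G1.2⟩
    have k3 := hD u₁ v₁ (u₂ * a) (v₂ * b) mu₁ mv₁ Uu₁ Uv₁ (by linarith)
      ⟨mul_mem mu₂ haM, mul_mem mv₂ hbN, Uu₂.mul Ua, Uv₂.mul Ub, by linarith, G1.1, G1.2,
        by rw [← mul_assoc]; exact G2.1, by rw [← mul_assoc]; exact G2.2⟩
    rw [k1, k2, k3]
    unfold vl
    rw [← mul_assoc, ← mul_assoc]
    ring
  · intro u v e hu hv Uu Uv huv heM heN he hue hve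
    obtain ⟨a, b, hab, q1, q2, q3, q4⟩ := exists_corner_pair (r := r) (γ := γ) h (by linarith)
      hγ'0 hγ'2 hγ'1 (by linarith) hu Uu Uv (by linarith) heM heN he hue hve
    rw [hD u v a b hu hv Uu Uv (by linarith) hab]
    unfold vl
    have f1 := Fa_corner h.hN.sum hγ0 he (Uv.mul hab.ub) hab.gvb q4
    have f2 := Fa_corner h.hM.sum hγ0 he (Uu.mul hab.ua) hab.gua q3
    have f3 := Fa_corner h.hN.sum hγ0 he hab.ub hab.gb q2
    have f4 := Fa_corner h.hM.sum hγ0 he hab.ua hab.ga q1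
    rw [abs_le] at *
    constructor <;> linarith [f1.1, f1.2, f2.1, f2.2, f3.1, f3.2, f4.1, f4.2]
  · intro c hcN hcs hc
    have hgn : ∀ w : H →L[ℂ] H, ‖w - 1‖ ≤ 1 → gp γ (-w) := by
      intro w hw
      refine (gp_neg_one.pert (r := 1) (v := -w) ?_).mono (by linarith)
      have : (-1 : H →L[ℂ] H) - -w = w - 1 := by abel
      rw [this]
      exact hw
    have g1 : gp γ (-1 : H →L[ℂ] H) := hgn 1 (by rw [sub_self, norm_zero]; exact zero_le_one)
    have hce := (ex_near hcs).trans hc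
    have g2 : gp γ (-ex c) := hgn (ex c) (by linarith)
    have k := hD 1 (ex c) (-1) (-1) (one_mem M) (ex_mem N hcN) Un.one (ex_un hcs)
      (by rw [norm_sub_rev]; linarith) ⟨neg_mem (one_mem M), neg_mem (one_mem N), Un.neg_one,
        Un.neg_one, by rw [sub_self, norm_zero]; exact hr0.le, g1, g1,
        by rw [one_mul]; exact g1, by rw [mul_neg, mul_one]; exact g2⟩
    rw [k]
    unfold vl
    rw [one_mul, mul_neg, mul_one]
    have F1 : Fa ξ' (-1) = 0 := by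
      unfold Fa
      have := cx_ex (c := (0 : H →L[ℂ] H)) (IsSelfAdjoint.zero _) (by rw [norm_zero]; norm_num)
      rw [ex_zero, smul_zero] at this
      rw [this, tr_zero]
      rfl
    have F2 : Fa ξ' (-ex c) = 1 / 2 * (tr ξ' c).re := by
      unfold Fa
      rw [cx_ex hcs (by linarith)]
      have : (1 / 2 : ℝ) • c = ((1 / 2 : ℝ) : ℂ) • c := (Complex.coe_smul _ _).symm
      rw [this, tr_smul, Complex.re_ofReal_mul]
    rw [F1, F2]
    ring

end Pool.Agent.H256.KS
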