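import Mathlib
import Pool.Graph.R_pool_sql_team_seeded_ab47071d.TH254.CC.Core
import Pool.Graph.R_seed8.H759R2.Kad.Inner

set_option autoImplicit false
set_option linter.unusedSectionVars false

/-! Matrix algebras over a von Neumann algebra `M` on `H`, acting on `H ⊕ ... ⊕ H` (index type `I`).

Hints.  See `Pool/Graph/R_pool_sql_team_seeded_1acbe0a2/Y323/KK/Amp.lean` for the amplification
`x ↦ x ⊕ ... ⊕ x` on `PiLp` and for the use of `H759R2.Kad.inner_bound` (every bounded derivation of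
a C*-algebra into `B(K)` is inner, with a universal constant).
`near_all`: `M' ⊆ N'` nearly with constant `Kc (2 δ)` by applying `inner_bound` to
`D y = x y - y x` on `N` (`x ∈ M'`); then apply it again to
`D t = y (amp t) - (amp t) y` on `N'` (`t ∈ N'`, `y` in the commutant of `amp M'`).
The commutant of `{amp t : t ∈ M'}` is exactly the set of matrices with entries in `M`. -/

open scoped InnerProductSpace ComplexOrder

namespace Pool.Agent.H256.KS

open Pool.Agent.TH254.CC H759R2.Kad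

variable {H : Type} [NormedAddCommGroup H] [InnerProductSpace ℂ H] [CompleteSpace H]
variable {I : Type} [Fintype I] [DecidableEq I]

/-- the Hilbert space direct sum of copies of `H` indexed by `I` -/
abbrev HI (I : Type) [Fintype I] (H : Type) [NormedAddCommGroup H] [InnerProductSpace ℂ H] : Type :=
  PiLp 2 (fun _ : I => H)

/-- the operator of a matrix of operators -/
noncomputable def mat (X : Matrix I I (H →L[ℂ] H)) : HI I H →L[ℂ] HI I H :=
  (PiLp.continuousLinearEquiv 2 ℂ (fun _ : I => H)).symm.toContinuousLinearMap ∘L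
    (ContinuousLinearMap.pi fun i => ∑ j, X i j ∘L
      (ContinuousLinearMap.proj j : (I → H) →L[ℂ] H)) ∘L
    (PiLp.continuousLinearEquiv 2 ℂ (fun _ : I => H)).toContinuousLinearMap

theorem mat_apply (X : Matrix I I (H →L[ℂ] H)) (ζ : HI I H) (i : I) :
    mat X ζ i = ∑ j, X i j (ζ j) := by
  have : mat X ζ i = (∑ j, X i j ∘L
      (ContinuousLinearMap.proj j : (I → H) →L[ℂ] H)) (PiLp.continuousLinearEquiv 2 ℂ (fun _ : I => H) ζ) := rfl
  rw [this, sum_apply]
  rfl

theorem mat_one : mat (1 : Matrix I I (H →L[ℂ] H)) = 1 := by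
  ext ζ i
  rw [mat_apply]
  simp [Matrix.one_apply, ite_apply, apply_ite, Finset.sum_ite_eq]

theorem mat_mul (X Y : Matrix I I (H →L[ℂ] H)) : mat (X * Y) = mat X * mat Y := by
  ext ζ i
  rw [mat_apply]
  show _ = (mat X (mat Y ζ)) i
  rw [mat_apply]
  simp_rw [mat_apply, Matrix.mul_apply, sum_apply, map_sum]
  rw [Finset.sum_comm]
  rfl

theorem mat_add (X Y : Matrix I I (H →L[ℂ] H)) : mat (X + Y) = mat X + mat Y := by
  ext ζ i
  show mat (X + Y) ζ i = mat X ζ i + mat Y ζ i
  rw [mat_apply, mat_apply, mat_apply, ← Finset.sum_add_distrib]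
  rfl

theorem mat_sub (X Y : Matrix I I (H →L[ℂ] H)) : mat (X - Y) = mat X - mat Y := by
  ext ζ i
  show mat (X - Y) ζ i = mat X ζ i - mat Y ζ i
  rw [mat_apply, mat_apply, mat_apply, ← Finset.sum_sub_distrib]
  rfl

theorem mat_smul (c : ℂ) (X : Matrix I I (H →L[ℂ] H)) : mat (c • X) = c • mat X := by
  ext ζ i
  show mat (c • X) ζ i = c • mat X ζ i
  rw [mat_apply, mat_apply, Finset.smul_sum]
  rfl

theorem mat_star (X : Matrix I I (H →L[ℂ] H)) : mat (star X) = star (mat X) := by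
  rw [ContinuousLinearMap.star_eq_adjoint, ContinuousLinearMap.eq_adjoint_iff]
  intro ζ η
  rw [PiLp.inner_apply, PiLp.inner_apply]
  simp_rw [mat_apply, sum_inner, inner_sum]
  rw [Finset.sum_comm]
  refine Finset.sum_congr rfl fun i _ => Finset.sum_congr rfl fun j _ => ?_
  rw [Matrix.star_apply, ContinuousLinearMap.star_eq_adjoint, ContinuousLinearMap.adjoint_inner_left]

theorem mat_single (X : Matrix I I (H →L[ℂ] H)) (i j : I) (v : H) :
    mat X (PiLp.single 2 j v) i = X i j v := by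
  rw [mat_apply, Finset.sum_eq_single j]
  · simp
  · intro b _ hb
    simp [hb]
  · simp

theorem mat_injective : Function.Injective (mat (H := H) (I := I)) := by
  intro X Y h
  ext i j v
  rw [← mat_single X i j v, h, mat_single]

theorem mat_surjective : Function.Surjective (mat (H := H) (I := I)) := by
  intro y
  let S : (j : I) → H →L[ℂ] HI I H := fun j =>
    (PiLp.continuousLinearEquiv 2 ℂ (fun _ : I => H)).symm.toContinuousLinearMap ∘L
      (ContinuousLinearMap.single ℂ (fun _ : I => H) j)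
  let P : (i : I) → HI I H →L[ℂ] H := fun i =>
    (ContinuousLinearMap.proj i : (I → H) →L[ℂ] H) ∘L
      (PiLp.continuousLinearEquiv 2 ℂ (fun _ : I => H)).toContinuousLinearMap
  refine ⟨Matrix.of fun i j => P i ∘L y ∘L S j, ?_⟩
  ext ζ i
  rw [mat_apply]
  have e : ζ = ∑ j, S j (ζ j) := by
    ext k
    have e1 : ∀ j, (S j (ζ j)) k = Pi.single (M := fun _ : I => H) j (ζ j) k := fun j => rfl
    have e2 : (∑ j, S j (ζ j)) k = ∑ j, (S j (ζ j)) k := by
      have := map_sum (P k) (fun j => S j (ζ j)) Finset.univ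
      exact this
    rw [e2]
    simp_rw [e1]
    rw [Finset.sum_pi_single]
    simp
  conv_rhs => rw [e, map_sum]
  have e3 : (∑ j, y (S j (ζ j))) i = ∑ j, (y (S j (ζ j))) i := by
    have := map_sum (P i) (fun j => y (S j (ζ j))) Finset.univ
    exact this
  rw [e3]
  rfl

theorem norm_mat_diagonal (d : I → (H →L[ℂ] H)) (c : ℝ) (hc : 0 ≤ c) (hd : ∀ i, ‖d i‖ ≤ c) :
    ‖mat (Matrix.diagonal d)‖ ≤ c := by
  refine ContinuousLinearMap.opNorm_le_bound _ hc fun ζ => ?_
  have h : ∀ i, mat (Matrix.diagonal d) ζ i = d i (ζ i) := by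
    intro i
    rw [mat_apply, Finset.sum_eq_single i]
    · simp
    · intro b _ hb
      rw [Matrix.diagonal_apply_ne _ hb.symm]; rfl
    · simp
  rw [PiLp.norm_eq_of_L2, PiLp.norm_eq_of_L2]
  have : c * √(∑ i, ‖ζ i‖ ^ 2) = √(∑ i, (c * ‖ζ i‖) ^ 2) := by
    simp_rw [mul_pow]
    rw [← Finset.mul_sum, Real.sqrt_mul (by positivity), Real.sqrt_sq hc]
  rw [this]
  refine Real.sqrt_le_sqrt (Finset.sum_le_sum fun i _ => ?_)
  rw [h]
  gcongr
  exact (ContinuousLinearMap.le_opNorm _ _).trans (by gcongr; exact hd i)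

/-- matrices with entries in `M` -/
noncomputable def matV (I : Type) [Fintype I] [DecidableEq I] (M : VonNeumannAlgebra H) :
    VonNeumannAlgebra (HI I H) :=
  cenV {y | ∃ t ∈ M.commutant, y = mat (Matrix.diagonal fun _ : I => t)}

theorem mem_matV (M : VonNeumannAlgebra H) (X : Matrix I I (H →L[ℂ] H)) :
    mat X ∈ matV I M ↔ ∀ i j, X i j ∈ M := by
  have hS : ∀ a ∈ {y : HI I H →L[ℂ] HI I H | ∃ t ∈ M.commutant,
      y = mat (Matrix.diagonal fun _ : I => t)}, star a ∈ {y : HI I H →L[ℂ] HI I H |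
      ∃ t ∈ M.commutant, y = mat (Matrix.diagonal fun _ : I => t)} := by
    rintro _ ⟨t, ht, rfl⟩
    refine ⟨star t, star_mem ht, ?_⟩
    rw [← mat_star, Matrix.star_eq_conjTranspose, Matrix.diagonal_conjTranspose]
    rfl
  unfold matV
  rw [mem_cenV hS]
  constructor
  · intro h i j
    refine mem_of_comm_commutant M fun t ht => ?_
    have h1 := h _ ⟨t, ht, rfl⟩
    rw [← mat_mul, ← mat_mul] at h1
    have h2 := congrFun (congrFun (mat_injective h1) i) j
    rwa [Matrix.diagonal_mul, Matrix.mul_diagonal] at h2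
  · rintro h _ ⟨t, ht, rfl⟩
    rw [← mat_mul, ← mat_mul]
    congr 1
    ext1 i j
    rw [Matrix.diagonal_mul, Matrix.mul_diagonal]
    exact (VonNeumannAlgebra.mem_commutant_iff.mp ht _ (h i j)).symm

theorem tr_single (ξ : H) (x : H →L[ℂ] H) :
    tr (fun k => if k = 0 then ξ else 0) x = ⟪ξ, x ξ⟫_ℂ := by
  unfold Pool.Agent.TH254.CC.tr
  rw [tsum_eq_single 0]
  · simp
  · intro k hk
    simp [hk]

/-- the trace on matrices -/
theorem matV_Fn (I : Type) [Fintype I] [DecidableEq I] [Nonempty I] (ξ : H) :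
    ∃ ζ : ℕ → HI I H, (∀ X : Matrix I I (H →L[ℂ] H),
      tr ζ (mat X) = (Fintype.card I : ℂ)⁻¹ * ∑ i, ⟪ξ, X i i ξ⟫_ℂ) ∧
      ∀ M : VonNeumannAlgebra H, Fn M (fun k => if k = 0 then ξ else 0) → Fn (matV I M) ζ := by
  classical
  set n := Fintype.card I with hn
  have hn0 : 0 < n := Fintype.card_pos
  let e : I ≃ Fin n := Fintype.equivFin I
  let c : ℝ := (√(n : ℝ))⁻¹
  have hc : ((c : ℂ)) * (c : ℂ) = (n : ℂ)⁻¹ := by
    rw [← Complex.ofReal_mul, ← mul_inv, Real.mul_self_sqrt (by positivity)]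
    push_cast
    rfl
  let ζ : ℕ → HI I H := fun k => if h : k < n then (c : ℂ) • PiLp.single 2 (e.symm ⟨k, h⟩) ξ else 0
  have hζ : ∀ i : I, ζ (e i) = (c : ℂ) • PiLp.single 2 i ξ := by
    intro i
    have : ζ (e i) = (c : ℂ) • PiLp.single 2 (e.symm ⟨e i, (e i).2⟩) ξ := dif_pos (e i).2
    rw [this]
    congr
    simp
  have hζ0 : ∀ k, n ≤ k → ζ k = 0 := fun k hk => dif_neg (by omega)
  have key : ∀ X : Matrix I I (H →L[ℂ] H),
      tr ζ (mat X) = (n : ℂ)⁻¹ * ∑ i, ⟪ξ, X i i ξ⟫_ℂ := by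
    intro X
    unfold Pool.Agent.TH254.CC.tr
    rw [tsum_eq_sum (s := Finset.range n) (by
      intro k hk
      rw [hζ0 k (by simpa using hk)]
      simp)]
    rw [Finset.sum_range, ← e.sum_comp]
    rw [Finset.mul_sum]
    refine Finset.sum_congr rfl fun i _ => ?_
    rw [hζ i, map_smul, inner_smul_left, inner_smul_right, Complex.conj_ofReal, ← mul_assoc, hc]
    congr 1
    rw [PiLp.inner_apply, Finset.sum_eq_single i]
    · rw [mat_single]
      simp
    · intro j _ hj
      simp [hj]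
    · simp
  refine ⟨ζ, key, fun M hM => ?_⟩
  have hsum : Summable fun k => ‖ζ k‖ ^ 2 := by
    refine summable_of_ne_finset_zero (s := Finset.range n) fun k hk => ?_
    rw [hζ0 k (by simpa using hk)]
    simp
  have hmem : ∀ z ∈ matV I M, ∃ Z : Matrix I I (H →L[ℂ] H), z = mat Z ∧ ∀ i j, Z i j ∈ M := by
    intro z hz
    obtain ⟨Z, rfl⟩ := mat_surjective z
    exact ⟨Z, rfl, (mem_matV M Z).mp hz⟩
  refine ⟨?_, ?_, hsum, ?_, ?_, ?_⟩
  · intro z hz hcom
    obtain ⟨Z, rfl, hZ⟩ := hmem z hz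
    have hcom' : ∀ A : Matrix I I (H →L[ℂ] H), (∀ i j, A i j ∈ M) → Z * A = A * Z := by
      intro A hA
      have := hcom _ ((mem_matV M A).mpr hA)
      rw [← mat_mul, ← mat_mul] at this
      exact mat_injective this
    have hsingle : ∀ i j : I, ∀ a ∈ M, Z * Matrix.single i j a = Matrix.single i j a * Z := by
      intro i j a ha
      refine hcom' _ fun k l => ?_
      rw [Matrix.single_apply]
      split_ifs
      · exact ha
      · exact zero_mem M
    obtain ⟨i₀⟩ := (inferInstance : Nonempty I)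
    obtain ⟨d, hd⟩ := hM.fac (Z i₀ i₀) (hZ i₀ i₀) (by
      intro a ha
      have h1 := congrFun (congrFun (hsingle i₀ i₀ a ha) i₀) i₀
      rwa [Matrix.mul_single_apply_same, Matrix.single_mul_apply_same] at h1)
    refine ⟨d, ?_⟩
    have hZd : Z = d • (1 : Matrix I I (H →L[ℂ] H)) := by
      ext1 i j
      have h1 := congrFun (congrFun (hsingle j i₀ 1 (one_mem M)) i) i₀
      rw [Matrix.mul_single_apply_same, mul_one] at h1
      rw [h1, Matrix.smul_apply]
      by_cases hij : j = i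
      · subst hij
        rw [Matrix.single_mul_apply_same, one_mul, hd, Matrix.one_apply_eq]
      · rw [Matrix.single_mul_apply_of_ne _ _ _ _ _ (Ne.symm hij), Matrix.one_apply_ne (Ne.symm hij), smul_zero]
    rw [hZd, mat_smul, mat_one]
  · intro hfin
    refine hM.inf ?_
    let f : M.toStarSubalgebra →ₗ[ℂ] (matV I M).toStarSubalgebra :=
      { toFun := fun a => ⟨mat (Matrix.diagonal fun _ => (a : H →L[ℂ] H)), (mem_matV M _).mpr (by
          intro i j
          rw [Matrix.diagonal_apply]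
          split_ifs
          · exact a.2
          · exact zero_mem M)⟩
        map_add' := fun a b => by
          refine Subtype.ext ?_
          show mat _ = mat _ + mat _
          rw [← mat_add, Matrix.diagonal_add]
          rfl
        map_smul' := fun r a => by
          refine Subtype.ext ?_
          show mat _ = r • mat _
          rw [← mat_smul, ← Matrix.diagonal_smul]
          rfl }
    refine FiniteDimensional.of_injective f ?_
    intro a b hab
    have h1 : mat (Matrix.diagonal fun _ : I => (a : H →L[ℂ] H)) =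
        mat (Matrix.diagonal fun _ : I => (b : H →L[ℂ] H)) := congrArg Subtype.val hab
    obtain ⟨i₀⟩ := (inferInstance : Nonempty I)
    have h2 := congrFun (congrFun (mat_injective h1) i₀) i₀
    rw [Matrix.diagonal_apply_eq, Matrix.diagonal_apply_eq] at h2
    exact Subtype.ext h2
  · rw [← mat_one, key]
    have h1 := hM.one
    rw [tr_single] at h1
    simp only [Matrix.one_apply_eq, h1, Finset.sum_const, Finset.card_univ, ← hn]
    simp only [nsmul_eq_mul, mul_one]
    exact inv_mul_cancel₀ (by exact_mod_cast hn0.ne')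
  · intro a ha b hb
    obtain ⟨A, rfl, hA⟩ := hmem a ha
    obtain ⟨B, rfl, hB⟩ := hmem b hb
    rw [← mat_mul, ← mat_mul, key, key]
    congr 1
    have hcm : ∀ x ∈ M, ∀ y ∈ M, ⟪ξ, (x * y) ξ⟫_ℂ = ⟪ξ, (y * x) ξ⟫_ℂ := by
      intro x hx y hy
      have := hM.comm x hx y hy
      rwa [tr_single, tr_single] at this
    simp_rw [Matrix.mul_apply, sum_apply, inner_sum]
    rw [Finset.sum_comm]
    refine Finset.sum_congr rfl fun i _ => Finset.sum_congr rfl fun j _ => ?_
    exact hcm _ (hA _ _) _ (hB _ _)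
  · intro a ha h0
    obtain ⟨A, rfl, hA⟩ := hmem a ha
    rw [← mat_star, ← mat_mul, key] at h0
    have hpos : ∀ x : H →L[ℂ] H, 0 ≤ ⟪ξ, (star x * x) ξ⟫_ℂ := by
      intro x
      have := tr_sq_nonneg (ξ := fun k => if k = 0 then ξ else 0) x
      rwa [tr_single] at this
    have hn1 : ((n : ℂ)⁻¹) ≠ 0 := inv_ne_zero (by exact_mod_cast hn0.ne')
    have h1 : ∑ i, ⟪ξ, (star A * A) i i ξ⟫_ℂ = 0 := by
      rcases mul_eq_zero.mp h0 with h | h
      · exact absurd h hn1
      · exact h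
    have h2 : ∑ i, ∑ j, ⟪ξ, (star (A j i) * A j i) ξ⟫_ℂ = 0 := by
      rw [← h1]
      refine Finset.sum_congr rfl fun i _ => ?_
      rw [Matrix.mul_apply, sum_apply, inner_sum]
      rfl
    have h3 : ∀ i j, A j i = 0 := by
      intro i j
      have a1 := (Finset.sum_eq_zero_iff_of_nonneg (fun i _ => Finset.sum_nonneg
        fun j _ => hpos (A j i))).mp h2 i (Finset.mem_univ i)
      have a2 := (Finset.sum_eq_zero_iff_of_nonneg (fun j _ => hpos (A j i))).mp a1 j
        (Finset.mem_univ j)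
      refine hM.faithful _ (hA j i) ?_
      rw [tr_single]
      exact a2
    have h4 : A = 0 := by
      ext1 i j
      exact h3 j i
    rw [h4]
    have := mat_sub (0 : Matrix I I (H →L[ℂ] H)) 0
    rwa [sub_self, sub_self] at this

/-- the constant of the derivation theorem -/
noncomputable def KcM : ℝ := 5184 * 6 ^ 25 * 8 ^ 77

/-- perturbing an operator that nearly commutes with the image of a von Neumann algebra -/
theorem pert {H K : Type} [NormedAddCommGroup H] [InnerProductSpace ℂ H] [CompleteSpace H]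
    [NormedAddCommGroup K] [InnerProductSpace ℂ K] [CompleteSpace K] (N : VonNeumannAlgebra H)
    (ρ : (H →L[ℂ] H) →⋆ₐ[ℂ] (K →L[ℂ] K)) (X : K →L[ℂ] K) (c : ℝ) (hc : 0 ≤ c)
    (h : ∀ y ∈ N, ‖X * ρ y - ρ y * X‖ ≤ c * ‖y‖) :
    ∃ Y : K →L[ℂ] K, (∀ y ∈ N, Y * ρ y = ρ y * Y) ∧ ‖X - Y‖ ≤ KcM * c := by
  let _ : CStarAlgebra N.toStarSubalgebra :=
    StarSubalgebra.cstarAlgebra (h_closed := by
      have h : ((N.toStarSubalgebra : StarSubalgebra ℂ (H →L[ℂ] H)) : Set (H →L[ℂ] H)) =
          Set.centralizer (Set.centralizer (N : Set (H →L[ℂ] H))) :=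
        (VonNeumannAlgebra.centralizer_centralizer N).symm
      rw [h]
      exact Set.isClosed_centralizer _) N.toStarSubalgebra
  let π : N.toStarSubalgebra →⋆ₙₐ[ℂ] (K →L[ℂ] K) :=
    (ρ.comp N.toStarSubalgebra.subtype : N.toStarSubalgebra →⋆ₐ[ℂ] (K →L[ℂ] K))
  have hπ : ∀ x : N.toStarSubalgebra, π x = ρ (x : H →L[ℂ] H) := fun x => rfl
  let D : N.toStarSubalgebra →ₗ[ℂ] (K →L[ℂ] K) :=
    { toFun := fun x => X * π x - π x * X
      map_add' := fun x y => by
        rw [map_add, mul_add, add_mul]; abel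
      map_smul' := fun r x => by
        rw [map_smul, mul_smul_comm, smul_mul_assoc, smul_sub]; rfl }
  have hb : ∀ x : N.toStarSubalgebra, ‖D x‖ ≤ c * ‖x‖ := fun x => h x x.2
  let δ : N.toStarSubalgebra →L[ℂ] (K →L[ℂ] K) := D.mkContinuous c hb
  have hδ : ∀ a b : N.toStarSubalgebra, δ (a * b) = π a * δ b + δ a * π b := by
    intro a b
    show X * π (a * b) - π (a * b) * X = π a * (X * π b - π b * X) + (X * π a - π a * X) * π b
    rw [map_mul]
    simp only [mul_sub, sub_mul, mul_assoc]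
    abel
  obtain ⟨T, hT, hT2⟩ := inner_bound N.toStarSubalgebra K π δ hδ
  refine ⟨X + T, ?_, ?_⟩
  · intro x hx
    have h1 : X * ρ x - ρ x * X = ρ x * T - T * ρ x := hT2 ⟨x, hx⟩
    rw [add_mul, mul_add]
    rw [sub_eq_sub_iff_add_eq_add] at h1
    rw [h1]; abel
  · rw [sub_add_cancel_left, norm_neg]
    refine hT.trans ?_
    refine mul_le_mul_of_nonneg_left ?_ (by positivity)
    exact LinearMap.mkContinuous_norm_le _ hc _

/-- the diagonal amplification -/
noncomputable def ampS (I : Type) [Fintype I] [DecidableEq I] (H : Type) [NormedAddCommGroup H]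
    [InnerProductSpace ℂ H] [CompleteSpace H] :
    (H →L[ℂ] H) →⋆ₐ[ℂ] (HI I H →L[ℂ] HI I H) where
  toFun t := mat (Matrix.diagonal fun _ : I => t)
  map_one' := by
    rw [← mat_one]
    rfl
  map_mul' x y := by
    rw [← mat_mul, Matrix.diagonal_mul_diagonal]
  map_zero' := by
    have e : (Matrix.diagonal fun _ : I => (0 : H →L[ℂ] H)) = 0 := Matrix.diagonal_zero
    have := mat_sub (0 : Matrix I I (H →L[ℂ] H)) 0
    rw [e]
    rwa [sub_self, sub_self] at this
  map_add' x y := by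
    rw [← mat_add, Matrix.diagonal_add]
  commutes' r := by
    rw [Algebra.algebraMap_eq_smul_one, Algebra.algebraMap_eq_smul_one, ← mat_one, ← mat_smul]
    congr 1
    ext1 i j
    by_cases hij : i = j
    · subst hij
      simp
    · simp [hij]
  map_star' x := by
    rw [← mat_star, Matrix.star_eq_conjTranspose, Matrix.diagonal_conjTranspose]
    rfl

theorem ampS_apply (t : H →L[ℂ] H) : ampS I H t = mat (Matrix.diagonal fun _ : I => t) := rfl

theorem norm_ampS (t : H →L[ℂ] H) : ‖ampS I H t‖ ≤ ‖t‖ :=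
  norm_mat_diagonal _ _ (norm_nonneg _) fun _ => le_rfl

/-- a commutator estimate -/
theorem comm_est {K : Type} [NormedAddCommGroup K] [InnerProductSpace ℂ K] [CompleteSpace K]
    {X a b : K →L[ℂ] K} {ε : ℝ} (h : X * b = b * X) (hab : ‖a - b‖ ≤ ε) :
    ‖X * a - a * X‖ ≤ 2 * ‖X‖ * ε := by
  have e : X * a - a * X = X * (a - b) - (a - b) * X := by
    rw [mul_sub, sub_mul, h]; abel
  rw [e]
  have h1 : ‖X * (a - b)‖ ≤ ‖X‖ * ε := (norm_mul_le _ _).trans (by gcongr)
  have h2 : ‖(a - b) * X‖ ≤ ε * ‖X‖ := (norm_mul_le _ _).trans (by gcongr)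
  have := norm_sub_le (X * (a - b)) ((a - b) * X)
  linarith

theorem near_comm (M N : VonNeumannAlgebra H) (δ : ℝ) (hδ : 0 ≤ δ) (h : Near N M δ) :
    ∀ x ∈ M.commutant, ∃ t ∈ N.commutant, ‖x - t‖ ≤ KcM * (2 * ‖x‖ * δ) := by
  intro x hx
  obtain ⟨Y, hY, hn⟩ := pert N (StarAlgHom.id ℂ (H →L[ℂ] H)) x (2 * ‖x‖ * δ) (by positivity) (by
    intro y hy
    obtain ⟨m, hm, hym⟩ := h y hy
    show ‖x * y - y * x‖ ≤ _
    refine (comm_est (VonNeumannAlgebra.mem_commutant_iff.mp hx m hm).symm hym).trans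
      (le_of_eq ?_)
    ring)
  exact ⟨Y, VonNeumannAlgebra.mem_commutant_iff.mpr fun y hy => (hY y hy).symm, hn⟩

/-- matrix algebras over near algebras are near, uniformly in the size -/
theorem near_all : ∃ K : ℝ, 1 ≤ K ∧ ∀ (H : Type) [NormedAddCommGroup H] [InnerProductSpace ℂ H]
    [CompleteSpace H] (M N : VonNeumannAlgebra H) (δ : ℝ), 0 ≤ δ → Near M N δ → Near N M δ →
    (∀ x ∈ M.commutant, ∃ t ∈ N.commutant, ‖x - t‖ ≤ K * δ * ‖x‖) ∧
    ∀ (I : Type) [Fintype I] [DecidableEq I], Near (matV I M) (matV I N) (K * δ) := by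
  have hK1 : (1 : ℝ) ≤ KcM := by unfold KcM; norm_num
  refine ⟨4 * KcM ^ 2, by nlinarith, ?_⟩
  intro H _ _ _ M N δ hδ hMN hNM
  constructor
  · intro x hx
    obtain ⟨t, ht, h1⟩ := near_comm M N δ hδ hNM x hx
    refine ⟨t, ht, h1.trans ?_⟩
    have h2 : 0 ≤ δ * ‖x‖ := by positivity
    have h3 : KcM * (2 * ‖x‖ * δ) ≤ 2 * KcM * KcM * (δ * ‖x‖) := by
      have : KcM * (2 * ‖x‖ * δ) = 2 * KcM * 1 * (δ * ‖x‖) := by ring
      rw [this]
      gcongr
    have h4 : 4 * KcM ^ 2 * δ * ‖x‖ = 2 * KcM * KcM * (δ * ‖x‖) + 2 * KcM * KcM * (δ * ‖x‖) := by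
      ring
    have h5 : 0 ≤ 2 * KcM * KcM * (δ * ‖x‖) := by positivity
    linarith
  · intro I _ _ z hz
    obtain ⟨Z, rfl⟩ := mat_surjective z
    have hZ := (mem_matV M Z).mp hz
    have hcomm : ∀ s ∈ M.commutant, mat Z * ampS I H s = ampS I H s * mat Z := by
      intro s hs
      rw [ampS_apply, ← mat_mul, ← mat_mul]
      congr 1
      ext1 i j
      rw [Matrix.diagonal_mul, Matrix.mul_diagonal]
      exact VonNeumannAlgebra.mem_commutant_iff.mp hs _ (hZ i j)
    obtain ⟨Y, hY, hn⟩ := pert N.commutant (ampS I H) (mat Z)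
      (2 * ‖mat Z‖ * (KcM * (2 * δ))) (by positivity) (by
      intro t ht
      obtain ⟨s, hs, h1⟩ := near_comm N M δ hδ hMN t ht
      refine (comm_est (hcomm s hs) (b := ampS I H s) (ε := KcM * (2 * δ) * ‖t‖) ?_).trans
        (le_of_eq (by ring))
      rw [← map_sub]
      exact (norm_ampS _).trans (h1.trans (le_of_eq (by ring))))
    obtain ⟨W, rfl⟩ := mat_surjective Y
    refine ⟨mat W, (mem_matV N W).mpr fun i j => ?_, ?_⟩
    · refine mem_of_comm_commutant N fun t ht => ?_
      have h1 := hY t ht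
      rw [ampS_apply, ← mat_mul, ← mat_mul] at h1
      have h2 := congrFun (congrFun (mat_injective h1) i) j
      rw [Matrix.diagonal_mul, Matrix.mul_diagonal] at h2
      exact h2.symm
    · refine hn.trans (le_of_eq (by ring))

end Pool.Agent.H256.KS
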