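import Mathlib
import Pool.Agent.H256.KS.Det4
import Pool.Agent.H256.KS.Mat
import Pool.Agent.H256.KS.PosD

set_option autoImplicit false
set_option linter.unusedSectionVars false

/-! The relative determinant for matrices. -/

open Filter Topology Set
open scoped InnerProductSpace

namespace Pool.Agent.H256.KS

open Pool.Agent.TH254.CC H759R2.Kad

variable {H : Type} [NormedAddCommGroup H] [InnerProductSpace ℂ H] [CompleteSpace H]
variable {I : Type} [Fintype I] [DecidableEq I]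

/-- unitary matrices -/
def Um (X : Matrix I I (H →L[ℂ] H)) : Prop := star X * X = 1 ∧ X * star X = 1

theorem Um.mul {X Y : Matrix I I (H →L[ℂ] H)} (hX : Um X) (hY : Um Y) : Um (X * Y) := by
  constructor
  · rw [star_mul]
    calc star Y * star X * (X * Y) = star Y * (star X * X) * Y := by noncomm_ring
      _ = 1 := by rw [hX.1, mul_one, hY.1]
  · rw [star_mul]
    calc X * Y * (star Y * star X) = X * (Y * star Y) * star X := by noncomm_ring
      _ = 1 := by rw [hY.2, mul_one, hX.2]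

theorem Um.one : Um (1 : Matrix I I (H →L[ℂ] H)) := by
  constructor <;> rw [star_one, one_mul]

theorem Um.un {X : Matrix I I (H →L[ℂ] H)} (hX : Um X) : Un (mat X) := by
  constructor
  · rw [← mat_star, ← mat_mul, hX.1, mat_one]
  · rw [← mat_star, ← mat_mul, hX.2, mat_one]

/-- near pairs of unitary matrices -/
structure Nr (M N : VonNeumannAlgebra H) (κ : ℝ) (X Y : Matrix I I (H →L[ℂ] H)) : Prop where
  mX : ∀ i j, X i j ∈ M
  mY : ∀ i j, Y i j ∈ N
  uX : Um X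
  uY : Um Y
  near : ‖mat (X - Y)‖ ≤ κ

theorem mem_mat_mul {M : VonNeumannAlgebra H} {X Y : Matrix I I (H →L[ℂ] H)}
    (hX : ∀ i j, X i j ∈ M) (hY : ∀ i j, Y i j ∈ M) : ∀ i j, (X * Y) i j ∈ M := fun i j => by
  rw [Matrix.mul_apply]
  exact sum_mem fun k _ => mul_mem (hX i k) (hY k j)

theorem mem_mat_one {M : VonNeumannAlgebra H} : ∀ i j : I, (1 : Matrix I I (H →L[ℂ] H)) i j ∈ M := by
  intro i j
  rw [Matrix.one_apply]
  split_ifs
  · exact one_mem M
  · exact zero_mem M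

theorem Nr.mul {M N : VonNeumannAlgebra H} {κ κ' : ℝ} {X Y X' Y' : Matrix I I (H →L[ℂ] H)}
    (h : Nr M N κ X Y) (h' : Nr M N κ' X' Y') : Nr M N (κ + κ') (X * X') (Y * Y') := by
  refine ⟨mem_mat_mul h.mX h'.mX, mem_mat_mul h.mY h'.mY, h.uX.mul h'.uX, h.uY.mul h'.uY, ?_⟩
  have h1 := h.near
  have h2 := h'.near
  rw [mat_sub] at h1 h2 ⊢
  rw [mat_mul, mat_mul]
  exact near_mul h.uY.un h'.uX.un h1 h2

theorem Nr.mono {M N : VonNeumannAlgebra H} {κ κ' : ℝ} {X Y : Matrix I I (H →L[ℂ] H)}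
    (h : Nr M N κ X Y) (h' : κ ≤ κ') : Nr M N κ' X Y := ⟨h.mX, h.mY, h.uX, h.uY, h.near.trans h'⟩

theorem Nr.self {M N : VonNeumannAlgebra H} {κ : ℝ} (hκ : 0 ≤ κ) {X : Matrix I I (H →L[ℂ] H)}
    (hM : ∀ i j, X i j ∈ M) (hN : ∀ i j, X i j ∈ N) (hX : Um X) : Nr M N κ X X :=
  ⟨hM, hN, hX, hX, by rw [mat_sub, sub_self, norm_zero]; exact hκ⟩

/-- the relative determinant -/
structure Dd (M N A : VonNeumannAlgebra H) (ξ : H) (I : Type) [Fintype I] [DecidableEq I] (κ : ℝ)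
    (D : Matrix I I (H →L[ℂ] H) → Matrix I I (H →L[ℂ] H) → ℝ) : Prop where
  mul : ∀ X Y X' Y', Nr M N κ X Y → Nr M N κ X' Y' → D (X * X') (Y * Y') = D X Y + D X' Y'
  bd : ∀ X Y (e : I → (H →L[ℂ] H)), Nr M N κ X Y → (∀ i, e i ∈ A ∧ IsPr (e i)) →
    X * Matrix.diagonal (fun i => 1 - e i) = Matrix.diagonal (fun i => 1 - e i) →
    Y * Matrix.diagonal (fun i => 1 - e i) = Matrix.diagonal (fun i => 1 - e i) →
    |D X Y| ≤ 2 * Real.pi * ∑ i, (⟪ξ, e i ξ⟫_ℂ).re
  exx : ∀ c : I → (H →L[ℂ] H), (∀ i, c i ∈ A ∧ IsSelfAdjoint (c i) ∧ ‖c i‖ ≤ κ) →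
    D 1 (Matrix.diagonal fun i => ex (c i)) = 1 / 2 * ∑ i, (⟪ξ, c i ξ⟫_ℂ).re

theorem mat_diag_zero : mat (Matrix.diagonal fun _ : I => (0 : H →L[ℂ] H)) = 0 := by
  have h : Matrix.diagonal (fun _ : I => (0 : H →L[ℂ] H)) = 0 := Matrix.diagonal_zero
  rw [h]
  have := mat_sub (0 : Matrix I I (H →L[ℂ] H)) 0
  rw [sub_self, sub_self] at this
  exact this

/-- diagonal matrices as a ring homomorphism -/
noncomputable def dgh (H : Type) [NormedAddCommGroup H] [InnerProductSpace ℂ H] [CompleteSpace H]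
    (I : Type) [Fintype I] [DecidableEq I] :
    (I → (H →L[ℂ] H)) →+* (HI I H →L[ℂ] HI I H) where
  toFun d := mat (Matrix.diagonal d)
  map_one' := by
    have h : Matrix.diagonal (1 : I → (H →L[ℂ] H)) = 1 := Matrix.diagonal_one
    rw [h, mat_one]
  map_zero' := mat_diag_zero
  map_mul' a b := by
    have h : Matrix.diagonal (a * b) = Matrix.diagonal a * Matrix.diagonal b :=
      (Matrix.diagonal_mul_diagonal a b).symm
    rw [h, mat_mul]
  map_add' a b := by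
    have h : Matrix.diagonal (a + b) = Matrix.diagonal a + Matrix.diagonal b :=
      (Matrix.diagonal_add a b).symm
    rw [h, mat_add]

theorem dgh_cont : Continuous (dgh H I) := by
  refine AddMonoidHomClass.continuous_of_bound (dgh H I) 1 fun d => ?_
  rw [one_mul]
  exact norm_mat_diagonal d ‖d‖ (norm_nonneg _) fun i => norm_le_pi_norm d i

theorem ex_diag (c : I → (H →L[ℂ] H)) :
    mat (Matrix.diagonal fun i => ex (c i)) = ex (mat (Matrix.diagonal c)) := by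
  let +nondep : NormedAlgebra ℚ (H →L[ℂ] H) := .restrictScalars ℚ ℂ (H →L[ℂ] H)
  let +nondep : NormedAlgebra ℚ (HI I H →L[ℂ] HI I H) :=
    .restrictScalars ℚ ℂ (HI I H →L[ℂ] HI I H)
  have h1 : (fun i => ex (c i)) = NormedSpace.exp (fun i => Complex.I • c i) := by
    rw [Pi.exp_def]
    rfl
  have h2 : ex (mat (Matrix.diagonal c)) =
      NormedSpace.exp (dgh H I (fun i => Complex.I • c i)) := by
    unfold ex
    congr 1
    show Complex.I • mat (Matrix.diagonal c) = mat (Matrix.diagonal fun i => Complex.I • c i)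
    rw [← mat_smul]
    congr 1
    exact (Matrix.diagonal_smul Complex.I c).symm
  rw [h1, h2]
  exact NormedSpace.map_exp (dgh H I) dgh_cont _

theorem near_mono {M N : VonNeumannAlgebra H} {δ δ' : ℝ} (h : Near M N δ) (h' : δ ≤ δ') :
    Near M N δ' := fun x hx => by
  obtain ⟨y, hy, hxy⟩ := h x hx
  exact ⟨y, hy, hxy.trans (mul_le_mul_of_nonneg_right h' (norm_nonneg _))⟩

theorem mat_pr {e : I → (H →L[ℂ] H)} (he : ∀ i, IsPr (e i)) : IsPr (mat (Matrix.diagonal e)) := by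
  constructor
  · rw [← mat_star, Matrix.star_eq_conjTranspose, Matrix.diagonal_conjTranspose]
    congr 2
    exact funext fun i => (he i).1
  · rw [← mat_mul, Matrix.diagonal_mul_diagonal]
    congr 2
    exact funext fun i => (he i).2

theorem diag_mem {A : VonNeumannAlgebra H} {e : I → (H →L[ℂ] H)} (he : ∀ i, e i ∈ A) :
    ∀ i j, Matrix.diagonal e i j ∈ A := by
  intro i j
  rw [Matrix.diagonal_apply]
  split_ifs
  · exact he i
  · exact zero_mem A

theorem exists_Dd : ∃ δ₁ κ : ℝ, 0 < δ₁ ∧ δ₁ ≤ 1 / 100000 ∧ 0 < κ ∧ κ ≤ 1 ∧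
    ∀ (H : Type) [NormedAddCommGroup H] [InnerProductSpace ℂ H] [CompleteSpace H]
    (M N A : VonNeumannAlgebra H) (ξ : H) (δ : ℝ), δ ≤ δ₁ → Pos M N ξ A δ →
    ∀ (I : Type) [Fintype I] [DecidableEq I] [Nonempty I], ∃ D, Dd M N A ξ I κ D := by
  obtain ⟨δ₀, κ, hδ₀, hδ₁, hκ, hκ1, hdet⟩ := exists_det
  obtain ⟨K, hK, hnear⟩ := near_all
  have hK0 : 0 < K := by linarith
  refine ⟨δ₀ / K, κ, by positivity, ?_, hκ, hκ1, ?_⟩
  · rw [div_le_iff₀ hK0]
    nlinarith
  intro H _ _ _ M N A ξ δ hδ h I _ _ _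
  obtain ⟨ζ, hζ, hζF⟩ := matV_Fn I ξ
  have hN1 := (hnear H M N δ h.d0.le h.MN h.NM).2 I
  have hN2 := (hnear H N M δ h.d0.le h.NM h.MN).2 I
  have hKδ : K * δ ≤ δ₀ := by
    rw [le_div_iff₀ hK0] at hδ
    linarith
  have hcl : Cl (matV I M) (matV I N) ζ ζ δ₀ := ⟨hζF M h.hM, hζF N h.hN, hδ₀, hδ₁,
    near_mono hN1 hKδ, near_mono hN2 hKδ⟩
  obtain ⟨D, h1, h2, h3⟩ := hdet (HI I H) (matV I M) (matV I N) ζ ζ hcl
  have hI : (0 : ℝ) < Fintype.card I := by exact_mod_cast Fintype.card_pos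
  have htr : ∀ e : I → (H →L[ℂ] H), (tr ζ (mat (Matrix.diagonal e))).re =
      (Fintype.card I : ℝ)⁻¹ * ∑ i, (⟪ξ, e i ξ⟫_ℂ).re := by
    intro e
    rw [hζ]
    have : ((Fintype.card I : ℂ))⁻¹ = (((Fintype.card I : ℝ)⁻¹ : ℝ) : ℂ) := by push_cast; rfl
    rw [this, Complex.re_ofReal_mul, Complex.re_sum]
    simp only [Matrix.diagonal_apply_eq]
  refine ⟨fun X Y => Fintype.card I * D (mat X) (mat Y), ?_, ?_, ?_⟩
  · intro X Y X' Y' n n'
    have m1 := n.near
    have m2 := n'.near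
    rw [mat_sub] at m1 m2
    show _ * D (mat (X * X')) (mat (Y * Y')) = _
    rw [mat_mul, mat_mul, h1 _ _ _ _ ((mem_matV M X).mpr n.mX) ((mem_matV M X').mpr n'.mX)
      ((mem_matV N Y).mpr n.mY) ((mem_matV N Y').mpr n'.mY) n.uX.un n'.uX.un n.uY.un n'.uY.un m1 m2]
    ring
  · intro X Y e n he hX hY
    have m1 := n.near
    rw [mat_sub] at m1
    have hE : mat (Matrix.diagonal fun i => 1 - e i) = 1 - mat (Matrix.diagonal e) := by
      rw [← mat_one, ← mat_sub]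
      congr 1
      rw [← Matrix.diagonal_one, Matrix.diagonal_sub]
    have k := h2 (mat X) (mat Y) (mat (Matrix.diagonal e)) ((mem_matV M X).mpr n.mX)
      ((mem_matV N Y).mpr n.mY) n.uX.un n.uY.un m1
      ((mem_matV M _).mpr (diag_mem fun i => h.AM _ (he i).1))
      ((mem_matV N _).mpr (diag_mem fun i => h.AN _ (he i).1)) (mat_pr fun i => (he i).2)
      (by rw [← hE, ← mat_mul, hX]) (by rw [← hE, ← mat_mul, hY])
    show |(Fintype.card I : ℝ) * D (mat X) (mat Y)| ≤ _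
    rw [abs_mul, abs_of_pos hI]
    rw [htr] at k
    calc (Fintype.card I : ℝ) * |D (mat X) (mat Y)| ≤ Fintype.card I * (Real.pi *
          ((Fintype.card I : ℝ)⁻¹ * ∑ i, (⟪ξ, e i ξ⟫_ℂ).re +
          (Fintype.card I : ℝ)⁻¹ * ∑ i, (⟪ξ, e i ξ⟫_ℂ).re)) :=
        mul_le_mul_of_nonneg_left k hI.le
      _ = 2 * Real.pi * ∑ i, (⟪ξ, e i ξ⟫_ℂ).re := by
        field_simp
        ring
  · intro c hc
    have hsa : IsSelfAdjoint (mat (Matrix.diagonal c)) := by
      unfold IsSelfAdjoint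
      rw [← mat_star, Matrix.star_eq_conjTranspose, Matrix.diagonal_conjTranspose]
      congr 2
      exact funext fun i => (hc i).2.1.star_eq
    have k := h3 (mat (Matrix.diagonal c)) ((mem_matV N _).mpr (diag_mem fun i => h.AN _ (hc i).1))
      hsa (norm_mat_diagonal c κ hκ.le fun i => (hc i).2.2)
    show (Fintype.card I : ℝ) * D (mat 1) (mat (Matrix.diagonal fun i => ex (c i))) = _
    rw [mat_one, ex_diag, k, htr]
    field_simp

end Pool.Agent.H256.KS
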