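import Mathlib
import Pool.Agent.H256.KS.Gap2
import Pool.Agent.H256.KS.Comb

set_option autoImplicit false
set_option linter.unusedSectionVars false

/-! Monomial matrices. -/

open Filter Topology Set
open scoped InnerProductSpace

namespace Pool.Agent.H256.KS

open Pool.Agent.TH254.CC H759R2.Kad

variable {H : Type} [NormedAddCommGroup H] [InnerProductSpace ℂ H] [CompleteSpace H]
variable {Γ : Type} {I : Type} [Fintype I] [DecidableEq I]

/-- the permutation matrix -/
noncomputable def Pm (H : Type) [NormedAddCommGroup H] [InnerProductSpace ℂ H] {I : Type}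
    [DecidableEq I] (nx : Equiv.Perm I) : Matrix I I (H →L[ℂ] H) :=
  Matrix.of fun i j => if j = nx i then 1 else 0

theorem Pm_star (nx : Equiv.Perm I) : star (Pm H nx) =
    Matrix.of fun i j => if i = nx j then (1 : H →L[ℂ] H) else 0 := by
  ext1 i j
  rw [Matrix.star_apply]
  unfold Pm
  rw [Matrix.of_apply, Matrix.of_apply]
  split_ifs
  · exact star_one _
  · exact star_zero _

theorem Pm_mul_star (nx : Equiv.Perm I) : Pm H nx * star (Pm H nx) = 1 := by
  rw [Pm_star]
  ext1 i j
  rw [Matrix.mul_apply, Finset.sum_eq_single (nx i)]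
  · unfold Pm
    simp only [Matrix.of_apply, if_true, one_mul, EmbeddingLike.apply_eq_iff_eq]
    rw [Matrix.one_apply]
  · intro k _ hk
    unfold Pm
    rw [Matrix.of_apply, if_neg hk, zero_mul]
  · simp

theorem Pm_star_mul (nx : Equiv.Perm I) : star (Pm H nx) * Pm H nx = 1 := by
  rw [Pm_star]
  ext1 i j
  rw [Matrix.mul_apply, Finset.sum_eq_single (nx.symm i)]
  · unfold Pm
    simp only [Matrix.of_apply, Equiv.apply_symm_apply, if_true, one_mul]
    rw [Matrix.one_apply]
    by_cases h : i = j
    · rw [if_pos h, if_pos h.symm]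
    · rw [if_neg h, if_neg (fun h' => h h'.symm)]
  · intro k _ hk
    rw [Matrix.of_apply, if_neg, zero_mul]
    rintro rfl
    exact hk (by simp)
  · simp

theorem Pm_diag (nx : Equiv.Perm I) (d : I → (H →L[ℂ] H)) :
    Pm H nx * Matrix.diagonal d = Matrix.diagonal (fun i => d (nx i)) * Pm H nx := by
  ext1 i j
  rw [Matrix.mul_diagonal, Matrix.diagonal_mul]
  unfold Pm
  rw [Matrix.of_apply]
  by_cases h : j = nx i
  · rw [if_pos h, one_mul, mul_one, h]
  · rw [if_neg h, zero_mul, mul_zero]

theorem diag_star (d : I → (H →L[ℂ] H)) :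
    star (Matrix.diagonal d) = Matrix.diagonal (fun i => star (d i)) := by
  rw [Matrix.star_eq_conjTranspose, Matrix.diagonal_conjTranspose]
  rfl

theorem diag_congr {a b : I → (H →L[ℂ] H)} (h : ∀ i, a i = b i) :
    Matrix.diagonal a = Matrix.diagonal b := by
  rw [funext h]

theorem diag_one : Matrix.diagonal (fun _ : I => (1 : H →L[ℂ] H)) = 1 := Matrix.diagonal_one

theorem diag_zero : Matrix.diagonal (fun _ : I => (0 : H →L[ℂ] H)) = 0 := Matrix.diagonal_zero

/-- partial isometries arranged in a monomial matrix -/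
noncomputable def XX (nx : Equiv.Perm I) (w q : I → (H →L[ℂ] H)) : Matrix I I (H →L[ℂ] H) :=
  Matrix.diagonal w * Pm H nx + Matrix.diagonal fun i => 1 - q i

structure Mon (nx : Equiv.Perm I) (w q : I → (H →L[ℂ] H)) : Prop where
  pr : ∀ i, IsPr (q i)
  ww : ∀ i, w i * star (w i) = q i
  ww' : ∀ i, star (w i) * w i = q (nx i)

theorem Mon.left {nx : Equiv.Perm I} {w q : I → (H →L[ℂ] H)} (h : Mon nx w q) (i : I) :
    q i * w i = w i := by
  rw [← h.ww, mul_assoc]
  exact pi_of_pr (by rw [h.ww']; exact h.pr _)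

theorem Mon.right {nx : Equiv.Perm I} {w q : I → (H →L[ℂ] H)} (h : Mon nx w q) (i : I) :
    w i * q (nx i) = w i := by
  rw [← h.ww', ]
  exact pi_of_pr (by rw [h.ww']; exact h.pr _)

theorem Mon.pr' {nx : Equiv.Perm I} {w q : I → (H →L[ℂ] H)} (h : Mon nx w q) (i : I) :
    (1 - q i) * (1 - q i) = 1 - q i := by
  have := (h.pr i).2
  rw [mul_sub, mul_one, sub_mul, one_mul, this, sub_self, sub_zero]

theorem Mon.dw {nx : Equiv.Perm I} {w q : I → (H →L[ℂ] H)} (h : Mon nx w q) :
    Matrix.diagonal w * Pm H nx * Matrix.diagonal (fun i => 1 - q i) = 0 := by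
  rw [mul_assoc, Pm_diag, ← mul_assoc, Matrix.diagonal_mul_diagonal]
  have : Matrix.diagonal (fun i => w i * (1 - q (nx i))) = 0 := by
    rw [← diag_zero]
    refine diag_congr fun i => ?_
    rw [mul_sub, mul_one, h.right, sub_self]
  rw [this, zero_mul]

theorem Mon.dw' {nx : Equiv.Perm I} {w q : I → (H →L[ℂ] H)} (h : Mon nx w q) :
    Matrix.diagonal (fun i => 1 - q i) * (Matrix.diagonal w * Pm H nx) = 0 := by
  rw [← mul_assoc, Matrix.diagonal_mul_diagonal]
  have : Matrix.diagonal (fun i => (1 - q i) * w i) = 0 := by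
    rw [← diag_zero]
    refine diag_congr fun i => ?_
    rw [sub_mul, one_mul, h.left, sub_self]
  rw [this, zero_mul]

theorem XX_star (nx : Equiv.Perm I) (w q : I → (H →L[ℂ] H)) (hq : ∀ i, star (q i) = q i) :
    star (XX nx w q) = star (Pm H nx) * Matrix.diagonal (fun i => star (w i)) +
      Matrix.diagonal fun i => 1 - q i := by
  unfold XX
  rw [star_add, star_mul, diag_star, diag_star]
  congr 1
  refine diag_congr fun i => ?_
  rw [star_sub, star_one, hq]

theorem Mon.un {nx : Equiv.Perm I} {w q : I → (H →L[ℂ] H)} (h : Mon nx w q) :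
    XX nx w q * star (XX nx w q) = 1 ∧ star (XX nx w q) * XX nx w q = 1 := by
  have hq : ∀ i, star (q i) = q i := fun i => (h.pr i).1
  have e1 : star (Matrix.diagonal w * Pm H nx) =
      star (Pm H nx) * Matrix.diagonal (fun i => star (w i)) := by rw [star_mul, diag_star]
  have e2 : star (Matrix.diagonal (fun i => 1 - q i)) = Matrix.diagonal (fun i => 1 - q i) := by
    rw [diag_star]
    refine diag_congr fun i => ?_
    rw [star_sub, star_one, hq]
  have h1 := h.dw
  have h2 := congrArg star h1
  rw [star_mul, e1, e2, star_zero] at h2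
  have h3 := h.dw'
  have h4 := congrArg star h3
  rw [star_mul, e1, e2, star_zero] at h4
  rw [XX_star nx w q hq]
  unfold XX
  constructor
  · rw [add_mul, mul_add, mul_add, h1, h2]
    have e3 : Matrix.diagonal w * Pm H nx * (star (Pm H nx) *
        Matrix.diagonal (fun i => star (w i))) = Matrix.diagonal q := by
      calc Matrix.diagonal w * Pm H nx * (star (Pm H nx) * Matrix.diagonal (fun i => star (w i)))
          = Matrix.diagonal w * (Pm H nx * star (Pm H nx)) *
            Matrix.diagonal (fun i => star (w i)) := by noncomm_ring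
        _ = Matrix.diagonal q := by
          rw [Pm_mul_star, mul_one, Matrix.diagonal_mul_diagonal]
          exact diag_congr h.ww
    rw [e3, Matrix.diagonal_mul_diagonal, diag_congr h.pr', add_zero, zero_add,
      Matrix.diagonal_add, ← diag_one]
    exact diag_congr fun i => by abel
  · rw [add_mul, mul_add, mul_add, h3, h4]
    have e3 : star (Pm H nx) * Matrix.diagonal (fun i => star (w i)) *
        (Matrix.diagonal w * Pm H nx) = Matrix.diagonal q := by
      calc star (Pm H nx) * Matrix.diagonal (fun i => star (w i)) *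
            (Matrix.diagonal w * Pm H nx)
          = star (Pm H nx) * (Matrix.diagonal (fun i => star (w i)) * Matrix.diagonal w) *
            Pm H nx := by noncomm_ring
        _ = Matrix.diagonal q := by
          rw [Matrix.diagonal_mul_diagonal, diag_congr h.ww', mul_assoc, ← Pm_diag, ← mul_assoc,
            Pm_star_mul, one_mul]
    rw [e3, Matrix.diagonal_mul_diagonal, diag_congr h.pr', add_zero, zero_add,
      Matrix.diagonal_add, ← diag_one]
    exact diag_congr fun i => by abel

/-- third powers -/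
theorem Mon.cube {nx : Equiv.Perm I} {w q : I → (H →L[ℂ] H)} (h : Mon nx w q)
    (h3 : ∀ i, nx (nx (nx i)) = i) (hw : ∀ i, w i * w (nx i) * w (nx (nx i)) = q i) :
    XX nx w q * XX nx w q * XX nx w q = 1 := by
  obtain ⟨T, hT⟩ : ∃ T : Matrix I I (H →L[ℂ] H), T = Matrix.diagonal w * Pm H nx := ⟨_, rfl⟩
  obtain ⟨Q, hQ⟩ : ∃ Q : Matrix I I (H →L[ℂ] H), Q = Matrix.diagonal fun i => 1 - q i :=
    ⟨_, rfl⟩
  have h1 : T * Q = 0 := by rw [hT, hQ]; exact h.dw
  have h2 : Q * T = 0 := by rw [hT, hQ]; exact h.dw'
  have hQQ : Q * Q = Q := by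
    rw [hQ, Matrix.diagonal_mul_diagonal]
    exact diag_congr h.pr'
  have hP3 : Pm H nx * Pm H nx * Pm H nx = 1 := by
    ext1 i j
    rw [mul_assoc, Matrix.mul_apply, Finset.sum_eq_single (nx i)]
    · rw [Matrix.mul_apply, Finset.sum_eq_single (nx (nx i))]
      · unfold Pm
        simp only [Matrix.of_apply, if_true, one_mul, h3]
        rw [Matrix.one_apply]
        by_cases hij : i = j
        · rw [if_pos hij, if_pos hij.symm]
        · rw [if_neg hij, if_neg (fun h' => hij h'.symm)]
      · intro k _ hk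
        unfold Pm
        rw [Matrix.of_apply, if_neg hk, zero_mul]
      · simp
    · intro k _ hk
      unfold Pm
      rw [Matrix.of_apply, if_neg hk, zero_mul]
    · simp
  have hT3 : T * T * T = Matrix.diagonal q := by
    rw [hT]
    calc Matrix.diagonal w * Pm H nx * (Matrix.diagonal w * Pm H nx) *
          (Matrix.diagonal w * Pm H nx)
        = Matrix.diagonal w * (Pm H nx * Matrix.diagonal w) * (Pm H nx *
          Matrix.diagonal w) * Pm H nx := by noncomm_ring
      _ = Matrix.diagonal w * Matrix.diagonal (fun i => w (nx i)) *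
          (Pm H nx * Matrix.diagonal (fun i => w (nx i))) * Pm H nx * Pm H nx := by
          rw [Pm_diag]; noncomm_ring
      _ = Matrix.diagonal w * Matrix.diagonal (fun i => w (nx i)) *
          Matrix.diagonal (fun i => w (nx (nx i))) * (Pm H nx * Pm H nx * Pm H nx) := by
          rw [Pm_diag]; noncomm_ring
      _ = Matrix.diagonal q := by
          rw [hP3, mul_one, Matrix.diagonal_mul_diagonal, Matrix.diagonal_mul_diagonal]
          exact diag_congr hw
  have hX : XX nx w q = T + Q := by rw [hT, hQ]; rfl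
  have e : (T + Q) * (T + Q) * (T + Q) = T * T * T + T * (T * Q) + (T * Q) * T + (T * Q) * Q +
      (Q * T) * T + (Q * T) * Q + Q * (Q * T) + Q * Q * Q := by noncomm_ring
  rw [hX, e, h1, h2, hT3, hQQ, hQQ]
  simp only [mul_zero, zero_mul, add_zero]
  rw [hQ, Matrix.diagonal_add, ← diag_one]
  exact diag_congr fun i => by abel

/-- a permutation matrix with projections as entries -/
theorem perm_un {c : I → I → (H →L[ℂ] H)} (hs : ∀ i j, IsPr (c i j))
    (hrow : ∀ i j k, j ≠ k → c i j * c i k = 0) (hcol : ∀ i j k, i ≠ k → c i j * c k j = 0)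
    (h1 : ∀ i, ∑ j, c i j = 1) (h2 : ∀ j, ∑ i, c i j = 1) :
    (Matrix.of c) * star (Matrix.of c) = 1 ∧ star (Matrix.of c) * (Matrix.of c) = 1 := by
  constructor
  · ext1 i j
    rw [Matrix.mul_apply, Matrix.one_apply]
    simp only [Matrix.star_apply, Matrix.of_apply, (hs _ _).1]
    by_cases h : i = j
    · subst h
      rw [if_pos rfl, ← h1 i]
      exact Finset.sum_congr rfl fun k _ => (hs i k).2
    · rw [if_neg h]
      exact Finset.sum_eq_zero fun k _ => hcol i k j h
  · ext1 i j
    rw [Matrix.mul_apply, Matrix.one_apply]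
    simp only [Matrix.star_apply, Matrix.of_apply, (hs _ _).1]
    by_cases h : i = j
    · subst h
      rw [if_pos rfl, ← h2 i]
      exact Finset.sum_congr rfl fun k _ => (hs k i).2
    · rw [if_neg h]
      exact Finset.sum_eq_zero fun k _ => hrow k i j h

end Pool.Agent.H256.KS
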