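import Mathlib
import Pool.Agent.H256.KS.Dd
import Pool.Agent.H256.KS.Mono
import Pool.Agent.H256.KS.Comb
import Pool.Agent.H256.KS.Normal

set_option autoImplicit false
set_option linter.unusedSectionVars false

/-! Matching. -/

open Filter Topology Set
open scoped InnerProductSpace

namespace Pool.Agent.H256.KS

open Pool.Agent.TH254.CC H759R2.Kad

variable {H : Type} [NormedAddCommGroup H] [InnerProductSpace ℂ H] [CompleteSpace H]
variable {I : Type} [Fintype I] [DecidableEq I]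

section calc_D

variable {M N A : VonNeumannAlgebra H} {ξ : H} {δ κ : ℝ}
  {D : Matrix I I (H →L[ℂ] H) → Matrix I I (H →L[ℂ] H) → ℝ}

theorem Dd.one (hD : Dd M N A ξ I κ D) (hκ : 0 ≤ κ) : D 1 1 = 0 := by
  have n : Nr M N κ (1 : Matrix I I (H →L[ℂ] H)) 1 := Nr.self hκ mem_mat_one mem_mat_one Um.one
  have := hD.mul _ _ _ _ n n
  rw [one_mul] at this
  linarith

theorem Dd.nself (h : Pos M N ξ A δ) (hD : Dd M N A ξ I κ D) (hκ : 0 ≤ κ)
    {X : Matrix I I (H →L[ℂ] H)} (hX : ∀ i j, X i j ∈ A) (uX : Um X) : D X X = 0 := by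
  have key : ∀ n : ℕ, (∀ i j, (X ^ n) i j ∈ A) ∧ Um (X ^ n) ∧ D (X ^ n) (X ^ n) = n * D X X := by
    intro n
    induction n with
    | zero =>
      rw [pow_zero]
      exact ⟨mem_mat_one, Um.one, by rw [hD.one hκ]; simp⟩
    | succ n ih =>
      obtain ⟨i1, i2, i3⟩ := ih
      rw [pow_succ]
      refine ⟨mem_mat_mul i1 hX, i2.mul uX, ?_⟩
      have n1 : Nr M N κ (X ^ n) (X ^ n) := Nr.self hκ (fun i j => h.AM _ (i1 i j))
        (fun i j => h.AN _ (i1 i j)) i2
      have n2 : Nr M N κ X X := Nr.self hκ (fun i j => h.AM _ (hX i j))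
        (fun i j => h.AN _ (hX i j)) uX
      rw [hD.mul _ _ _ _ n1 n2, i3]
      push_cast
      ring
  obtain ⟨C, hC⟩ : ∃ C : ℝ, C = 2 * Real.pi * ∑ i : I, (⟪ξ, (1 : H →L[ℂ] H) ξ⟫_ℂ).re := ⟨_, rfl⟩
  have hb : ∀ n : ℕ, n * |D X X| ≤ C := by
    intro n
    obtain ⟨i1, i2, i3⟩ := key n
    have n1 : Nr M N κ (X ^ n) (X ^ n) := Nr.self hκ (fun i j => h.AM _ (i1 i j))
        (fun i j => h.AN _ (i1 i j)) i2
    have e0 : Matrix.diagonal (fun _ : I => (1 : H →L[ℂ] H) - 1) = 0 := by
      rw [← diag_zero]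
      exact diag_congr fun i => sub_self _
    have k := hD.bd _ _ (fun _ => 1) n1 (fun i => ⟨one_mem A, star_one _, one_mul _⟩)
      (by rw [e0, mul_zero]) (by rw [e0, mul_zero])
    rw [i3, abs_mul, Nat.abs_cast, ← hC] at k
    exact k
  by_contra hne
  have hpos : 0 < |D X X| := abs_pos.mpr hne
  obtain ⟨n, hn⟩ := exists_nat_gt (C / |D X X|)
  rw [div_lt_iff₀ hpos] at hn
  linarith [hb n]

theorem Dd.sq (hD : Dd M N A ξ I κ D) (hκ : 0 ≤ κ) {X Y : Matrix I I (H →L[ℂ] H)}
    (n : Nr M N κ X Y) (hX : X * X = 1) (hY : Y * Y = 1) : D X Y = 0 := by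
  have k := hD.mul _ _ _ _ n n
  rw [hX, hY, hD.one hκ] at k
  linarith

theorem Dd.cube (hD : Dd M N A ξ I κ D) (hκ : 0 ≤ κ) {X Y : Matrix I I (H →L[ℂ] H)}
    (n : Nr M N (κ / 2) X Y) (hX : X * X * X = 1) (hY : Y * Y * Y = 1) : D X Y = 0 := by
  have n1 := n.mono (show κ / 2 ≤ κ by linarith)
  have n2 : Nr M N κ (X * X) (Y * Y) := (n.mul n).mono (by linarith)
  have k := hD.mul _ _ _ _ n2 n1
  have k' := hD.mul _ _ _ _ n1 n1
  rw [hX, hY, hD.one hκ] at k
  linarith

end calc_D

theorem exists_C (A : VonNeumannAlgebra H) (hA : ∀ a ∈ A, ∀ b ∈ A, a * b = b * a)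
    (q : I → (H →L[ℂ] H)) (t : I → I → (H →L[ℂ] H)) (hq : ∀ i, q i ∈ A ∧ IsPr (q i))
    (ht : ∀ i j, t i j ∈ A ∧ IsPr (t i j)) (h1 : ∀ k j, q k * t k j = t k j)
    (h2 : ∀ k j, q j * t k j = t k j) (hr : ∀ i j k, j ≠ k → t i j * t i k = 0)
    (hc : ∀ i j k, i ≠ k → t i j * t k j = 0) :
    (∀ j, (q j - ∑ k, t k j) ∈ A ∧ IsPr (q j - ∑ k, t k j)) ∧
    ∃ C : Matrix I I (H →L[ℂ] H), (∀ i j, C i j ∈ A) ∧ Um C ∧
      C * Matrix.diagonal (fun j => 1 - (q j - ∑ k, t k j)) =
        Matrix.of fun k j => t k j + if k = j then 1 - q j else 0 := by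
  have hs : ∀ j, (∑ k, t k j) * (∑ k, t k j) = ∑ k, t k j := by
    intro j
    rw [Finset.sum_mul]
    refine Finset.sum_congr rfl fun k _ => ?_
    rw [Finset.mul_sum, Finset.sum_eq_single k]
    · exact (ht k j).2.2
    · intro l _ hl
      exact hc k j l (fun h => hl h.symm)
    · simp
  have hqs : ∀ j, q j * (∑ k, t k j) = ∑ k, t k j := by
    intro j
    rw [Finset.mul_sum]
    exact Finset.sum_congr rfl fun k _ => h2 k j
  have hsA : ∀ j, (∑ k, t k j) ∈ A := fun j => sum_mem fun k _ => (ht k j).1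
  have hss : ∀ j, star (∑ k, t k j) = ∑ k, t k j := by
    intro j
    rw [star_sum]
    exact Finset.sum_congr rfl fun k _ => (ht k j).2.1
  refine ⟨fun j => ⟨sub_mem (hq j).1 (hsA j), ?_, ?_⟩, ?_⟩
  · rw [star_sub, (hq j).2.1, hss]
  · rw [sub_mul, mul_sub, mul_sub, (hq j).2.2, hqs, hs, hA _ (hsA j) _ (hq j).1, hqs]
    abel
  · obtain ⟨c, hcd⟩ : ∃ c : I → I → (H →L[ℂ] H),
        c = fun k j => t k j + if k = j then 1 - q j else 0 := ⟨_, rfl⟩
    have hcA : ∀ i j, c i j ∈ A := by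
      intro i j
      rw [hcd]
      refine add_mem (ht i j).1 ?_
      split_ifs
      · exact sub_mem (one_mem A) (hq j).1
      · exact zero_mem A
    have z1 : ∀ k j, (1 - q k) * t k j = 0 := fun k j => by
      rw [sub_mul, one_mul, h1, sub_self]
    have z2 : ∀ k j, (1 - q j) * t k j = 0 := fun k j => by
      rw [sub_mul, one_mul, h2, sub_self]
    have z1' : ∀ k j, t k j * (1 - q k) = 0 := fun k j => by
      rw [hA _ (ht k j).1 _ (sub_mem (one_mem A) (hq k).1), z1]
    have z2' : ∀ k j, t k j * (1 - q j) = 0 := fun k j => by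
      rw [hA _ (ht k j).1 _ (sub_mem (one_mem A) (hq j).1), z2]
    have hq1 : ∀ k, (1 - q k) * (1 - q k) = 1 - q k := by
      intro k
      rw [mul_sub, mul_one, sub_mul, one_mul, (hq k).2.2, sub_self, sub_zero]
    obtain ⟨c', k1, k2, k3, k4, k5, k6⟩ := exists_completion A hA c (by
      intro i j
      refine ⟨hcA i j, ?_, ?_⟩
      · rw [hcd]
        show star (t i j + if i = j then 1 - q j else 0) = t i j + if i = j then 1 - q j else 0
        rw [star_add, (ht i j).2.1]
        split_ifs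
        · rw [star_sub, star_one, (hq j).2.1]
        · rw [star_zero]
      · rw [hcd]
        show (t i j + if i = j then 1 - q j else 0) * (t i j + if i = j then 1 - q j else 0) =
          t i j + if i = j then 1 - q j else 0
        split_ifs with hij
        · rw [add_mul, mul_add, mul_add, (ht i j).2.2, z2, z2', hq1, add_zero, zero_add]
        · rw [add_zero, (ht i j).2.2]) (by
      intro i j k hjk
      rw [hcd]
      show (t i j + if i = j then 1 - q j else 0) * (t i k + if i = k then 1 - q k else 0) = 0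
      split_ifs with a b b
      · exact absurd (a.symm.trans b) hjk
      · subst a
        rw [add_zero, add_mul, hr _ _ _ hjk, z1, add_zero]
      · subst b
        rw [add_zero, mul_add, hr _ _ _ hjk, z1', add_zero]
      · rw [add_zero, add_zero, hr _ _ _ hjk]) (by
      intro i j k hik
      rw [hcd]
      show (t i j + if i = j then 1 - q j else 0) * (t k j + if k = j then 1 - q j else 0) = 0
      split_ifs with a b b
      · exact absurd (a.trans b.symm) hik
      · rw [add_zero, add_mul, hc _ _ _ hik, z2, add_zero]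
      · rw [add_zero, mul_add, hc _ _ _ hik, z2', add_zero]
      · rw [add_zero, add_zero, hc _ _ _ hik])
    refine ⟨Matrix.of c', fun i j => (k1 i j).1, ?_, ?_⟩
    · have := perm_un (fun i j => (k1 i j).2) k3 k4 k5 k6
      exact ⟨this.2, this.1⟩
    · have hd : ∀ j, 1 - (q j - ∑ k, t k j) = ∑ k, c k j := by
        intro j
        rw [hcd]
        show _ = ∑ k, (t k j + if k = j then 1 - q j else 0)
        rw [Finset.sum_add_distrib, Finset.sum_ite_eq' Finset.univ j, if_pos (Finset.mem_univ _)]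
        abel
      ext1 i j
      rw [Matrix.mul_diagonal, Matrix.of_apply, hd, Finset.mul_sum, Finset.sum_eq_single i]
      · rw [hA _ (k1 i j).1 _ (hcA i j), k2, Matrix.of_apply, hcd]
      · intro k _ hk
        rw [← k2 k j, ← mul_assoc, hA _ (k1 i j).1 _ (hcA k j), mul_assoc,
          k4 i j k (fun h => hk h.symm), mul_zero]
      · simp

end Pool.Agent.H256.KS
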