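import Mathlib
import Pool.Agent.H256.KS.Sys

set_option autoImplicit false
set_option linter.unusedSectionVars false

/-! The matching inequality. -/

open Filter Topology Set
open scoped InnerProductSpace

namespace Pool.Agent.H256.KS

open Pool.Agent.TH254.CC H759R2.Kad

variable {H : Type} [NormedAddCommGroup H] [InnerProductSpace ℂ H] [CompleteSpace H]
variable {I : Type} [Fintype I] [DecidableEq I] {Γ : Type}

/-- target side -/
noncomputable def ths (u : H →L[ℂ] H) (b : Bool) (x : H →L[ℂ] H) : H →L[ℂ] H :=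
  if b then x else star u * x * u

/-- source side -/
noncomputable def tht (u : H →L[ℂ] H) (b : Bool) (x : H →L[ℂ] H) : H →L[ℂ] H :=
  if b then star u * x * u else x

/-- a corner of a unitary or of its inverse -/
noncomputable def bW (w : H →L[ℂ] H) (b : Bool) (x : H →L[ℂ] H) : H →L[ℂ] H :=
  if b then x * w else star w * x

/-- `w` acts on `A` as `u` -/
structure Cov (A : VonNeumannAlgebra H) (u w : H →L[ℂ] H) : Prop where
  un : Un w
  cA : ∀ a ∈ A, star u * a * u ∈ A
  cv : ∀ a ∈ A, star w * a * w = star u * a * u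

section one

variable {A : VonNeumannAlgebra H} {u w : H →L[ℂ] H}

theorem tht_not (u : H →L[ℂ] H) (b : Bool) (x : H →L[ℂ] H) : tht u b x = ths u (!b) x := by
  cases b <;> rfl

theorem Cov.ths_mem (h : Cov A u w) (b : Bool) {x : H →L[ℂ] H} (hx : x ∈ A) : ths u b x ∈ A := by
  cases b
  · exact h.cA x hx
  · exact hx

theorem Cov.ths_mul (h : Cov A u w) (b : Bool) {x y : H →L[ℂ] H} (hx : x ∈ A) (hy : y ∈ A) :
    ths u b x * ths u b y = ths u b (x * y) := by
  cases b
  · show star u * x * u * (star u * y * u) = star u * (x * y) * u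
    rw [← h.cv x hx, ← h.cv y hy, ← h.cv _ (mul_mem hx hy)]
    calc star w * x * w * (star w * y * w) = star w * x * (w * star w) * y * w := by noncomm_ring
      _ = star w * (x * y) * w := by rw [h.un.2]; noncomm_ring
  · rfl

theorem ths_add (u : H →L[ℂ] H) (b : Bool) (x y : H →L[ℂ] H) :
    ths u b (x + y) = ths u b x + ths u b y := by
  cases b
  · show star u * (x + y) * u = star u * x * u + star u * y * u
    noncomm_ring
  · rfl

theorem ths_zero (u : H →L[ℂ] H) (b : Bool) : ths u b (0 : H →L[ℂ] H) = 0 := by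
  cases b
  · show star u * 0 * u = 0
    rw [mul_zero, zero_mul]
  · rfl

theorem ths_star (u : H →L[ℂ] H) (b : Bool) (x : H →L[ℂ] H) :
    star (ths u b x) = ths u b (star x) := by
  cases b
  · show star (star u * x * u) = star u * star x * u
    rw [star_mul, star_mul, star_star, mul_assoc]
  · rfl

theorem Cov.ths_pr (h : Cov A u w) (b : Bool) {x : H →L[ℂ] H} (hx : x ∈ A) (hp : IsPr x) :
    IsPr (ths u b x) :=
  ⟨by rw [ths_star, hp.1], by rw [h.ths_mul b hx hx, hp.2]⟩

theorem Cov.bW_tht (h : Cov A u w) (b : Bool) {x y : H →L[ℂ] H} (hy : y ∈ A) :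
    bW w b x * tht u b y = bW w b (x * y) := by
  cases b
  · show star w * x * y = star w * (x * y)
    rw [mul_assoc]
  · show x * w * (star u * y * u) = x * y * w
    rw [← h.cv y hy]
    calc x * w * (star w * y * w) = x * (w * star w) * y * w := by noncomm_ring
      _ = _ := by rw [h.un.2, mul_one]

theorem Cov.bW_star (h : Cov A u w) (b : Bool) {x y : H →L[ℂ] H} (hx : x ∈ A) (hy : y ∈ A)
    (hys : star y = y) : bW w b x * star (bW w b y) = ths u b (x * y) := by
  cases b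
  · show star w * x * star (star w * y) = star u * (x * y) * u
    rw [star_mul, star_star, hys, ← h.cv _ (mul_mem hx hy)]
    noncomm_ring
  · show x * w * star (y * w) = x * y
    rw [star_mul, hys]
    calc x * w * (star w * y) = x * (w * star w) * y := by noncomm_ring
      _ = _ := by rw [h.un.2, mul_one]

theorem bW_not (b : Bool) {y : H →L[ℂ] H} (hys : star y = y) :
    star (bW w b y) = bW w (!b) y := by
  cases b
  · show star (star w * y) = y * w
    rw [star_mul, star_star, hys]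
  · show star (y * w) = star w * y
    rw [star_mul, hys]

theorem Cov.star_bW (h : Cov A u w) (b : Bool) {x y : H →L[ℂ] H} (hx : x ∈ A) (hy : y ∈ A)
    (hxs : star x = x) : star (bW w b x) * bW w b y = tht u b (x * y) := by
  cases b
  · show star (star w * x) * (star w * y) = x * y
    rw [star_mul, star_star, hxs]
    calc x * w * (star w * y) = x * (w * star w) * y := by noncomm_ring
      _ = _ := by rw [h.un.2, mul_one]
  · show star (x * w) * (y * w) = star u * (x * y) * u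
    rw [star_mul, hxs, ← h.cv _ (mul_mem hx hy)]
    noncomm_ring

theorem bW_zero (b : Bool) : bW w b (0 : H →L[ℂ] H) = 0 := by
  cases b
  · show star w * 0 = 0
    rw [mul_zero]
  · show 0 * w = 0
    rw [zero_mul]

theorem bW_mem {B : VonNeumannAlgebra H} (b : Bool) {x : H →L[ℂ] H} (hw : w ∈ B) (hx : x ∈ B) :
    bW w b x ∈ B := by
  cases b
  · exact mul_mem (star_mem hw) hx
  · exact mul_mem hx hw

theorem bW_near {w w' : H →L[ℂ] H} (b : Bool) {x : H →L[ℂ] H} {r : ℝ} (hx : ‖x‖ ≤ 1)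
    (hw : ‖w - w'‖ ≤ r) : ‖bW w b x - bW w' b x‖ ≤ r := by
  have hr : 0 ≤ r := (norm_nonneg _).trans hw
  cases b
  · show ‖star w * x - star w' * x‖ ≤ r
    rw [← sub_mul, ← star_sub]
    refine (norm_mul_le _ _).trans ?_
    rw [norm_star]
    calc ‖w - w'‖ * ‖x‖ ≤ r * 1 := mul_le_mul hw hx (norm_nonneg _) hr
      _ = r := mul_one r
  · show ‖x * w - x * w'‖ ≤ r
    rw [← mul_sub]
    refine (norm_mul_le _ _).trans ?_
    calc ‖x‖ * ‖w - w'‖ ≤ 1 * r := mul_le_mul hx hw (norm_nonneg _) zero_le_one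
      _ = r := one_mul r

end one

/-- a monomial system -/
structure Sy2 (A : VonNeumannAlgebra H) (U : Γ → (H →L[ℂ] H)) (nx : Equiv.Perm I) (sg : I → Bool)
    (lam : I → Γ) (rho q : I → (H →L[ℂ] H)) : Prop where
  rA : ∀ i, rho i ∈ A ∧ IsPr (rho i)
  q1 : ∀ i, q i = ths (U (lam i)) (sg i) (rho i)
  q2 : ∀ i, q (nx i) = tht (U (lam i)) (sg i) (rho i)

/-- a matching -/
structure Mt (A : VonNeumannAlgebra H) (sg : I → Bool) (lam : I → Γ) (rho : I → (H →L[ℂ] H))
    (μ : I → I → (H →L[ℂ] H)) : Prop where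
  mA : ∀ i j, μ i j ∈ A ∧ IsPr (μ i j)
  symm : ∀ i j, μ i j = μ j i
  le : ∀ i j, rho i * μ i j = μ i j
  ne : ∀ i j, μ i j ≠ 0 → lam i = lam j ∧ sg j = !sg i
  orth : ∀ i j k, j ≠ k → μ i j * μ i k = 0

section sys

variable {A : VonNeumannAlgebra H} {U : Γ → (H →L[ℂ] H)} {nx : Equiv.Perm I} {sg : I → Bool}
  {lam : I → Γ} {rho q : I → (H →L[ℂ] H)} {μ : I → I → (H →L[ℂ] H)}

theorem Sy2.qA (h : Sy2 A U nx sg lam rho q) (hU : ∀ g, Cov A (U g) (U g)) (i : I) :
    q i ∈ A ∧ IsPr (q i) := by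
  rw [h.q1]
  exact ⟨(hU _).ths_mem _ (h.rA i).1, (hU _).ths_pr _ (h.rA i).1 (h.rA i).2⟩

/-- the monomial matrix is unitary -/
theorem Sy2.mon (h : Sy2 A U nx sg lam rho q) (hU : ∀ g, Cov A (U g) (U g))
    {W : Γ → (H →L[ℂ] H)} (hW : ∀ g, Cov A (U g) (W g)) :
    Mon nx (fun i => bW (W (lam i)) (sg i) (rho i)) q := by
  refine ⟨fun i => (h.qA hU i).2, fun i => ?_, fun i => ?_⟩
  · rw [(hW _).bW_star _ (h.rA i).1 (h.rA i).1 (h.rA i).2.1, (h.rA i).2.2, h.q1]
  · rw [(hW _).star_bW _ (h.rA i).1 (h.rA i).1 (h.rA i).2.1, (h.rA i).2.2, h.q2]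

/-- the transported matching -/
noncomputable def tm (U : Γ → (H →L[ℂ] H)) (nx : Equiv.Perm I) (sg : I → Bool) (lam : I → Γ)
    (μ : I → I → (H →L[ℂ] H)) (k j : I) : H →L[ℂ] H :=
  tht (U (lam (nx.symm k))) (sg (nx.symm k)) (μ (nx.symm k) j)

theorem tm_eq (hm : Mt A sg lam rho μ) (k j : I) :
    tm U nx sg lam μ k j = ths (U (lam j)) (sg j) (μ j (nx.symm k)) := by
  unfold tm
  rw [tht_not]
  by_cases h0 : μ (nx.symm k) j = 0
  · rw [h0, hm.symm j, h0, ths_zero, ths_zero]
  · obtain ⟨h1, h2⟩ := hm.ne _ _ h0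
    rw [h1, ← h2, hm.symm]

theorem tm_props (h : Sy2 A U nx sg lam rho q) (hm : Mt A sg lam rho μ)
    (hU : ∀ g, Cov A (U g) (U g)) :
    (∀ i j, tm U nx sg lam μ i j ∈ A ∧ IsPr (tm U nx sg lam μ i j)) ∧
    (∀ k j, q k * tm U nx sg lam μ k j = tm U nx sg lam μ k j) ∧
    (∀ k j, q j * tm U nx sg lam μ k j = tm U nx sg lam μ k j) ∧
    (∀ i j k, j ≠ k → tm U nx sg lam μ i j * tm U nx sg lam μ i k = 0) ∧
    (∀ i j k, i ≠ k → tm U nx sg lam μ i j * tm U nx sg lam μ k j = 0) := by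
  refine ⟨fun i j => ?_, fun k j => ?_, fun k j => ?_, fun i j k hjk => ?_, fun i j k hik => ?_⟩
  · rw [tm_eq hm]
    exact ⟨(hU _).ths_mem _ (hm.mA _ _).1, (hU _).ths_pr _ (hm.mA _ _).1 (hm.mA _ _).2⟩
  · have e : q k = tht (U (lam (nx.symm k))) (sg (nx.symm k)) (rho (nx.symm k)) := by
      rw [← h.q2, Equiv.apply_symm_apply]
    rw [e]
    unfold tm
    rw [tht_not, tht_not, (hU _).ths_mul _ (h.rA _).1 (hm.mA _ _).1, hm.le]
  · rw [tm_eq hm, h.q1, (hU _).ths_mul _ (h.rA _).1 (hm.mA _ _).1, hm.le]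
  · unfold tm
    rw [tht_not, tht_not, (hU _).ths_mul _ (hm.mA _ _).1 (hm.mA _ _).1, hm.orth _ _ _ hjk, ths_zero]
  · rw [tm_eq hm, tm_eq hm, (hU _).ths_mul _ (hm.mA _ _).1 (hm.mA _ _).1,
      hm.orth _ _ _ (fun h => hik (nx.symm.injective h)), ths_zero]

theorem XX_apply (w q : I → (H →L[ℂ] H)) (i j : I) :
    XX nx w q i j = (if j = nx i then w i else 0) + if i = j then 1 - q i else 0 := by
  unfold XX
  rw [Matrix.add_apply, Matrix.diagonal_mul, Matrix.diagonal_apply]
  unfold Pm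
  rw [Matrix.of_apply, mul_ite, mul_one, mul_zero]

theorem XX_C (h : Sy2 A U nx sg lam rho q) (hm : Mt A sg lam rho μ)
    (hU : ∀ g, Cov A (U g) (U g)) {W : Γ → (H →L[ℂ] H)} (hW : ∀ g, Cov A (U g) (W g)) :
    XX nx (fun i => bW (W (lam i)) (sg i) (rho i)) q *
      (Matrix.of fun k j => tm U nx sg lam μ k j + if k = j then 1 - q j else 0) =
    Matrix.of fun i j => bW (W (lam i)) (sg i) (μ i j) + if i = j then 1 - q i else 0 := by
  obtain ⟨t1, t2, t3, t4, t5⟩ := tm_props h hm hU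
  have hM := h.mon hU hW
  ext1 i j
  rw [Matrix.mul_apply]
  simp only [XX_apply, Matrix.of_apply, add_mul, ite_mul, zero_mul]
  rw [Finset.sum_add_distrib, Finset.sum_ite_eq' Finset.univ (nx i), if_pos (Finset.mem_univ _),
    Finset.sum_ite_eq Finset.univ i, if_pos (Finset.mem_univ _)]
  have e1 : bW (W (lam i)) (sg i) (rho i) * tm U nx sg lam μ (nx i) j =
      bW (W (lam i)) (sg i) (μ i j) := by
    unfold tm
    rw [Equiv.symm_apply_apply, (hW _).bW_tht _ (hm.mA _ _).1, hm.le]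
  have e2 : bW (W (lam i)) (sg i) (rho i) * (if nx i = j then 1 - q j else 0) = 0 := by
    split_ifs with a
    · subst a
      have := hM.right i
      rw [mul_sub, mul_one, this, sub_self]
    · rw [mul_zero]
  have e3 : (1 - q i) * tm U nx sg lam μ i j = 0 := by
    rw [sub_mul, one_mul, t2, sub_self]
  have e4 : (1 - q i) * (if i = j then 1 - q j else 0) = if i = j then 1 - q i else 0 := by
    split_ifs with a
    · subst a
      rw [mul_sub, mul_one, sub_mul, one_mul, (h.qA hU i).2.2, sub_self, sub_zero]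
    · rw [mul_zero]
  rw [mul_add, e1, e2, mul_add, e3, e4, add_zero, zero_add]

theorem S_star (h : Sy2 A U nx sg lam rho q) (hm : Mt A sg lam rho μ)
    (hU : ∀ g, Cov A (U g) (U g)) {W : Γ → (H →L[ℂ] H)} :
    star (Matrix.of fun i j => bW (W (lam i)) (sg i) (μ i j) + if i = j then 1 - q i else 0) =
    Matrix.of fun i j => bW (W (lam i)) (sg i) (μ i j) + if i = j then 1 - q i else 0 := by
  ext1 i j
  rw [Matrix.star_apply, Matrix.of_apply, Matrix.of_apply, star_add]
  congr 1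
  · rw [bW_not _ (hm.mA _ _).2.1]
    by_cases h0 : μ j i = 0
    · rw [hm.symm i j, h0, bW_zero, bW_zero]
    · obtain ⟨h1, h2⟩ := hm.ne _ _ h0
      rw [h1, ← h2, hm.symm]
  · by_cases hij : i = j
    · rw [if_pos hij, if_pos hij.symm, star_sub, star_one, (h.qA hU j).2.1, hij]
    · rw [if_neg hij, if_neg (fun h => hij h.symm), star_zero]

end sys

end Pool.Agent.H256.KS
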