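import Mathlib
import Pool.Agent.H256.KS.Sys2

set_option autoImplicit false
set_option linter.unusedSectionVars false

/-! The matching inequality, continued. -/

open Filter Topology Set
open scoped InnerProductSpace

namespace Pool.Agent.H256.KS

open Pool.Agent.TH254.CC H759R2.Kad

variable {H : Type} [NormedAddCommGroup H] [InnerProductSpace ℂ H] [CompleteSpace H]
variable {I : Type} [Fintype I] [DecidableEq I] {Γ : Type}

theorem sym_of {R : Type} [Ring R] [StarRing R] {Z E S : R} (hZ : star Z * Z = 1)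
    (hE : star E = E) (hEE : E * E = E) (hS : Z * E = S) (hSS : star S = S) :
    star (S + (1 - E)) = S + (1 - E) ∧ (S + (1 - E)) * (S + (1 - E)) = 1 ∧
      (S + (1 - E)) * Z * E = E := by
  have h1 : S * E = S := by rw [← hS, mul_assoc, hEE]
  have h2 : E * S = S := by
    have := congrArg star h1
    rwa [star_mul, hE, hSS] at this
  have h3 : S * S = E := by
    calc S * S = star S * S := by rw [hSS]
      _ = star (Z * E) * (Z * E) := by rw [hS]
      _ = E * (star Z * Z) * E := by rw [star_mul, hE]; noncomm_ring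
      _ = E := by rw [hZ, mul_one, hEE]
  refine ⟨?_, ?_, ?_⟩
  · rw [star_add, star_sub, star_one, hE, hSS]
  · calc (S + (1 - E)) * (S + (1 - E)) = S * S + (S - S * E) + (S - E * S) +
          (1 - E - (E - E * E)) := by noncomm_ring
      _ = 1 := by rw [h3, h1, h2, hEE]; abel
  · rw [mul_assoc, hS, add_mul, sub_mul, one_mul, h2, sub_self, add_zero, h3]

theorem Pm_mem {B : VonNeumannAlgebra H} (nx : Equiv.Perm I) : ∀ i j, Pm H nx i j ∈ B := by
  intro i j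
  unfold Pm
  rw [Matrix.of_apply]
  split_ifs
  · exact one_mem B
  · exact zero_mem B

theorem XX_mem {B : VonNeumannAlgebra H} {nx : Equiv.Perm I} {w q : I → (H →L[ℂ] H)}
    (hw : ∀ i, w i ∈ B) (hq : ∀ i, q i ∈ B) : ∀ i j, XX nx w q i j ∈ B := by
  intro i j
  rw [XX_apply]
  refine add_mem ?_ ?_
  · split_ifs
    · exact hw i
    · exact zero_mem B
  · split_ifs
    · exact sub_mem (one_mem B) (hq i)
    · exact zero_mem B

theorem XX_near {nx : Equiv.Perm I} {w w' q : I → (H →L[ℂ] H)} {r : ℝ} (hr : 0 ≤ r)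
    (h : ∀ i, ‖w i - w' i‖ ≤ r) : ‖mat (XX nx w q - XX nx w' q)‖ ≤ r := by
  have e : XX nx w q - XX nx w' q = Matrix.diagonal (fun i => w i - w' i) * Pm H nx := by
    unfold XX
    rw [add_sub_add_right_eq_sub, ← sub_mul, Matrix.diagonal_sub]
  rw [e, mat_mul]
  have hP : Un (mat (Pm H nx)) := Um.un ⟨Pm_star_mul nx, Pm_mul_star nx⟩
  exact (hP.norm_mul_right _).trans (norm_mat_diagonal _ r hr h)

theorem norm_pr_le {p : H →L[ℂ] H} (hp : IsPr p) : ‖p‖ ≤ 1 := by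
  have h1 : ‖p‖ * ‖p‖ = ‖p‖ := by
    have := CStarRing.norm_star_mul_self (x := p)
    rw [hp.1, hp.2] at this
    exact this.symm
  by_contra hlt
  push Not at hlt
  nlinarith [norm_nonneg p]

theorem sys_bound {M N A : VonNeumannAlgebra H} {ξ : H} {δ κ : ℝ}
    {D : Matrix I I (H →L[ℂ] H) → Matrix I I (H →L[ℂ] H) → ℝ} (h : Pos M N ξ A δ)
    (hD : Dd M N A ξ I κ D) (hκ : 0 ≤ κ) {U V : Γ → (H →L[ℂ] H)} {nx : Equiv.Perm I}
    {sg : I → Bool} {lam : I → Γ} {rho q : I → (H →L[ℂ] H)} {μ : I → I → (H →L[ℂ] H)}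
    (hs : Sy2 A U nx sg lam rho q) (hm : Mt A sg lam rho μ) (hU : ∀ g, Cov A (U g) (U g))
    (hUM : ∀ g, U g ∈ M) (hV : ∀ g, Cov A (U g) (V g)) (hVN : ∀ g, V g ∈ N)
    (hUV : ∀ g, ‖U g - V g‖ ≤ κ / 2) :
    (∀ i, (q i - ∑ k, tm U nx sg lam μ k i) ∈ A) ∧
    |D (XX nx (fun i => bW (U (lam i)) (sg i) (rho i)) q)
      (XX nx (fun i => bW (V (lam i)) (sg i) (rho i)) q)| ≤
      2 * Real.pi * ∑ i, (⟪ξ, (q i - ∑ k, tm U nx sg lam μ k i) ξ⟫_ℂ).re := by
  obtain ⟨t1, t2, t3, t4, t5⟩ := tm_props hs hm hU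
  have hq := hs.qA hU
  obtain ⟨he, C, hCA, hCU, hC⟩ := exists_C A h.comm q (tm U nx sg lam μ) hq t1 t2 t3 t4 t5
  refine ⟨fun i => (he i).1, ?_⟩
  obtain ⟨X, hX⟩ : ∃ X, X = XX nx (fun i => bW (U (lam i)) (sg i) (rho i)) q := ⟨_, rfl⟩
  obtain ⟨Y, hY⟩ : ∃ Y, Y = XX nx (fun i => bW (V (lam i)) (sg i) (rho i)) q := ⟨_, rfl⟩
  obtain ⟨E, hE⟩ : ∃ E : Matrix I I (H →L[ℂ] H),
    E = Matrix.diagonal (fun j => 1 - (q j - ∑ k, tm U nx sg lam μ k j)) := ⟨_, rfl⟩
  obtain ⟨S, hS⟩ : ∃ S : Matrix I I (H →L[ℂ] H), S =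
    Matrix.of fun i j => bW (U (lam i)) (sg i) (μ i j) + if i = j then 1 - q i else 0 := ⟨_, rfl⟩
  obtain ⟨S', hS'⟩ : ∃ S' : Matrix I I (H →L[ℂ] H), S' =
    Matrix.of fun i j => bW (V (lam i)) (sg i) (μ i j) + if i = j then 1 - q i else 0 := ⟨_, rfl⟩
  have hn : Nr M N (κ / 2) X Y := by
    have u1 := (hs.mon hU hU).un
    have u2 := (hs.mon hU hV).un
    refine ⟨?_, ?_, ?_, ?_, ?_⟩
    · rw [hX]
      exact XX_mem (fun i => bW_mem _ (hUM _) (h.AM _ (hs.rA i).1)) fun i => h.AM _ (hq i).1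
    · rw [hY]
      exact XX_mem (fun i => bW_mem _ (hVN _) (h.AN _ (hs.rA i).1)) fun i => h.AN _ (hq i).1
    · rw [hX]
      exact ⟨u1.2, u1.1⟩
    · rw [hY]
      exact ⟨u2.2, u2.1⟩
    · rw [hX, hY]
      exact XX_near (by linarith) fun i => bW_near _ (norm_pr_le (hs.rA i).2) (hUV _)
  have hCn : Nr M N 0 C C := Nr.self le_rfl (fun i j => h.AM _ (hCA i j))
    (fun i j => h.AN _ (hCA i j)) hCU
  have hZ : Nr M N (κ / 2) (X * C) (Y * C) := (hn.mul hCn).mono (by linarith)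
  have hEs : star E = E := by
    rw [hE, diag_star]
    refine diag_congr fun i => ?_
    rw [star_sub, star_one, (he i).2.1]
  have hEE : E * E = E := by
    rw [hE, Matrix.diagonal_mul_diagonal]
    refine diag_congr fun i => ?_
    rw [mul_sub, mul_one, sub_mul, one_mul, (he i).2.2, sub_self, sub_zero]
  have hZE : X * C * E = S := by
    rw [mul_assoc, hE, hC, hX, hS]
    exact XX_C hs hm hU hU
  have hZE' : Y * C * E = S' := by
    rw [mul_assoc, hE, hC, hY, hS']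
    exact XX_C hs hm hU hV
  have hSs : star S = S := by rw [hS]; exact S_star hs hm hU
  have hSs' : star S' = S' := by rw [hS']; exact S_star hs hm hU
  obtain ⟨a1, a2, a3⟩ := sym_of hZ.uX.1 hEs hEE hZE hSs
  obtain ⟨b1, b2, b3⟩ := sym_of hZ.uY.1 hEs hEE hZE' hSs'
  have hEM : ∀ i j, E i j ∈ A := by
    rw [hE]
    exact diag_mem fun i => sub_mem (one_mem A) (he i).1
  have hsn : Nr M N (κ / 2) (S + (1 - E)) (S' + (1 - E)) := by
    refine ⟨fun i j => ?_, fun i j => ?_, ⟨?_, ?_⟩, ⟨?_, ?_⟩, ?_⟩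
    · rw [Matrix.add_apply, Matrix.sub_apply, ← hZE]
      exact add_mem (mem_mat_mul hZ.mX (fun i j => h.AM _ (hEM i j)) i j)
        (sub_mem (mem_mat_one i j) (h.AM _ (hEM i j)))
    · rw [Matrix.add_apply, Matrix.sub_apply, ← hZE']
      exact add_mem (mem_mat_mul hZ.mY (fun i j => h.AN _ (hEM i j)) i j)
        (sub_mem (mem_mat_one i j) (h.AN _ (hEM i j)))
    · rw [a1, a2]
    · rw [a1, a2]
    · rw [b1, b2]
    · rw [b1, b2]
    · rw [add_sub_add_right_eq_sub, ← hZE, ← hZE', ← sub_mul, mat_mul]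
      refine (norm_mul_le _ _).trans ?_
      have hEp : IsPr (mat E) := by
        constructor
        · rw [← mat_star, hEs]
        · rw [← mat_mul, hEE]
      calc ‖mat (X * C - Y * C)‖ * ‖mat E‖ ≤ κ / 2 * 1 :=
            mul_le_mul hZ.near (norm_pr_le hEp) (norm_nonneg _) (by linarith)
        _ = κ / 2 := mul_one _
  have hle : κ / 2 ≤ κ := by linarith
  have d1 : D C C = 0 := hD.nself h hκ hCA hCU
  have d2 : D (X * C) (Y * C) = D X Y + D C C :=
    hD.mul _ _ _ _ (hn.mono hle) (hCn.mono hκ)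
  have d3 : D (S + (1 - E)) (S' + (1 - E)) = 0 := hD.sq hκ (hsn.mono hle) a2 b2
  have d4 := hD.mul _ _ _ _ (hsn.mono hle) (hZ.mono hle)
  have d5 : D X Y = D ((S + (1 - E)) * (X * C)) ((S' + (1 - E)) * (Y * C)) := by
    rw [d4, d3, d2, d1]
    ring
  rw [← hX, ← hY, d5]
  refine hD.bd _ _ (fun i => q i - ∑ k, tm U nx sg lam μ k i) ((hsn.mul hZ).mono (by linarith))
    (fun i => he i) ?_ ?_
  · rw [← hE]
    exact a3
  · rw [← hE]
    exact b3

end Pool.Agent.H256.KS
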