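import Mathlib
import Pool.Agent.H256.KS.Sys3
import Pool.Agent.H256.KS.CobD

set_option autoImplicit false
set_option linter.unusedSectionVars false

/-! The matching inequality, end. -/

open Filter Topology Set
open scoped InnerProductSpace

namespace Pool.Agent.H256.KS

open Pool.Agent.TH254.CC H759R2.Kad

variable {H : Type} [NormedAddCommGroup H] [InnerProductSpace ℂ H] [CompleteSpace H]
variable {I : Type} [Fintype I] [DecidableEq I] {Γ : Type}

open Classical in
theorem exists_Mt (A : VonNeumannAlgebra H) (hA : ∀ a ∈ A, ∀ b ∈ A, a * b = b * a)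
    (sg : I → Bool) (lam : I → Γ) (rho : I → (H →L[ℂ] H)) (hr : ∀ i, rho i ∈ A ∧ IsPr (rho i)) :
    ∃ (μ : I → I → (H →L[ℂ] H)) (s : Γ → (H →L[ℂ] H)), Mt A sg lam rho μ ∧
      (∀ g, s g ∈ A ∧ star (s g) = s g ∧ ‖s g‖ ≤ 1) ∧
      ∀ Λ : Finset Γ, (∀ i, lam i ∈ Λ) → ∑ i, rho i - ∑ i, ∑ j, μ i j =
        ∑ x ∈ Λ, (∑ i, if lam i = x then sgc (sg i) • rho i else 0) * s x := by
  have zpr : IsPr (0 : H →L[ℂ] H) := ⟨star_zero _, mul_zero _⟩
  obtain ⟨m, s, m1, m2, m3, m4, m5, m6, m7, m8⟩ := exists_matching A hA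
    (fun i => if sg i then rho i else 0) (fun i => if sg i then 0 else rho i) lam lam (by
      intro i
      split_ifs
      · exact hr i
      · exact ⟨zero_mem A, zpr⟩) (by
      intro i
      split_ifs
      · exact ⟨zero_mem A, zpr⟩
      · exact hr i)
  have z1 : ∀ i j, sg i = false → m i j = 0 := by
    intro i j hi
    have := m2 i j
    simp only [hi] at this
    rw [← this]
    simp
  have z2 : ∀ i j, sg j = true → m i j = 0 := by
    intro i j hj
    have := m3 i j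
    simp only [hj] at this
    rw [← this]
    simp
  have l1 : ∀ i j, sg i = true → rho i * m i j = m i j := by
    intro i j hi
    have := m2 i j
    simpa only [hi, if_true] using this
  have l2 : ∀ i j, sg j = false → rho j * m i j = m i j := by
    intro i j hj
    have := m3 i j
    simpa [hj] using this
  have hμ : ∀ i j, (if sg i then m i j else m j i) = m i j + m j i := by
    intro i j
    cases hi : sg i
    · rw [z1 i j hi, zero_add]
      simp
    · rw [z2 j i hi, add_zero]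
      simp
  refine ⟨fun i j => if sg i then m i j else m j i, s, ?_, m7, ?_⟩
  · refine ⟨?_, ?_, ?_, ?_, ?_⟩
    · intro i j
      split_ifs
      · exact m1 i j
      · exact m1 j i
    · intro i j
      rw [hμ, hμ, add_comm]
    · intro i j
      cases hi : sg i
      · exact l2 j i hi
      · exact l1 i j hi
    · intro i j
      cases hi : sg i
      · intro h0
        change m j i ≠ 0 at h0
        refine ⟨?_, ?_⟩
        · by_contra hne
          exact h0 (m4 j i (fun h => hne h.symm))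
        · cases hj : sg j
          · exact absurd (z1 j i hj) h0
          · rfl
      · intro h0
        change m i j ≠ 0 at h0
        refine ⟨?_, ?_⟩
        · by_contra hne
          exact h0 (m4 i j hne)
        · cases hj : sg j
          · rfl
          · exact absurd (z2 i j hj) h0
    · intro i j k hjk
      cases hi : sg i
      · exact m6 j i k hjk
      · exact m5 i j k hjk
  · intro Λ hΛ
    have e1 : ∀ x, (∑ i, if lam i = x then sgc (sg i) • rho i else 0) =
        (∑ i, if lam i = x then (if sg i then rho i else 0) else 0) -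
        ∑ j, if lam j = x then (if sg j then 0 else rho j) else 0 := by
      intro x
      rw [← Finset.sum_sub_distrib]
      refine Finset.sum_congr rfl fun i _ => ?_
      by_cases hx : lam i = x
      · rw [if_pos hx, if_pos hx, if_pos hx]
        cases hi : sg i
        · simp [sgc]
        · simp [sgc]
      · rw [if_neg hx, if_neg hx, if_neg hx, sub_zero]
    have e2 : ∀ f : I → (H →L[ℂ] H), ∑ x ∈ Λ, ∑ i, (if lam i = x then f i else 0) = ∑ i, f i := by
      intro f
      rw [Finset.sum_comm]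
      refine Finset.sum_congr rfl fun i _ => ?_
      rw [Finset.sum_ite_eq Λ (lam i), if_pos (hΛ i)]
    have e3 : ∑ x ∈ Λ, ∑ i, ∑ j, (if lam i = x then m i j else 0) = ∑ i, ∑ j, m i j := by
      rw [← e2 (fun i => ∑ j, m i j)]
      refine Finset.sum_congr rfl fun x _ => Finset.sum_congr rfl fun i _ => ?_
      by_cases hx : lam i = x
      · simp only [if_pos hx]
      · simp only [if_neg hx, Finset.sum_const_zero]
    have e4 : ∑ i, ∑ j, (if sg i then m i j else m j i) = (2 : ℂ) • ∑ i, ∑ j, m i j := by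
      simp only [hμ, Finset.sum_add_distrib]
      rw [Finset.sum_comm (f := fun i j => m j i), two_smul]
    have e5 : ∑ i, rho i = ∑ i, (if sg i then rho i else 0) +
        ∑ j, (if sg j then 0 else rho j) := by
      rw [← Finset.sum_add_distrib]
      refine Finset.sum_congr rfl fun i _ => ?_
      cases sg i <;> simp
    have e6 : ∑ x ∈ Λ, (∑ i, if lam i = x then sgc (sg i) • rho i else 0) * s x =
        ∑ x ∈ Λ, ((∑ i, if lam i = x then if sg i = true then rho i else 0 else 0) +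
          (∑ j, if lam j = x then if sg j = true then 0 else rho j else 0) -
          (2 : ℂ) • ∑ i, ∑ j, if lam i = x then m i j else 0) :=
      Finset.sum_congr rfl fun x _ => by rw [e1, ← m8 x]
    rw [e6, Finset.sum_sub_distrib, Finset.sum_add_distrib, ← Finset.smul_sum, e2, e2, e3]
    refine (congrArg₂ _ e5 e4).trans ?_
    rfl

section trace

variable {M N A : VonNeumannAlgebra H} {ξ : H} {δ : ℝ}

theorem Pos.comm_tr (h : Pos M N ξ A δ) {a b : H →L[ℂ] H} (ha : a ∈ M) (hb : b ∈ M) :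
    ⟪ξ, (a * b) ξ⟫_ℂ = ⟪ξ, (b * a) ξ⟫_ℂ := by
  have := h.hM.comm a ha b hb
  rwa [ks_sv, ks_sv] at this

theorem Pos.tr_conj (h : Pos M N ξ A δ) {u a : H →L[ℂ] H} (hu : u ∈ M) (hu1 : Un u) (ha : a ∈ M) :
    ⟪ξ, (star u * a * u) ξ⟫_ℂ = ⟪ξ, a ξ⟫_ℂ := by
  rw [h.comm_tr (mul_mem (star_mem hu) ha) hu]
  have : u * (star u * a) = u * star u * a := (mul_assoc _ _ _).symm
  rw [this, hu1.2, one_mul]

theorem Pos.tr_ths (h : Pos M N ξ A δ) {u a : H →L[ℂ] H} (hu : u ∈ M) (hu1 : Un u) (ha : a ∈ M)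
    (b : Bool) : ⟪ξ, ths u b a ξ⟫_ℂ = ⟪ξ, a ξ⟫_ℂ := by
  cases b
  · exact h.tr_conj hu hu1 ha
  · rfl

end trace

open Classical in
theorem sys_star {M N A : VonNeumannAlgebra H} {ξ : H} {δ κ : ℝ}
    {D : Matrix I I (H →L[ℂ] H) → Matrix I I (H →L[ℂ] H) → ℝ} (h : Pos M N ξ A δ)
    (hD : Dd M N A ξ I κ D) (hκ : 0 ≤ κ) {U V : Γ → (H →L[ℂ] H)} {nx : Equiv.Perm I}
    {sg : I → Bool} {lam : I → Γ} {rho q : I → (H →L[ℂ] H)}
    (hs : Sy2 A U nx sg lam rho q) (hU : ∀ g, Cov A (U g) (U g))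
    (hUM : ∀ g, U g ∈ M) (hV : ∀ g, Cov A (U g) (V g)) (hVN : ∀ g, V g ∈ N)
    (hUV : ∀ g, ‖U g - V g‖ ≤ κ / 2) :
    ∃ s : Γ → (H →L[ℂ] H), (∀ x, s x ∈ A ∧ star (s x) = s x ∧ ‖s x‖ ≤ 1) ∧
      ∀ Λ : Finset Γ, (∀ i, lam i ∈ Λ) →
      |D (XX nx (fun i => bW (U (lam i)) (sg i) (rho i)) q)
        (XX nx (fun i => bW (V (lam i)) (sg i) (rho i)) q)| ≤ 2 * Real.pi *
        ∑ x ∈ Λ, (⟪ξ, ((∑ i, if lam i = x then sgc (sg i) • rho i else 0) * s x) ξ⟫_ℂ).re := by
  obtain ⟨μ, s, hm, hs1, hs2⟩ := exists_Mt A h.comm sg lam rho hs.rA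
  refine ⟨s, hs1, fun Λ hΛ => ?_⟩
  obtain ⟨b1, b2⟩ := sys_bound h hD hκ hs hm hU hUM hV hVN hUV
  refine b2.trans (le_of_eq ?_)
  congr 1
  have e1 : ∀ i, ⟪ξ, (q i - ∑ k, tm U nx sg lam μ k i) ξ⟫_ℂ =
      ⟪ξ, rho i ξ⟫_ℂ - ∑ k, ⟪ξ, μ k i ξ⟫_ℂ := by
    intro i
    rw [ContinuousLinearMap.sub_apply, inner_sub_right, ContinuousLinearMap.sum_apply, inner_sum]
    congr 1
    · rw [hs.q1, h.tr_ths (hUM _) (hU _).un (h.AM _ (hs.rA i).1)]
    · rw [← Equiv.sum_comp nx.symm (fun k => ⟪ξ, μ k i ξ⟫_ℂ)]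
      refine Finset.sum_congr rfl fun k _ => ?_
      unfold tm
      rw [tht_not, h.tr_ths (hUM _) (hU _).un (h.AM _ (hm.mA _ _).1)]
  have e2 := hs2 Λ hΛ
  have e3 : ⟪ξ, (∑ i, rho i - ∑ i, ∑ j, μ i j) ξ⟫_ℂ =
      ∑ i, ⟪ξ, rho i ξ⟫_ℂ - ∑ i, ∑ k, ⟪ξ, μ k i ξ⟫_ℂ := by
    rw [ContinuousLinearMap.sub_apply, inner_sub_right, ContinuousLinearMap.sum_apply, inner_sum,
      ContinuousLinearMap.sum_apply, inner_sum, Finset.sum_comm (f := fun i k => ⟪ξ, μ k i ξ⟫_ℂ)]
    congr 1
    refine Finset.sum_congr rfl fun i _ => ?_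
    rw [ContinuousLinearMap.sum_apply, inner_sum]
  rw [e2, ContinuousLinearMap.sum_apply, inner_sum] at e3
  rw [← Complex.re_sum, ← Complex.re_sum, e3]
  congr 1
  rw [← Finset.sum_sub_distrib]
  exact Finset.sum_congr rfl fun i _ => e1 i

end Pool.Agent.H256.KS
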