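import Mathlib
import Pool.Agent.H256.KS.Sys4

set_option autoImplicit false
set_option linter.unusedSectionVars false

/-! Systems of triangles. -/

open Filter Topology Set
open scoped InnerProductSpace

namespace Pool.Agent.H256.KS

open Pool.Agent.TH254.CC H759R2.Kad

variable {H : Type} [NormedAddCommGroup H] [InnerProductSpace ℂ H] [CompleteSpace H]

theorem fin3 {P : Fin 3 → Prop} (h0 : P 0) (h1 : P 1) (h2 : P 2) : ∀ k, P k := by
  intro k
  fin_cases k
  · exact h0
  · exact h1
  · exact h2

theorem ex_semi {a x y : H →L[ℂ] H} (h : a * x = y * a) : a * ex x = ex y * a := by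
  let +nondep : NormedAlgebra ℚ (H →L[ℂ] H) := .restrictScalars ℚ ℂ (H →L[ℂ] H)
  unfold ex
  have : SemiconjBy a (Complex.I • x) (Complex.I • y) := by
    show a * (Complex.I • x) = (Complex.I • y) * a
    rw [mul_smul_comm, smul_mul_assoc, h]
  exact this.exp_right

/-- step of a triangle -/
def st (b : Bool) : Fin 3 := cond b 1 2

/-- labels -/
def lam3 {α : Type} (b : Bool) (g h gh : α) (k : Fin 3) : α := cond b (![g, h, gh] k) (![gh, g, h] k)

/-- signs -/
def sg3 (b : Bool) (k : Fin 3) : Bool := cond b (![true, true, false] k) (![true, false, false] k)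

/-- projections -/
def rho3 {α : Type} (b : Bool) (p p' : α) (k : Fin 3) : α := cond b (![p, p', p] k) (![p, p, p'] k)

theorem lam3_map {α β : Type} (f : α → β) (b : Bool) (g h gh : α) :
    ∀ k, f (lam3 b g h gh k) = lam3 b (f g) (f h) (f gh) k := by
  cases b
  · exact fin3 rfl rfl rfl
  · exact fin3 rfl rfl rfl

theorem tri_q1 {u v uv p : H →L[ℂ] H} (huv : uv = u * v) (b : Bool) :
    ∀ k : Fin 3, (![p, star u * p * u, star uv * p * uv] k : H →L[ℂ] H) =
      ths (lam3 b u v uv k) (sg3 b k) (rho3 b p (star u * p * u) k) := by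
  subst huv
  cases b
  · refine fin3 rfl rfl ?_
    show star (u * v) * p * (u * v) = star v * (star u * p * u) * v
    rw [star_mul]
    noncomm_ring
  · exact fin3 rfl rfl rfl

theorem tri_q2 {u v uv p : H →L[ℂ] H} (huv : uv = u * v) (b : Bool) :
    ∀ k : Fin 3, (![p, star u * p * u, star uv * p * uv] (k + st b) : H →L[ℂ] H) =
      tht (lam3 b u v uv k) (sg3 b k) (rho3 b p (star u * p * u) k) := by
  subst huv
  cases b
  · exact fin3 rfl rfl rfl
  · refine fin3 rfl ?_ rfl
    show star (u * v) * p * (u * v) = star v * (star u * p * u) * v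
    rw [star_mul]
    noncomm_ring

theorem tri_cube {u v p : H →L[ℂ] H} (hu : Un u) (hv : Un v) (hp : p * p = p) (b : Bool) :
    ∀ k : Fin 3,
      bW (lam3 b u v (u * v) k) (sg3 b k) (rho3 b p (star u * p * u) k) *
      bW (lam3 b u v (u * v) (k + st b)) (sg3 b (k + st b)) (rho3 b p (star u * p * u) (k + st b)) *
      bW (lam3 b u v (u * v) (k + st b + st b)) (sg3 b (k + st b + st b))
        (rho3 b p (star u * p * u) (k + st b + st b)) =
      (![p, star u * p * u, star (u * v) * p * (u * v)] k : H →L[ℂ] H) := by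
  have A1 : ∀ x, u * (star u * x) = x := fun x => by rw [← mul_assoc, hu.2, one_mul]
  have B1 : ∀ x, v * (star v * x) = x := fun x => by rw [← mul_assoc, hv.2, one_mul]
  have P1 : ∀ x, p * (p * x) = p * x := fun x => by rw [← mul_assoc, hp]
  cases b
  · refine fin3 ?_ ?_ ?_
    · show p * (u * v) * (star v * (star u * p * u)) * (star u * p) = p
      simp only [star_mul, mul_assoc, A1, B1, P1, hp]
    · show star u * p * (p * (u * v)) * (star v * (star u * p * u)) = star u * p * u
      simp only [star_mul, mul_assoc, A1, B1, P1, hp]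
    · show star v * (star u * p * u) * (star u * p) * (p * (u * v)) =
        star (u * v) * p * (u * v)
      simp only [star_mul, mul_assoc, A1, B1, P1, hp]
  · refine fin3 ?_ ?_ ?_
    · show p * u * (star u * p * u * v) * (star (u * v) * p) = p
      simp only [star_mul, mul_assoc, A1, B1, P1, hp]
    · show star u * p * u * v * (star (u * v) * p) * (p * u) = star u * p * u
      simp only [star_mul, mul_assoc, A1, B1, P1, hp]
    · show star (u * v) * p * (p * u) * (star u * p * u * v) = star (u * v) * p * (u * v)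
      simp only [star_mul, mul_assoc, A1, B1, P1, hp]

/-- first correction -/
def cp3 (b : Bool) (x : H →L[ℂ] H) (k : Fin 3) : H →L[ℂ] H := cond b (![x, 0, 0] k) 0

/-- second correction -/
def cm3 (b : Bool) (x : H →L[ℂ] H) (k : Fin 3) : H →L[ℂ] H := cond b 0 (![-x, 0, 0] k)

theorem tri_corr {u v w c p : H →L[ℂ] H} (hu : Un u) (hv : Un v) (hp : IsPr p)
    (hc : IsSelfAdjoint c) (hpc : p * c = c * p) (hw : u * v = ex c * w) (p' : H →L[ℂ] H)
    (b : Bool) : ∀ k : Fin 3,
      ex (cm3 b (p * c) k) * bW (lam3 b u v (u * v) k) (sg3 b k) (rho3 b p p' k) *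
        ex (cp3 b (p * c) (k + st b)) = bW (lam3 b u v w k) (sg3 b k) (rho3 b p p' k) := by
  have h1 : p * ex (p * c) = ex c * p := ex_semi (by rw [← mul_assoc, hp.2, hpc])
  have h1' : ex (-(p * c)) * p = p * ex (-c) := by
    refine (ex_semi ?_).symm
    rw [mul_neg, neg_mul, mul_assoc, ← hpc, ← mul_assoc, hp.2]
  have h2 : ex (-c) * ex c = 1 := ex_neg_mul c
  cases b
  · refine fin3 ?_ ?_ ?_
    · show ex (-(p * c)) * (p * (u * v)) * ex 0 = p * w
      rw [ex_zero, mul_one, ← mul_assoc, h1', hw]
      calc p * ex (-c) * (ex c * w) = p * (ex (-c) * ex c) * w := by noncomm_ring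
        _ = p * w := by rw [h2, mul_one]
    · show ex 0 * (star u * p) * ex 0 = star u * p
      rw [ex_zero, mul_one, one_mul]
    · show ex 0 * (star v * p') * ex 0 = star v * p'
      rw [ex_zero, mul_one, one_mul]
  · refine fin3 ?_ ?_ ?_
    · show ex 0 * (p * u) * ex 0 = p * u
      rw [ex_zero, mul_one, one_mul]
    · show ex 0 * (p' * v) * ex 0 = p' * v
      rw [ex_zero, mul_one, one_mul]
    · show ex 0 * (star (u * v) * p) * ex (p * c) = star w * p
      rw [ex_zero, one_mul, mul_assoc, h1, hw, star_mul, ex_star hc]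
      calc star w * ex (-c) * (ex c * p) = star w * (ex (-c) * ex c) * p := by noncomm_ring
        _ = star w * p := by rw [h2, mul_one]

theorem tri_corr1 {c p : H →L[ℂ] H} (hp : IsPr p) (hpc : p * c = c * p) (p' p'' : H →L[ℂ] H)
    (b : Bool) : ∀ k : Fin 3, ex (cm3 b (p * c) k) * (1 - (![p, p', p''] k : H →L[ℂ] H)) *
        ex (cp3 b (p * c) k) = 1 - (![p, p', p''] k : H →L[ℂ] H) := by
  have h1 : (1 - p) * ex (p * c) = 1 - p := by
    have := ex_semi (a := 1 - p) (x := p * c) (y := 0) (by
      rw [sub_mul, one_mul, ← mul_assoc, hp.2, sub_self, zero_mul])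
    rw [this, ex_zero, one_mul]
  have h1' : ex (-(p * c)) * (1 - p) = 1 - p := by
    have := ex_semi (a := 1 - p) (x := 0) (y := -(p * c)) (by
      rw [mul_zero, mul_sub, mul_one, neg_mul, hpc, mul_assoc, hp.2]
      abel)
    rw [← this, ex_zero, mul_one]
  cases b
  · refine fin3 ?_ ?_ ?_
    · show ex (-(p * c)) * (1 - p) * ex 0 = 1 - p
      rw [ex_zero, mul_one, h1']
    · show ex 0 * (1 - p') * ex 0 = 1 - p'
      rw [ex_zero, mul_one, one_mul]
    · show ex 0 * (1 - p'') * ex 0 = 1 - p''
      rw [ex_zero, mul_one, one_mul]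
  · refine fin3 ?_ ?_ ?_
    · show ex 0 * (1 - p) * ex (p * c) = 1 - p
      rw [ex_zero, one_mul, h1]
    · show ex 0 * (1 - p') * ex 0 = 1 - p'
      rw [ex_zero, mul_one, one_mul]
    · show ex 0 * (1 - p'') * ex 0 = 1 - p''
      rw [ex_zero, mul_one, one_mul]

theorem XX_corr {I : Type} [Fintype I] [DecidableEq I] {nx : Equiv.Perm I}
    {w w' q e f : I → (H →L[ℂ] H)} (h1 : ∀ i, e i * w i * f (nx i) = w' i)
    (h2 : ∀ i, e i * (1 - q i) * f i = 1 - q i) :
    Matrix.diagonal e * XX nx w q * Matrix.diagonal f = XX nx w' q := by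
  ext1 i j
  rw [Matrix.mul_diagonal, Matrix.diagonal_mul, XX_apply, XX_apply, mul_add, add_mul]
  congr 1
  · split_ifs with a
    · rw [a, h1]
    · rw [mul_zero, zero_mul]
  · split_ifs with a
    · subst a
      rw [h2]
    · rw [mul_zero, zero_mul]

end Pool.Agent.H256.KS
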