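import Mathlib
import Pool.Agent.H256.KS.Tri

set_option autoImplicit false
set_option linter.unusedSectionVars false

/-! The inequality for chains of projections. -/

open Filter Topology Set
open scoped InnerProductSpace

namespace Pool.Agent.H256.KS

open Pool.Agent.TH254.CC H759R2.Kad

variable {H : Type} [NormedAddCommGroup H] [InnerProductSpace ℂ H] [CompleteSpace H]

/-- the permutation of a system of triangles -/
def nxT {J : Type} (b : J → Bool) : Equiv.Perm (J × Fin 3) where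
  toFun i := (i.1, i.2 + st (b i.1))
  invFun i := (i.1, i.2 - st (b i.1))
  left_inv i := by simp
  right_inv i := by simp

theorem nxT_cube {J : Type} (b : J → Bool) (i : J × Fin 3) : nxT b (nxT b (nxT b i)) = i := by
  obtain ⟨j, k⟩ := i
  show (j, k + st (b j) + st (b j) + st (b j)) = (j, k)
  have : ∀ (c : Bool) (k : Fin 3), k + st c + st c + st c = k := by decide
  rw [this]

/-- the monomial matrix with unitaries indexed by the index set -/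
theorem mon_of {I : Type} [Fintype I] [DecidableEq I] {A : VonNeumannAlgebra H}
    {u W : I → (H →L[ℂ] H)} {nx : Equiv.Perm I} {sg : I → Bool} {rho q : I → (H →L[ℂ] H)}
    (hr : ∀ i, rho i ∈ A ∧ IsPr (rho i)) (h1 : ∀ i, q i = ths (u i) (sg i) (rho i))
    (h2 : ∀ i, q (nx i) = tht (u i) (sg i) (rho i)) (hU : ∀ i, Cov A (u i) (u i))
    (hW : ∀ i, Cov A (u i) (W i)) : Mon nx (fun i => bW (W i) (sg i) (rho i)) q := by
  refine ⟨fun i => ?_, fun i => ?_, fun i => ?_⟩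
  · rw [h1]
    exact (hU i).ths_pr _ (hr i).1 (hr i).2
  · rw [(hW _).bW_star _ (hr i).1 (hr i).1 (hr i).2.1, (hr i).2.2, h1]
  · rw [(hW _).star_bW _ (hr i).1 (hr i).1 (hr i).2.1, (hr i).2.2, h2]

theorem Cov.mul {A : VonNeumannAlgebra H} {u v u' v' : H →L[ℂ] H} (h : Cov A u v)
    (h' : Cov A u' v') : Cov A (u * u') (v * v') := by
  refine ⟨h.un.mul h'.un, fun a ha => ?_, fun a ha => ?_⟩
  · have e : star (u * u') * a * (u * u') = star u' * (star u * a * u) * u' := by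
      rw [star_mul]
      noncomm_ring
    rw [e]
    exact h'.cA _ (h.cA a ha)
  · have e : star (u * u') * a * (u * u') = star u' * (star u * a * u) * u' := by
      rw [star_mul]
      noncomm_ring
    have e' : star (v * v') * a * (v * v') = star v' * (star v * a * v) * v' := by
      rw [star_mul]
      noncomm_ring
    rw [e, e', h.cv a ha, h'.cv _ (h.cA a ha)]

open Classical in
theorem kap_eq {J Γ : Type} [Fintype J] [Group Γ] (U : Γ → (H →L[ℂ] H)) (g h : J → Γ)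
    (b : J → Bool) (p : J → (H →L[ℂ] H)) (x : Γ) :
    (∑ i : J × Fin 3, if lam3 (b i.1) (g i.1) (h i.1) (g i.1 * h i.1) i.2 = x then
      sgc (sg3 (b i.1) i.2) • rho3 (b i.1) (p i.1) (star (U (g i.1)) * p i.1 * U (g i.1)) i.2
      else 0) = kap U g h b p x := by
  rw [Fintype.sum_prod_type]
  unfold kap
  refine Finset.sum_congr rfl fun j _ => ?_
  rw [Fin.sum_univ_three]
  have e0 : ∀ (c : Prop) [Decidable c] (a : ℂ) (y : H →L[ℂ] H), (if c then a • y else 0) =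
      a • (if c then y else 0) := by
    intro c _ a y
    split_ifs
    · rfl
    · rw [smul_zero]
  cases hb : b j
  · show (if g j * h j = x then (1 : ℂ) • p j else 0) + (if g j = x then (-1 : ℂ) • p j else 0) +
      (if h j = x then (-1 : ℂ) • (star (U (g j)) * p j * U (g j)) else 0) = (-1 : ℂ) • _
    rw [e0, e0, e0]
    rw [one_smul, neg_smul, neg_smul, neg_smul, one_smul, one_smul, one_smul]
    abel
  · show (if g j = x then (1 : ℂ) • p j else 0) +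
      (if h j = x then (1 : ℂ) • (star (U (g j)) * p j * U (g j)) else 0) +
      (if g j * h j = x then (-1 : ℂ) • p j else 0) = (1 : ℂ) • _
    rw [e0, e0, e0]
    rw [one_smul, neg_smul, one_smul, one_smul, one_smul]
    abel

open Classical in
theorem tri_star {M N A : VonNeumannAlgebra H} {ξ : H} {δ κ : ℝ} (h : Pos M N ξ A δ)
    {J Γ : Type} [Fintype J] [Group Γ]
    {D : Matrix (J × Fin 3) (J × Fin 3) (H →L[ℂ] H) →
      Matrix (J × Fin 3) (J × Fin 3) (H →L[ℂ] H) → ℝ}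
    (hD : Dd M N A ξ (J × Fin 3) κ D) (hκ : 0 < κ) {U V : Γ → (H →L[ℂ] H)}
    (hUm : ∀ x y, U (x * y) = U x * U y) (hU : ∀ g, Cov A (U g) (U g)) (hUM : ∀ g, U g ∈ M)
    (hV : ∀ g, Cov A (U g) (V g)) (hVN : ∀ g, V g ∈ N) (hUV : ∀ g, ‖U g - V g‖ ≤ κ / 8)
    {c : Γ → Γ → (H →L[ℂ] H)}
    (hc : ∀ x y, c x y ∈ A ∧ IsSelfAdjoint (c x y) ∧ ‖c x y‖ ≤ κ / 8)
    (hcV : ∀ x y, V x * V y = ex (c x y) * V (x * y)) (g k : J → Γ) (b : J → Bool)
    (p : J → (H →L[ℂ] H)) (hp : ∀ j, p j ∈ A ∧ IsPr (p j)) :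
    ∃ s : Γ → (H →L[ℂ] H), (∀ x, s x ∈ A ∧ star (s x) = s x ∧ ‖s x‖ ≤ 1) ∧
      ∀ Λ : Finset Γ, (∀ j, g j ∈ Λ ∧ k j ∈ Λ ∧ g j * k j ∈ Λ) →
      |(∑ j, sgc (b j) * ⟪ξ, (p j * c (g j) (k j)) ξ⟫_ℂ).re| ≤ 4 * Real.pi *
        ∑ x ∈ Λ, (⟪ξ, (kap U g k b p x * s x) ξ⟫_ℂ).re := by
  obtain ⟨nx, hnx⟩ : ∃ nx : Equiv.Perm (J × Fin 3), nx = nxT b := ⟨_, rfl⟩
  obtain ⟨lam, hlam⟩ : ∃ lam : J × Fin 3 → Γ,
    lam = fun i => lam3 (b i.1) (g i.1) (k i.1) (g i.1 * k i.1) i.2 := ⟨_, rfl⟩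
  obtain ⟨sg, hsg⟩ : ∃ sg : J × Fin 3 → Bool, sg = fun i => sg3 (b i.1) i.2 := ⟨_, rfl⟩
  obtain ⟨rho, hrho⟩ : ∃ rho : J × Fin 3 → (H →L[ℂ] H),
    rho = fun i => rho3 (b i.1) (p i.1) (star (U (g i.1)) * p i.1 * U (g i.1)) i.2 := ⟨_, rfl⟩
  obtain ⟨q, hq⟩ : ∃ q : J × Fin 3 → (H →L[ℂ] H),
    q = fun i => ![p i.1, star (U (g i.1)) * p i.1 * U (g i.1),
      star (U (g i.1 * k i.1)) * p i.1 * U (g i.1 * k i.1)] i.2 := ⟨_, rfl⟩
  have hs : Sy2 A U nx sg lam rho q := by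
    refine ⟨?_, ?_, ?_⟩
    · rintro ⟨j, i⟩
      rw [hrho]
      have hp' : star (U (g j)) * p j * U (g j) ∈ A ∧ IsPr (star (U (g j)) * p j * U (g j)) :=
        ⟨(hU (g j)).cA _ (hp j).1, (hU (g j)).ths_pr false (hp j).1 (hp j).2⟩
      show rho3 (b j) (p j) (star (U (g j)) * p j * U (g j)) i ∈ A ∧
        IsPr (rho3 (b j) (p j) (star (U (g j)) * p j * U (g j)) i)
      revert i
      cases b j
      · exact fin3 (hp j) (hp j) hp'
      · exact fin3 (hp j) hp' (hp j)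
    · rintro ⟨j, i⟩
      rw [hq, hlam, hsg, hrho]
      show (![p j, star (U (g j)) * p j * U (g j),
        star (U (g j * k j)) * p j * U (g j * k j)] i : H →L[ℂ] H) =
        ths (U (lam3 (b j) (g j) (k j) (g j * k j) i)) (sg3 (b j) i)
          (rho3 (b j) (p j) (star (U (g j)) * p j * U (g j)) i)
      rw [lam3_map U]
      exact tri_q1 (hUm _ _) (b j) i
    · rintro ⟨j, i⟩
      rw [hq, hlam, hsg, hrho, hnx]
      show (![p j, star (U (g j)) * p j * U (g j),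
        star (U (g j * k j)) * p j * U (g j * k j)] (i + st (b j)) : H →L[ℂ] H) =
        tht (U (lam3 (b j) (g j) (k j) (g j * k j) i)) (sg3 (b j) i)
          (rho3 (b j) (p j) (star (U (g j)) * p j * U (g j)) i)
      rw [lam3_map U]
      exact tri_q2 (hUm _ _) (b j) i
  obtain ⟨s, hs1, hs2⟩ := sys_star h hD hκ.le hs hU hUM hV hVN
    (fun g => (hUV g).trans (by linarith))
  refine ⟨s, hs1, fun Λ hΛ => ?_⟩
  have hlΛ : ∀ i, lam i ∈ Λ := by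
    rintro ⟨j, i⟩
    rw [hlam]
    show lam3 (b j) (g j) (k j) (g j * k j) i ∈ Λ
    revert i
    cases b j
    · exact fin3 (hΛ j).2.2 (hΛ j).1 (hΛ j).2.1
    · exact fin3 (hΛ j).1 (hΛ j).2.1 (hΛ j).2.2
  have key := hs2 Λ hlΛ
  have hkap : ∀ x, (∑ i, if lam i = x then sgc (sg i) • rho i else 0) = kap U g k b p x := by
    intro x
    rw [← kap_eq U g k b p x, hlam, hsg, hrho]
  simp only [hkap] at key
  -- the second matrix
  obtain ⟨Wt, hWt⟩ : ∃ Wt : J × Fin 3 → (H →L[ℂ] H),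
    Wt = fun i => lam3 (b i.1) (V (g i.1)) (V (k i.1)) (V (g i.1) * V (k i.1)) i.2 := ⟨_, rfl⟩
  obtain ⟨X, hX⟩ : ∃ X, X = XX nx (fun i => bW (U (lam i)) (sg i) (rho i)) q := ⟨_, rfl⟩
  obtain ⟨Y, hY⟩ : ∃ Y, Y = XX nx (fun i => bW (V (lam i)) (sg i) (rho i)) q := ⟨_, rfl⟩
  obtain ⟨Y', hY'⟩ : ∃ Y', Y' = XX nx (fun i => bW (Wt i) (sg i) (rho i)) q := ⟨_, rfl⟩
  rw [← hX, ← hY] at key
  have hcov : ∀ i, Cov A (U (lam i)) (Wt i) := by
    rintro ⟨j, i⟩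
    rw [hlam, hWt]
    show Cov A (U (lam3 (b j) (g j) (k j) (g j * k j) i))
      (lam3 (b j) (V (g j)) (V (k j)) (V (g j) * V (k j)) i)
    have h3 : Cov A (U (g j * k j)) (V (g j) * V (k j)) := by
      rw [hUm]
      exact (hV _).mul (hV _)
    revert i
    cases b j
    · exact fin3 h3 (hV _) (hV _)
    · exact fin3 (hV _) (hV _) h3
  have hWtN : ∀ i, Wt i ∈ N := by
    rintro ⟨j, i⟩
    rw [hWt]
    show lam3 (b j) (V (g j)) (V (k j)) (V (g j) * V (k j)) i ∈ N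
    revert i
    cases b j
    · exact fin3 (mul_mem (hVN _) (hVN _)) (hVN _) (hVN _)
    · exact fin3 (hVN _) (hVN _) (mul_mem (hVN _) (hVN _))
  have hWtn : ∀ i, ‖U (lam i) - Wt i‖ ≤ κ / 4 := by
    rintro ⟨j, i⟩
    rw [hlam, hWt]
    show ‖U (lam3 (b j) (g j) (k j) (g j * k j) i) -
      lam3 (b j) (V (g j)) (V (k j)) (V (g j) * V (k j)) i‖ ≤ κ / 4
    have n1 : ∀ x, ‖U x - V x‖ ≤ κ / 4 := fun x => (hUV x).trans (by linarith)
    have n2 : ‖U (g j * k j) - V (g j) * V (k j)‖ ≤ κ / 4 := by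
      rw [hUm]
      have := near_mul (hV (g j)).un (hU (k j)).un (hUV (g j)) (hUV (k j))
      linarith
    revert i
    cases b j
    · exact fin3 n2 (n1 _) (n1 _)
    · exact fin3 (n1 _) (n1 _) n2
  have hqA := hs.qA hU
  have m1 := mon_of (u := fun i => U (lam i)) (W := fun i => U (lam i)) hs.rA hs.q1 hs.q2
    (fun i => hU _) (fun i => hU _)
  have m2 := mon_of (u := fun i => U (lam i)) (W := Wt) hs.rA hs.q1 hs.q2
    (fun i => hU _) hcov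
  have nXY : Nr M N (κ / 4) X Y' := by
    refine ⟨?_, ?_, ?_, ?_, ?_⟩
    · rw [hX]
      exact XX_mem (fun i => bW_mem _ (hUM _) (h.AM _ (hs.rA i).1)) fun i => h.AM _ (hqA i).1
    · rw [hY']
      exact XX_mem (fun i => bW_mem _ (hWtN _) (h.AN _ (hs.rA i).1)) fun i => h.AN _ (hqA i).1
    · rw [hX]
      exact ⟨m1.un.2, m1.un.1⟩
    · rw [hY']
      exact ⟨m2.un.2, m2.un.1⟩
    · rw [hX, hY']
      exact XX_near (by linarith) fun i => bW_near _ (norm_pr_le (hs.rA i).2) (hWtn _)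
  have hX3 : X * X * X = 1 := by
    rw [hX]
    refine m1.cube (by rw [hnx]; exact nxT_cube b) ?_
    rintro ⟨j, i⟩
    have := tri_cube (hU (g j)).un (hU (k j)).un (hp j).2.2 (b j) i
    rw [← hUm, ← lam3_map U, ← lam3_map U, ← lam3_map U] at this
    rw [hlam, hsg, hrho, hq, hnx]
    exact this
  have hY3 : Y' * Y' * Y' = 1 := by
    rw [hY']
    refine m2.cube (by rw [hnx]; exact nxT_cube b) ?_
    rintro ⟨j, i⟩
    have := tri_cube (hV (g j)).un (hV (k j)).un (hp j).2.2 (b j) i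
    have e1 := (hV (g j)).cv _ (hp j).1
    have e2 := ((hV (g j)).mul (hV (k j))).cv _ (hp j).1
    rw [← hUm] at e2
    rw [e1, e2] at this
    rw [hWt, hsg, hrho, hq, hnx]
    exact this
  have z1 : D X Y' = 0 := hD.cube hκ.le (nXY.mono (by linarith)) hX3 hY3
  -- corrections
  obtain ⟨cm, hcm⟩ : ∃ cm : J × Fin 3 → (H →L[ℂ] H),
    cm = fun i => cm3 (b i.1) (p i.1 * c (g i.1) (k i.1)) i.2 := ⟨_, rfl⟩
  obtain ⟨cp, hcp⟩ : ∃ cp : J × Fin 3 → (H →L[ℂ] H),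
    cp = fun i => cp3 (b i.1) (p i.1 * c (g i.1) (k i.1)) i.2 := ⟨_, rfl⟩
  have hpcA : ∀ j, p j * c (g j) (k j) ∈ A := fun j => mul_mem (hp j).1 (hc _ _).1
  have hpcc : ∀ j, p j * c (g j) (k j) = c (g j) (k j) * p j := fun j =>
    h.comm _ (hp j).1 _ (hc _ _).1
  have hpcs : ∀ j, IsSelfAdjoint (p j * c (g j) (k j)) := by
    intro j
    unfold IsSelfAdjoint
    rw [star_mul, (hp j).2.1, (hc _ _).2.1.star_eq, hpcc]
  have hpcn : ∀ j, ‖p j * c (g j) (k j)‖ ≤ κ / 8 := by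
    intro j
    refine (norm_mul_le _ _).trans ?_
    calc ‖p j‖ * ‖c (g j) (k j)‖ ≤ 1 * (κ / 8) :=
          mul_le_mul (norm_pr_le (hp j).2) (hc _ _).2.2 (norm_nonneg _) zero_le_one
      _ = κ / 8 := one_mul _
  have z0 : (0 : H →L[ℂ] H) ∈ A ∧ IsSelfAdjoint (0 : H →L[ℂ] H) ∧ ‖(0 : H →L[ℂ] H)‖ ≤ κ / 8 :=
    ⟨zero_mem A, IsSelfAdjoint.zero _, by rw [norm_zero]; linarith⟩
  have hcmA : ∀ i, cm i ∈ A ∧ IsSelfAdjoint (cm i) ∧ ‖cm i‖ ≤ κ / 8 := by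
    rintro ⟨j, i⟩
    rw [hcm]
    show cm3 (b j) (p j * c (g j) (k j)) i ∈ A ∧ IsSelfAdjoint (cm3 (b j) (p j * c (g j) (k j)) i) ∧
      ‖cm3 (b j) (p j * c (g j) (k j)) i‖ ≤ κ / 8
    have zn : -(p j * c (g j) (k j)) ∈ A ∧ IsSelfAdjoint (-(p j * c (g j) (k j))) ∧
        ‖-(p j * c (g j) (k j))‖ ≤ κ / 8 :=
      ⟨neg_mem (hpcA j), (hpcs j).neg, by rw [norm_neg]; exact hpcn j⟩
    revert i
    cases b j
    · exact fin3 zn z0 z0
    · exact fin3 z0 z0 z0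
  have hcpA : ∀ i, cp i ∈ A ∧ IsSelfAdjoint (cp i) ∧ ‖cp i‖ ≤ κ / 8 := by
    rintro ⟨j, i⟩
    rw [hcp]
    show cp3 (b j) (p j * c (g j) (k j)) i ∈ A ∧ IsSelfAdjoint (cp3 (b j) (p j * c (g j) (k j)) i) ∧
      ‖cp3 (b j) (p j * c (g j) (k j)) i‖ ≤ κ / 8
    revert i
    cases b j
    · exact fin3 z0 z0 z0
    · exact fin3 ⟨hpcA j, hpcs j, hpcn j⟩ z0 z0
  have hcorr : Matrix.diagonal (fun i => ex (cm i)) * Y' * Matrix.diagonal (fun i => ex (cp i)) =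
      Y := by
    rw [hY', hY]
    refine XX_corr ?_ ?_
    · rintro ⟨j, i⟩
      have := tri_corr (hV (g j)).un (hV (k j)).un (hp j).2 (hc (g j) (k j)).2.1 (hpcc j)
        (hcV (g j) (k j)) (star (U (g j)) * p j * U (g j)) (b j) i
      rw [← lam3_map V] at this
      rw [hWt, hsg, hrho, hnx, hcm, hcp, hlam]
      exact this
    · rintro ⟨j, i⟩
      have := tri_corr1 (hp j).2 (hpcc j) (star (U (g j)) * p j * U (g j))
        (star (U (g j * k j)) * p j * U (g j * k j)) (b j) i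
      rw [hq, hcm, hcp]
      exact this
  have hdn : ∀ d : J × Fin 3 → (H →L[ℂ] H),
      (∀ i, d i ∈ A ∧ IsSelfAdjoint (d i) ∧ ‖d i‖ ≤ κ / 8) →
      Nr M N (κ / 8) 1 (Matrix.diagonal fun i => ex (d i)) := by
    intro d hd
    refine ⟨mem_mat_one, diag_mem fun i => ex_mem N (h.AN _ (hd i).1), Um.one, ⟨?_, ?_⟩, ?_⟩
    · rw [diag_star, Matrix.diagonal_mul_diagonal, ← diag_one]
      exact diag_congr fun i => (ex_un (hd i).2.1).1
    · rw [diag_star, Matrix.diagonal_mul_diagonal, ← diag_one]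
      exact diag_congr fun i => (ex_un (hd i).2.1).2
    · rw [← diag_one, Matrix.diagonal_sub]
      refine norm_mat_diagonal _ _ (by linarith) fun i => ?_
      rw [norm_sub_rev]
      exact (ex_near (hd i).2.1).trans (hd i).2.2
  have n1 := hdn cm hcmA
  have n2 := hdn cp hcpA
  have d1 := hD.mul _ _ _ _ (n1.mono (show κ / 8 ≤ κ by linarith))
    (nXY.mono (show κ / 4 ≤ κ by linarith))
  have d2 := hD.mul _ _ _ _ ((n1.mul nXY).mono (show κ / 8 + κ / 4 ≤ κ by linarith))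
    (n2.mono (show κ / 8 ≤ κ by linarith))
  rw [one_mul, mul_one, hcorr] at d2
  rw [one_mul] at d1
  have d3 := hD.exx cm fun i => ⟨(hcmA i).1, (hcmA i).2.1, (hcmA i).2.2.trans (by linarith)⟩
  have d4 := hD.exx cp fun i => ⟨(hcpA i).1, (hcpA i).2.1, (hcpA i).2.2.trans (by linarith)⟩
  have d5 : ∑ i, (⟪ξ, cm i ξ⟫_ℂ).re + ∑ i, (⟪ξ, cp i ξ⟫_ℂ).re =
      (∑ j, sgc (b j) * ⟪ξ, (p j * c (g j) (k j)) ξ⟫_ℂ).re := by
    rw [Complex.re_sum, Fintype.sum_prod_type, Fintype.sum_prod_type, ← Finset.sum_add_distrib]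
    refine Finset.sum_congr rfl fun j _ => ?_
    rw [Fin.sum_univ_three, Fin.sum_univ_three, hcm, hcp]
    show (⟪ξ, cm3 (b j) (p j * c (g j) (k j)) 0 ξ⟫_ℂ).re +
      (⟪ξ, cm3 (b j) (p j * c (g j) (k j)) 1 ξ⟫_ℂ).re +
      (⟪ξ, cm3 (b j) (p j * c (g j) (k j)) 2 ξ⟫_ℂ).re +
      ((⟪ξ, cp3 (b j) (p j * c (g j) (k j)) 0 ξ⟫_ℂ).re +
      (⟪ξ, cp3 (b j) (p j * c (g j) (k j)) 1 ξ⟫_ℂ).re +
      (⟪ξ, cp3 (b j) (p j * c (g j) (k j)) 2 ξ⟫_ℂ).re) = _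
    have zz : (⟪ξ, (0 : H →L[ℂ] H) ξ⟫_ℂ).re = 0 := by simp
    cases b j
    · show (⟪ξ, (-(p j * c (g j) (k j))) ξ⟫_ℂ).re + (⟪ξ, (0 : H →L[ℂ] H) ξ⟫_ℂ).re +
        (⟪ξ, (0 : H →L[ℂ] H) ξ⟫_ℂ).re + ((⟪ξ, (0 : H →L[ℂ] H) ξ⟫_ℂ).re +
        (⟪ξ, (0 : H →L[ℂ] H) ξ⟫_ℂ).re + (⟪ξ, (0 : H →L[ℂ] H) ξ⟫_ℂ).re) =
        ((-1 : ℂ) * ⟪ξ, (p j * c (g j) (k j)) ξ⟫_ℂ).re
      rw [zz, ContinuousLinearMap.neg_apply, inner_neg_right, neg_one_mul]
      ring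
    · show (⟪ξ, (0 : H →L[ℂ] H) ξ⟫_ℂ).re + (⟪ξ, (0 : H →L[ℂ] H) ξ⟫_ℂ).re +
        (⟪ξ, (0 : H →L[ℂ] H) ξ⟫_ℂ).re + ((⟪ξ, (p j * c (g j) (k j)) ξ⟫_ℂ).re +
        (⟪ξ, (0 : H →L[ℂ] H) ξ⟫_ℂ).re + (⟪ξ, (0 : H →L[ℂ] H) ξ⟫_ℂ).re) =
        ((1 : ℂ) * ⟪ξ, (p j * c (g j) (k j)) ξ⟫_ℂ).re
      rw [zz, one_mul]
      ring
  have d6 : (∑ j, sgc (b j) * ⟪ξ, (p j * c (g j) (k j)) ξ⟫_ℂ).re = 2 * D X Y := by
    rw [d2, d1, z1, d3, d4, ← d5]
    ring
  rw [d6, abs_mul, abs_of_pos (show (0 : ℝ) < 2 by norm_num)]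
  linarith [key]

end Pool.Agent.H256.KS
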