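import Mathlib
import Pool.Agent.H256.KS.Tri2
import Pool.Agent.H256.KS.Cob
import Pool.Agent.H256.KS.Rep

set_option autoImplicit false
set_option linter.unusedSectionVars false

/-! Two near finite factors in good position, one of them a crossed product, are isomorphic. -/

open Filter Topology Set
open scoped InnerProductSpace

namespace Pool.Agent.H256.KS

open Pool.Agent.TH254.CC H759R2.Kad

variable {H : Type} [NormedAddCommGroup H] [InnerProductSpace ℂ H] [CompleteSpace H]

section pos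

variable {M N A : VonNeumannAlgebra H} {ξ : H} {δ : ℝ}

theorem Pos.norm_vec (h : Pos M N ξ A δ) : ‖ξ‖ = 1 := by
  have h1 := h.hM.one
  rw [ks_sv] at h1
  change ⟪ξ, ξ⟫_ℂ = 1 at h1
  rw [inner_self_eq_norm_sq_to_K] at h1
  have h2 : ‖ξ‖ ^ 2 = 1 := by
    have h3 : (((‖ξ‖ ^ 2 : ℝ)) : ℂ) = 1 := by
      rw [← h1]
      push_cast
      rfl
    exact_mod_cast h3
  nlinarith [norm_nonneg ξ]

theorem Pos.faith (h : Pos M N ξ A δ) : ∀ a ∈ A, a ξ = 0 → a = 0 := by
  intro a ha h0
  refine h.hM.faithful a (h.AM a ha) ?_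
  rw [ks_sv]
  show ⟪ξ, star a (a ξ)⟫_ℂ = 0
  rw [h0, map_zero, inner_zero_right]

theorem cov_of {u v : H →L[ℂ] H} (hu : Un u) (hv : Un v) (hA : ∀ a ∈ A, star u * a * u ∈ A)
    (hva : ∀ a ∈ A, v * a = u * a * star u * v) : Cov A u v := by
  refine ⟨hv, hA, fun a ha => ?_⟩
  have h1 := hva _ (hA a ha)
  have h2 : u * (star u * a * u) * star u * v = a * v := by
    calc u * (star u * a * u) * star u * v = (u * star u) * a * (u * star u) * v := by noncomm_ring
      _ = a * v := by rw [hu.2, one_mul, mul_one]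
  rw [h2] at h1
  calc star v * a * v = star v * (a * v) := mul_assoc _ _ _
    _ = star v * (v * (star u * a * u)) := by rw [h1]
    _ = star v * v * (star u * a * u) := (mul_assoc _ _ _).symm
    _ = star u * a * u := by rw [hv.1, one_mul]

end pos

theorem pos_iso : ∃ δ₂ : ℝ, 0 < δ₂ ∧ ∀ (H : Type) [NormedAddCommGroup H]
    [InnerProductSpace ℂ H] [CompleteSpace H] (M N A : VonNeumannAlgebra H) (ξ : H) (δ : ℝ),
    δ ≤ δ₂ → Pos M N ξ A δ → ∀ (Γ : Type) [Group Γ] (U : Γ → (H →L[ℂ] H)),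
    (∀ g, U g ∈ M ∧ Un (U g)) → (∀ g h, U (g * h) = U g * U h) →
    (∀ g, ∀ a ∈ A, U g * a * star (U g) ∈ A) →
    (∀ g, g ≠ 1 → ∀ a ∈ A, ⟪ξ, (a * U g) ξ⟫_ℂ = 0) →
    (∀ x ∈ M, x ξ ∈
      (Submodule.span ℂ {v : H | ∃ a ∈ A, ∃ g, v = (a * U g) ξ}).topologicalClosure) →
    Nonempty (M.toStarSubalgebra ≃⋆ₐ[ℂ] N.toStarSubalgebra) := by
  obtain ⟨δ₁, κ, hδ₁, hδ₁', hκ, hκ1, hDd⟩ := exists_Dd
  refine ⟨min δ₁ (κ / 432), lt_min hδ₁ (by positivity), ?_⟩
  intro H _ _ _ M N A ξ δ hδ h Γ _ U hU hUm hUA h0 hgen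
  have hδa : δ ≤ δ₁ := hδ.trans (min_le_left _ _)
  have hδb : δ ≤ κ / 432 := hδ.trans (min_le_right _ _)
  have hδ0 := h.d0
  have us : ∀ g, star (U g) = U g⁻¹ := RepAux.rep_star U (fun g => (hU g).2) hUm
  have hUA' : ∀ g, ∀ a ∈ A, star (U g) * a * U g ∈ A := by
    intro g a ha
    have := hUA g⁻¹ a ha
    rw [us g]
    rwa [us g⁻¹, inv_inv] at this
  choose V hVN hV1 hV2 hUV hVa using fun g => exists_V h (hU g).1 (hU g).2.1 (hU g).2.2 (hUA g)
    (hUA' g)
  have hVu : ∀ g, Un (V g) := fun g => ⟨hV1 g, hV2 g⟩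
  have hcU : ∀ g, Cov A (U g) (U g) := fun g => ⟨(hU g).2, hUA' g, fun _ _ => rfl⟩
  have hcV : ∀ g, Cov A (U g) (V g) := fun g => cov_of (hU g).2 (hVu g) (hUA' g) (hVa g)
  -- the cocycle
  have hcoc : ∀ g k, ∃ c ∈ A, IsSelfAdjoint c ∧ ‖c‖ ≤ κ / 8 ∧ V g * V k = ex c * V (g * k) := by
    intro g k
    obtain ⟨u, hu⟩ : ∃ u : H →L[ℂ] H, u = V g * V k * star (V (g * k)) := ⟨_, rfl⟩
    have uN : u ∈ N := by
      rw [hu]
      exact mul_mem (mul_mem (hVN _) (hVN _)) (star_mem (hVN _))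
    have uU : Un u := by
      rw [hu]
      exact ((hVu _).mul (hVu _)).mul (hVu _).star
    have uA : u ∈ A := by
      refine h.masaN u uN fun a ha => ?_
      have e1 : star (V g * V k) * a * (V g * V k) = star (V (g * k)) * a * V (g * k) := by
        rw [((hcV g).mul (hcV k)).cv a ha, (hcV (g * k)).cv a ha, hUm]
      have e2 : a * (V g * V k) = V g * V k * (star (V (g * k)) * a * V (g * k)) := by
        rw [← e1]
        calc a * (V g * V k) = (V g * V k * star (V g * V k)) * a * (V g * V k) := by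
              rw [((hVu g).mul (hVu k)).2, one_mul]
          _ = V g * V k * (star (V g * V k) * a * (V g * V k)) := by noncomm_ring
      rw [hu]
      calc a * (V g * V k * star (V (g * k))) = a * (V g * V k) * star (V (g * k)) := by
            noncomm_ring
        _ = V g * V k * (star (V (g * k)) * a * V (g * k)) * star (V (g * k)) := by rw [e2]
        _ = V g * V k * star (V (g * k)) * a * (V (g * k) * star (V (g * k))) := by noncomm_ring
        _ = V g * V k * star (V (g * k)) * a := by rw [(hVu _).2, mul_one]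
    have un : ‖u - 1‖ ≤ 27 * δ := by
      have e1 : (1 : H →L[ℂ] H) = U g * U k * star (U (g * k)) := by
        rw [hUm, ((hU g).2.mul (hU k).2).2]
      have n1 := near_mul ((hVu g).mul (hVu k)) ((hU (g * k)).2.star)
        (near_mul (hVu g) (hU k).2 (hUV g) (hUV k)) (near_star (hUV (g * k)))
      rw [norm_sub_rev, hu, e1]
      linarith
    obtain ⟨c, cA, cs, cn, ce⟩ := exists_log A uA uU (r := 27 * δ) (by linarith) un
    refine ⟨c, cA, cs, by linarith, ?_⟩
    rw [ce, hu, mul_assoc, (hVu (g * k)).1, mul_one]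
  choose c cA cs cn cV using hcoc
  obtain ⟨d, hd1, hd2⟩ := exists_d A h.comm ξ h.norm_vec h.faith U (fun g => (hU g).2) hUA hUA'
    (fun g a ha => h.tr_conj (hU g).1 (hU g).2 (h.AM a ha)) c
    (fun g k => ⟨cA g k, (cs g k).star_eq, (cn g k).trans (by linarith)⟩) (4 * Real.pi)
    (by positivity) (by
      classical
      intro J _ _ g k b p hp
      obtain ⟨D, hD⟩ := hDd H M N A ξ δ hδa h (J × Fin 3)
      obtain ⟨s, hs1, hs2⟩ := tri_star h hD hκ hUm hcU (fun g => (hU g).1) hcV hVN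
        (fun g => (hUV g).trans (by linarith)) (fun x y => ⟨cA x y, cs x y, cn x y⟩) cV g k b p hp
      refine ⟨Finset.univ.image g ∪ Finset.univ.image k ∪ Finset.univ.image (fun j => g j * k j), s,
        hs1, ?_, ?_⟩
      · intro x hx
        simp only [Finset.mem_union, Finset.mem_image, Finset.mem_univ, true_and, not_or,
          not_exists] at hx
        unfold kap
        refine Finset.sum_eq_zero fun j _ => ?_
        rw [if_neg (hx.1.1 j), if_neg (hx.1.2 j), if_neg (hx.2 j), add_zero, sub_zero, smul_zero]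
      · refine (le_abs_self _).trans (hs2 _ fun j => ?_)
        simp only [Finset.mem_union, Finset.mem_image, Finset.mem_univ, true_and]
        exact ⟨Or.inl (Or.inl ⟨j, rfl⟩), Or.inl (Or.inr ⟨j, rfl⟩), Or.inr ⟨j, rfl⟩⟩)
  have hds : ∀ g, IsSelfAdjoint (d g) := fun g => (hd1 g).2
  have hexA : ∀ g, ex (-(d g)) ∈ A := fun g => ex_mem A (neg_mem (hd1 g).1)
  refine iso_of_rep h U (fun g => ex (-(d g)) * V g) hU (fun g => ⟨mul_mem (h.AN _ (hexA g)) (hVN g),
    (ex_un (hds g).neg).mul (hVu g)⟩) hUm ?_ hUA ?_ h0 hgen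
  · intro g k
    show ex (-(d (g * k))) * V (g * k) = ex (-(d g)) * V g * (ex (-(d k)) * V k)
    have e1 : V g * ex (-(d k)) = ex (-(U g * d k * star (U g))) * V g := by
      rw [hVa g _ (hexA k), ← ex_conj (hU g).2]
      congr 2
      noncomm_ring
    have aA : U g * d k * star (U g) ∈ A := hUA g _ (hd1 k).1
    have e2 : ex (-(d g)) * V g * (ex (-(d k)) * V k) =
        ex (-(d g)) * ex (-(U g * d k * star (U g))) * ex (c g k) * V (g * k) := by
      calc ex (-(d g)) * V g * (ex (-(d k)) * V k) = ex (-(d g)) * (V g * ex (-(d k))) * V k := by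
            noncomm_ring
        _ = ex (-(d g)) * (ex (-(U g * d k * star (U g))) * V g) * V k := by rw [e1]
        _ = ex (-(d g)) * ex (-(U g * d k * star (U g))) * (V g * V k) := by noncomm_ring
        _ = ex (-(d g)) * ex (-(U g * d k * star (U g))) * (ex (c g k) * V (g * k)) := by rw [cV]
        _ = _ := by noncomm_ring
    rw [e2, ← ex_add (h.comm _ (neg_mem (hd1 g).1) _ (neg_mem aA)),
      ← ex_add (h.comm _ (add_mem (neg_mem (hd1 g).1) (neg_mem aA)) _ (cA g k)), hd2 g k]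
    congr 2
    abel
  · intro g a ha
    show ex (-(d g)) * V g * a = U g * a * star (U g) * (ex (-(d g)) * V g)
    rw [mul_assoc, hVa g a ha, ← mul_assoc, h.comm _ (hexA g) _ (hUA g a ha), mul_assoc]

end Pool.Agent.H256.KS
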