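import Mathlib
import Pool.Agent.H256.KS.PosD

set_option autoImplicit false
set_option linter.unusedSectionVars false
set_option linter.deprecated false

/-! Moving a near factor into good position.

The proof is an adaptation of the proof of `Pool.Agent.TH254.CC.core` in
`Pool/Graph/R_pool_sql_team_seeded_ab47071d/TH254/CC/Core.lean`. -/

open scoped InnerProductSpace ComplexOrder

namespace Pool.Agent.H256.KS

section

open Pool.Agent.TH254.CC

open H759R2.Kad hiding tr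

variable {H : Type} [NormedAddCommGroup H] [InnerProductSpace ℂ H] [CompleteSpace H]

theorem tr_sv (ξ : H) (x : H →L[ℂ] H) : tr (sv ξ) x = ⟪ξ, x ξ⟫_ℂ := by
  unfold tr
  rw [tsum_eq_single 0]
  · simp [sv]
  · intro k hk
    simp [sv, hk]

theorem sum_sv (ξ : H) : Summable fun k => ‖sv ξ k‖ ^ 2 := by
  refine summable_of_ne_finset_zero (s := {0}) ?_
  intro k hk
  have : k ≠ 0 := by simpa using hk
  simp [sv, this]

theorem fam_sv (M : VonNeumannAlgebra H) (ξ : H) :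
    Fam M (sv ξ) (fun _ : Fin 1 => (1 : H →L[ℂ] H)) (fun _ => ξ) := by
  refine ⟨fun i => ⟨one_mem M, star_one _, one_mul 1⟩, ?_⟩
  intro x _ i j
  have hij : i = j := Subsingleton.elim _ _
  rw [if_pos hij, mul_one, tr_sv]

/-- Conjugation. -/
theorem cj_equiv {w : H →L[ℂ] H} (hw : w * star w = 1) (hw' : star w * w = 1)
    (N : VonNeumannAlgebra H) :
    Nonempty (N.toStarSubalgebra ≃⋆ₐ[ℂ] (cj w N).toStarSubalgebra) := by
  have e3 : ∀ a : H →L[ℂ] H, star w * (w * a * star w) * w = a := by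
    intro a
    calc star w * (w * a * star w) * w = (star w * w) * a * (star w * w) := by noncomm_ring
      _ = a := by rw [hw', one_mul, mul_one]
  have e4 : ∀ a : H →L[ℂ] H, w * (star w * a * w) * star w = a := by
    intro a
    calc w * (star w * a * w) * star w = (w * star w) * a * (w * star w) := by noncomm_ring
      _ = a := by rw [hw, one_mul, mul_one]
  let f : N.toStarSubalgebra →⋆ₐ[ℂ] (cj w N).toStarSubalgebra :=
    { toFun := fun x => ⟨star w * (x : H →L[ℂ] H) * w, (mem_cj hw hw').mpr (by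
        rw [e4]; exact x.2)⟩
      map_one' := Subtype.ext (by
        show star w * 1 * w = 1
        rw [mul_one, hw'])
      map_mul' := fun x y => Subtype.ext (by
        show star w * ((x : H →L[ℂ] H) * y) * w = (star w * x * w) * (star w * y * w)
        calc star w * ((x : H →L[ℂ] H) * y) * w = star w * x * 1 * y * w := by noncomm_ring
          _ = star w * x * (w * star w) * y * w := by rw [hw]
          _ = _ := by noncomm_ring)
      map_zero' := Subtype.ext (by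
        show star w * 0 * w = 0
        rw [mul_zero, zero_mul])
      map_add' := fun x y => Subtype.ext (by
        show star w * ((x : H →L[ℂ] H) + y) * w = star w * x * w + star w * y * w
        noncomm_ring)
      commutes' := fun r => Subtype.ext (by
        show star w * (algebraMap ℂ (H →L[ℂ] H) r) * w = algebraMap ℂ (H →L[ℂ] H) r
        rw [Algebra.algebraMap_eq_smul_one, mul_smul_comm, smul_mul_assoc, mul_one, hw'])
      map_star' := fun x => Subtype.ext (by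
        show star w * (star (x : H →L[ℂ] H)) * w = star (star w * x * w)
        rw [star_mul, star_mul, star_star, mul_assoc]) }
  refine ⟨StarAlgEquiv.ofBijective f ⟨?_, ?_⟩⟩
  · intro x y hxy
    have h1 : star w * (x : H →L[ℂ] H) * w = star w * (y : H →L[ℂ] H) * w :=
      congrArg Subtype.val hxy
    refine Subtype.ext ?_
    rw [← e4 (x : H →L[ℂ] H), h1, e4]
  · intro y
    refine ⟨⟨w * (y : H →L[ℂ] H) * star w, (mem_cj hw hw').mp y.2⟩, Subtype.ext ?_⟩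
    exact e3 _

variable {M A : VonNeumannAlgebra H} {ξ : H}

/-- the projection onto the closure of `M ξ` -/
noncomputable def Ep (M : VonNeumannAlgebra H) (ξ : H) : H →L[ℂ] H :=
  (Ks M (fun _ : Fin 1 => ξ)).starProjection

theorem Ep_star (M : VonNeumannAlgebra H) (ξ : H) : star (Ep M ξ) = Ep M ξ :=
  isSelfAdjoint_starProjection _

theorem Ep_apply {x : H →L[ℂ] H} (hx : x ∈ M) : Ep M ξ (x ξ) = x ξ := by
  unfold Ep
  exact Submodule.starProjection_eq_self_iff.mpr (mem_Ks M (fun _ : Fin 1 => ξ) x hx 0)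

theorem Ep_zero {v : H} (hv : v ∈ (Ks M (fun _ : Fin 1 => ξ))ᗮ) : Ep M ξ v = 0 := by
  unfold Ep
  refine Submodule.eq_starProjection_of_mem_orthogonal' (z := v) (Submodule.zero_mem _) hv
    (by rw [zero_add])

theorem Ep_sq (M : VonNeumannAlgebra H) (ξ : H) : Ep M ξ * Ep M ξ = Ep M ξ := by
  refine ext_Ks (M := M) (ζ := fun _ : Fin 1 => ξ) ?_ ?_
  · intro x hx i
    show Ep M ξ (Ep M ξ (x ξ)) = Ep M ξ (x ξ)
    rw [Ep_apply hx, Ep_apply hx]
  · intro v hv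
    show Ep M ξ (Ep M ξ v) = Ep M ξ v
    rw [Ep_zero hv, map_zero]

theorem Ep_commutant (M : VonNeumannAlgebra H) (ξ : H) : Ep M ξ ∈ M.commutant := by
  rw [VonNeumannAlgebra.mem_commutant_iff]
  intro a ha
  refine ext_Ks (M := M) (ζ := fun _ : Fin 1 => ξ) ?_ ?_
  · intro x hx i
    show a (Ep M ξ (x ξ)) = Ep M ξ ((a * x) ξ)
    rw [Ep_apply hx, Ep_apply (mul_mem ha hx)]
    rfl
  · intro v hv
    have h3 : a v ∈ (Ks M (fun _ : Fin 1 => ξ))ᗮ := by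
      rw [mem_Ks_orth]
      intro x hx i
      have h4 := (mem_Ks_orth.mp hv) (star a * x) (mul_mem (star_mem ha) hx) i
      have h5 : ⟪(star a * x) ξ, v⟫_ℂ = ⟪x ξ, a v⟫_ℂ := by
        rw [ContinuousLinearMap.star_eq_adjoint]
        exact ContinuousLinearMap.adjoint_inner_left a v (x ξ)
      rw [← h5]
      exact h4
    show a (Ep M ξ v) = Ep M ξ (a v)
    rw [Ep_zero hv, Ep_zero h3, map_zero]

theorem Ep_rm (hM : Fn M (sv ξ)) (hAM : ∀ x ∈ A, x ∈ M)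
    (hA : ∀ a ∈ A, ∀ b ∈ A, a * b = b * a) {u : H →L[ℂ] H}
    (hu : u ∈ A ∧ star u = u ∧ u * u = 1) :
    Ep M ξ * rm M (fun _ : Fin 1 => ξ) u = rm M (fun _ : Fin 1 => ξ) u * Ep M ξ := by
  have hp : ∀ i : Fin 1, (fun _ : Fin 1 => (1 : H →L[ℂ] H)) i ∈ A := fun _ => one_mem A
  refine ext_Ks (M := M) (ζ := fun _ : Fin 1 => ξ) ?_ ?_
  · intro x hx i
    show Ep M ξ (rm M (fun _ : Fin 1 => ξ) u (x ξ)) = rm M (fun _ : Fin 1 => ξ) u (Ep M ξ (x ξ))
    have h1 : rm M (fun _ : Fin 1 => ξ) u (x ξ) = x (u ξ) :=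
      rm_apply hM (fam_sv M ξ) hAM hA hp hu hx i
    have h2 : x (u ξ) = (x * u) ξ := rfl
    have h3 : x * u ∈ M := mul_mem hx (hAM u hu.1)
    rw [Ep_apply hx, h1, h2, Ep_apply h3]
  · intro v hv
    show Ep M ξ (rm M (fun _ : Fin 1 => ξ) u v) = rm M (fun _ : Fin 1 => ξ) u (Ep M ξ v)
    rw [rm_zero hAM hu hv, Ep_zero hv, map_zero]

theorem Ep_closure (M : VonNeumannAlgebra H) (ξ : H) (v : H) :
    Ep M ξ v ∈ closure {w : H | ∃ x ∈ M, w = x ξ} := by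
  have h1 : Ep M ξ v ∈ Ks M (fun _ : Fin 1 => ξ) := Submodule.starProjection_apply_mem _ v
  have h2 : Ep M ξ v ∈ closure
      ((Submodule.span ℂ {y : H | ∃ x ∈ M, ∃ _ : Fin 1, y = x ξ} : Submodule ℂ H) : Set H) := h1
  refine closure_mono ?_ h2
  intro w hw
  induction hw using Submodule.span_induction with
  | mem y hy =>
    obtain ⟨x, hx, -, rfl⟩ := hy
    exact ⟨x, hx, rfl⟩
  | zero => exact ⟨0, zero_mem M, rfl⟩
  | add a b _ _ ha hb =>
    obtain ⟨x, hx, rfl⟩ := ha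
    obtain ⟨y, hy, rfl⟩ := hb
    exact ⟨x + y, add_mem hx hy, rfl⟩
  | smul c a _ ha =>
    obtain ⟨x, hx, rfl⟩ := ha
    exact ⟨c • x, vn_smul M c hx, rfl⟩

/-- the reflection part -/
noncomputable def rf (M : VonNeumannAlgebra H) (ξ : H) (s : ℤˣ) : H →L[ℂ] H :=
  Ep M ξ + ((s : ℤ) : ℂ) • (1 - Ep M ξ)

theorem rf_one : rf M ξ 1 = 1 := by
  unfold rf
  simp

theorem rf_mul (s t : ℤˣ) : rf M ξ (s * t) = rf M ξ s * rf M ξ t := by
  unfold rf
  have h := Ep_sq M ξ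
  have h1 : Ep M ξ * (1 - Ep M ξ) = 0 := by rw [mul_sub, mul_one, h, sub_self]
  have h2 : (1 - Ep M ξ) * Ep M ξ = 0 := by rw [sub_mul, one_mul, h, sub_self]
  have h3 : (1 - Ep M ξ) * (1 - Ep M ξ) = 1 - Ep M ξ := by
    rw [sub_mul, one_mul, h1, sub_zero]
  rw [add_mul, mul_add, mul_add, h, mul_smul_comm, h1, smul_mul_assoc, h2, smul_mul_smul_comm,
    h3, smul_zero, smul_zero, add_zero, zero_add]
  congr 2
  push_cast
  rfl

theorem rf_star (s : ℤˣ) : star (rf M ξ s) = rf M ξ s := by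
  unfold rf
  rw [star_add, star_smul, star_sub, star_one, Ep_star]
  congr 2
  rcases Int.units_eq_one_or s with rfl | rfl <;> simp

theorem rf_commutant (s : ℤˣ) : rf M ξ s ∈ M.commutant := by
  unfold rf
  exact add_mem (Ep_commutant M ξ) (vn_smul _ _ (sub_mem (one_mem _) (Ep_commutant M ξ)))

theorem rf_rm (hM : Fn M (sv ξ)) (hAM : ∀ x ∈ A, x ∈ M)
    (hA : ∀ a ∈ A, ∀ b ∈ A, a * b = b * a) {u : H →L[ℂ] H}
    (hu : u ∈ A ∧ star u = u ∧ u * u = 1) (s : ℤˣ) :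
    rf M ξ s * rm M (fun _ : Fin 1 => ξ) u = rm M (fun _ : Fin 1 => ξ) u * rf M ξ s := by
  have h := Ep_rm hM hAM hA hu
  unfold rf
  rw [add_mul, mul_add, h, smul_mul_assoc, mul_smul_comm, sub_mul, mul_sub, one_mul, mul_one, h]

theorem good_aux {N : VonNeumannAlgebra H} {ξ' : ℕ → H} {δ : ℝ} (hM : Fn M (sv ξ))
    (hN : Fn N ξ') (hδ0 : 0 < δ) (hδ : δ ≤ 1 / 10 ^ 22) (hMN : Near M N δ) (hNM : Near N M δ)
    (hC : ∀ a ∈ A, ∀ b ∈ A, a * b = b * a) (hCM : ∀ x ∈ A, x ∈ M)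
    (hmasa : ∀ x ∈ M, (∀ c ∈ A, c * x = x * c) → x ∈ A) :
    ∃ N₂ : VonNeumannAlgebra H, Nonempty (N.toStarSubalgebra ≃⋆ₐ[ℂ] N₂.toStarSubalgebra) ∧
      Pos M N₂ ξ A (801 * δ + 2 * (400 * (216 * 2 ^ 23 * (2 * (801 * δ))))) := by
  have hF := fam_sv M ξ
  have hp : ∀ i : Fin 1, (fun _ : Fin 1 => (1 : H →L[ℂ] H)) i ∈ A := fun _ => one_mem A
  have hδ' : δ ≤ 1 / 10000000000000000000000 := by
    refine hδ.trans (le_of_eq ?_)
    norm_num
  -- first conjugation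
  obtain ⟨w₁, u1, u2, u3, u4⟩ := kaz_masa A N hC δ hδ0 (by linarith) (fun u hu hu1 => by
    obtain ⟨y, hy, hxy⟩ := hMN u (hCM u hu)
    exact ⟨y, hy, hxy.trans (mul_le_of_le_one_right hδ0.le hu1)⟩)
  have hCN₁ : ∀ x ∈ A, x ∈ cj w₁ N := fun x hx => (mem_cj u1 u2).mpr (u4 x hx)
  have hN₁ := hN.conj u1 u2
  have near1 : Near M (cj w₁ N) (801 * δ) := by
    have := hMN.conj_right hδ0.le u1 u2 u3
    have e : δ + 2 * (400 * δ) = 801 * δ := by ring
    rwa [e] at this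
  have near2 : Near (cj w₁ N) M (801 * δ) := by
    have := hNM.conj_left hδ0.le u1 u2 u3
    have e : δ + 2 * (400 * δ) = 801 * δ := by ring
    rwa [e] at this
  -- second conjugation
  obtain ⟨ε, hε⟩ : ∃ ε : ℝ, ε = 216 * 2 ^ 23 * (2 * (801 * δ)) := ⟨_, rfl⟩
  have hε0 : 0 < ε := by rw [hε]; positivity
  have hε1 : ε ≤ 1 / 1000000000 := by
    rw [hε]
    norm_num
    linarith
  letI := syGroup A hC
  have hgg : ∀ g h : Sy A, (g * h).1 = g.1 * h.1 := fun _ _ => rfl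
  have hρ1 : rm M (fun _ : Fin 1 => ξ) (1 : Sy A).1 = 1 := rm_one hM hF hCM hC hp
  have hρm : ∀ g h : Sy A, rm M (fun _ : Fin 1 => ξ) (g * h).1 =
      rm M (fun _ : Fin 1 => ξ) g.1 * rm M (fun _ : Fin 1 => ξ) h.1 := fun g h =>
    rm_mul hM hF hCM hC hp g.2 h.2 (g * h).2
  have hρs : ∀ g : Sy A, star (rm M (fun _ : Fin 1 => ξ) g.1) = rm M (fun _ : Fin 1 => ξ) g.1 :=
    fun g => rm_star M _ g.1
  have hρc : ∀ g : Sy A, rm M (fun _ : Fin 1 => ξ) g.1 ∈ M.commutant := fun g =>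
    rm_commutant hM hF hCM hC hp g.2
  have hρρ : ∀ g : Sy A, rm M (fun _ : Fin 1 => ξ) g.1 * rm M (fun _ : Fin 1 => ξ) g.1 = 1 := by
    intro g
    rw [← hρm g g]
    have : g * g = 1 := Subtype.ext g.2.2.2
    rw [this, hρ1]
  have hrr : ∀ s : ℤˣ, rf M ξ s * rf M ξ s = 1 := by
    intro s
    rw [← rf_mul, Int.units_mul_self, rf_one]
  have hcr : ∀ (g : Sy A) (s : ℤˣ), rf M ξ s * rm M (fun _ : Fin 1 => ξ) g.1 =
      rm M (fun _ : Fin 1 => ξ) g.1 * rf M ξ s := fun g s => rf_rm hM hCM hC g.2 s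
  -- the enlarged representation
  obtain ⟨ρ, hρ⟩ : ∃ ρ : Sy A × ℤˣ → (H →L[ℂ] H),
      ∀ g, ρ g = rm M (fun _ : Fin 1 => ξ) g.1.1 * rf M ξ g.2 := ⟨_, fun _ => rfl⟩
  have r1 : ρ 1 = 1 := by
    rw [hρ]
    show rm M (fun _ : Fin 1 => ξ) (1 : Sy A).1 * rf M ξ 1 = 1
    rw [hρ1, rf_one, one_mul]
  have rmul : ∀ g h, ρ (g * h) = ρ g * ρ h := by
    intro g h
    rw [hρ, hρ, hρ]
    show rm M (fun _ : Fin 1 => ξ) (g.1 * h.1).1 * rf M ξ (g.2 * h.2) = _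
    rw [hρm, rf_mul]
    calc rm M (fun _ : Fin 1 => ξ) g.1.1 * rm M (fun _ : Fin 1 => ξ) h.1.1 *
          (rf M ξ g.2 * rf M ξ h.2)
        = rm M (fun _ : Fin 1 => ξ) g.1.1 * (rm M (fun _ : Fin 1 => ξ) h.1.1 * rf M ξ g.2) *
          rf M ξ h.2 := by simp only [mul_assoc]
      _ = rm M (fun _ : Fin 1 => ξ) g.1.1 * (rf M ξ g.2 * rm M (fun _ : Fin 1 => ξ) h.1.1) *
          rf M ξ h.2 := by rw [hcr]
      _ = _ := by simp only [mul_assoc]
  have rstar : ∀ g, star (ρ g) = ρ g := by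
    intro g
    rw [hρ, star_mul, hρs, rf_star, hcr]
  have rcomm : ∀ g, ρ g ∈ M.commutant := by
    intro g
    rw [hρ]
    exact mul_mem (hρc _) (rf_commutant _)
  have rr : ∀ g, ρ g * ρ g = 1 := by
    intro g
    rw [← rmul]
    have : g * g = 1 := by
      refine Prod.ext ?_ ?_
      · exact Subtype.ext g.1.2.2.2
      · exact Int.units_mul_self g.2
    rw [this, r1]
  obtain ⟨w₂, v1, v2, v3, v4, v5⟩ := kaz (G := Sy A × ℤˣ) (fun g => by
      refine Prod.ext ?_ ?_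
      · exact Subtype.ext g.1.2.2.2
      · exact Int.units_mul_self g.2)
    (cj w₁ N).commutant ρ r1 rmul rstar {b | b ∈ A ∧ star b = b}
    (fun b hb => hb.2) (fun b hb x hx => VonNeumannAlgebra.mem_commutant_iff.mp hx b
      (hCN₁ b hb.1)) (fun b hb g => VonNeumannAlgebra.mem_commutant_iff.mp (rcomm g) b
      (hCM b hb.1)) ε hε0 (by linarith) (fun g => by
        obtain ⟨t, ht, h1⟩ := near_commutant hN₁ (by positivity) near2 _ (rcomm g)
        refine ⟨t, ht, h1.trans ?_⟩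
        rw [hε]
        have h2 : ‖ρ g‖ ≤ 1 := norm_le_one_of_sq _ (by rw [rstar, rr])
        have h3 : 0 ≤ 2 * (801 * δ) := by positivity
        have h4 : 2 * (801 * δ) * ‖ρ g‖ ≤ 2 * (801 * δ) :=
          mul_le_of_le_one_right h3 h2
        exact mul_le_mul_of_nonneg_left h4 (by positivity))
  have hCN₂ : ∀ x ∈ A, x ∈ cj w₂ (cj w₁ N) := by
    refine le_of_proj A _ hC fun e he hee => ?_
    rw [mem_cj v1 v2]
    have h1 : e * w₂ = w₂ * e := v5 e ⟨he, hee.1⟩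
    rw [← h1, mul_assoc, v1, mul_one]
    exact hCN₁ e he
  have hρN₂' : ∀ g, ρ g ∈ (cj w₂ (cj w₁ N)).commutant := fun g =>
    (mem_cj_commutant v1 v2).mpr (v4 g)
  have hρN₂ : ∀ g : Sy A, rm M (fun _ : Fin 1 => ξ) g.1 ∈ (cj w₂ (cj w₁ N)).commutant := by
    intro g
    have h := hρN₂' (g, 1)
    rw [hρ] at h
    rw [rf_one, mul_one] at h
    exact h
  have hEN₂ : Ep M ξ ∈ (cj w₂ (cj w₁ N)).commutant := by
    have h := hρN₂' (1, -1)
    rw [hρ] at h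
    have h1 : rm M (fun _ : Fin 1 => ξ) (1 : Sy A).1 * rf M ξ (-1) ∈
        (cj w₂ (cj w₁ N)).commutant := h
    rw [hρ1, one_mul] at h1
    have h2 : Ep M ξ = (1 / 2 : ℂ) • (rf M ξ (-1) + 1) := by
      unfold rf
      have : (((-1 : ℤˣ) : ℤ) : ℂ) = -1 := by simp
      rw [this, neg_one_smul]
      have h3 : Ep M ξ + -(1 - Ep M ξ) + 1 = (2 : ℂ) • Ep M ξ := by
        rw [two_smul]; abel
      rw [h3, smul_smul]
      norm_num
    rw [h2]
    exact vn_smul _ _ (add_mem h1 (one_mem _))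
  have hN₂ := hN₁.conj v1 v2
  obtain ⟨κ, hκ⟩ : ∃ κ : ℝ, κ = 801 * δ + 2 * (400 * ε) := ⟨_, rfl⟩
  have hκ0 : 0 < κ := by rw [hκ]; positivity
  have hκ1 : κ ≤ 1 / 100000 := by rw [hκ]; linarith
  have near3 : Near M (cj w₂ (cj w₁ N)) κ := by
    rw [hκ]
    exact near1.conj_right (by positivity) v1 v2 v3
  have near4 : Near (cj w₂ (cj w₁ N)) M κ := by
    rw [hκ]
    exact near2.conj_left (by positivity) v1 v2 v3
  have htr := tr_eq_on hM hN₂ hκ0 hκ1 near3 near4 hC hCM hCN₂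
  have hmasaN : ∀ x ∈ cj w₂ (cj w₁ N), (∀ c ∈ A, c * x = x * c) → x ∈ A := fun x hx hxc =>
    mem_masa_near hC hmasa hCM hCN₂ hκ0.le (by linarith) near4 x hx hxc
  -- the trace of the conjugate
  have hfam : ∀ y ∈ cj w₂ (cj w₁ N),
      tr (sv ξ) y = tr (fun k => star w₂ (star w₁ (ξ' k))) y := by
    intro y hy
    have hgn : ∀ g : Sy A, ‖g.1‖ ≤ 1 := fun g =>
      norm_le_one_of_sq _ (by rw [g.2.2.1, g.2.2.2])
    have hfn : ∀ g : Sy A, ‖g.1 * y * g.1‖ ≤ 1 * ‖y‖ * 1 := fun g =>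
      (norm_mul_le _ _).trans (mul_le_mul ((norm_mul_le _ _).trans
        (mul_le_mul (hgn g) le_rfl (norm_nonneg _) zero_le_one)) (hgn g) (norm_nonneg _)
          (by positivity))
    obtain ⟨z, -, hz⟩ := exists_mn (G := Sy A) (fun g => g.1 * y * g.1) (1 * ‖y‖ * 1) hfn
    have hzN : z ∈ cj w₂ (cj w₁ N) :=
      hz.mem _ fun g => mul_mem (mul_mem (hCN₂ _ g.2.1) hy) (hCN₂ _ g.2.1)
    have hzc : ∀ t : Sy A, t.1 * z = z * t.1 := by
      intro t
      refine (IsMn.congr (hz.mulLeft t.1) fun g => ?_).unique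
        ((hz.shift (fun g : Sy A => Subtype.ext g.2.2.2) t).mulRight t.1)
      have e1 : (t * g).1 = t.1 * g.1 := rfl
      have e2 : (t * g).1 * t.1 = g.1 := by
        rw [e1, hC _ t.2.1 _ g.2.1, mul_assoc, t.2.2.2, mul_one]
      show t.1 * (g.1 * y * g.1) = (t * g).1 * y * (t * g).1 * t.1
      rw [mul_assoc ((t * g).1 * y), e2, e1]
      noncomm_ring
    have hzC : z ∈ A := hmasaN z hzN (comm_of_sy A hC z hzc)
    -- matrix coefficients
    have hζ : ∀ (g : Sy A), g.1 ξ = rm M (fun _ : Fin 1 => ξ) g.1 ξ := fun g =>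
      (rm_apply (x := 1) hM hF hCM hC hp g.2 (one_mem M) (0 : Fin 1)).symm
    have s1 : ∀ g : Sy A, ⟪ξ, (g.1 * y * g.1) ξ⟫_ℂ = ⟪ξ, y ξ⟫_ℂ := by
      intro g
      have k1 : ⟪ξ, (g.1 * y * g.1) ξ⟫_ℂ = ⟪g.1 ξ, y (g.1 ξ)⟫_ℂ := by
        have := ContinuousLinearMap.adjoint_inner_right g.1 ξ (y (g.1 ξ))
        rw [← ContinuousLinearMap.star_eq_adjoint, g.2.2.1] at this
        exact this
      have k2 : ⟪rm M (fun _ : Fin 1 => ξ) g.1 ξ, y (rm M (fun _ : Fin 1 => ξ) g.1 ξ)⟫_ℂ =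
          ⟪ξ, (rm M (fun _ : Fin 1 => ξ) g.1 * (y * rm M (fun _ : Fin 1 => ξ) g.1)) ξ⟫_ℂ := by
        have := ContinuousLinearMap.adjoint_inner_right (rm M (fun _ : Fin 1 => ξ) g.1) ξ
          (y (rm M (fun _ : Fin 1 => ξ) g.1 ξ))
        rw [← ContinuousLinearMap.star_eq_adjoint, hρs] at this
        exact this.symm
      have k3 : y * rm M (fun _ : Fin 1 => ξ) g.1 = rm M (fun _ : Fin 1 => ξ) g.1 * y :=
        VonNeumannAlgebra.mem_commutant_iff.mp (hρN₂ g) y hy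
      rw [k1, hζ g, k2, k3, ← mul_assoc, hρρ, one_mul]
    have s2 : ⟪ξ, z ξ⟫_ℂ = ⟪ξ, y ξ⟫_ℂ := hz.re_inner ξ ξ _ s1
    rw [tr_sv, ← s2, ← tr_sv, htr _ hzC]
    refine IsMn.tr_eq hN₂.sum hz (1 * ‖y‖ * 1) (fun g => hfn g) _ (fun g => ?_)
    have hgi := hCN₂ _ g.2.1
    rw [hN₂.comm _ (mul_mem hgi hy) _ hgi, ← mul_assoc, g.2.2.2, one_mul]
  have hFn : Fn (cj w₂ (cj w₁ N)) (sv ξ) := by
    refine ⟨hN₂.fac, hN₂.inf, sum_sv ξ, ?_, ?_, ?_⟩
    · rw [hfam 1 (one_mem _)]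
      exact hN₂.one
    · intro a ha b hb
      rw [hfam _ (mul_mem ha hb), hfam _ (mul_mem hb ha)]
      exact hN₂.comm a ha b hb
    · intro a ha h0
      rw [hfam _ (mul_mem (star_mem ha) ha)] at h0
      exact hN₂.faithful a ha h0
  refine ⟨cj w₂ (cj w₁ N), ?_, ?_⟩
  · obtain ⟨e1⟩ := cj_equiv u1 u2 N
    obtain ⟨e2⟩ := cj_equiv v1 v2 (cj w₁ N)
    exact ⟨e1.trans e2⟩
  · rw [← hε, ← hκ]
    refine ⟨hM, hFn, hκ0, hκ1, near3, near4, hC, hCM, hCN₂, hmasa, hmasaN, ?_, ?_⟩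
    · intro u hu hus huu
      refine ⟨rm M (fun _ : Fin 1 => ξ) u, ?_, hρc ⟨u, hu, hus, huu⟩, hρN₂ ⟨u, hu, hus, huu⟩, ?_⟩
      · exact norm_le_one_of_sq _ (by
          rw [hρs ⟨u, hu, hus, huu⟩]
          exact hρρ ⟨u, hu, hus, huu⟩)
      · exact rm_apply (x := 1) hM hF hCM hC hp ⟨hu, hus, huu⟩ (one_mem M) (0 : Fin 1)
    · exact ⟨Ep M ξ, Ep_commutant M ξ, hEN₂, fun x hx => Ep_apply hx, fun v => Ep_closure M ξ v⟩

end

open Pool.Agent.TH254.CC H759R2.Kad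

theorem good_position : ∃ K δ₁ : ℝ, 1 ≤ K ∧ 0 < δ₁ ∧ ∀ (H : Type) [NormedAddCommGroup H]
    [InnerProductSpace ℂ H] [CompleteSpace H] (M N A : VonNeumannAlgebra H) (ξ : H) (ξ' : ℕ → H)
    (δ : ℝ), Fn M (sv ξ) → Fn N ξ' → 0 < δ → δ ≤ δ₁ → Near M N δ → Near N M δ →
    (∀ a ∈ A, ∀ b ∈ A, a * b = b * a) → (∀ x ∈ A, x ∈ M) →
    (∀ x ∈ M, (∀ c ∈ A, c * x = x * c) → x ∈ A) →
    ∃ N₂ : VonNeumannAlgebra H, Nonempty (N.toStarSubalgebra ≃⋆ₐ[ℂ] N₂.toStarSubalgebra) ∧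
      Pos M N₂ ξ A (K * δ) := by
  refine ⟨801 + 2 * (400 * (216 * 2 ^ 23 * (2 * 801))), 1 / 10 ^ 22, by norm_num, by norm_num, ?_⟩
  intro H _ _ _ M N A ξ ξ' δ hM hN hδ0 hδ hMN hNM hC hCM hmasa
  have h := good_aux hM hN hδ0 hδ hMN hNM hC hCM hmasa
  have e : 801 * δ + 2 * (400 * (216 * 2 ^ 23 * (2 * (801 * δ)))) =
      (801 + 2 * (400 * (216 * 2 ^ 23 * (2 * 801)))) * δ := by ring
  rwa [e] at h

end Pool.Agent.H256.KS
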