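import Mathlib
import Pool.Agent.H256.KS.Fin
import Pool.Agent.H256.KS.Ell2
import Pool.Agent.H256.KS.Position

set_option autoImplicit false
set_option linter.unusedSectionVars false

/-! Amplification. -/

open Filter Topology Set
open scoped InnerProductSpace

namespace Pool.Agent.H256.KS

open Pool.Agent.TH254.CC H759R2.Kad

/-- near factors, one of them with a Cartan subalgebra and a group -/
theorem main_iso : ∃ δ : ℝ, 0 < δ ∧ ∀ (H : Type) [NormedAddCommGroup H]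
    [InnerProductSpace ℂ H] [CompleteSpace H] (M N A : VonNeumannAlgebra H) (ξ ξ' : ℕ → H),
    Fn M ξ → Fn N ξ' → Near M N δ → Near N M δ → (∀ a ∈ A, ∀ b ∈ A, a * b = b * a) →
    (∀ x ∈ A, x ∈ M) → (∀ x ∈ M, (∀ c ∈ A, c * x = x * c) → x ∈ A) →
    ∀ (Γ : Type) [Group Γ] (U : Γ → (H →L[ℂ] H)), (∀ g, U g ∈ M ∧ Un (U g)) →
    (∀ g h, U (g * h) = U g * U h) → (∀ g, ∀ a ∈ A, U g * a * star (U g) ∈ A) →
    (∀ g, g ≠ 1 → ∀ a ∈ A, tr ξ (a * U g) = 0) →
    (∀ x ∈ M, ∀ ε : ℝ, 0 < ε → ∃ y ∈ Submodule.span ℂ {z | ∃ a ∈ A, ∃ g, z = a * U g},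
      (tr ξ (star (x - y) * (x - y))).re ≤ ε) →
    Nonempty (M.toStarSubalgebra ≃⋆ₐ[ℂ] N.toStarSubalgebra) := by
  obtain ⟨K, δ₁, hK, hδ₁, hgood⟩ := good_position
  obtain ⟨δ₂, hδ₂, hiso⟩ := pos_iso
  have hK0 : 0 < K := by linarith
  refine ⟨min δ₁ (δ₂ / K), lt_min hδ₁ (by positivity), ?_⟩
  obtain ⟨δ, hδe⟩ : ∃ δ : ℝ, δ = min δ₁ (δ₂ / K) := ⟨_, rfl⟩
  rw [← hδe]
  have hδ0 : 0 < δ := by rw [hδe]; exact lt_min hδ₁ (by positivity)
  have hδa : δ ≤ δ₁ := by rw [hδe]; exact min_le_left _ _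
  have hδb : K * δ ≤ δ₂ := by
    have : δ ≤ δ₂ / K := by rw [hδe]; exact min_le_right _ _
    rw [le_div_iff₀ hK0] at this
    linarith
  intro H _ _ _ M N A ξ ξ' hM hN hMN hNM hAc hAM hmasa Γ _ U hU hUm hUA h0 hd
  obtain ⟨η, hη⟩ := exists_vec ξ hM.sum
  obtain ⟨η', hη'⟩ := exists_vec ξ' hN.sum
  have F1 : Fn (amV M) (sv η) := amV_Fn M ξ hM η hη
  have F2 : Fn (amV N) (sv η') := amV_Fn N ξ' hN η' hη'
  obtain ⟨N₂, ⟨φ⟩, hpos⟩ := hgood (H2 H) (amV M) (amV N) (amV A) η (sv η') δ F1 F2 hδ0 hδa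
    (amV_near M N δ hδ0.le hMN) (amV_near N M δ hδ0.le hNM) (by
      intro a ha b hb
      obtain ⟨a', ha', rfl⟩ := (mem_amV A a).mp ha
      obtain ⟨b', hb', rfl⟩ := (mem_amV A b).mp hb
      rw [← am_mul, ← am_mul, hAc a' ha' b' hb']) (by
      intro a ha
      obtain ⟨a', ha', rfl⟩ := (mem_amV A a).mp ha
      exact (mem_amV M _).mpr ⟨a', hAM a' ha', rfl⟩) (by
      intro x hx hxc
      obtain ⟨x', hx', rfl⟩ := (mem_amV M x).mp hx
      refine (mem_amV A _).mpr ⟨x', hmasa x' hx' fun c hc => ?_, rfl⟩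
      have := hxc (am c) ((mem_amV A _).mpr ⟨c, hc, rfl⟩)
      rw [← am_mul, ← am_mul] at this
      exact am_injective this)
  have hun : ∀ g, Un (am (U g)) := by
    intro g
    constructor
    · rw [← am_star, ← am_mul, (hU g).2.1, am_one]
    · rw [← am_star, ← am_mul, (hU g).2.2, am_one]
  obtain ⟨ψ⟩ := hiso (H2 H) (amV M) N₂ (amV A) η (K * δ) hδb hpos Γ (fun g => am (U g))
    (fun g => ⟨(mem_amV M _).mpr ⟨_, (hU g).1, rfl⟩, hun g⟩)
    (fun g h => by rw [hUm, am_mul]) (by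
      intro g a ha
      obtain ⟨a', ha', rfl⟩ := (mem_amV A a).mp ha
      rw [← am_star, ← am_mul, ← am_mul]
      exact (mem_amV A _).mpr ⟨_, hUA g a' ha', rfl⟩) (by
      intro g hg a ha
      obtain ⟨a', ha', rfl⟩ := (mem_amV A a).mp ha
      rw [← am_mul, hη, h0 g hg a' ha']) (by
      intro x hx
      obtain ⟨x', hx', rfl⟩ := (mem_amV M x).mp hx
      rw [← SetLike.mem_coe, Submodule.topologicalClosure_coe, Metric.mem_closure_iff]
      intro ε hε
      obtain ⟨y, hy, hxy⟩ := hd x' hx' (ε ^ 2 / 4) (by positivity)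
      refine ⟨am y η, ?_, ?_⟩
      · refine Submodule.span_induction (p := fun y _ => am y η ∈ (Submodule.span ℂ
          {v : H2 H | ∃ a ∈ amV A, ∃ g, v = (a * am (U g)) η} : Submodule ℂ (H2 H))) ?_ ?_ ?_ ?_ hy
        · rintro z ⟨a, ha, g, rfl⟩
          refine Submodule.subset_span ⟨am a, (mem_amV A _).mpr ⟨a, ha, rfl⟩, g, ?_⟩
          rw [am_mul]
        · have : am (0 : H →L[ℂ] H) = 0 := by
            have := am_sub (0 : H →L[ℂ] H) 0
            rwa [sub_self, sub_self] at this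
          rw [this]
          exact zero_mem _
        · intro u v _ _ hu hv
          rw [am_add]
          exact add_mem hu hv
        · intro c u _ hu
          rw [am_smul]
          exact Submodule.smul_mem _ c hu
      · have e1 : am x' η - am y η = am (x' - y) η := by rw [am_sub]; rfl
        rw [dist_eq_norm, e1]
        have e2 : ⟪am (x' - y) η, am (x' - y) η⟫_ℂ = tr ξ (star (x' - y) * (x' - y)) := by
          rw [← hη, am_mul, am_star, ContinuousLinearMap.star_eq_adjoint]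
          exact (ContinuousLinearMap.adjoint_inner_right (am (x' - y)) η (am (x' - y) η)).symm
        have e3 : ‖am (x' - y) η‖ ^ 2 ≤ ε ^ 2 / 4 := by
          rw [← e2, inner_self_eq_norm_sq_to_K] at hxy
          have : ((‖am (x' - y) η‖ : ℂ) ^ 2).re = ‖am (x' - y) η‖ ^ 2 := by norm_cast
          have h5 : (((‖am (x' - y) η‖ : ℝ) : ℂ) ^ 2).re = ‖am (x' - y) η‖ ^ 2 := this
          exact h5 ▸ hxy
        have h6 : ‖am (x' - y) η‖ ≤ ε / 2 := by
          refine abs_le_of_sq_le_sq' ?_ (by positivity) |>.2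
          linarith
        linarith)
  obtain ⟨α⟩ := amV_iso M
  obtain ⟨β⟩ := amV_iso N
  exact ⟨α.trans (ψ.trans (φ.symm.trans β.symm))⟩

end Pool.Agent.H256.KS
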