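import Mathlib
import Pool.Agent.H256.KS.Main

set_option autoImplicit false
set_option linter.unusedSectionVars false

/-! Uniqueness of the trace of a factor. -/

open Filter Topology Set
open scoped InnerProductSpace

namespace Pool.Agent.H256.KS

open Pool.Agent.TH254.CC
open H759R2.Kad hiding tr

variable {H : Type} [NormedAddCommGroup H] [InnerProductSpace ℂ H] [CompleteSpace H]

theorem fdix : F_dix.{0} :=
  prove5_dix prove5_range (prove5_comp prove5_join prove5_polar prove5_chain)

theorem tr_unique {M : VonNeumannAlgebra H} {ξ : ℕ → H} (h : Fn M ξ)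
    (τ : M.toStarSubalgebra →ₗ[ℂ] ℂ) (h1 : τ 1 = 1) (hcomm : ∀ a b, τ (a * b) = τ (b * a))
    (hn : ∀ a, ‖τ a‖ ≤ ‖a‖) (x : M.toStarSubalgebra) : τ x = tr ξ (x : H →L[ℂ] H) := by
  have hsa : ∀ a : M.toStarSubalgebra, IsSelfAdjoint a → τ a = tr ξ (a : H →L[ℂ] H) := by
    intro a ha
    have hε : ∀ ε : ℝ, 0 < ε → ‖τ a - tr ξ (a : H →L[ℂ] H)‖ ≤ ε := by
      intro ε hε
      obtain ⟨N, g, hg⟩ := fdix H M h.tau h.fac h.isII1.trace a ha ε hε
      have e1 : τ (((N + 1 : ℂ))⁻¹ • ∑ k, (g k : M.toStarSubalgebra) * a *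
          star (g k : M.toStarSubalgebra) - algebraMap ℂ M.toStarSubalgebra (h.tau a)) =
          τ a - tr ξ (a : H →L[ℂ] H) := by
        rw [map_sub, map_smul, map_sum]
        have e2 : ∀ k, τ ((g k : M.toStarSubalgebra) * a * star (g k : M.toStarSubalgebra)) =
            τ a := by
          intro k
          rw [hcomm, ← mul_assoc, Unitary.coe_star_mul_self, one_mul]
        rw [Finset.sum_congr rfl fun k _ => e2 k, Finset.sum_const, Finset.card_univ,
          Fintype.card_fin, Algebra.algebraMap_eq_smul_one, map_smul, h1]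
        have hN : ((N : ℂ) + 1) ≠ 0 := by exact_mod_cast Nat.succ_ne_zero N
        rw [nsmul_eq_mul, smul_eq_mul, smul_eq_mul, mul_one]
        push_cast
        rw [inv_mul_cancel_left₀ hN]
        rfl
      rw [← e1]
      exact (hn _).trans hg
    have h0 : ‖τ a - tr ξ (a : H →L[ℂ] H)‖ ≤ 0 := le_of_forall_pos_le_add fun ε hε' => by
      rw [zero_add]
      exact hε ε hε'
    exact sub_eq_zero.mp (norm_le_zero_iff.mp h0)
  have hx : x = ((realPart x : M.toStarSubalgebra)) + Complex.I • (imaginaryPart x :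
      M.toStarSubalgebra) := (realPart_add_I_smul_imaginaryPart x).symm
  have k1 := hsa _ (realPart x).2
  have k2 := hsa _ (imaginaryPart x).2
  have k3 : h.tau x = h.tau (realPart x : M.toStarSubalgebra) +
      Complex.I • h.tau (imaginaryPart x : M.toStarSubalgebra) := by
    conv_lhs => rw [hx]
    rw [map_add, map_smul]
  have k4 : τ x = τ (realPart x : M.toStarSubalgebra) +
      Complex.I • τ (imaginaryPart x : M.toStarSubalgebra) := by
    conv_lhs => rw [hx]
    rw [map_add, map_smul]
  show τ x = h.tau x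
  rw [k3, k4, k1, k2]
  rfl

end Pool.Agent.H256.KS
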