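import Mathlib
import Pool.Agent.H256.KS.TrUn
import Pool.Agent.H256.KS.Cross2

set_option autoImplicit false
set_option linter.unusedSectionVars false

/-! A crossed product, represented on some Hilbert space. -/

open Filter Topology Set MeasureTheory
open scoped InnerProductSpace ComplexOrder ENNReal

namespace Pool.Agent.H256.KS

open Pool.Agent.TH254.CC
open H759R2.Kad hiding tr

theorem ext_vn {K : Type} [NormedAddCommGroup K] [InnerProductSpace ℂ K] [CompleteSpace K]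
    {M : VonNeumannAlgebra K} {x y : M.toStarSubalgebra} (h : (x : K →L[ℂ] K) = y) : x = y :=
  Subtype.ext h

theorem assem0 {K : Type} [NormedAddCommGroup K] [InnerProductSpace ℂ K] [CompleteSpace K]
    (M₀ : VonNeumannAlgebra K) (A₀ : Set (K →L[ℂ] K)) {Γ : Type} [Group Γ]
    (Λ : Γ → (K →L[ℂ] K)) (ζ : K) (hLm' : ∀ a ∈ A₀, a ∈ M₀) (hLstar : ∀ a ∈ A₀, star a ∈ A₀)
    (hLcomm : ∀ a ∈ A₀, ∀ b ∈ A₀, a * b = b * a)
    (hmasa : ∀ T ∈ M₀, (∀ a ∈ A₀, a * T = T * a) → T ∈ A₀) (hΛm : ∀ g, Λ g ∈ M₀)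
    (hΛst : ∀ g, star (Λ g) * Λ g = 1 ∧ Λ g * star (Λ g) = 1)
    (hΛmul : ∀ g h, Λ (g * h) = Λ g * Λ h) (hΛA : ∀ g, ∀ a ∈ A₀, Λ g * a * star (Λ g) ∈ A₀)
    (hζn : ‖ζ‖ = 1) (htr : ∀ x ∈ M₀, ∀ y ∈ M₀, ⟪ζ, (x * y) ζ⟫_ℂ = ⟪ζ, (y * x) ζ⟫_ℂ)
    (h0 : ∀ g, g ≠ 1 → ∀ a ∈ A₀, ⟪ζ, (a * Λ g) ζ⟫_ℂ = 0)
    (hdens : ∀ x ∈ M₀, x ζ ∈ (Submodule.span ℂ {w : K | ∃ a ∈ A₀, ∃ g,
      w = (a * Λ g) ζ}).topologicalClosure)
    {H : Type} [NormedAddCommGroup H] [InnerProductSpace ℂ H] [CompleteSpace H]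
    (M : VonNeumannAlgebra H) (ξ : ℕ → H) (hM : Fn M ξ)
    (Φ : M₀.toStarSubalgebra ≃⋆ₐ[ℂ] M.toStarSubalgebra) :
    ∃ (A : VonNeumannAlgebra H) (U : Γ → (H →L[ℂ] H)), (∀ a ∈ A, ∀ b ∈ A, a * b = b * a) ∧
      (∀ x ∈ A, x ∈ M) ∧ (∀ x ∈ M, (∀ c ∈ A, c * x = x * c) → x ∈ A) ∧
      (∀ g, U g ∈ M ∧ Un (U g)) ∧ (∀ g h, U (g * h) = U g * U h) ∧
      (∀ g, ∀ a ∈ A, U g * a * star (U g) ∈ A) ∧ (∀ g, g ≠ 1 → ∀ a ∈ A, tr ξ (a * U g) = 0) ∧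
      ∀ x ∈ M, ∀ ε : ℝ, 0 < ε → ∃ y ∈ Submodule.span ℂ {z | ∃ a ∈ A, ∃ g, z = a * U g},
        (tr ξ (star (x - y) * (x - y))).re ≤ ε := by
  -- the trace
  let τ : M.toStarSubalgebra →ₗ[ℂ] ℂ :=
    { toFun := fun x => ⟪ζ, ((Φ.symm x : M₀.toStarSubalgebra) : K →L[ℂ] K) ζ⟫_ℂ
      map_add' := fun x y => by
        rw [map_add]
        show ⟪ζ, ((Φ.symm x : M₀.toStarSubalgebra) : K →L[ℂ] K) ζ +
          ((Φ.symm y : M₀.toStarSubalgebra) : K →L[ℂ] K) ζ⟫_ℂ = _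
        rw [inner_add_right]
      map_smul' := fun c x => by
        rw [map_smul]
        show ⟪ζ, c • ((Φ.symm x : M₀.toStarSubalgebra) : K →L[ℂ] K) ζ⟫_ℂ = _
        rw [inner_smul_right]
        rfl }
  have hτ : ∀ x : M.toStarSubalgebra, ⟪ζ, ((Φ.symm x : M₀.toStarSubalgebra) :
      K →L[ℂ] K) ζ⟫_ℂ = tr ξ (x : H →L[ℂ] H) := by
    intro x
    refine tr_unique hM τ ?_ ?_ ?_ x
    · show ⟪ζ, ((Φ.symm 1 : M₀.toStarSubalgebra) : K →L[ℂ] K) ζ⟫_ℂ = 1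
      rw [map_one]
      show ⟪ζ, ζ⟫_ℂ = 1
      rw [inner_self_eq_norm_sq_to_K, hζn]
      norm_num
    · intro a b
      show ⟪ζ, ((Φ.symm (a * b) : M₀.toStarSubalgebra) : K →L[ℂ] K) ζ⟫_ℂ =
        ⟪ζ, ((Φ.symm (b * a) : M₀.toStarSubalgebra) : K →L[ℂ] K) ζ⟫_ℂ
      rw [map_mul, map_mul]
      exact htr _ (Φ.symm a).2 _ (Φ.symm b).2
    · intro a
      show ‖⟪ζ, ((Φ.symm a : M₀.toStarSubalgebra) : K →L[ℂ] K) ζ⟫_ℂ‖ ≤ ‖a‖
      have n1 : ‖Φ.symm a‖ ≤ ‖a‖ := NonUnitalStarAlgHom.norm_apply_le Φ.symm a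
      calc ‖⟪ζ, ((Φ.symm a : M₀.toStarSubalgebra) : K →L[ℂ] K) ζ⟫_ℂ‖
          ≤ ‖ζ‖ * ‖((Φ.symm a : M₀.toStarSubalgebra) : K →L[ℂ] K) ζ‖ :=
            norm_inner_le_norm _ _
        _ ≤ 1 * (‖((Φ.symm a : M₀.toStarSubalgebra) : K →L[ℂ] K)‖ * 1) := by
            have := ContinuousLinearMap.le_opNorm
              ((Φ.symm a : M₀.toStarSubalgebra) : K →L[ℂ] K) ζ
            rw [hζn] at this ⊢
            gcongr
        _ ≤ ‖a‖ := by rw [one_mul, mul_one]; exact n1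
  have hτ' : ∀ x : M₀.toStarSubalgebra, tr ξ ((Φ x : M.toStarSubalgebra) : H →L[ℂ] H) =
      ⟪ζ, (x : K →L[ℂ] K) ζ⟫_ℂ := by
    intro x
    rw [← hτ (Φ x), StarAlgEquiv.symm_apply_apply]
  -- images
  obtain ⟨SA, hSA⟩ : ∃ SA : Set (H →L[ℂ] H), SA = {y | ∃ a : M₀.toStarSubalgebra,
    (a : K →L[ℂ] K) ∈ A₀ ∧ y = ((Φ a : M.toStarSubalgebra) : H →L[ℂ] H)} :=
    ⟨_, rfl⟩
  have hSAstar : ∀ y ∈ SA, star y ∈ SA := by
    rw [hSA]
    rintro y ⟨a, ha, rfl⟩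
    refine ⟨star a, hLstar _ ha, ?_⟩
    rw [map_star]
    rfl
  obtain ⟨A, hAd⟩ : ∃ A : VonNeumannAlgebra H, A = cenV ((M.commutant : Set (H →L[ℂ] H)) ∪ SA) :=
    ⟨_, rfl⟩
  have hmA : ∀ x : H →L[ℂ] H, x ∈ A ↔ x ∈ SA := by
    intro x
    rw [hAd, mem_cenV (by
      rintro a (ha | ha)
      · exact Or.inl (star_mem (S := VonNeumannAlgebra H) ha)
      · exact Or.inr (hSAstar a ha))]
    constructor
    · intro hx
      have hxM : x ∈ M := mem_of_comm_commutant M fun t ht => hx t (Or.inl ht)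
      obtain ⟨x', hx'⟩ : ∃ x' : M.toStarSubalgebra, (x' : H →L[ℂ] H) = x := ⟨⟨x, hxM⟩, rfl⟩
      have h1 : ((Φ.symm x' : M₀.toStarSubalgebra) : K →L[ℂ] K) ∈
          A₀ := by
        refine hmasa _ (Φ.symm x').2 fun a ha => ?_
        obtain ⟨a', ha'⟩ : ∃ a' : M₀.toStarSubalgebra,
          (a' : K →L[ℂ] K) = a := ⟨⟨a, hLm' a ha⟩, rfl⟩
        have h2 := hx ((Φ a' : M.toStarSubalgebra) : H →L[ℂ] H) (Or.inr (by
          rw [hSA]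
          exact ⟨a', by rw [ha']; exact ha, rfl⟩))
        rw [← hx'] at h2
        have h3 : Φ a' * x' = x' * Φ a' := ext_vn h2
        have h4 := congrArg Φ.symm h3
        rw [map_mul, map_mul, StarAlgEquiv.symm_apply_apply] at h4
        rw [← ha']
        exact congrArg Subtype.val h4
      rw [hSA]
      refine ⟨Φ.symm x', h1, ?_⟩
      rw [StarAlgEquiv.apply_symm_apply, hx']
    · rw [hSA]
      rintro ⟨a, ha, rfl⟩ t (ht | ht)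
      · exact (VonNeumannAlgebra.mem_commutant_iff.mp ht _ (Φ a).2).symm
      · obtain ⟨b, hb, rfl⟩ := ht
        have h1 : b * a = a * b := ext_vn (hLcomm _ hb _ ha)
        have h2 := congrArg Φ h1
        rw [map_mul, map_mul] at h2
        exact congrArg Subtype.val h2
  have hAM : ∀ x ∈ A, x ∈ M := by
    intro x hx
    rw [hmA, hSA] at hx
    obtain ⟨a, -, rfl⟩ := hx
    exact (Φ a).2
  have hAc : ∀ a ∈ A, ∀ b ∈ A, a * b = b * a := by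
    intro x hx y hy
    rw [hmA, hSA] at hx hy
    obtain ⟨a, ha, rfl⟩ := hx
    obtain ⟨b, hb, rfl⟩ := hy
    have h1 : a * b = b * a := ext_vn (hLcomm _ ha _ hb)
    have h2 := congrArg Φ h1
    rw [map_mul, map_mul] at h2
    exact congrArg Subtype.val h2
  let Λ' : Γ → M₀.toStarSubalgebra := fun g => ⟨Λ g, hΛm g⟩
  refine ⟨A, fun g => ((Φ (Λ' g) : M.toStarSubalgebra) : H →L[ℂ] H), hAc, hAM, ?_, ?_, ?_, ?_, ?_,
    ?_⟩
  · intro x hx hxc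
    rw [hAd, mem_cenV (by
      rintro a (ha | ha)
      · exact Or.inl (star_mem (S := VonNeumannAlgebra H) ha)
      · exact Or.inr (hSAstar a ha))]
    rintro t (ht | ht)
    · exact (VonNeumannAlgebra.mem_commutant_iff.mp ht x hx).symm
    · exact hxc t ((hmA t).mpr ht)
  · intro g
    refine ⟨(Φ (Λ' g)).2, ?_, ?_⟩
    · have h1 : star (Λ' g) * Λ' g = 1 := ext_vn (hΛst g).1
      have h2 := congrArg Φ h1
      rw [map_mul, map_star, map_one] at h2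
      exact congrArg Subtype.val h2
    · have h1 : Λ' g * star (Λ' g) = 1 := ext_vn (hΛst g).2
      have h2 := congrArg Φ h1
      rw [map_mul, map_star, map_one] at h2
      exact congrArg Subtype.val h2
  · intro g h
    have h1 : Λ' (g * h) = Λ' g * Λ' h :=
      ext_vn (hΛmul g h)
    show ((Φ (Λ' (g * h)) : M.toStarSubalgebra) : H →L[ℂ] H) = _
    rw [h1, map_mul]
    rfl
  · intro g x hx
    rw [hmA, hSA] at hx ⊢
    obtain ⟨a, ha, rfl⟩ := hx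
    refine ⟨Λ' g * a * star (Λ' g), hΛA g _ ha, ?_⟩
    rw [map_mul, map_mul, map_star]
    rfl
  · intro g hg x hx
    rw [hmA, hSA] at hx
    obtain ⟨a, ha, rfl⟩ := hx
    have h1 : ((Φ a : M.toStarSubalgebra) : H →L[ℂ] H) *
        ((Φ (Λ' g) : M.toStarSubalgebra) : H →L[ℂ] H) =
        ((Φ (a * Λ' g) : M.toStarSubalgebra) : H →L[ℂ] H) := by
      rw [map_mul]
      rfl
    show tr ξ (((Φ a : M.toStarSubalgebra) : H →L[ℂ] H) *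
        ((Φ (Λ' g) : M.toStarSubalgebra) : H →L[ℂ] H)) = 0
    rw [h1, hτ']
    exact h0 g hg _ ha
  · intro x hx ε hε
    obtain ⟨x', hx'⟩ : ∃ x' : M.toStarSubalgebra, (x' : H →L[ℂ] H) = x := ⟨⟨x, hx⟩, rfl⟩
    have h1 := hdens ((Φ.symm x' : M₀.toStarSubalgebra) : K →L[ℂ] K) (Φ.symm x').2
    rw [← SetLike.mem_coe, Submodule.topologicalClosure_coe, Metric.mem_closure_iff] at h1
    obtain ⟨w, hw, hdw⟩ := h1 (Real.sqrt ε) (Real.sqrt_pos.mpr hε)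
    -- lift w
    have h2 : ∃ y : M₀.toStarSubalgebra, w = (y : K →L[ℂ] K) ζ ∧
        ((Φ y : M.toStarSubalgebra) : H →L[ℂ] H) ∈ Submodule.span ℂ {z | ∃ a ∈ A, ∃ g,
          z = a * ((Φ (Λ' g) : M.toStarSubalgebra) : H →L[ℂ] H)} := by
      refine Submodule.span_induction (p := fun w _ => ∃ y : M₀.toStarSubalgebra,
        w = (y : K →L[ℂ] K) ζ ∧
        ((Φ y : M.toStarSubalgebra) : H →L[ℂ] H) ∈ Submodule.span ℂ {z | ∃ a ∈ A, ∃ g,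
          z = a * ((Φ (Λ' g) : M.toStarSubalgebra) : H →L[ℂ] H)}) ?_ ?_ ?_ ?_ hw
      · rintro w ⟨a, ha, g, rfl⟩
        refine ⟨⟨a, hLm' a ha⟩ * Λ' g, ?_, ?_⟩
        · rfl
        · refine Submodule.subset_span ⟨((Φ ⟨a, hLm' a ha⟩ : M.toStarSubalgebra) : H →L[ℂ] H),
            ?_, g, ?_⟩
          · rw [hmA, hSA]
            exact ⟨⟨a, hLm' a ha⟩, ha, rfl⟩
          · rw [map_mul]
            rfl
      · refine ⟨0, rfl, ?_⟩
        rw [map_zero]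
        exact zero_mem _
      · rintro u v _ _ ⟨y, hy1, hy2⟩ ⟨z, hz1, hz2⟩
        refine ⟨y + z, ?_, ?_⟩
        · rw [hy1, hz1]
          rfl
        · rw [map_add]
          exact add_mem hy2 hz2
      · rintro c u _ ⟨y, hy1, hy2⟩
        refine ⟨c • y, ?_, ?_⟩
        · rw [hy1]
          rfl
        · rw [map_smul]
          exact Submodule.smul_mem _ c hy2
    obtain ⟨y, hy1, hy2⟩ := h2
    refine ⟨_, hy2, ?_⟩
    have e1 : star (x - ((Φ y : M.toStarSubalgebra) : H →L[ℂ] H)) *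
        (x - ((Φ y : M.toStarSubalgebra) : H →L[ℂ] H)) =
        ((Φ (star (Φ.symm x' - y) * (Φ.symm x' - y)) : M.toStarSubalgebra) : H →L[ℂ] H) := by
      rw [map_mul, map_star, map_sub, StarAlgEquiv.apply_symm_apply, ← hx']
      rfl
    rw [e1, hτ']
    have e2 : ⟪ζ, ((star (Φ.symm x' - y) * (Φ.symm x' - y) : M₀.toStarSubalgebra) :
        K →L[ℂ] K) ζ⟫_ℂ =
        ⟪((Φ.symm x' : M₀.toStarSubalgebra) : K →L[ℂ] K) ζ - w,
          ((Φ.symm x' : M₀.toStarSubalgebra) : K →L[ℂ] K) ζ - w⟫_ℂ := by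
      rw [hy1]
      have := ContinuousLinearMap.adjoint_inner_right
        (((Φ.symm x' : M₀.toStarSubalgebra) : K →L[ℂ] K) -
          (y : K →L[ℂ] K)) ζ ((((Φ.symm x' : M₀.toStarSubalgebra) :
            K →L[ℂ] K) - (y : K →L[ℂ] K)) ζ)
      exact this
    rw [e2, inner_self_eq_norm_sq_to_K]
    rw [dist_eq_norm] at hdw
    have e3 : (((‖((Φ.symm x' : M₀.toStarSubalgebra) : K →L[ℂ] K) ζ - w‖ : ℝ) :
        ℂ) ^ 2).re = ‖((Φ.symm x' : M₀.toStarSubalgebra) : K →L[ℂ] K) ζ - w‖ ^ 2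
        := by norm_cast
    have e4 : ‖((Φ.symm x' : M₀.toStarSubalgebra) : K →L[ℂ] K) ζ - w‖ ^ 2 ≤
        ε := by
      have h5 := Real.sq_sqrt hε.le
      have h6 := norm_nonneg (((Φ.symm x' : M₀.toStarSubalgebra) :
        K →L[ℂ] K) ζ - w)
      nlinarith [Real.sqrt_nonneg ε]
    exact e3 ▸ e4

theorem assem {X : Type} [MeasurableSpace X] (μ : Measure X) [IsProbabilityMeasure μ] (Γ : Type)
    [Group Γ] [MulAction Γ X] (hm : ∀ g : Γ, MeasurePreserving (fun x : X => g • x) μ μ)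
    (hmasa : ∀ T ∈ crossP μ Γ, (∀ a ∈ Linf μ Γ, a * T = T * a) → T ∈ Linf μ Γ)
    {H : Type} [NormedAddCommGroup H] [InnerProductSpace ℂ H] [CompleteSpace H]
    (M : VonNeumannAlgebra H) (ξ : ℕ → H) (hM : Fn M ξ)
    (Φ : (crossP μ Γ).toStarSubalgebra ≃⋆ₐ[ℂ] M.toStarSubalgebra) :
    ∃ (A : VonNeumannAlgebra H) (U : Γ → (H →L[ℂ] H)), (∀ a ∈ A, ∀ b ∈ A, a * b = b * a) ∧
      (∀ x ∈ A, x ∈ M) ∧ (∀ x ∈ M, (∀ c ∈ A, c * x = x * c) → x ∈ A) ∧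
      (∀ g, U g ∈ M ∧ Un (U g)) ∧ (∀ g h, U (g * h) = U g * U h) ∧
      (∀ g, ∀ a ∈ A, U g * a * star (U g) ∈ A) ∧ (∀ g, g ≠ 1 → ∀ a ∈ A, tr ξ (a * U g) = 0) ∧
      ∀ x ∈ M, ∀ ε : ℝ, 0 < ε → ∃ y ∈ Submodule.span ℂ {z | ∃ a ∈ A, ∃ g, z = a * U g},
        (tr ξ (star (x - y) * (x - y))).re ≤ ε := by
  have hm' : ∀ g : Γ, Measurable fun x : X => g • x := fun g => (hm g).measurable
  obtain ⟨ζ, hζ1, hζ2⟩ := exists_unitVec μ Γ
  obtain ⟨hζn, htr⟩ := cross_tr μ Γ hm hζ1 hζ2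
  have hdens := cross_dens μ Γ hm hζ1 hζ2
  obtain ⟨hLm, hSm⟩ := mem_cross μ Γ
  choose Λ hΛ using exists_shift μ Γ
  refine assem0 (crossP μ Γ) (Linf μ Γ) Λ ζ (fun a ha => hLm a ha hm') (Linf_star μ Γ hm')
    (Linf_comm μ Γ) hmasa (fun g => hSm _ ⟨g, hΛ g⟩ hm') (fun g => (shift_star μ Γ (hΛ g)).2)
    (fun g h => shift_unique μ Γ (hΛ (g * h)) (shift_mul μ Γ (hΛ g) (hΛ h)))
    (fun g => Linf_conj μ Γ hm' (hΛ g)) hζn htr ?_ ?_ M ξ hM Φ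
  · intro g hg a ha
    show ⟪ζ, a (Λ g ζ)⟫_ℂ = 0
    rw [lp.inner_eq_tsum]
    refine (tsum_congr fun h => ?_).trans tsum_zero
    by_cases hh : h = 1
    · subst hh
      obtain ⟨f, -, -, hf⟩ := ha
      have e1 := hf (Λ g ζ) 1
      have e2 : (Λ g ζ : ∀ _ : Γ, Lp ℂ 2 μ) 1 = 0 := by
        rw [hΛ g ζ 1, mul_one]
        exact hζ2 _ (inv_ne_one.mpr hg)
      have e3 : ((a (Λ g ζ) : ∀ _ : Γ, Lp ℂ 2 μ) 1) = 0 := by
        rw [Lp.eq_zero_iff_ae_eq_zero]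
        refine e1.trans ?_
        rw [e2]
        filter_upwards [Lp.coeFn_zero ℂ 2 μ] with x hx
        rw [hx]
        simp
      rw [e3, inner_zero_right]
    · rw [hζ2 h hh, inner_zero_left]
  · intro x _
    refine Submodule.topologicalClosure_mono (Submodule.span_mono ?_) (hdens (x ζ))
    rintro w ⟨a, ha, T, ⟨g, hT⟩, rfl⟩
    exact ⟨a, ha, g, by rw [shift_unique μ Γ hT (hΛ g)]⟩

end Pool.Agent.H256.KS
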