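import Mathlib
import Pool.Agent.H256.KS.Assem

set_option autoImplicit false
set_option linter.unusedSectionVars false

/-! The crossed product in an arbitrary model of `ℓ²(Γ, L²(X, μ))`. -/

open Filter Topology Set MeasureTheory
open scoped InnerProductSpace ComplexOrder ENNReal

namespace Pool.Agent.H256.KS

open Pool.Agent.TH254.CC
open H759R2.Kad hiding tr

/-- two total families with the same Gram matrix are unitarily equivalent -/
theorem gram_unitary {ι K₁ K₂ : Type} [NormedAddCommGroup K₁] [InnerProductSpace ℂ K₁]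
    [CompleteSpace K₁] [NormedAddCommGroup K₂] [InnerProductSpace ℂ K₂] [CompleteSpace K₂]
    (e₁ : ι → K₁) (e₂ : ι → K₂) (hg : ∀ i j, ⟪e₁ i, e₁ j⟫_ℂ = ⟪e₂ i, e₂ j⟫_ℂ)
    (h1 : ∀ v : K₁, (∀ i, ⟪e₁ i, v⟫_ℂ = 0) → v = 0)
    (h2 : ∀ v : K₂, (∀ i, ⟪e₂ i, v⟫_ℂ = 0) → v = 0) :
    ∃ W : K₁ ≃ₗᵢ[ℂ] K₂, ∀ i, W (e₁ i) = e₂ i := by
  have dens : ∀ {K : Type} [NormedAddCommGroup K] [InnerProductSpace ℂ K] [CompleteSpace K]
      (e : ι → K), (∀ v : K, (∀ i, ⟪e i, v⟫_ℂ = 0) → v = 0) →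
      DenseRange (Finsupp.linearCombination ℂ e) := by
    intro K _ _ _ e h
    have k1 : (Submodule.span ℂ (Set.range e)).topologicalClosure = ⊤ := by
      rw [Submodule.topologicalClosure_eq_top_iff, Submodule.eq_bot_iff]
      intro v hv
      refine h v fun i => ?_
      exact (Submodule.mem_orthogonal _ v).mp hv (e i) (Submodule.subset_span ⟨i, rfl⟩)
    have k2 : Set.range (Finsupp.linearCombination ℂ e) =
        (Submodule.span ℂ (Set.range e) : Set K) := by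
      rw [← Finsupp.range_linearCombination]
      rfl
    rw [DenseRange, k2, dense_iff_closure_eq, ← Submodule.topologicalClosure_coe, k1]
    rfl
  have hin : ∀ x y : ι →₀ ℂ, ⟪Finsupp.linearCombination ℂ e₁ x, Finsupp.linearCombination ℂ e₁ y⟫_ℂ
      = ⟪Finsupp.linearCombination ℂ e₂ x, Finsupp.linearCombination ℂ e₂ y⟫_ℂ := by
    intro x y
    rw [Finsupp.linearCombination_apply, Finsupp.linearCombination_apply,
      Finsupp.linearCombination_apply, Finsupp.linearCombination_apply]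
    simp only [Finsupp.sum, sum_inner, inner_sum, inner_smul_left, inner_smul_right, hg]
  have hn : ∀ x : ι →₀ ℂ, ‖Finsupp.linearCombination ℂ e₂ ((LinearEquiv.refl ℂ (ι →₀ ℂ)) x)‖ =
      ‖Finsupp.linearCombination ℂ e₁ x‖ := by
    intro x
    rw [LinearEquiv.refl_apply]
    have h3 := hin x x
    rw [inner_self_eq_norm_sq_to_K, inner_self_eq_norm_sq_to_K] at h3
    have h4 : ‖Finsupp.linearCombination ℂ e₁ x‖ ^ 2 =
        ‖Finsupp.linearCombination ℂ e₂ x‖ ^ 2 := by exact_mod_cast h3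
    exact ((pow_left_inj₀ (norm_nonneg _) (norm_nonneg _) (by norm_num)).mp h4).symm
  refine ⟨(LinearEquiv.refl ℂ (ι →₀ ℂ)).extendOfIsometry _ _ (dens e₁ h1) (dens e₂ h2) hn,
    fun i => ?_⟩
  have h3 := LinearEquiv.extendOfIsometry_eq (LinearEquiv.refl ℂ (ι →₀ ℂ)) _ _ (dens e₁ h1)
    (dens e₂ h2) hn (Finsupp.single i 1)
  rwa [LinearEquiv.refl_apply, Finsupp.linearCombination_single, Finsupp.linearCombination_single,
    one_smul, one_smul] at h3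

variable {X : Type} [MeasurableSpace X] {μ : Measure X} {Γ : Type}

/-- the model vectors `δ_h ⊗ f` -/
noncomputable def e0 (μ : Measure X) {Γ : Type} [DecidableEq Γ] (h : Γ) (f : X → ℂ)
    (hf : MemLp f 2 μ) : Kr μ Γ := lp.single 2 h (hf.toLp f)

theorem e0_inner_same [DecidableEq Γ] (h : Γ) {f₁ f₂ : X → ℂ} (h₁ : MemLp f₁ 2 μ)
    (h₂ : MemLp f₂ 2 μ) : ⟪e0 μ h f₁ h₁, e0 μ h f₂ h₂⟫_ℂ = ∫ x, star (f₁ x) * f₂ x ∂μ := by
  rw [e0, e0, lp.inner_single_left, lp.single_apply_self, L2.inner_def]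
  refine integral_congr_ae ?_
  filter_upwards [h₁.coeFn_toLp, h₂.coeFn_toLp] with x k1 k2
  rw [k1, k2, RCLike.inner_apply, mul_comm]
  rfl

theorem e0_inner_ne [DecidableEq Γ] {g h : Γ} (hgh : g ≠ h) {f₁ f₂ : X → ℂ}
    (h₁ : MemLp f₁ 2 μ) (h₂ : MemLp f₂ 2 μ) : ⟪e0 μ g f₁ h₁, e0 μ h f₂ h₂⟫_ℂ = 0 := by
  rw [e0, e0, lp.inner_single_left, lp.single_apply_ne _ _ _ hgh, inner_zero_right]

theorem e0_total [DecidableEq Γ] (v : Kr μ Γ)
    (hv : ∀ (h : Γ) (f : X → ℂ) (hf : MemLp f 2 μ), ⟪e0 μ h f hf, v⟫_ℂ = 0) : v = 0 := by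
  apply lp.ext
  funext k
  have h1 := hv k _ (Lp.memLp ((v : ∀ _ : Γ, Lp ℂ 2 μ) k))
  rw [e0, Lp.toLp_coeFn, lp.inner_single_left, inner_self_eq_zero] at h1
  rw [h1]
  rfl

section transport

variable {K : Type} [NormedAddCommGroup K] [InnerProductSpace ℂ K] [CompleteSpace K]

theorem exists_W [DecidableEq Γ] (e : Γ → (X → ℂ) → K)
    (hs : ∀ (h : Γ) (f₁ f₂ : X → ℂ), MemLp f₁ 2 μ → MemLp f₂ 2 μ →
      ⟪e h f₁, e h f₂⟫_ℂ = ∫ x, star (f₁ x) * f₂ x ∂μ)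
    (hne : ∀ (g h : Γ) (f₁ f₂ : X → ℂ), g ≠ h → MemLp f₁ 2 μ → MemLp f₂ 2 μ →
      ⟪e g f₁, e h f₂⟫_ℂ = 0)
    (ht : ∀ v : K, (∀ (h : Γ) (f : X → ℂ), MemLp f 2 μ → ⟪e h f, v⟫_ℂ = 0) → v = 0) :
    ∃ W : K ≃ₗᵢ[ℂ] Kr μ Γ, ∀ (h : Γ) (f : X → ℂ) (hf : MemLp f 2 μ), W (e h f) = e0 μ h f hf := by
  obtain ⟨W, hW⟩ := gram_unitary (ι := Γ × {f : X → ℂ // MemLp f 2 μ})
    (fun i => e i.1 i.2.1) (fun i => e0 μ i.1 i.2.1 i.2.2) (by
      intro i j
      show ⟪e i.1 i.2.1, e j.1 j.2.1⟫_ℂ = ⟪e0 μ i.1 i.2.1 i.2.2, e0 μ j.1 j.2.1 j.2.2⟫_ℂ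
      by_cases hij : i.1 = j.1
      · rw [← hij, hs _ _ _ i.2.2 j.2.2, e0_inner_same]
      · rw [hne _ _ _ _ hij i.2.2 j.2.2, e0_inner_ne hij])
    (fun v hv => ht v fun h f hf => hv (h, ⟨f, hf⟩))
    (fun v hv => e0_total v fun h f hf => hv (h, ⟨f, hf⟩))
  exact ⟨W, fun h f hf => hW (h, ⟨f, hf⟩)⟩

/-- an operator is determined by its values on the model vectors -/
theorem model_ext [DecidableEq Γ] {S T : Kr μ Γ →L[ℂ] Kr μ Γ}
    (h : ∀ (k : Γ) (f : X → ℂ) (hf : MemLp f 2 μ), S (e0 μ k f hf) = T (e0 μ k f hf)) : S = T := by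
  have h1 : ∀ w : Kr μ Γ, star (S - T) w = 0 := by
    intro w
    refine e0_total _ fun k f hf => ?_
    have := ContinuousLinearMap.adjoint_inner_right (S - T) (e0 μ k f hf) w
    rw [ContinuousLinearMap.star_eq_adjoint, this, sub_apply, h, sub_self,
      inner_zero_left]
  have h2 : star (S - T) = 0 := by
    ext1 w
    exact h1 w
  have h3 : S - T = 0 := by
    rw [← star_star (S - T), h2, star_zero]
  exact sub_eq_zero.mp h3

variable [Group Γ] [MulAction Γ X]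

/-- multiplication operators on the model vectors -/
theorem isMul_e0 [DecidableEq Γ] (hm : ∀ g : Γ, Measurable fun x : X => g • x)
    {F : X → ℂ} (hF : Measurable F) {C : ℝ} (hC : ∀ x, ‖F x‖ ≤ C) {T : Kr μ Γ →L[ℂ] Kr μ Γ}
    (hT : IsMul μ F T) (h : Γ) (f : X → ℂ) (hf : MemLp f 2 μ) :
    ∃ hf' : MemLp (fun x => F (h • x) * f x) 2 μ,
      T (e0 μ h f hf) = e0 μ h (fun x => F (h • x) * f x) hf' := by
  have hf' : MemLp (fun x => F (h • x) * f x) 2 μ := by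
    refine hf.of_le_mul (c := C) ((hF.comp (hm h)).aestronglyMeasurable.mul
      hf.aestronglyMeasurable) ?_
    refine Filter.Eventually.of_forall fun x => ?_
    rw [norm_mul]
    exact mul_le_mul_of_nonneg_right (hC _) (norm_nonneg _)
  refine ⟨hf', ?_⟩
  apply cr_ext
  intro k
  apply Lp.ext
  refine (hT (e0 μ h f hf) k).trans ?_
  by_cases hk : k = h
  · subst hk
    rw [e0, e0, lp.single_apply_self, lp.single_apply_self]
    filter_upwards [hf.coeFn_toLp, hf'.coeFn_toLp] with x k1 k2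
    rw [k1, k2]
  · rw [e0, e0, lp.single_apply_ne _ _ _ hk, lp.single_apply_ne _ _ _ hk]
    filter_upwards [Lp.coeFn_zero ℂ 2 μ] with x hx
    rw [hx]
    simp

/-- translations on the model vectors -/
theorem isShift_e0 [DecidableEq Γ] {g : Γ} {T : Kr μ Γ →L[ℂ] Kr μ Γ} (hT : IsShift μ g T) (h : Γ)
    (f : X → ℂ) (hf : MemLp f 2 μ) : T (e0 μ h f hf) = e0 μ (g * h) f hf := by
  apply cr_ext
  intro k
  rw [hT]
  by_cases hk : k = g * h
  · subst hk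
    rw [inv_mul_cancel_left, e0, e0, lp.single_apply_self, lp.single_apply_self]
  · have hk' : g⁻¹ * k ≠ h := fun h1 => hk (by rw [← h1, mul_inv_cancel_left])
    rw [e0, e0, lp.single_apply_ne _ _ _ hk, lp.single_apply_ne _ _ _ hk']

/-- `⟪ζ, a λ_g ζ⟫ = 0` for `g ≠ 1` -/
theorem cross_zero {ζ : Kr μ Γ}
    (hζ' : ∀ h : Γ, h ≠ 1 → (ζ : ∀ _ : Γ, Lp ℂ 2 μ) h = 0) {T : Kr μ Γ →L[ℂ] Kr μ Γ} {g : Γ}
    (hT : IsShift μ g T) (hg : g ≠ 1) {a : Kr μ Γ →L[ℂ] Kr μ Γ} (ha : a ∈ Linf μ Γ) :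
    ⟪ζ, (a * T) ζ⟫_ℂ = 0 := by
  show ⟪ζ, a (T ζ)⟫_ℂ = 0
  rw [lp.inner_eq_tsum]
  refine (tsum_congr fun h => ?_).trans tsum_zero
  by_cases hh : h = 1
  · subst hh
    obtain ⟨f, -, -, hf⟩ := ha
    have e1 := hf (T ζ) 1
    have e2 : (T ζ : ∀ _ : Γ, Lp ℂ 2 μ) 1 = 0 := by
      rw [hT ζ 1, mul_one]
      exact hζ' _ (inv_ne_one.mpr hg)
    have e3 : ((a (T ζ) : ∀ _ : Γ, Lp ℂ 2 μ) 1) = 0 := by
      rw [Lp.eq_zero_iff_ae_eq_zero]
      refine e1.trans ?_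
      rw [e2]
      filter_upwards [Lp.coeFn_zero ℂ 2 μ] with x hx
      rw [hx]
      simp
    rw [e3, inner_zero_right]
  · rw [hζ' h hh, inner_zero_left]

theorem model_assem [IsProbabilityMeasure μ]
    (hm : ∀ g : Γ, MeasurePreserving (fun x : X => g • x) μ μ) (e : Γ → (X → ℂ) → K)
    (hs : ∀ (h : Γ) (f₁ f₂ : X → ℂ), MemLp f₁ 2 μ → MemLp f₂ 2 μ →
      ⟪e h f₁, e h f₂⟫_ℂ = ∫ x, star (f₁ x) * f₂ x ∂μ)
    (hne : ∀ (g h : Γ) (f₁ f₂ : X → ℂ), g ≠ h → MemLp f₁ 2 μ → MemLp f₂ 2 μ →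
      ⟪e g f₁, e h f₂⟫_ℂ = 0)
    (ht : ∀ v : K, (∀ (h : Γ) (f : X → ℂ), MemLp f 2 μ → ⟪e h f, v⟫_ℂ = 0) → v = 0)
    (L S : Set (K →L[ℂ] K))
    (hL : ∀ T, T ∈ L ↔ ∃ F : X → ℂ, Measurable F ∧ (∃ C : ℝ, ∀ x, ‖F x‖ ≤ C) ∧
      ∀ (h : Γ) (f : X → ℂ), MemLp f 2 μ → T (e h f) = e h (fun x => F (h • x) * f x))
    (hS : ∀ T, T ∈ S ↔ ∃ g : Γ, ∀ (h : Γ) (f : X → ℂ), MemLp f 2 μ → T (e h f) = e (g * h) f)
    (M₀ : VonNeumannAlgebra K) (hM1 : ∀ T ∈ L ∪ S, T ∈ M₀)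
    (hM2 : ∀ M' : VonNeumannAlgebra K, (∀ T ∈ L ∪ S, T ∈ M') → ∀ x ∈ M₀, x ∈ M')
    (hmasa : ∀ T ∈ M₀, (∀ a ∈ L, a * T = T * a) → T ∈ L)
    {H : Type} [NormedAddCommGroup H] [InnerProductSpace ℂ H] [CompleteSpace H]
    (M : VonNeumannAlgebra H) (ξ : ℕ → H) (hM : Fn M ξ)
    (Φ : M₀.toStarSubalgebra ≃⋆ₐ[ℂ] M.toStarSubalgebra) :
    ∃ (A : VonNeumannAlgebra H) (U : Γ → (H →L[ℂ] H)), (∀ a ∈ A, ∀ b ∈ A, a * b = b * a) ∧
      (∀ x ∈ A, x ∈ M) ∧ (∀ x ∈ M, (∀ c ∈ A, c * x = x * c) → x ∈ A) ∧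
      (∀ g, U g ∈ M ∧ Un (U g)) ∧ (∀ g h, U (g * h) = U g * U h) ∧
      (∀ g, ∀ a ∈ A, U g * a * star (U g) ∈ A) ∧ (∀ g, g ≠ 1 → ∀ a ∈ A, tr ξ (a * U g) = 0) ∧
      ∀ x ∈ M, ∀ ε : ℝ, 0 < ε → ∃ y ∈ Submodule.span ℂ {z | ∃ a ∈ A, ∃ g, z = a * U g},
        (tr ξ (star (x - y) * (x - y))).re ≤ ε := by
  classical
  have hm' : ∀ g : Γ, Measurable fun x : X => g • x := fun g => (hm g).measurable
  obtain ⟨W, hW⟩ := exists_W e hs hne ht
  have hWs : ∀ (h : Γ) (f : X → ℂ) (hf : MemLp f 2 μ), W.symm (e0 μ h f hf) = e h f := by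
    intro h f hf
    rw [← hW h f hf, LinearIsometryEquiv.symm_apply_apply]
  obtain ⟨C, hC⟩ : ∃ C : (K →L[ℂ] K) ≃⋆ₐ[ℂ] (Kr μ Γ →L[ℂ] Kr μ Γ), C = W.conjStarAlgEquiv :=
    ⟨_, rfl⟩
  have hCa : ∀ (T : K →L[ℂ] K) (v : Kr μ Γ), C T v = W (T (W.symm v)) := by
    intro T v
    rw [hC]
    rfl
  have hCi : ∀ {S T : K →L[ℂ] K}, C S = C T → S = T := fun h => C.injective h
  -- the two sets
  have hL' : ∀ T, T ∈ L ↔ C T ∈ Linf μ Γ := by
    intro T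
    rw [hL]
    constructor
    · rintro ⟨F, hF, ⟨B, hB⟩, hT⟩
      obtain ⟨T', hT'⟩ := exists_mul μ Γ hm' F hF ⟨B, hB⟩
      have h1 : C T = T' := by
        refine model_ext fun k f hf => ?_
        obtain ⟨hf', h2⟩ := isMul_e0 hm' hF hB hT' k f hf
        rw [h2, hCa, hWs, hT k f hf, hW]
      rw [h1]
      exact ⟨F, hF, ⟨B, hB⟩, hT'⟩
    · rintro ⟨F, hF, ⟨B, hB⟩, hT⟩
      refine ⟨F, hF, ⟨B, hB⟩, fun h f hf => ?_⟩
      obtain ⟨hf', h2⟩ := isMul_e0 hm' hF hB hT h f hf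
      rw [hCa, hWs] at h2
      apply W.injective
      rw [h2, hW]
  have hS' : ∀ T, T ∈ S ↔ C T ∈ Shifts μ Γ := by
    intro T
    rw [hS]
    constructor
    · rintro ⟨g, hT⟩
      obtain ⟨T', hT'⟩ := exists_shift μ Γ g
      have h1 : C T = T' := by
        refine model_ext fun k f hf => ?_
        rw [isShift_e0 hT' k f hf, hCa, hWs, hT k f hf, hW]
      rw [h1]
      exact ⟨g, hT'⟩
    · rintro ⟨g, hT⟩
      refine ⟨g, fun h f hf => ?_⟩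
      have h2 := isShift_e0 hT h f hf
      rw [hCa, hWs] at h2
      apply W.injective
      rw [h2, hW]
  obtain ⟨hLm, hSm⟩ := mem_cross μ Γ
  have hM₀ : ∀ x ∈ M₀, C x ∈ crossP μ Γ := by
    intro x hx
    obtain ⟨P, hP⟩ : ∃ P : Set (K →L[ℂ] K), P = {y | C y ∈ (crossP μ Γ).commutant} := ⟨_, rfl⟩
    have hPs : ∀ a ∈ P, star a ∈ P := by
      intro a ha
      rw [hP] at ha ⊢
      show C (star a) ∈ (crossP μ Γ).commutant
      rw [map_star]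
      exact star_mem (S := VonNeumannAlgebra _) ha
    have h1 : x ∈ cenV P := by
      refine hM2 _ (fun T hT => ?_) x hx
      rw [mem_cenV hPs]
      intro y hy
      rw [hP] at hy
      have h2 : C T ∈ crossP μ Γ := by
        rcases hT with hT | hT
        · exact hLm _ ((hL' T).mp hT) hm'
        · exact hSm _ ((hS' T).mp hT) hm'
      apply hCi
      rw [map_mul, map_mul]
      exact (VonNeumannAlgebra.mem_commutant_iff.mp hy _ h2).symm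
    rw [mem_cenV hPs] at h1
    refine mem_of_comm_commutant _ fun t ht => ?_
    have h3 := h1 (C.symm t) (by
      rw [hP]
      show C (C.symm t) ∈ (crossP μ Γ).commutant
      rw [StarAlgEquiv.apply_symm_apply]
      exact ht)
    have h4 := congrArg C h3
    rwa [map_mul, map_mul, StarAlgEquiv.apply_symm_apply] at h4
  obtain ⟨ζ₀, hζ1, hζ2⟩ := exists_unitVec μ Γ
  obtain ⟨hζn, htr⟩ := cross_tr μ Γ hm hζ1 hζ2
  have hdens := cross_dens μ Γ hm hζ1 hζ2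
  choose Λ₀ hΛ₀ using exists_shift μ Γ
  have hCΛ : ∀ g, C (C.symm (Λ₀ g)) = Λ₀ g := fun g => StarAlgEquiv.apply_symm_apply C _
  have hin : ∀ x : K →L[ℂ] K, ⟪W.symm ζ₀, x (W.symm ζ₀)⟫_ℂ = ⟪ζ₀, C x ζ₀⟫_ℂ := by
    intro x
    rw [hCa, ← LinearIsometryEquiv.inner_map_map W, LinearIsometryEquiv.apply_symm_apply]
  refine assem0 M₀ L (fun g => C.symm (Λ₀ g)) (W.symm ζ₀) (fun a ha => hM1 a (Or.inl ha)) ?_ ?_
    hmasa ?_ ?_ ?_ ?_ ?_ ?_ ?_ ?_ M ξ hM Φ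
  · intro a ha
    rw [hL'] at ha ⊢
    rw [map_star]
    exact Linf_star μ Γ hm' _ ha
  · intro a ha b hb
    rw [hL'] at ha hb
    apply hCi
    rw [map_mul, map_mul]
    exact Linf_comm μ Γ _ ha _ hb
  · intro g
    refine hM1 _ (Or.inr ?_)
    rw [hS', hCΛ]
    exact ⟨g, hΛ₀ g⟩
  · intro g
    have := (shift_star μ Γ (hΛ₀ g)).2
    constructor
    · apply hCi
      rw [map_mul, map_star, hCΛ, map_one]
      exact this.1
    · apply hCi
      rw [map_mul, map_star, hCΛ, map_one]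
      exact this.2
  · intro g h
    apply hCi
    rw [map_mul, hCΛ, hCΛ, hCΛ]
    exact shift_unique μ Γ (hΛ₀ (g * h)) (shift_mul μ Γ (hΛ₀ g) (hΛ₀ h))
  · intro g a ha
    rw [hL'] at ha ⊢
    rw [map_mul, map_mul, map_star, hCΛ]
    exact Linf_conj μ Γ hm' (hΛ₀ g) _ ha
  · rw [LinearIsometryEquiv.norm_map]
    exact hζn
  · intro x hx y hy
    rw [hin, hin, map_mul, map_mul]
    exact htr _ (hM₀ x hx) _ (hM₀ y hy)
  · intro g hg a ha
    rw [hL'] at ha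
    rw [hin, map_mul, hCΛ]
    exact cross_zero hζ2 (hΛ₀ g) hg ha
  · intro x hx
    rw [← SetLike.mem_coe, Submodule.topologicalClosure_coe, Metric.mem_closure_iff]
    intro ε hε
    have h1 := hdens (C x ζ₀)
    rw [← SetLike.mem_coe, Submodule.topologicalClosure_coe, Metric.mem_closure_iff] at h1
    obtain ⟨w, hw, hdw⟩ := h1 ε hε
    refine ⟨W.symm w, ?_, ?_⟩
    · refine Submodule.span_induction (p := fun w _ => W.symm w ∈ (Submodule.span ℂ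
        {w : K | ∃ a ∈ L, ∃ g, w = (a * C.symm (Λ₀ g)) (W.symm ζ₀)} : Submodule ℂ K))
        ?_ ?_ ?_ ?_ hw
      · rintro w ⟨a, ha, T, ⟨g, hT⟩, rfl⟩
        refine Submodule.subset_span ⟨C.symm a, ?_, g, ?_⟩
        · rw [hL', StarAlgEquiv.apply_symm_apply]
          exact ha
        · apply W.injective
          rw [LinearIsometryEquiv.apply_symm_apply, ← hCa, map_mul, hCΛ,
            StarAlgEquiv.apply_symm_apply, shift_unique μ Γ hT (hΛ₀ g)]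
      · rw [map_zero]
        exact zero_mem _
      · intro u v _ _ hu hv
        rw [map_add]
        exact add_mem hu hv
      · intro c u _ hu
        rw [map_smul]
        exact Submodule.smul_mem _ c hu
    · have h2 : C x ζ₀ = W (x (W.symm ζ₀)) := hCa x ζ₀
      rw [h2] at hdw
      rw [← W.dist_map, LinearIsometryEquiv.apply_symm_apply]
      exact hdw

end transport

end Pool.Agent.H256.KS
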